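import Pool.Agent.Lib_helper98.WS.Defs
import Pool.Agent.Lib_helper98.WAF.B4
import Pool.Agent.Lib_helper98.WAF.B5a

/-! # WS, block G1 (GML): Mellin transform and tail of `gd` -/

namespace Pool.Agent.WS

open Complex MeasureTheory Filter Topology
open scoped MatrixGroups ENNReal
open Pool.Agent.GL2 (qs HData FD)
open Pool.Agent.WA (CForm pn geo Lf gd gk omk om Fam rho PsiB)
open Pool.Agent.SEL (NL Adm)

theorem G1_img : Real.exp '' Set.univ = Set.Ioi 0 := by
  rw [Set.image_univ, Real.range_exp]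

theorem G1_der : ∀ x ∈ (Set.univ : Set ℝ), HasDerivWithinAt Real.exp (Real.exp x) Set.univ x :=
  fun x _ => (Real.hasDerivAt_exp x).hasDerivWithinAt

theorem G1_int {k n : ℕ} (hn : 1 ≤ n) {x : ℝ} (hx : -((k : ℝ) / 2) < x) :
    Integrable (fun u : ℝ => gd k n u * Real.exp (x * u)) := by
  have hn' : (0 : ℝ) < n := by exact_mod_cast hn
  have h1 := integrableOn_rpow_mul_exp_neg_mul_rpow (p := 1) (s := (k : ℝ) / 2 + x - 1)
    (b := 2 * Real.pi * n) (by linarith) one_pos (by positivity)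
  rw [← G1_img, integrableOn_image_iff_integrableOn_abs_deriv_smul MeasurableSet.univ G1_der
    Real.exp_injective.injOn, integrableOn_univ] at h1
  refine h1.congr (Eventually.of_forall fun u => ?_)
  simp only [smul_eq_mul]
  rw [abs_of_pos (Real.exp_pos u), Real.rpow_one, ← Real.exp_mul, ← Real.exp_add,
    ← Real.exp_add]
  unfold gd
  rw [← Real.exp_add]
  congr 1
  ring

theorem gd_mellin {k n : ℕ} (hk : 1 ≤ k) (hn : 1 ≤ n) {z : ℂ} (hz : -((k : ℝ) / 2) < z.re) :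
    Integrable (fun u : ℝ => (gd k n u : ℂ) * cexp (z * u)) ∧
    ∫ u : ℝ, (gd k n u : ℂ) * cexp (z * u) =
      Gamma ((k : ℂ) / 2 + z) * ((2 * Real.pi * n : ℝ) : ℂ) ^ (-((k : ℂ) / 2 + z)) := by
  have hk' : (0 : ℝ) < k := by exact_mod_cast hk
  have hn' : (0 : ℝ) < n := by exact_mod_cast hn
  have hcont : Continuous fun u : ℝ => (gd k n u : ℂ) * cexp (z * u) := by
    have := WA.B5a_gd_cont k n
    fun_prop
  constructor
  · rw [← integrable_norm_iff hcont.aestronglyMeasurable]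
    refine (G1_int hn hz).congr (Eventually.of_forall fun u => ?_)
    simp only [norm_mul]
    rw [Complex.norm_real, Real.norm_of_nonneg (WA.B5a_gd_pos k n u).le, Complex.norm_exp]
    congr 2
    simp
  · have hre : 0 < ((k : ℂ) / 2 + z).re := by
      simp
      linarith
    have hr : (0 : ℝ) < 2 * Real.pi * n := by positivity
    have h1 := Complex.integral_cpow_mul_exp_neg_mul_Ioi (a := (k : ℂ) / 2 + z)
      (r := 2 * Real.pi * n) hre hr
    rw [← G1_img, integral_image_eq_integral_abs_deriv_smul MeasurableSet.univ G1_der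
      Real.exp_injective.injOn, setIntegral_univ] at h1
    have h2 : (fun x : ℝ => |Real.exp x| • (((Real.exp x : ℝ) : ℂ) ^ ((k : ℂ) / 2 + z - 1) *
        cexp (-(((2 * Real.pi * n : ℝ) : ℂ) * ((Real.exp x : ℝ) : ℂ))))) =
        fun u : ℝ => (gd k n u : ℂ) * cexp (z * u) := by
      funext x
      rw [abs_of_pos (Real.exp_pos x)]
      have e1 : ((Real.exp x : ℝ) : ℂ) ^ ((k : ℂ) / 2 + z - 1) =
          cexp (x * ((k : ℂ) / 2 + z - 1)) := by
        rw [Complex.cpow_def_of_ne_zero (by exact_mod_cast (Real.exp_pos x).ne'),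
          ← Complex.ofReal_log (Real.exp_pos x).le, Real.log_exp]
      rw [e1, Complex.real_smul, Complex.ofReal_exp]
      unfold gd
      rw [Complex.ofReal_exp, ← Complex.exp_add, ← Complex.exp_add, ← Complex.exp_add]
      congr 1
      push_cast
      ring
    rw [h2] at h1
    rw [h1]
    have h3 : ((1 : ℂ) / ((2 * Real.pi * n : ℝ) : ℂ)) ^ ((k : ℂ) / 2 + z) =
        ((2 * Real.pi * n : ℝ) : ℂ) ^ (-((k : ℂ) / 2 + z)) := by
      rw [Complex.cpow_neg, one_div, Complex.inv_cpow]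
      rw [Complex.arg_ofReal_of_nonneg hr.le]
      exact Real.pi_pos.ne
    rw [h3, mul_comm]

theorem G1_norm_gamma {s : ℂ} (hs : 0 < s.re) : ‖Gamma s‖ ≤ Real.Gamma s.re := by
  rw [Complex.Gamma_eq_integral hs, Real.Gamma_eq_integral hs]
  unfold Complex.GammaIntegral
  refine (norm_integral_le_integral_norm _).trans (le_of_eq ?_)
  apply setIntegral_congr_fun measurableSet_Ioi
  intro x hx
  have hx' : 0 < x := hx
  simp only [norm_mul]
  rw [Complex.norm_real, Real.norm_of_nonneg (Real.exp_nonneg _),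
    Complex.norm_cpow_eq_rpow_re_of_pos hx']
  simp

theorem G1_gamma_add {y x : ℝ} (hy : 0 < y) (hx0 : 0 ≤ x) (hx1 : x ≤ 1) :
    Real.Gamma (y + x) ≤ y ^ x * Real.Gamma y := by
  rcases hx0.eq_or_lt with h | h
  · rw [← h]
    simp
  rcases hx1.eq_or_lt with h' | h'
  · rw [h', Real.Gamma_add_one hy.ne', Real.rpow_one]
  · have h1 := Real.Gamma_mul_add_mul_le_rpow_Gamma_mul_rpow_Gamma (s := y) (t := y + 1)
      (a := 1 - x) (b := x) hy (by linarith) (by linarith) h (by ring)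
    have h2 : (1 - x) * y + x * (y + 1) = y + x := by ring
    rw [h2, Real.Gamma_add_one hy.ne'] at h1
    have hG : 0 < Real.Gamma y := Real.Gamma_pos_of_pos hy
    have h3 : Real.Gamma y ^ (1 - x) * (y * Real.Gamma y) ^ x = y ^ x * Real.Gamma y := by
      rw [Real.mul_rpow hy.le hG.le]
      calc Real.Gamma y ^ (1 - x) * (y ^ x * Real.Gamma y ^ x)
          = y ^ x * (Real.Gamma y ^ (1 - x) * Real.Gamma y ^ x) := by ring
        _ = y ^ x * Real.Gamma y := by
            rw [← Real.rpow_add hG, sub_add_cancel, Real.rpow_one]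
    rw [h3] at h1
    exact h1

theorem gam_bd (B : ℝ) (hB : 0 < B) : ∃ (C : ℝ) (k₀ : ℕ), 0 < C ∧ ∀ k : ℕ, k₀ ≤ k → ∀ z : ℂ,
    0 ≤ z.re → z.re ≤ B / (8 * Real.log k) →
    ‖Gamma ((k : ℂ) / 2 + z) * ((2 * Real.pi : ℝ) : ℂ) ^ (-((k : ℂ) / 2 + z))‖ ≤ C * gk k := by
  refine ⟨Real.exp (B / 8), max 3 ⌈Real.exp (B / 8)⌉₊, Real.exp_pos _, ?_⟩
  intro k hk z hz0 hz1
  have hk3 : 3 ≤ k := (le_max_left _ _).trans hk
  have hk' : (3 : ℝ) ≤ k := by exact_mod_cast hk3
  have hkB : Real.exp (B / 8) ≤ k :=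
    (Nat.le_ceil _).trans (by exact_mod_cast (le_max_right _ _).trans hk)
  have hlog : B / 8 ≤ Real.log k := by
    rw [Real.le_log_iff_exp_le (by linarith)]
    exact hkB
  have hlog0 : 0 < Real.log k := by linarith
  have hx1 : z.re ≤ 1 := by
    refine hz1.trans ?_
    rw [div_le_one (by positivity)]
    linarith
  have hxl : z.re * Real.log k ≤ B / 8 := by
    calc z.re * Real.log k ≤ B / (8 * Real.log k) * Real.log k :=
          mul_le_mul_of_nonneg_right hz1 hlog0.le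
      _ = B / 8 := by field_simp
  have hpi := Real.pi_gt_three
  have h2pi : (0 : ℝ) < 2 * Real.pi := by positivity
  rw [norm_mul, Complex.norm_cpow_eq_rpow_re_of_pos h2pi]
  have hre : ((k : ℂ) / 2 + z).re = (k : ℝ) / 2 + z.re := by simp
  have h1 : ‖Gamma ((k : ℂ) / 2 + z)‖ ≤ ((k : ℝ) / 2) ^ z.re * Real.Gamma ((k : ℝ) / 2) := by
    refine (G1_norm_gamma (by rw [hre]; linarith)).trans ?_
    rw [hre]
    exact G1_gamma_add (by linarith) hz0 hx1
  have h2 : (2 * Real.pi) ^ (-((k : ℂ) / 2 + z)).re ≤ (2 * Real.pi) ^ (-(k : ℝ) / 2) := by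
    apply Real.rpow_le_rpow_of_exponent_le (by linarith)
    rw [Complex.neg_re, hre]
    linarith
  have h3 : ((k : ℝ) / 2) ^ z.re ≤ Real.exp (B / 8) := by
    rw [Real.rpow_def_of_pos (by linarith)]
    apply Real.exp_le_exp.2
    refine le_trans ?_ hxl
    rw [mul_comm]
    apply mul_le_mul_of_nonneg_left _ hz0
    exact Real.log_le_log (by linarith) (by linarith)
  have hG : 0 < Real.Gamma ((k : ℝ) / 2) := Real.Gamma_pos_of_pos (by linarith)
  have h4 : ‖Gamma ((k : ℂ) / 2 + z)‖ ≤ Real.exp (B / 8) * Real.Gamma ((k : ℝ) / 2) :=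
    h1.trans (mul_le_mul_of_nonneg_right h3 hG.le)
  calc ‖Gamma ((k : ℂ) / 2 + z)‖ * (2 * Real.pi) ^ (-((k : ℂ) / 2 + z)).re
      ≤ (Real.exp (B / 8) * Real.Gamma ((k : ℝ) / 2)) * (2 * Real.pi) ^ (-(k : ℝ) / 2) :=
        mul_le_mul h4 h2 (by positivity) (by positivity)
    _ = Real.exp (B / 8) * gk k := by
        unfold gk
        ring

theorem G1_fact (m : ℕ) : ((m + m + 1).factorial : ℝ) ≤
    ((2 * (m + 1) : ℕ) : ℝ) ^ (m + 1) * (m.factorial : ℝ) := by
  have h : (m + m + 1).factorial ≤ (2 * (m + 1)) ^ (m + 1) * m.factorial := by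
    have h1 : (m + (m + 1)).factorial = m.factorial * (m + 1).ascFactorial (m + 1) :=
      (Nat.factorial_mul_ascFactorial m (m + 1)).symm
    have h2 : (m + 1).ascFactorial (m + 1) ≤ (2 * (m + 1)) ^ (m + 1) := by
      refine (Nat.ascFactorial_le_pow_add m (m + 1)).trans ?_
      apply Nat.pow_le_pow_left
      omega
    have h3 : m + m + 1 = m + (m + 1) := by ring
    rw [h3, h1, mul_comm]
    exact Nat.mul_le_mul_right _ h2
  exact_mod_cast h

theorem G1_gamma_even {k : ℕ} (hk : 2 ≤ k) (he : Even k) :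
    Real.Gamma (k : ℝ) ≤ (k : ℝ) ^ ((k : ℝ) / 2) * Real.Gamma ((k : ℝ) / 2) := by
  obtain ⟨r, hr⟩ := he
  obtain ⟨m, rfl⟩ : ∃ m, r = m + 1 := ⟨r - 1, by omega⟩
  have e1 : (k : ℝ) = ((m + m + 1 : ℕ) : ℝ) + 1 := by
    rw [hr]
    push_cast
    ring
  have e2 : (k : ℝ) / 2 = (m : ℝ) + 1 := by
    rw [hr]
    push_cast
    ring
  have e3 : Real.Gamma (k : ℝ) = ((m + m + 1).factorial : ℝ) := by
    rw [e1, Real.Gamma_nat_eq_factorial]
  have e4 : Real.Gamma ((k : ℝ) / 2) = (m.factorial : ℝ) := by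
    rw [e2, Real.Gamma_nat_eq_factorial]
  have e5 : (k : ℝ) ^ ((k : ℝ) / 2) = ((2 * (m + 1) : ℕ) : ℝ) ^ (m + 1) := by
    have h1 : (k : ℝ) / 2 = ((m + 1 : ℕ) : ℝ) := by rw [e2]; push_cast; ring
    rw [h1, Real.rpow_natCast]
    congr 1
    rw [hr]
    push_cast
    ring
  rw [e3, e4, e5]
  exact G1_fact m

theorem gd_rankin {k n : ℕ} (hk : 2 ≤ k) (he : Even k) (hn : 1 ≤ n) (u₀ : ℝ) :
    ∫ u in Set.Ioi u₀, gd k n u ≤ gk k * (n : ℝ) ^ (-(k : ℝ) / 2) *
      ((k : ℝ) / (2 * Real.pi * n * Real.exp u₀)) ^ ((k : ℝ) / 2) := by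
  have hk' : (0 : ℝ) < k := by exact_mod_cast (by omega : 0 < k)
  have hn' : (0 : ℝ) < n := by exact_mod_cast hn
  have hpi := Real.pi_pos
  have hI1 : Integrable (gd k n) := (WA.gd_int (by omega) hn).1
  obtain ⟨hI2, hI3⟩ := WA.gd_int (k := 2 * k) (n := n) (by omega) hn
  have hpt : ∀ u ∈ Set.Ioi u₀, gd k n u ≤ Real.exp (-((k : ℝ) * u₀ / 2)) * gd (2 * k) n u := by
    intro u hu
    have hu' : u₀ < u := hu
    unfold gd
    rw [← Real.exp_add]
    apply Real.exp_le_exp.2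
    push_cast
    nlinarith
  have h1 : ∫ u in Set.Ioi u₀, gd k n u ≤
      Real.exp (-((k : ℝ) * u₀ / 2)) * (gk (2 * k) * (n : ℝ) ^ (-((2 * k : ℕ) : ℝ) / 2)) := by
    calc ∫ u in Set.Ioi u₀, gd k n u
        ≤ ∫ u in Set.Ioi u₀, Real.exp (-((k : ℝ) * u₀ / 2)) * gd (2 * k) n u :=
          setIntegral_mono_on hI1.integrableOn (hI2.const_mul _).integrableOn
            measurableSet_Ioi hpt
      _ ≤ ∫ u, Real.exp (-((k : ℝ) * u₀ / 2)) * gd (2 * k) n u :=
          setIntegral_le_integral (hI2.const_mul _) (Eventually.of_forall fun u =>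
            mul_nonneg (Real.exp_nonneg _) (WA.B5a_gd_pos (2 * k) n u).le)
      _ = _ := by rw [integral_const_mul, hI3]
  refine h1.trans ?_
  have e1 : gk (2 * k) = Real.Gamma (k : ℝ) * (2 * Real.pi) ^ (-(k : ℝ)) := by
    unfold gk
    congr 2 <;> · push_cast; ring
  have e2 : -((2 * k : ℕ) : ℝ) / 2 = -(k : ℝ) := by push_cast; ring
  rw [e1, e2]
  have hG := G1_gamma_even hk he
  have e3 : gk k * (n : ℝ) ^ (-(k : ℝ) / 2) *
      ((k : ℝ) / (2 * Real.pi * n * Real.exp u₀)) ^ ((k : ℝ) / 2) =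
      Real.exp (-((k : ℝ) * u₀ / 2)) * (((k : ℝ) ^ ((k : ℝ) / 2) * Real.Gamma ((k : ℝ) / 2) *
        (2 * Real.pi) ^ (-(k : ℝ))) * (n : ℝ) ^ (-(k : ℝ))) := by
    unfold gk
    rw [Real.div_rpow hk'.le (by positivity), Real.mul_rpow (by positivity) (Real.exp_nonneg _),
      Real.mul_rpow (by positivity) hn'.le, ← Real.exp_mul]
    have a1 : -(k : ℝ) / 2 = -((k : ℝ) / 2) := by ring
    have a2 : (2 * Real.pi) ^ (-(k : ℝ)) =
        ((2 * Real.pi) ^ ((k : ℝ) / 2))⁻¹ * ((2 * Real.pi) ^ ((k : ℝ) / 2))⁻¹ := by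
      rw [← Real.rpow_neg (by positivity), ← Real.rpow_add (by positivity)]
      congr 1
      ring
    have a3 : (n : ℝ) ^ (-(k : ℝ)) = ((n : ℝ) ^ ((k : ℝ) / 2))⁻¹ * ((n : ℝ) ^ ((k : ℝ) / 2))⁻¹ := by
      rw [← Real.rpow_neg (by positivity), ← Real.rpow_add (by positivity)]
      congr 1
      ring
    have a4 : Real.exp (-((k : ℝ) * u₀ / 2)) = (Real.exp (u₀ * ((k : ℝ) / 2)))⁻¹ := by
      rw [← Real.exp_neg]
      congr 1
      ring
    rw [a1, a2, a3, a4, Real.rpow_neg (by positivity), Real.rpow_neg (by positivity)]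
    field_simp
  rw [e3]
  apply mul_le_mul_of_nonneg_left _ (Real.exp_nonneg _)
  apply mul_le_mul_of_nonneg_right _ (by positivity)
  exact mul_le_mul_of_nonneg_right hG (by positivity)

end Pool.Agent.WS
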