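import Pool.Agent.Lib_helper98.WS.Defs
import Pool.Agent.Lib_helper98.WAF.B4
import Pool.Agent.Lib_helper98.WAF.B5a

/-! # WS block F2 (REF), helper4 -/

namespace Pool.Agent.WS

open Complex MeasureTheory Filter Topology
open Pool.Agent.WA (gd gk gk_pos gd_int gd_moment B5a_gd_pos B5a_gd_cont B5a_gd_eq B5a_A B5a_E)
open Pool.Agent.SQS (hat)

/-- the real reference density -/
noncomputable def f2_h (k : ℕ) (u : ℝ) : ℝ := gd k 1 (u + c0 k) / gk k

theorem f2_h_cast (k : ℕ) : (fun u => (gd k 1 (u + c0 k) : ℂ) / (gk k : ℂ)) =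
    fun u => ((f2_h k u : ℝ) : ℂ) := by
  funext u
  unfold f2_h
  push_cast
  rfl

theorem f2_h_nonneg {k : ℕ} (hk : 1 ≤ k) (u : ℝ) : 0 ≤ f2_h k u :=
  div_nonneg (B5a_gd_pos k 1 _).le (gk_pos hk).le

theorem f2_h_cont (k : ℕ) : Continuous (f2_h k) := by
  unfold f2_h
  exact ((B5a_gd_cont k 1).comp (by fun_prop : Continuous fun u : ℝ => u + c0 k)).div_const _

theorem f2_h_int {k : ℕ} (hk : 1 ≤ k) : Integrable (f2_h k) := by
  unfold f2_h
  exact ((gd_int hk le_rfl).1.comp_add_right (c0 k)).div_const _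

theorem f2_h_one {k : ℕ} (hk : 1 ≤ k) : ∫ u, f2_h k u = 1 := by
  unfold f2_h
  rw [integral_div, integral_add_right_eq_self (fun u => gd k 1 u), (gd_int hk le_rfl).2]
  have := gk_pos hk
  simp only [Nat.cast_one, Real.one_rpow, mul_one]
  exact div_self this.ne'

theorem f2_h_bdd {k : ℕ} (hk : 1 ≤ k) : ∃ B : ℝ, ∀ u, f2_h k u ≤ B := by
  refine ⟨B5a_A k 1 / gk k, fun u => ?_⟩
  unfold f2_h
  apply div_le_div_of_nonneg_right _ (gk_pos hk).le
  rw [B5a_gd_eq hk le_rfl]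
  have hA : 0 < B5a_A k 1 := Real.exp_pos _
  have hE : ∀ v, B5a_E k v ≤ 1 := by
    intro v
    unfold B5a_E
    rw [Real.exp_le_one_iff]
    have h1 := Real.add_one_le_exp v
    have h2 : (0 : ℝ) ≤ (k : ℝ) / 2 := by positivity
    nlinarith
  calc B5a_A k 1 * B5a_E k _ ≤ B5a_A k 1 * 1 := mul_le_mul_of_nonneg_left (hE _) hA.le
    _ = _ := mul_one _

theorem ref_nice {k : ℕ} (hk : 1 ≤ k) :
    ABS.Nice (fun u => (gd k 1 (u + c0 k) : ℂ) / (gk k : ℂ)) ∧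
      ∫ u, ‖(gd k 1 (u + c0 k) : ℂ) / (gk k : ℂ)‖ ≤ 1 := by
  have e : ∀ u, (gd k 1 (u + c0 k) : ℂ) / (gk k : ℂ) = ((f2_h k u : ℝ) : ℂ) := fun u =>
    congrFun (f2_h_cast k) u
  have en : ∀ u, ‖(gd k 1 (u + c0 k) : ℂ) / (gk k : ℂ)‖ = f2_h k u := fun u => by
    rw [e, Complex.norm_real, Real.norm_of_nonneg (f2_h_nonneg hk u)]
  refine ⟨?_, ?_⟩
  · rw [f2_h_cast]
    refine ⟨(Complex.continuous_ofReal.comp (f2_h_cont k)).measurable, (f2_h_int hk).ofReal, ?_⟩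
    obtain ⟨B, hB⟩ := f2_h_bdd hk
    exact ⟨B, fun u => by
      rw [Complex.norm_real, Real.norm_of_nonneg (f2_h_nonneg hk u)]; exact hB u⟩
  · simp only [en]
    exact (f2_h_one hk).le

theorem f2_moment : ∃ (C : ℝ) (k₀ : ℕ), 0 ≤ C ∧ ∀ k : ℕ, k₀ ≤ k →
    1 ≤ k ∧ Integrable (fun u : ℝ => u ^ 2 * f2_h k u) ∧ ∫ u : ℝ, u ^ 2 * f2_h k u ≤ C / k := by
  obtain ⟨C, k₀, h⟩ := gd_moment
  refine ⟨|C|, k₀ + 1, abs_nonneg _, fun k hk => ?_⟩
  have hk1 : 1 ≤ k := by omega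
  obtain ⟨h1, h2⟩ := h k (by omega) 1 le_rfl
  have hg := gk_pos hk1
  have e : (fun u : ℝ => u ^ 2 * f2_h k u) = fun u =>
      (fun v : ℝ => (v - Real.log (k / (4 * Real.pi * (1 : ℕ)))) ^ 2 * gd k 1 v) (u + c0 k) /
        gk k := by
    funext u
    unfold f2_h c0
    simp only [Nat.cast_one, mul_one, add_sub_cancel_right]
    ring
  rw [e]
  refine ⟨hk1, (h1.comp_add_right (c0 k)).div_const _, ?_⟩
  rw [integral_div, integral_add_right_eq_self
    (fun v : ℝ => (v - Real.log (k / (4 * Real.pi * (1 : ℕ)))) ^ 2 * gd k 1 v)]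
  rw [div_le_iff₀ hg]
  refine h2.trans ?_
  simp only [Nat.cast_one, Real.one_rpow, mul_one]
  apply mul_le_mul_of_nonneg_right _ hg.le
  apply div_le_div_of_nonneg_right (le_abs_self C) (by positivity)

theorem f2_diff {k : ℕ} (hk : 1 ≤ k) {C : ℝ}
    (h1 : Integrable (fun u : ℝ => u ^ 2 * f2_h k u)) (h2 : ∫ u : ℝ, u ^ 2 * f2_h k u ≤ C / k)
    (t s : ℝ) :
    ‖hat (fun u => ((f2_h k u : ℝ) : ℂ)) t - hat (fun u => ((f2_h k u : ℝ) : ℂ)) s‖ ≤
      |t - s| * ((C + 1) / (2 * √k)) := by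
  have hint : ∀ t : ℝ, Integrable (fun u : ℝ => ((f2_h k u : ℝ) : ℂ) * cexp (t * u * I)) := by
    intro t
    refine (f2_h_int hk).ofReal.mul_bdd (c := 1) (by fun_prop : Continuous
      fun u : ℝ => cexp (t * u * I)).aestronglyMeasurable (Eventually.of_forall fun u => ?_)
    have : (t : ℂ) * u = ((t * u : ℝ) : ℂ) := by push_cast; rfl
    rw [this, Complex.norm_exp_ofReal_mul_I]
  unfold hat
  rw [← integral_sub (hint t) (hint s)]
  have hkr : (0 : ℝ) < k := by exact_mod_cast hk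
  have hsq : 0 < √(k : ℝ) := Real.sqrt_pos.2 hkr
  have hb : ∀ u : ℝ, ‖((f2_h k u : ℝ) : ℂ) * cexp (t * u * I) -
      ((f2_h k u : ℝ) : ℂ) * cexp (s * u * I)‖ ≤
      |t - s| * (√k / 2 * (u ^ 2 * f2_h k u) + 1 / (2 * √k) * f2_h k u) := by
    intro u
    rw [← mul_sub, norm_mul, Complex.norm_real, Real.norm_of_nonneg (f2_h_nonneg hk u)]
    have e1 : ‖cexp (t * u * I) - cexp (s * u * I)‖ ≤ |t - s| * |u| := by
      have e2 : cexp (t * u * I) - cexp (s * u * I) =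
          cexp (s * u * I) * (cexp (I * ((t - s) * u : ℝ)) - 1) := by
        rw [mul_sub, ← Complex.exp_add, mul_one]
        congr 2
        push_cast
        ring
      have e3 : ‖cexp (s * u * I)‖ = 1 := by
        have : (s : ℂ) * u = ((s * u : ℝ) : ℂ) := by push_cast; rfl
        rw [this, Complex.norm_exp_ofReal_mul_I]
      rw [e2, norm_mul, e3, one_mul, ← abs_mul]
      exact Real.norm_exp_I_mul_ofReal_sub_one_le
    have e4 : |u| ≤ √k / 2 * u ^ 2 + 1 / (2 * √k) := by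
      have h3 : 0 ≤ (√k * |u| - 1) ^ 2 := sq_nonneg _
      have h4 : √k / 2 * u ^ 2 + 1 / (2 * √k) - |u| = (√k * |u| - 1) ^ 2 / (2 * √k) := by
        field_simp
        rw [← sq_abs u]
        ring
      have h5 : 0 ≤ (√k * |u| - 1) ^ 2 / (2 * √k) := by positivity
      linarith
    have hn := f2_h_nonneg hk u
    calc f2_h k u * ‖cexp (t * u * I) - cexp (s * u * I)‖ ≤ f2_h k u * (|t - s| * |u|) :=
          mul_le_mul_of_nonneg_left e1 hn
      _ ≤ f2_h k u * (|t - s| * (√k / 2 * u ^ 2 + 1 / (2 * √k))) :=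
          mul_le_mul_of_nonneg_left (mul_le_mul_of_nonneg_left e4 (abs_nonneg _)) hn
      _ = _ := by ring
  refine (norm_integral_le_of_norm_le (((h1.const_mul _).add ((f2_h_int hk).const_mul _)).const_mul
    _) (Eventually.of_forall hb)).trans ?_
  simp only [Pi.add_apply]
  rw [integral_const_mul, integral_add (h1.const_mul _) ((f2_h_int hk).const_mul _),
    integral_const_mul, integral_const_mul, f2_h_one hk, mul_one]
  apply mul_le_mul_of_nonneg_left _ (abs_nonneg _)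
  have h6 : √(k : ℝ) / 2 * ∫ u : ℝ, u ^ 2 * f2_h k u ≤ √(k : ℝ) / 2 * (C / k) :=
    mul_le_mul_of_nonneg_left h2 (by positivity)
  have h7 : √(k : ℝ) / 2 * (C / k) = C / (2 * √k) := by
    have : (k : ℝ) = √k * √k := (Real.mul_self_sqrt hkr.le).symm
    rw [this, Real.sqrt_mul_self hsq.le]
    field_simp
  have h8 : (C + 1) / (2 * √(k : ℝ)) = C / (2 * √k) + 1 / (2 * √k) := by ring
  rw [h8, ← h7]
  linarith

theorem ref_low : ∃ (c₁ : ℝ) (k₀ : ℕ), 0 < c₁ ∧ ∀ k : ℕ, k₀ ≤ k →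
    (∀ t : ℝ, |t| ≤ c₁ * √k → 1 / 2 ≤ ‖hat (fun u => (gd k 1 (u + c0 k) : ℂ) / (gk k : ℂ)) t‖) ∧
    ∀ t s : ℝ, |t| ≤ c₁ * √k → |s| ≤ c₁ * √k → |t - s| < 1 →
      ‖hat (fun u => (gd k 1 (u + c0 k) : ℂ) / (gk k : ℂ)) t -
        hat (fun u => (gd k 1 (u + c0 k) : ℂ) / (gk k : ℂ)) s‖ ≤ 1 / 2 / 2 := by
  obtain ⟨C, k₀, hC, h⟩ := f2_moment
  refine ⟨1 / (C + 1), k₀ + ⌈(2 * (C + 1)) ^ 2⌉₊, by positivity, fun k hk => ?_⟩
  obtain ⟨hk1, h1, h2⟩ := h k (by omega)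
  have hkr : (0 : ℝ) < k := by exact_mod_cast hk1
  have hsq : 0 < √(k : ℝ) := Real.sqrt_pos.2 hkr
  have hbig : 2 * (C + 1) ≤ √(k : ℝ) := by
    apply Real.le_sqrt_of_sq_le
    have h3 : (2 * (C + 1)) ^ 2 ≤ (⌈(2 * (C + 1)) ^ 2⌉₊ : ℝ) := Nat.le_ceil _
    have h4 : ((k₀ + ⌈(2 * (C + 1)) ^ 2⌉₊ : ℕ) : ℝ) ≤ k := by exact_mod_cast hk
    push_cast at h4
    have h5 : (0 : ℝ) ≤ k₀ := by positivity
    linarith
  rw [f2_h_cast]
  refine ⟨fun t ht => ?_, fun t s _ _ hts => ?_⟩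
  · have h3 := f2_diff hk1 h1 h2 t 0
    have h4 : hat (fun u => ((f2_h k u : ℝ) : ℂ)) 0 = 1 := by
      unfold hat
      simp only [ofReal_zero, zero_mul, Complex.exp_zero, mul_one]
      rw [integral_complex_ofReal, f2_h_one hk1, ofReal_one]
    rw [h4, sub_zero] at h3
    have h5 : |t| * ((C + 1) / (2 * √(k : ℝ))) ≤ 1 / 2 := by
      calc |t| * ((C + 1) / (2 * √(k : ℝ))) ≤ (1 / (C + 1) * √k) * ((C + 1) / (2 * √(k : ℝ))) :=
            mul_le_mul_of_nonneg_right ht (by positivity)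
        _ = 1 / 2 := by field_simp
    have h6 : ‖(1 : ℂ)‖ ≤ ‖hat (fun u => ((f2_h k u : ℝ) : ℂ)) t‖ +
        ‖hat (fun u => ((f2_h k u : ℝ) : ℂ)) t - 1‖ := by
      have := norm_sub_le (hat (fun u => ((f2_h k u : ℝ) : ℂ)) t)
        (hat (fun u => ((f2_h k u : ℝ) : ℂ)) t - 1)
      simpa using this
    rw [norm_one] at h6
    linarith
  · have h3 := f2_diff hk1 h1 h2 t s
    have h5 : |t - s| * ((C + 1) / (2 * √(k : ℝ))) ≤ 1 / 4 := by
      calc |t - s| * ((C + 1) / (2 * √(k : ℝ))) ≤ 1 * ((C + 1) / (2 * (2 * (C + 1)))) := by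
            apply mul_le_mul hts.le _ (by positivity) (by norm_num)
            apply div_le_div_of_nonneg_left (by positivity) (by positivity)
            linarith
        _ = 1 / 4 := by field_simp; norm_num
    linarith

end Pool.Agent.WS
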