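import Pool.Agent.Lib_helper98.WSF.H1

/-!
# WS block H1B (HSM): Hecke multiplicativity
-/

namespace Pool.Agent.WS

open Complex MeasureTheory Filter Topology
open Pool.Agent.GL2 (qs HData FD)

theorem h1b_xU (x : ℝ) {n : ℕ} (hn : 1 ≤ n) :
    x * SEL.Uc x n = SEL.Uc x (n + 1) + SEL.Uc x (n - 1) := by
  obtain ⟨m, rfl⟩ := Nat.exists_eq_add_of_le' hn
  have : SEL.Uc x (m + 1 + 1) = x * SEL.Uc x (m + 1) - SEL.Uc x m := rfl
  rw [this, Nat.add_sub_cancel]; ring

theorem h1b_U (x : ℝ) : ∀ j i : ℕ, j ≤ i →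
    SEL.Uc x i * SEL.Uc x j = ∑ g ∈ Finset.range (j + 1), SEL.Uc x (i + j - 2 * g) := by
  intro j
  induction j using Nat.strong_induction_on with
  | _ j ih =>
    intro i hi
    match j, ih, hi with
    | 0, ih, hi => simp [SEL.Uc]
    | 1, ih, hi =>
      rw [Finset.sum_range_succ, Finset.sum_range_one]
      have := h1b_xU x hi
      have h1 : SEL.Uc x 1 = x := rfl
      rw [h1, mul_comm, this, Nat.mul_zero, Nat.sub_zero, Nat.mul_one,
        show i + 1 - 2 = i - 1 by omega]
    | j + 2, ih, hi =>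
      have h0 := ih j (by omega) i (by omega)
      have h1 := ih (j + 1) (by omega) i (by omega)
      have e1 : SEL.Uc x (j + 2) = x * SEL.Uc x (j + 1) - SEL.Uc x j := rfl
      have e2 : SEL.Uc x i * SEL.Uc x (j + 2) =
          x * (SEL.Uc x i * SEL.Uc x (j + 1)) - SEL.Uc x i * SEL.Uc x j := by
        rw [e1]; ring
      rw [e2, h0, h1, Finset.mul_sum]
      have e3 : ∑ g ∈ Finset.range (j + 1 + 1), x * SEL.Uc x (i + (j + 1) - 2 * g) =
          ∑ g ∈ Finset.range (j + 1 + 1), SEL.Uc x (i + (j + 2) - 2 * g) +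
          ∑ g ∈ Finset.range (j + 1 + 1), SEL.Uc x (i + j - 2 * g) := by
        rw [← Finset.sum_add_distrib]
        refine Finset.sum_congr rfl fun g hg => ?_
        have hg' := Finset.mem_range.1 hg
        rw [h1b_xU x (by omega)]
        congr 2 <;> omega
      rw [e3, Finset.sum_range_succ (fun g => SEL.Uc x (i + j - 2 * g)) (j + 1),
        Finset.sum_range_succ (fun g => SEL.Uc x (i + (j + 2) - 2 * g)) (j + 2)]
      have e4 : i + j - 2 * (j + 1) = i + (j + 2) - 2 * (j + 2) := by omega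
      rw [e4]
      ring

theorem h1b_prime (θ : ℕ → ℝ) {p : ℕ} (hp : p.Prime) (i : ℕ) {n : ℕ} (hn : 0 < n) :
    hs θ (p ^ i) * hs θ n = ∑ d ∈ (Nat.gcd (p ^ i) n).divisors, hs θ (p ^ i * n / (d * d)) := by
  obtain ⟨j, n', hn', rfl⟩ := Nat.exists_eq_pow_mul_and_not_dvd hn.ne' p hp.ne_one
  have hcop : ∀ l, (p ^ l).Coprime n' := fun l =>
    Nat.Coprime.pow_left l ((Nat.Prime.coprime_iff_not_dvd hp).2 hn')
  have hg : Nat.gcd (p ^ i) (p ^ j * n') = p ^ (min i j) := by
    rw [Nat.Coprime.gcd_mul_right_cancel_right (p ^ j) (hcop i).symm]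
    rcases le_total i j with h | h
    · rw [min_eq_left h]; exact Nat.gcd_eq_left (pow_dvd_pow p h)
    · rw [min_eq_right h]; exact Nat.gcd_eq_right (pow_dvd_pow p h)
  rw [hg, Nat.sum_divisors_prime_pow hp, hs_cop θ (hcop j), hs_pow θ hp, hs_pow θ hp,
    ← mul_assoc]
  have e1 : SEL.Uc (θ p) i * SEL.Uc (θ p) j =
      ∑ g ∈ Finset.range (min i j + 1), SEL.Uc (θ p) (i + j - 2 * g) := by
    rcases le_total i j with h | h
    · rw [min_eq_left h, mul_comm, h1b_U _ _ _ h, add_comm i j]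
    · rw [min_eq_right h, h1b_U _ _ _ h]
  rw [e1, Finset.sum_mul]
  refine Finset.sum_congr rfl fun g hg => ?_
  have hg' := Finset.mem_range.1 hg
  have hgi : g ≤ i := by have := min_le_left i j; omega
  have hgj : g ≤ j := by have := min_le_right i j; omega
  have e2 : p ^ i * (p ^ j * n') / (p ^ g * p ^ g) = p ^ (i + j - 2 * g) * n' := by
    apply Nat.div_eq_of_eq_mul_right (by have := hp.pos; positivity)
    rw [← mul_assoc, ← mul_assoc, ← pow_add, ← pow_add, ← pow_add]
    congr 2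
    omega
  rw [e2, hs_cop θ (hcop _), hs_pow θ hp]

theorem h1b_divisors {A B : ℕ} (hA : 0 < A) (hB : 0 < B) (h : A.Coprime B) (F : ℕ → ℝ) :
    ∑ d ∈ B.divisors, ∑ e ∈ A.divisors, F (d * e) = ∑ f ∈ (A * B).divisors, F f := by
  rw [← Finset.sum_product']
  refine Finset.sum_bij' (fun x _ => x.1 * x.2) (fun f _ => (Nat.gcd f B, Nat.gcd f A))
    ?_ ?_ ?_ ?_ ?_
  · rintro ⟨d, e⟩ hde
    simp only [Finset.mem_product, Nat.mem_divisors] at hde ⊢
    exact ⟨by rw [mul_comm]; exact mul_dvd_mul hde.2.1 hde.1.1, by positivity⟩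
  · intro f hf
    simp only [Nat.mem_divisors, Finset.mem_product] at hf ⊢
    exact ⟨⟨Nat.gcd_dvd_right _ _, hB.ne'⟩, ⟨Nat.gcd_dvd_right _ _, hA.ne'⟩⟩
  · rintro ⟨d, e⟩ hde
    simp only [Finset.mem_product, Nat.mem_divisors] at hde
    obtain ⟨⟨hd, _⟩, ⟨he, _⟩⟩ := hde
    have h1 : Nat.gcd (d * e) B = d := by
      rw [Nat.Coprime.gcd_mul_right_cancel d (Nat.Coprime.coprime_dvd_left he h)]
      exact Nat.gcd_eq_left hd
    have h2 : Nat.gcd (d * e) A = e := by
      rw [Nat.Coprime.gcd_mul_left_cancel e (Nat.Coprime.coprime_dvd_left hd h.symm)]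
      exact Nat.gcd_eq_left he
    simp only [h1, h2]
  · intro f hf
    simp only [Nat.mem_divisors] at hf
    simp only
    rw [mul_comm, ← Nat.Coprime.gcd_mul f h]
    exact Nat.gcd_eq_left hf.1
  · rintro ⟨d, e⟩ _
    rfl

theorem hs_mul (θ : ℕ → ℝ) {m n : ℕ} (hm : 0 < m) (hn : 0 < n) :
    hs θ m * hs θ n = ∑ d ∈ (Nat.gcd m n).divisors, hs θ (m * n / (d * d)) := by
  induction m using Nat.recOnPosPrimePosCoprime generalizing n with
  | prime_pow p i hp hi => exact h1b_prime θ hp i hn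
  | zero => exact absurd hm (lt_irrefl 0)
  | one => simp [hs_one]
  | coprime a b ha hb hab iha ihb =>
    have ha0 : 0 < a := by omega
    have hb0 : 0 < b := by omega
    rw [hs_cop θ hab, mul_assoc, ihb hb0 hn, Finset.mul_sum]
    have hgab : Nat.gcd (a * b) n = Nat.gcd a n * Nat.gcd b n := Nat.Coprime.mul_gcd hab n
    rw [hgab]
    rw [← h1b_divisors (Nat.gcd_pos_of_pos_left _ ha0) (Nat.gcd_pos_of_pos_left _ hb0)
      (Nat.Coprime.coprime_dvd_left (Nat.gcd_dvd_left _ _)
        (Nat.Coprime.coprime_dvd_right (Nat.gcd_dvd_left _ _) hab))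
      (fun f => hs θ (a * b * n / (f * f)))]
    refine Finset.sum_congr rfl fun d hd => ?_
    have hd' := (Nat.mem_divisors.1 hd).1
    have hdb : d ∣ b := hd'.trans (Nat.gcd_dvd_left _ _)
    have hdn : d ∣ n := hd'.trans (Nat.gcd_dvd_right _ _)
    have hd0 : 0 < d := Nat.pos_of_dvd_of_pos hdb hb0
    obtain ⟨c, hc⟩ : d * d ∣ b * n := mul_dvd_mul hdb hdn
    have hc1 : b * n / (d * d) = c := by
      rw [hc]; exact Nat.mul_div_cancel_left c (by positivity)
    have hc0 : 0 < c := by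
      rcases Nat.eq_zero_or_pos c with h | h
      · rw [h, mul_zero] at hc
        have : 0 < b * n := by positivity
        omega
      · exact h
    rw [hc1, iha ha0 hc0]
    have hgc : Nat.gcd a c = Nat.gcd a n := by
      have hcop : Nat.Coprime a (d * d) := by
        have : Nat.Coprime a d := Nat.Coprime.coprime_dvd_right hdb hab
        exact this.mul_right this
      have e1 : Nat.gcd a (d * d * c) = Nat.gcd a c :=
        Nat.Coprime.gcd_mul_left_cancel_right c hcop.symm
      have e2 : Nat.gcd a (b * n) = Nat.gcd a n :=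
        Nat.Coprime.gcd_mul_left_cancel_right n hab.symm
      rw [← e1, ← hc, e2]
    rw [hgc]
    refine Finset.sum_congr rfl fun e he => ?_
    have he' := (Nat.mem_divisors.1 he).1
    have hea : e ∣ a := he'.trans (Nat.gcd_dvd_left _ _)
    have hec : e ∣ c := by rw [← hgc] at he'; exact he'.trans (Nat.gcd_dvd_right _ _)
    have he0 : 0 < e := Nat.pos_of_dvd_of_pos hea ha0
    obtain ⟨f, hf⟩ : e * e ∣ a * c := mul_dvd_mul hea hec
    congr 1
    rw [hf, Nat.mul_div_cancel_left f (by positivity)]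
    symm
    apply Nat.div_eq_of_eq_mul_right (by positivity)
    calc a * b * n = a * (b * n) := by ring
      _ = a * (d * d * c) := by rw [hc]
      _ = d * d * (a * c) := by ring
      _ = d * d * (e * e * f) := by rw [hf]
      _ = d * e * (d * e) * f := by ring

end Pool.Agent.WS
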