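import Pool.Agent.Lib_helper98.WSF.M1
import Pool.Agent.Lib_helper68.SEL.Z1

/-! # Block M6 (LIN): linearisation of the products (cites H1, M1) -/

namespace Pool.Agent.WS

open Complex MeasureTheory Filter Topology
open Pool.Agent.SEL (NL Adm)

/-! ## Combinations of the `U_k` -/

/-- `f` is a combination of `U_0, ..., U_n` -/
def M6_V (n : ℕ) (f : ℝ → ℝ) : Prop :=
  ∃ c : ℕ → ℝ, ∀ x, f x = ∑ k ∈ Finset.range (n + 1), c k * SEL.Uc x k

theorem M6_mono {m n : ℕ} (h : m ≤ n) {f : ℝ → ℝ} (hf : M6_V m f) : M6_V n f := by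
  obtain ⟨c, hc⟩ := hf
  refine ⟨fun k => if k < m + 1 then c k else 0, fun x => ?_⟩
  rw [hc x]
  simp only [ite_mul, zero_mul]
  rw [← Finset.sum_filter]
  refine Finset.sum_congr ?_ fun _ _ => rfl
  ext k
  simp only [Finset.mem_range, Finset.mem_filter]
  omega

theorem M6_add {n : ℕ} {f g : ℝ → ℝ} (hf : M6_V n f) (hg : M6_V n g) :
    M6_V n (fun x => f x + g x) := by
  obtain ⟨c, hc⟩ := hf
  obtain ⟨d, hd⟩ := hg
  refine ⟨fun k => c k + d k, fun x => ?_⟩
  dsimp only
  rw [hc x, hd x, ← Finset.sum_add_distrib]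
  exact Finset.sum_congr rfl fun k _ => by ring

theorem M6_smul {n : ℕ} (a : ℝ) {f : ℝ → ℝ} (hf : M6_V n f) : M6_V n (fun x => a * f x) := by
  obtain ⟨c, hc⟩ := hf
  refine ⟨fun k => a * c k, fun x => ?_⟩
  dsimp only
  rw [hc x, Finset.mul_sum]
  exact Finset.sum_congr rfl fun k _ => by ring

theorem M6_zero (n : ℕ) : M6_V n (fun _ => 0) := ⟨fun _ => 0, fun x => by simp⟩

theorem M6_sum {ι : Type} (s : Finset ι) {n : ℕ} {f : ι → ℝ → ℝ} (hf : ∀ i ∈ s, M6_V n (f i)) :
    M6_V n (fun x => ∑ i ∈ s, f i x) := by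
  classical
  induction s using Finset.induction_on with
  | empty => simpa using M6_zero n
  | insert a s ha ih =>
    have h1 := M6_add (hf a (Finset.mem_insert_self a s))
      (ih fun i hi => hf i (Finset.mem_insert_of_mem hi))
    simpa only [Finset.sum_insert ha] using h1

theorem M6_U (k : ℕ) : M6_V k (fun x => SEL.Uc x k) := by
  refine ⟨fun j => if j = k then 1 else 0, fun x => ?_⟩
  simp

theorem M6_mulx {n : ℕ} {f : ℝ → ℝ} (hf : M6_V n f) : M6_V (n + 1) (fun x => x * f x) := by
  obtain ⟨c, hc⟩ := hf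
  have h1 : ∀ k ∈ Finset.range (n + 1), M6_V (n + 1) (fun x => c k * (x * SEL.Uc x k)) := by
    intro k hk
    have hk' := Finset.mem_range.1 hk
    refine M6_smul _ ?_
    cases k with
    | zero =>
      have h2 := M6_mono (show 1 ≤ n + 1 by omega) (M6_U 1)
      simpa [SEL.Uc] using h2
    | succ k =>
      have h2 := M6_add (M6_mono (show k + 2 ≤ n + 1 by omega) (M6_U (k + 2)))
        (M6_mono (show k ≤ n + 1 by omega) (M6_U k))
      have h3 : (fun x => SEL.Uc x (k + 2) + SEL.Uc x k) = fun x => x * SEL.Uc x (k + 1) := by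
        funext x
        simp only [SEL.Uc]
        ring
      rwa [h3] at h2
  have h4 := M6_sum (Finset.range (n + 1)) h1
  have h5 : (fun x => x * f x) = fun x => ∑ k ∈ Finset.range (n + 1), c k * (x * SEL.Uc x k) := by
    funext x
    rw [hc x, Finset.mul_sum]
    exact Finset.sum_congr rfl fun k _ => by ring
  rwa [h5]

theorem M6_mulU {n : ℕ} {f : ℝ → ℝ} (hf : M6_V n f) :
    ∀ j, M6_V (n + j) (fun x => SEL.Uc x j * f x) := by
  have key : ∀ j, M6_V (n + j) (fun x => SEL.Uc x j * f x) ∧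
      M6_V (n + (j + 1)) (fun x => SEL.Uc x (j + 1) * f x) := by
    intro j
    induction j with
    | zero =>
      refine ⟨?_, ?_⟩
      · simpa [SEL.Uc] using hf
      · simpa [SEL.Uc] using M6_mulx hf
    | succ j ih =>
      refine ⟨ih.2, ?_⟩
      have h1 := M6_mulx ih.2
      have h2 := M6_smul (-1) (M6_mono (show n + j ≤ n + (j + 1) + 1 by omega) ih.1)
      have h3 := M6_add h1 h2
      have h4 : (fun x => x * (SEL.Uc x (j + 1) * f x) + -1 * (SEL.Uc x j * f x)) =
          fun x => SEL.Uc x (j + 2) * f x := by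
        funext x
        simp only [SEL.Uc]
        ring
      rw [h4] at h3
      exact h3
  exact fun j => (key j).1

theorem M6_mul {m n : ℕ} {f g : ℝ → ℝ} (hf : M6_V m f) (hg : M6_V n g) :
    M6_V (m + n) (fun x => f x * g x) := by
  obtain ⟨c, hc⟩ := hf
  have h1 : ∀ k ∈ Finset.range (m + 1), M6_V (m + n) (fun x => c k * (SEL.Uc x k * g x)) := by
    intro k hk
    have hk' := Finset.mem_range.1 hk
    exact M6_smul _ (M6_mono (by omega) (M6_mulU hg k))
  have h4 := M6_sum (Finset.range (m + 1)) h1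
  have h5 : (fun x => f x * g x) =
      fun x => ∑ k ∈ Finset.range (m + 1), c k * (SEL.Uc x k * g x) := by
    funext x
    rw [hc x, Finset.sum_mul]
    exact Finset.sum_congr rfl fun k _ => by ring
  rwa [h5]

theorem M6_split (n : ℕ) (a : ℕ → ℝ) (h0 : a 0 = 1) :
    ∑ u ∈ Finset.HasAntidiagonal.antidiagonal (n + 1), a u.1 * a u.2 = 2 * a (n + 1) +
      ∑ u ∈ (Finset.HasAntidiagonal.antidiagonal (n + 1)).filter (fun u => u.1 ≠ 0 ∧ u.2 ≠ 0),
        a u.1 * a u.2 := by
  rw [← Finset.sum_filter_add_sum_filter_not _ (fun u : ℕ × ℕ => u.1 ≠ 0 ∧ u.2 ≠ 0), add_comm]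
  congr 1
  have h1 : (Finset.HasAntidiagonal.antidiagonal (n + 1)).filter
      (fun u : ℕ × ℕ => ¬ (u.1 ≠ 0 ∧ u.2 ≠ 0)) = {(0, n + 1), (n + 1, 0)} := by
    ext ⟨a, b⟩
    simp only [Finset.mem_filter, Finset.HasAntidiagonal.mem_antidiagonal, Finset.mem_insert,
      Finset.mem_singleton, Prod.mk.injEq]
    omega
  rw [h1, Finset.sum_pair (by simp), h0]
  ring

theorem M6_al (i : ℕ) : M6_V i (fun x => SEL.aloc x i) := by
  induction i using Nat.strong_induction_on with
  | _ i ih =>
    cases i with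
    | zero =>
      have h := M6_U 0
      simpa [SEL.Uc, SEL.aloc_zero_pr] using h
    | succ n =>
      have h1 : M6_V (n + 1) (fun x => ∑ v ∈ Finset.HasAntidiagonal.antidiagonal n,
          SEL.Uc x (v.1 + 1) * ∑ u ∈ Finset.HasAntidiagonal.antidiagonal v.2,
            SEL.aloc x u.1 * SEL.aloc x u.2) := by
        refine M6_sum _ fun v hv => ?_
        have hv' := Finset.HasAntidiagonal.mem_antidiagonal.1 hv
        have h2 : M6_V v.2 (fun x => ∑ u ∈ Finset.HasAntidiagonal.antidiagonal v.2,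
            SEL.aloc x u.1 * SEL.aloc x u.2) := by
          refine M6_sum _ fun u hu => ?_
          have hu' := Finset.HasAntidiagonal.mem_antidiagonal.1 hu
          exact M6_mono (by omega) (M6_mul (ih u.1 (by omega)) (ih u.2 (by omega)))
        exact M6_mono (by omega) (M6_mulU h2 (v.1 + 1))
      have h3 : M6_V (n + 1) (fun x => ∑ u ∈ (Finset.HasAntidiagonal.antidiagonal (n + 1)).filter
          (fun u => u.1 ≠ 0 ∧ u.2 ≠ 0), SEL.aloc x u.1 * SEL.aloc x u.2) := by
        refine M6_sum _ fun u hu => ?_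
        have hu' := Finset.mem_filter.1 hu
        have hu2 := Finset.HasAntidiagonal.mem_antidiagonal.1 hu'.1
        exact M6_mono (by omega) (M6_mul (ih u.1 (by omega)) (ih u.2 (by omega)))
      have h4 := M6_add (M6_smul (-1 / 2) h1) (M6_smul (-1 / 2) h3)
      have h5 : (fun x => -1 / 2 * ∑ v ∈ Finset.HasAntidiagonal.antidiagonal n,
          SEL.Uc x (v.1 + 1) * ∑ u ∈ Finset.HasAntidiagonal.antidiagonal v.2,
            SEL.aloc x u.1 * SEL.aloc x u.2 +
          -1 / 2 * ∑ u ∈ (Finset.HasAntidiagonal.antidiagonal (n + 1)).filter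
          (fun u => u.1 ≠ 0 ∧ u.2 ≠ 0), SEL.aloc x u.1 * SEL.aloc x u.2) =
          fun x => SEL.aloc x (n + 1) := by
        funext x
        have h6 := SEL.aloc_conv_pr x (n + 1)
        rw [if_neg (Nat.succ_ne_zero n), Finset.Nat.sum_antidiagonal_succ,
          M6_split n (SEL.aloc x) (SEL.aloc_zero_pr x)] at h6
        have h7 : SEL.Uc x 0 = 1 := by simp [SEL.Uc]
        rw [h7] at h6
        dsimp only at h6
        linarith
      rw [h5] at h4
      exact h4

theorem lin_loc (i j e : ℕ) (x : ℝ) : SEL.aloc x i * SEL.aloc x j * SEL.Uc x e =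
    ∑ f ∈ Finset.range (i + j + e + 1), cc i j e f * SEL.Uc x f := by
  obtain ⟨c, hc0⟩ := M6_mul (M6_mul (M6_al i) (M6_al j)) (M6_U e)
  have hc : ∀ x, SEL.aloc x i * SEL.aloc x j * SEL.Uc x e =
      ∑ k ∈ Finset.range (i + j + e + 1), c k * SEL.Uc x k := hc0
  rw [hc x]
  refine Finset.sum_congr rfl fun f hf => ?_
  congr 1
  have := st_prob
  have hcont : ∀ k, Continuous (fun y : ℝ => SEL.Uc (2 * Real.cos y) k) := fun k =>
    (Uc_cont k).comp (by fun_prop)
  unfold cc
  have h1 : ∀ y : ℝ, SEL.aloc (2 * Real.cos y) i * SEL.aloc (2 * Real.cos y) j *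
      SEL.Uc (2 * Real.cos y) e * SEL.Uc (2 * Real.cos y) f =
      ∑ k ∈ Finset.range (i + j + e + 1),
        c k * (SEL.Uc (2 * Real.cos y) k * SEL.Uc (2 * Real.cos y) f) := by
    intro y
    rw [hc (2 * Real.cos y), Finset.sum_mul]
    exact Finset.sum_congr rfl fun k _ => by ring
  simp_rw [h1]
  rw [integral_finsetSum]
  · simp_rw [integral_const_mul, st_orth]
    simp [Finset.mem_range.1 hf]
  · intro k _
    refine Integrable.const_mul ?_ _
    have h2 : Continuous (fun y : ℝ => SEL.Uc (2 * Real.cos y) k * SEL.Uc (2 * Real.cos y) f) :=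
      (hcont k).mul (hcont f)
    have h3 : Continuous (fun z : ℝ => SEL.Uc z k * SEL.Uc z f) := (Uc_cont k).mul (Uc_cont f)
    obtain ⟨C, hC⟩ := isCompact_Icc.exists_bound_of_continuousOn (s := Set.Icc (-2 : ℝ) 2)
      h3.continuousOn
    refine Integrable.of_bound (C := C) h2.aestronglyMeasurable (Eventually.of_forall fun y => ?_)
    exact hC (2 * Real.cos y) ⟨by linarith [Real.neg_one_le_cos y], by linarith [Real.cos_le_one y]⟩

/-! ## Products over the primes -/

theorem M6_div (G : ℕ → ℕ → ℝ) {N : ℕ} (hN : 0 < N) :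
    ∑ M ∈ N.divisors, ∏ p ∈ N.primeFactors, G p (M.factorization p) =
      ∏ p ∈ N.primeFactors, ∑ f ∈ Finset.range (N.factorization p + 1), G p f := by
  induction N using Nat.recOnPosPrimePosCoprime with
  | zero => omega
  | one => simp
  | prime_pow p n hp hn =>
    rw [Nat.primeFactors_prime_pow hn.ne' hp, Finset.prod_singleton, hp.factorization_pow,
      Finsupp.single_eq_same]
    rw [Nat.sum_divisors_prime_pow hp]
    refine Finset.sum_congr rfl fun k _ => ?_
    rw [Finset.prod_singleton, hp.factorization_pow, Finsupp.single_eq_same]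
  | coprime a b ha hb hab iha ihb =>
    have ha0 : a ≠ 0 := by omega
    have hb0 : b ≠ 0 := by omega
    rw [Nat.divisors_mul, Finset.mul_def, Finset.sum_image hab.mul_injOn_divisors,
      Finset.sum_product, hab.primeFactors_mul,
      Finset.prod_union hab.disjoint_primeFactors]
    have e1 : ∏ p ∈ a.primeFactors, ∑ f ∈ Finset.range ((a * b).factorization p + 1), G p f =
        ∏ p ∈ a.primeFactors, ∑ f ∈ Finset.range (a.factorization p + 1), G p f := by
      refine Finset.prod_congr rfl fun p hp => ?_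
      rw [Nat.factorization_mul ha0 hb0, Finsupp.add_apply,
        Nat.factorization_eq_zero_of_not_dvd (n := b) (p := p) fun h => ?_, add_zero]
      have h1 := Nat.mem_primeFactors.1 hp
      exact h1.1.one_lt.ne' (Nat.dvd_one.1 (hab ▸ Nat.dvd_gcd h1.2.1 h))
    have e2 : ∏ p ∈ b.primeFactors, ∑ f ∈ Finset.range ((a * b).factorization p + 1), G p f =
        ∏ p ∈ b.primeFactors, ∑ f ∈ Finset.range (b.factorization p + 1), G p f := by
      refine Finset.prod_congr rfl fun p hp => ?_
      rw [Nat.factorization_mul ha0 hb0, Finsupp.add_apply,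
        Nat.factorization_eq_zero_of_not_dvd (n := a) (p := p) fun h => ?_, zero_add]
      have h1 := Nat.mem_primeFactors.1 hp
      exact h1.1.one_lt.ne' (Nat.dvd_one.1 (hab ▸ Nat.dvd_gcd h h1.2.1))
    rw [e1, e2, ← iha (by omega), ← ihb (by omega), Finset.sum_mul_sum]
    refine Finset.sum_congr rfl fun x hx => Finset.sum_congr rfl fun y hy => ?_
    have hx' := Nat.dvd_of_mem_divisors hx
    have hy' := Nat.dvd_of_mem_divisors hy
    have hx0 : x ≠ 0 := fun h => ha0 (by rw [h, zero_dvd_iff] at hx'; exact hx')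
    have hy0 : y ≠ 0 := fun h => hb0 (by rw [h, zero_dvd_iff] at hy'; exact hy')
    rw [Finset.prod_union hab.disjoint_primeFactors]
    congr 1
    · refine Finset.prod_congr rfl fun p hp => ?_
      dsimp only
      rw [Nat.factorization_mul hx0 hy0, Finsupp.add_apply,
        Nat.factorization_eq_zero_of_not_dvd (n := y) (p := p) fun h => ?_, add_zero]
      have h1 := Nat.mem_primeFactors.1 hp
      exact h1.1.one_lt.ne' (Nat.dvd_one.1 (hab ▸ Nat.dvd_gcd h1.2.1 (h.trans hy')))
    · refine Finset.prod_congr rfl fun p hp => ?_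
      dsimp only
      rw [Nat.factorization_mul hx0 hy0, Finsupp.add_apply,
        Nat.factorization_eq_zero_of_not_dvd (n := x) (p := p) fun h => ?_, zero_add]
      have h1 := Nat.mem_primeFactors.1 hp
      exact h1.1.one_lt.ne' (Nat.dvd_one.1 (hab ▸ Nat.dvd_gcd (h.trans hx') h1.2.1))

theorem M6_ext (g : ℕ → ℕ → ℝ) (hg : ∀ p, g p 0 = 1) {d N : ℕ} (hN : N ≠ 0) (h : d ∣ N) :
    (d.factorization.prod fun p i => g p i) = ∏ p ∈ N.primeFactors, g p (d.factorization p) := by
  refine Finsupp.prod_of_support_subset _ ?_ _ fun p _ => hg p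
  rw [Nat.support_factorization]
  exact Nat.primeFactors_mono h hN

theorem lin {m l n : ℕ} (hm : 0 < m) (hl : 0 < l) (hn : 0 < n) (θ : ℕ → ℝ) :
    al θ m * al θ l * hs θ n = ∑ M ∈ (m * l * n).divisors, CC m l n M * hs θ M := by
  have hN : 0 < m * l * n := by positivity
  have hal : ∀ d, d ∣ m * l * n → al θ d =
      ∏ p ∈ (m * l * n).primeFactors, SEL.aloc (θ p) (d.factorization p) := fun d hd =>
    M6_ext (fun p i => SEL.aloc (θ p) i) (fun p => SEL.aloc_zero_pr _) hN.ne' hd
  have hhs : ∀ d, d ∣ m * l * n → hs θ d =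
      ∏ p ∈ (m * l * n).primeFactors, SEL.Uc (θ p) (d.factorization p) := fun d hd =>
    M6_ext (fun p i => SEL.Uc (θ p) i) (fun p => by simp [SEL.Uc]) hN.ne' hd
  have hdm : m ∣ m * l * n := by rw [mul_assoc]; exact dvd_mul_right _ _
  have hdl : l ∣ m * l * n := (dvd_mul_left l m).trans (dvd_mul_right _ _)
  have hdn : n ∣ m * l * n := dvd_mul_left _ _
  have h1 : ∑ M ∈ (m * l * n).divisors, CC m l n M * hs θ M =
      ∏ p ∈ (m * l * n).primeFactors, ∑ f ∈ Finset.range ((m * l * n).factorization p + 1),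
        cc (m.factorization p) (l.factorization p) (n.factorization p) f * SEL.Uc (θ p) f := by
    rw [← M6_div (fun p f => cc (m.factorization p) (l.factorization p) (n.factorization p) f *
          SEL.Uc (θ p) f) hN]
    refine Finset.sum_congr rfl fun M hM => ?_
    have hM' := Nat.dvd_of_mem_divisors hM
    rw [CC, if_pos hM', hhs M hM', ← Finset.prod_mul_distrib]
  rw [h1, hal m hdm, hal l hdl, hhs n hdn, ← Finset.prod_mul_distrib,
    ← Finset.prod_mul_distrib]
  refine Finset.prod_congr rfl fun p _ => ?_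
  rw [lin_loc, Nat.factorization_mul (by positivity) hn.ne', Nat.factorization_mul hm.ne' hl.ne']
  rfl

theorem M6_rt {x : ℝ} (hx : |x| ≤ 2) : ‖SEL.rt x‖ = 1 := by
  have h1 : x ^ 2 ≤ 4 := by
    have := abs_le.1 hx
    nlinarith
  rw [SEL.rt, if_pos h1]
  have h2 : ‖(⟨x / 2, √(4 - x ^ 2) / 2⟩ : ℂ)‖ ^ 2 = 1 := by
    rw [Complex.sq_norm, Complex.normSq_mk]
    have := Real.mul_self_sqrt (show 0 ≤ 4 - x ^ 2 by linarith)
    nlinarith
  exact (pow_eq_one_iff_of_nonneg (norm_nonneg _) two_ne_zero).1 h2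

theorem M6_two_cos (y : ℝ) : |2 * Real.cos y| ≤ 2 := by
  rw [abs_mul, abs_two]
  linarith [Real.abs_cos_le_one y]

theorem M6_cc_le (i j e f : ℕ) : |cc i j e f| ≤ ((i : ℝ) + 1) * (j + 1) * (e + 1) * (f + 1) := by
  have := st_prob
  unfold cc
  have hU : ∀ (y : ℝ) k, |SEL.Uc (2 * Real.cos y) k| ≤ k + 1 := by
    intro y k
    have h := SEL.Uc_le_pr (2 * Real.cos y) k
    rwa [M6_rt (M6_two_cos y), one_pow, mul_one] at h
  have hA : ∀ (y : ℝ) k, |SEL.aloc (2 * Real.cos y) k| ≤ k + 1 := by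
    intro y k
    have h := SEL.aloc_le_pr (2 * Real.cos y) k
    rwa [M6_rt (M6_two_cos y), one_pow, mul_one] at h
  have h1 : ∀ y : ℝ, ‖SEL.aloc (2 * Real.cos y) i * SEL.aloc (2 * Real.cos y) j *
    SEL.Uc (2 * Real.cos y) e * SEL.Uc (2 * Real.cos y) f‖ ≤
      ((i : ℝ) + 1) * (j + 1) * (e + 1) * (f + 1) := by
    intro y
    rw [Real.norm_eq_abs, abs_mul, abs_mul, abs_mul]
    have a1 := hA y i
    have a2 := hA y j
    have a3 := hU y e
    have a4 := hU y f
    gcongr
  have h2 := norm_integral_le_of_norm_le_const (μ := st) (Eventually.of_forall h1)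
  simpa using h2

theorem M6_two_pow (n : ℕ) : (n : ℝ) + 1 ≤ 2 ^ n := by
  exact_mod_cast Nat.lt_two_pow_self (n := n)

theorem CC_bd {m l n : ℕ} (hm : 0 < m) (hl : 0 < l) (hn : 0 < n) (M : ℕ) :
    |CC m l n M| ≤ ((m * l * n : ℕ) : ℝ) ^ 2 := by
  have hN : 0 < m * l * n := by positivity
  unfold CC
  split_ifs with h
  · rw [Finset.abs_prod]
    have h1 : ((m * l * n : ℕ) : ℝ) ^ 2 =
        ∏ p ∈ (m * l * n).primeFactors, ((p : ℝ) ^ ((m * l * n).factorization p)) ^ 2 := by
      rw [Finset.prod_pow]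
      congr 1
      have h2 := Nat.prod_factorization_pow_eq_self hN.ne'
      rw [Nat.prod_factorization_eq_prod_primeFactors] at h2
      exact_mod_cast h2.symm
    rw [h1]
    refine Finset.prod_le_prod (fun p _ => abs_nonneg _) fun p hp => ?_
    have hp' := (Nat.mem_primeFactors.1 hp).1
    have hfac : (m * l * n).factorization p =
        m.factorization p + l.factorization p + n.factorization p := by
      rw [Nat.factorization_mul (by positivity) hn.ne', Nat.factorization_mul hm.ne' hl.ne']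
      rfl
    set i := m.factorization p
    set j := l.factorization p
    set e := n.factorization p
    have hf : M.factorization p ≤ i + j + e := by
      rw [← hfac]
      exact (Nat.factorization_le_iff_dvd (fun h0 => by
        rw [h0, zero_dvd_iff] at h
        omega) hN.ne').2 h p
    have h2 : ((M.factorization p : ℕ) : ℝ) + 1 ≤ 2 ^ (i + j + e) := by
      refine le_trans ?_ (M6_two_pow _)
      have : ((M.factorization p : ℕ) : ℝ) ≤ ((i + j + e : ℕ) : ℝ) := by exact_mod_cast hf
      linarith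
    have h3 : (2 : ℝ) ≤ p := by exact_mod_cast hp'.two_le
    calc |cc i j e (M.factorization p)| ≤ ((i : ℝ) + 1) * (j + 1) * (e + 1) *
          (M.factorization p + 1) := M6_cc_le _ _ _ _
      _ ≤ 2 ^ i * 2 ^ j * 2 ^ e * 2 ^ (i + j + e) := by
          have a1 := M6_two_pow i
          have a2 := M6_two_pow j
          have a3 := M6_two_pow e
          gcongr
      _ = (2 ^ (i + j + e)) ^ 2 := by ring
      _ ≤ ((p : ℝ) ^ (i + j + e)) ^ 2 := by gcongr
      _ = ((p : ℝ) ^ ((m * l * n).factorization p)) ^ 2 := by rw [hfac]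
  · simp only [abs_zero]
    positivity

end Pool.Agent.WS
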