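import Pool.Agent.Lib_helper98.WSF.H1
import Pool.Agent.Lib_helper98.WSF.M6
import Pool.Agent.Lib_helper98.WAF.B1a

/-!
# WS block S1A (SLI): the first mean value as a linear functional
-/

namespace Pool.Agent.WS

open Complex MeasureTheory Filter Topology
open scoped MatrixGroups ENNReal
open Pool.Agent.GL2 (qs HData FD)
open Pool.Agent.WA (CForm pn geo Lf gd gk omk om Fam rho PsiB)
open Pool.Agent.SEL (NL Adm)

theorem RS_spec (L : ℝ) : ∀ r ∈ RS L, 0 < r ∧ r ≤ NL L * NL L ∧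
    r ∈ Nat.smoothNumbers (NL L) := by
  intro r hr
  rw [RS, Nat.mem_smoothNumbersUpTo] at hr
  exact ⟨Nat.pos_of_ne_zero (Nat.ne_zero_of_mem_smoothNumbers hr.2), hr.1, hr.2⟩

theorem s1a_mem {L : ℝ} {m l r : ℕ} (hm : m ∈ Finset.Ico 1 (NL L)) (hl : l ∈ Finset.Ico 1 (NL L))
    (hr : r ∣ m * l) : r ∈ RS L := by
  rw [Finset.mem_Ico] at hm hl
  rw [RS, Nat.mem_smoothNumbersUpTo]
  have hml : 0 < m * l := Nat.mul_pos hm.1 hl.1
  refine ⟨(Nat.le_of_dvd hml hr).trans (Nat.mul_le_mul hm.2.le hl.2.le), ?_⟩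
  rw [Nat.mem_smoothNumbers']
  intro p hp hpr
  rcases (Nat.Prime.dvd_mul hp).1 (hpr.trans hr) with h | h
  · exact lt_of_le_of_lt (Nat.le_of_dvd hm.1 h) hm.2
  · exact lt_of_le_of_lt (Nat.le_of_dvd hl.1 h) hl.2

theorem s1a_int {W : ℝ → ℂ} (hW : Measurable W) {M V : ℝ} (hWb : ∀ v, ‖W v‖ ≤ M)
    (hWs : ∀ v, V < |v| → W v = 0) : Integrable W := by
  have h1 : IntegrableOn W (Set.Icc (-V) V) := by
    refine Measure.integrableOn_of_bounded (M := M) ?_ hW.aestronglyMeasurable ?_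
    · rw [Real.volume_Icc]; exact ENNReal.ofReal_ne_top
    · exact ae_of_all _ hWb
  rwa [integrableOn_iff_integrable_of_support_subset] at h1
  intro v hv
  by_contra hc
  apply hv
  apply hWs
  rw [Set.mem_Icc, not_and_or, not_le, not_le] at hc
  rcases hc with h | h
  · exact lt_abs.2 (Or.inr (by linarith))
  · exact lt_abs.2 (Or.inl h)

theorem s1a_int2 {k : ℕ} {a : ℕ → ℝ} (H : HData k a) {W : ℝ → ℂ} (hW : Measurable W) {M V : ℝ}
    (hWb : ∀ v, ‖W v‖ ≤ M) (hWs : ∀ v, V < |v| → W v = 0) (s : ℝ) :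
    Integrable (fun u : ℝ => W (u - s) * geo k (fun n => (a n : ℂ)) 0 u) := by
  obtain ⟨C, hC⟩ := WA.geo_bdd (WA.cf_of_hdata H)
  have h1 : Integrable (fun u : ℝ => W (u - s)) := (s1a_int hW hWb hWs).comp_sub_right s
  refine h1.mul_bdd (c := C) ?_ (ae_of_all _ fun u => hC 0 u)
  exact (WA.geo_cont (WA.cf_of_hdata H) 0).aestronglyMeasurable

theorem s1a_shift {k : ℕ} {a : ℕ → ℝ} (W : ℝ → ℂ) (s : ℝ) :
    ∫ v : ℝ, geo k (fun n => (a n : ℂ)) 0 (v + s) * W v =
      ∫ u : ℝ, W (u - s) * geo k (fun n => (a n : ℂ)) 0 u := by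
  rw [← integral_add_right_eq_self (fun u : ℝ => W (u - s) * geo k (fun n => (a n : ℂ)) 0 u) s]
  refine integral_congr_ae (ae_of_all _ fun v => ?_)
  simp only [add_sub_cancel_right]
  ring

theorem s1_lin {k : ℕ} {a : ℕ → ℝ} (H : HData k a) (L : ℝ) (Θ : ℝ → ℝ) {W : ℝ → ℂ}
    (hW : Measurable W) {M V : ℝ} (hWb : ∀ v, ‖W v‖ ≤ M) (hWs : ∀ v, V < |v| → W v = 0) :
    ∫ v, ff k a L Θ v * W v = ∑ r ∈ RS L, (SEL.lam k a r : ℂ) *
      ∫ u, Wr L Θ W r u * geo k (fun n => (a n : ℂ)) 0 u := by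
  have hint := fun s => s1a_int2 H hW hWb hWs s
  have hint2 : ∀ s, Integrable (fun v : ℝ => geo k (fun n => (a n : ℂ)) 0 (v + s) * W v) := by
    intro s
    have h1 := (hint s).comp_add_right s
    refine h1.congr (ae_of_all _ fun v => ?_)
    simp only [add_sub_cancel_right]
    ring
  -- left side
  have e1 : ∫ v, ff k a L Θ v * W v = ∑ m ∈ Finset.Ico 1 (NL L), ∑ l ∈ Finset.Ico 1 (NL L),
      ((be k a L Θ m * be k a L Θ l / (√m * √l) : ℝ) : ℂ) *
        ∫ u : ℝ, W (u - (Real.log m - Real.log l)) * geo k (fun n => (a n : ℂ)) 0 u := by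
    have e2 : ∀ v, ff k a L Θ v * W v = ∑ m ∈ Finset.Ico 1 (NL L), ∑ l ∈ Finset.Ico 1 (NL L),
        ((be k a L Θ m * be k a L Θ l / (√m * √l) : ℝ) : ℂ) *
          (geo k (fun n => (a n : ℂ)) 0 (v + (Real.log m - Real.log l)) * W v) := by
      intro v
      simp only [ff, Finset.sum_mul, mul_assoc]
    simp only [e2]
    rw [integral_finsetSum _ fun m _ => integrable_finsetSum _ fun l _ =>
      (hint2 _).const_mul _]
    refine Finset.sum_congr rfl fun m _ => ?_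
    rw [integral_finsetSum _ fun l _ => (hint2 _).const_mul _]
    refine Finset.sum_congr rfl fun l _ => ?_
    rw [integral_const_mul, s1a_shift]
  -- right side
  have e3 : ∀ r, ∫ u, Wr L Θ W r u * geo k (fun n => (a n : ℂ)) 0 u =
      ∑ m ∈ Finset.Ico 1 (NL L), ∑ l ∈ Finset.Ico 1 (NL L),
        ((xm L Θ m * xm L Θ l * CC m l 1 r : ℝ) : ℂ) *
        ∫ u : ℝ, W (u - (Real.log m - Real.log l)) * geo k (fun n => (a n : ℂ)) 0 u := by
    intro r
    have e2 : ∀ u, Wr L Θ W r u * geo k (fun n => (a n : ℂ)) 0 u =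
        ∑ m ∈ Finset.Ico 1 (NL L), ∑ l ∈ Finset.Ico 1 (NL L),
        ((xm L Θ m * xm L Θ l * CC m l 1 r : ℝ) : ℂ) *
          (W (u - (Real.log m - Real.log l)) * geo k (fun n => (a n : ℂ)) 0 u) := by
      intro u
      simp only [Wr, Finset.sum_mul, mul_assoc]
    simp only [e2]
    rw [integral_finsetSum _ fun m _ => integrable_finsetSum _ fun l _ =>
      (hint _).const_mul _]
    refine Finset.sum_congr rfl fun m _ => ?_
    rw [integral_finsetSum _ fun l _ => (hint _).const_mul _]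
    refine Finset.sum_congr rfl fun l _ => ?_
    rw [integral_const_mul]
  rw [e1]
  simp only [e3, Finset.mul_sum]
  rw [Finset.sum_comm]
  conv_rhs => rw [Finset.sum_comm]
  rw [Finset.sum_comm]
  refine Finset.sum_congr rfl fun m hm => ?_
  conv_rhs => rw [Finset.sum_comm]
  refine Finset.sum_congr rfl fun l hl => ?_
  have hm1 := (Finset.mem_Ico.1 hm).1
  have hl1 := (Finset.mem_Ico.1 hl).1
  -- linearisation
  have h1 := lin (m := m) (l := l) (n := 1) hm1 hl1 one_pos (SEL.lam k a)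
  rw [hs_one, mul_one] at h1
  have h2 : ∑ M ∈ (m * l * 1).divisors, CC m l 1 M * hs (SEL.lam k a) M =
      ∑ r ∈ RS L, CC m l 1 r * SEL.lam k a r := by
    rw [mul_one]
    have hsub : (m * l).divisors ⊆ RS L := by
      intro r hr
      exact s1a_mem hm hl (Nat.mem_divisors.1 hr).1
    rw [← Finset.sum_subset hsub]
    · refine Finset.sum_congr rfl fun r hr => ?_
      rw [lam_hs H (Nat.pos_of_mem_divisors hr)]
    · intro r _ hr
      have : ¬ r ∣ m * l * 1 := by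
        intro h
        rw [mul_one] at h
        exact hr (Nat.mem_divisors.2 ⟨h, (Nat.mul_pos hm1 hl1).ne'⟩)
      rw [CC, if_neg this, zero_mul]
  rw [h2] at h1
  have h3 : be k a L Θ m * be k a L Θ l / (√m * √l) =
      ∑ r ∈ RS L, SEL.lam k a r * (xm L Θ m * xm L Θ l * CC m l 1 r) := by
    have e4 : be k a L Θ m * be k a L Θ l / (√m * √l) =
        xm L Θ m * xm L Θ l * (al (SEL.lam k a) m * al (SEL.lam k a) l) := by
      simp only [be, xm]
      rw [div_mul_div_comm]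
      ring
    rw [e4, h1, Finset.mul_sum]
    refine Finset.sum_congr rfl fun r _ => ?_
    ring
  rw [h3]
  push_cast
  rw [Finset.sum_mul]
  refine Finset.sum_congr rfl fun r _ => ?_
  ring

theorem s1a_xm {L : ℝ} {Θ : ℝ → ℝ} (hΘ : ∀ x, 0 ≤ Θ x ∧ Θ x ≤ 1) {m : ℕ} (hm : 1 ≤ m) :
    |xm L Θ m| ≤ 1 := by
  have h1 : (1 : ℝ) ≤ √m := by
    rw [Real.one_le_sqrt]; exact_mod_cast hm
  rw [xm, abs_div, abs_of_nonneg (hΘ _).1, abs_of_nonneg (by positivity),
    div_le_one (by linarith)]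
  exact (hΘ _).2.trans h1

theorem s1a_log {L : ℝ} {m : ℕ} (hm : m ∈ Finset.Ico 1 (NL L)) :
    0 ≤ Real.log m ∧ Real.log m ≤ L := by
  rw [Finset.mem_Ico] at hm
  have h1 : (1 : ℝ) ≤ m := by exact_mod_cast hm.1
  refine ⟨Real.log_nonneg h1, ?_⟩
  have h2 : (m : ℝ) < Real.exp L := by
    have := hm.2
    rw [NL, Nat.lt_ceil] at this
    exact this
  rw [← Real.log_exp L]
  exact Real.log_le_log (by linarith) h2.le

theorem wr_bound {L : ℝ} (hL : 0 ≤ L) {Θ : ℝ → ℝ} (hΘ : ∀ x, 0 ≤ Θ x ∧ Θ x ≤ 1) {W : ℝ → ℂ}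
    (hW : Measurable W) {M V : ℝ} (hWb : ∀ v, ‖W v‖ ≤ M) (hWs : ∀ v, V < |v| → W v = 0) (r : ℕ) :
    Measurable (Wr L Θ W r) ∧ (∀ u, ‖Wr L Θ W r u‖ ≤ (NL L : ℝ) ^ 6 * M) ∧
      ∀ u, V + L < |u| → Wr L Θ W r u = 0 := by
  have hM : 0 ≤ M := (norm_nonneg _).trans (hWb 0)
  refine ⟨?_, ?_, ?_⟩
  · unfold Wr
    refine Finset.measurable_fun_sum _ fun m _ => Finset.measurable_fun_sum _ fun l _ => ?_
    exact (hW.comp (measurable_id.sub_const _)).const_mul _
  · intro u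
    have hterm : ∀ m ∈ Finset.Ico 1 (NL L), ∀ l ∈ Finset.Ico 1 (NL L),
        ‖((xm L Θ m * xm L Θ l * CC m l 1 r : ℝ) : ℂ) *
          W (u - (Real.log m - Real.log l))‖ ≤ (NL L : ℝ) ^ 4 * M := by
      intro m hm l hl
      have hm' := Finset.mem_Ico.1 hm
      have hl' := Finset.mem_Ico.1 hl
      rw [norm_mul, Complex.norm_real, Real.norm_eq_abs, abs_mul, abs_mul]
      have h1 := s1a_xm (L := L) hΘ hm'.1
      have h2 := s1a_xm (L := L) hΘ hl'.1
      have h3 := CC_bd (m := m) (l := l) (n := 1) hm'.1 hl'.1 one_pos r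
      have h4 : (((m * l * 1 : ℕ) : ℝ)) ^ 2 ≤ (NL L : ℝ) ^ 4 := by
        have : (((m * l * 1 : ℕ) : ℝ)) ≤ (NL L : ℝ) ^ 2 := by
          push_cast
          rw [mul_one, pow_two]
          exact mul_le_mul (by exact_mod_cast hm'.2.le) (by exact_mod_cast hl'.2.le)
            (Nat.cast_nonneg _) (Nat.cast_nonneg _)
        calc (((m * l * 1 : ℕ) : ℝ)) ^ 2 ≤ ((NL L : ℝ) ^ 2) ^ 2 :=
              pow_le_pow_left₀ (Nat.cast_nonneg _) this 2
          _ = (NL L : ℝ) ^ 4 := by ring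
      have h5 : |xm L Θ m| * |xm L Θ l| ≤ 1 := mul_le_one₀ h1 (abs_nonneg _) h2
      have h6 : |xm L Θ m| * |xm L Θ l| * |CC m l 1 r| ≤ (NL L : ℝ) ^ 4 := by
        calc |xm L Θ m| * |xm L Θ l| * |CC m l 1 r| ≤ 1 * |CC m l 1 r| :=
              mul_le_mul_of_nonneg_right h5 (abs_nonneg _)
          _ ≤ (NL L : ℝ) ^ 4 := by rw [one_mul]; exact h3.trans h4
      exact mul_le_mul h6 (hWb _) (norm_nonneg _) (by positivity)
    unfold Wr
    have hcard : ((Finset.Ico 1 (NL L)).card : ℝ) ≤ NL L := by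
      rw [Nat.card_Ico]
      exact_mod_cast Nat.sub_le _ _
    have h7 : ∀ m ∈ Finset.Ico 1 (NL L), ‖∑ l ∈ Finset.Ico 1 (NL L),
        ((xm L Θ m * xm L Θ l * CC m l 1 r : ℝ) : ℂ) *
          W (u - (Real.log m - Real.log l))‖ ≤ NL L * ((NL L : ℝ) ^ 4 * M) := by
      intro m hm
      refine (norm_sum_le_of_le _ (fun l hl => hterm m hm l hl)).trans ?_
      rw [Finset.sum_const, nsmul_eq_mul]
      exact mul_le_mul_of_nonneg_right hcard (by positivity)
    refine (norm_sum_le_of_le _ h7).trans ?_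
    rw [Finset.sum_const, nsmul_eq_mul]
    calc ((Finset.Ico 1 (NL L)).card : ℝ) * (NL L * ((NL L : ℝ) ^ 4 * M)) ≤
          NL L * (NL L * ((NL L : ℝ) ^ 4 * M)) :=
          mul_le_mul_of_nonneg_right hcard (by positivity)
      _ = (NL L : ℝ) ^ 6 * M := by ring
  · intro u hu
    unfold Wr
    refine Finset.sum_eq_zero fun m hm => Finset.sum_eq_zero fun l hl => ?_
    have hm1 := s1a_log hm
    have hl1 := s1a_log hl
    rw [hWs, mul_zero]
    have h1 : |Real.log m - Real.log l| ≤ L := by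
      rw [abs_le]; constructor <;> linarith [hm1.1, hm1.2, hl1.1, hl1.2]
    have h2 := abs_sub_abs_le_abs_sub u (Real.log m - Real.log l)
    linarith

end Pool.Agent.WS
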