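import Pool.Agent.Lib_helper98.WS.Defs

/-! # WS block S1B (SPL), helper4 -/

namespace Pool.Agent.WS

open Complex MeasureTheory Filter Topology
open Pool.Agent.SEL (NL)
open Pool.Agent.SQS (hat PL1)
open Pool.Agent.ABS (Nice hat_sum hat_shift hat_const_mul)

theorem s1b_nice {W : ℝ → ℂ} (hW : Measurable W) {M V : ℝ}
    (hWb : ∀ v, ‖W v‖ ≤ M) (hWs : ∀ v, V < |v| → W v = 0) : Nice W := by
  refine ⟨hW, ?_, M, hWb⟩
  have h1 : IntegrableOn W (Set.Icc (-V) V) := by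
    refine Measure.integrableOn_of_bounded (M := M) (by simp) hW.aestronglyMeasurable
      (Eventually.of_forall hWb)
  have h2 : Function.support W ⊆ Set.Icc (-V) V := by
    intro v hv
    by_contra h
    apply hv
    apply hWs
    rw [Set.mem_Icc, ← abs_le] at h
    exact not_le.mp h
  exact (integrableOn_iff_integrable_of_support_subset h2).1 h1

theorem s1b_shift_nice {W : ℝ → ℂ} (H : Nice W) (a : ℝ) : Nice (fun u => W (u - a)) := by
  simpa [sub_eq_add_neg] using H.shift (-a)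

theorem s1b_hat_shift (W : ℝ → ℂ) (a t : ℝ) :
    hat (fun u => W (u - a)) t = cexp (t * a * I) * hat W t := by
  have := hat_shift W (-a) t
  simp only [sub_eq_add_neg]
  rw [this]
  congr 2
  push_cast
  ring

theorem s1b_wr_nice (L : ℝ) (Θ : ℝ → ℝ) {W : ℝ → ℂ} (H : Nice W) (r : ℕ) :
    Nice (Wr L Θ W r) := by
  unfold Wr
  exact Nice.sum _ fun m _ => Nice.sum _ fun l _ => (s1b_shift_nice H _).const_mul _

theorem s1b_wr_hat (L : ℝ) (Θ : ℝ → ℝ) {W : ℝ → ℂ} (H : Nice W) (r : ℕ) (t : ℝ) :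
    hat (Wr L Θ W r) t = AA L Θ t r * hat W t := by
  have e : hat (Wr L Θ W r) t = ∑ m ∈ Finset.Ico 1 (NL L), ∑ l ∈ Finset.Ico 1 (NL L),
      ((xm L Θ m * xm L Θ l * CC m l 1 r : ℝ) : ℂ) *
        (cexp (t * ((Real.log m - Real.log l : ℝ) : ℂ) * I) * hat W t) := by
    have h1 : hat (Wr L Θ W r) t = ∑ m ∈ Finset.Ico 1 (NL L),
        hat (fun u => ∑ l ∈ Finset.Ico 1 (NL L), ((xm L Θ m * xm L Θ l * CC m l 1 r : ℝ) : ℂ) *
          W (u - (Real.log m - Real.log l))) t :=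
      hat_sum _ (fun m _ => (Nice.sum _ fun l _ => (s1b_shift_nice H _).const_mul _).int) t
    rw [h1]
    refine Finset.sum_congr rfl fun m _ => ?_
    rw [hat_sum _ (fun l _ => ((s1b_shift_nice H _).const_mul _).int)]
    refine Finset.sum_congr rfl fun l _ => ?_
    rw [hat_const_mul, s1b_hat_shift]
  rw [e]
  unfold AA
  rw [Finset.sum_mul]
  refine Finset.sum_congr rfl fun m _ => ?_
  rw [Finset.sum_mul]
  exact Finset.sum_congr rfl fun l _ => by ring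

theorem s1b_psf_nice (L : ℝ) (Θ : ℝ → ℝ) {W : ℝ → ℂ} (H : Nice W) (R : Finset ℕ) (d : ℕ) :
    Nice (PsF R (Wr L Θ W) d) := by
  unfold PsF
  exact Nice.sum _ fun r _ => Nice.sum _ fun p _ =>
    (s1b_shift_nice (s1b_wr_nice L Θ H r) _).const_mul _

theorem s1b_psf_hat (L : ℝ) (Θ : ℝ → ℝ) {W : ℝ → ℂ} (H : Nice W) (R : Finset ℕ) (d : ℕ)
    (t : ℝ) : hat (PsF R (Wr L Θ W) d) t = hat W t * PsH R (AA L Θ t) d t := by
  have h1 : hat (PsF R (Wr L Θ W) d) t = ∑ r ∈ R,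
      hat (fun u => ∑ p ∈ r.divisorsAntidiagonal.filter (fun p => d ∣ p.2),
        ((1 / √r : ℝ) : ℂ) * Wr L Θ W r (u - Real.log ((p.1 : ℝ) / p.2))) t :=
    hat_sum _ (fun r _ => (Nice.sum _ fun p _ =>
      (s1b_shift_nice (s1b_wr_nice L Θ H r) _).const_mul _).int) t
  rw [h1]
  unfold PsH
  rw [Finset.mul_sum]
  refine Finset.sum_congr rfl fun r _ => ?_
  rw [hat_sum _ (fun p _ => ((s1b_shift_nice (s1b_wr_nice L Θ H r) _).const_mul _).int),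
    Finset.mul_sum]
  refine Finset.sum_congr rfl fun p _ => ?_
  rw [hat_const_mul, s1b_hat_shift, s1b_wr_hat L Θ H]
  ring

theorem s1_planch (L : ℝ) (Θ : ℝ → ℝ) {W : ℝ → ℂ} (hW : Measurable W) {M V : ℝ}
    (hWb : ∀ v, ‖W v‖ ≤ M) (hWs : ∀ v, V < |v| → W v = 0) (d : ℕ) :
    Integrable (fun t : ℝ => ‖hat W t‖ ^ 2 * ‖PsH (RS L) (AA L Θ t) d t‖ ^ 2) ∧
    ∫ u, ‖PsF (RS L) (Wr L Θ W) d u‖ ^ 2 = 1 / (2 * Real.pi) *
      ∫ t, ‖hat W t‖ ^ 2 * ‖PsH (RS L) (AA L Θ t) d t‖ ^ 2 := by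
  have H := s1b_nice hW hWb hWs
  have HP := s1b_psf_nice L Θ H (RS L) d
  obtain ⟨h1, h2⟩ := PL1 _ HP.int HP.sq
  have e : (fun t : ℝ => ‖hat (PsF (RS L) (Wr L Θ W) d) t‖ ^ 2) =
      fun t : ℝ => ‖hat W t‖ ^ 2 * ‖PsH (RS L) (AA L Θ t) d t‖ ^ 2 := by
    funext t
    rw [s1b_psf_hat L Θ H, norm_mul, mul_pow]
  rw [e] at h1 h2
  refine ⟨h1, ?_⟩
  rw [h2]
  have := Real.pi_pos
  field_simp

end Pool.Agent.WS
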