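import Pool.Agent.Lib_helper98.WSF.M1
import Pool.Agent.Lib_helper68.SEL.Z1

/-! # Block M2 (KER): the local factor -/

namespace Pool.Agent.WS

open Complex MeasureTheory Filter Topology
open Pool.Agent.SEL (NL Adm)

theorem M2_congr {f g : ℕ → ℂ} {a : ℂ} (h : HasSum f a) (hfg : ∀ n, f n = g n) : HasSum g a := by
  rwa [← funext hfg]

theorem M2_rt {x : ℝ} (hx : |x| ≤ 2) : ‖SEL.rt x‖ = 1 := by
  have h1 : x ^ 2 ≤ 4 := by
    have := abs_le.1 hx
    nlinarith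
  rw [SEL.rt, if_pos h1]
  have h2 : ‖(⟨x / 2, √(4 - x ^ 2) / 2⟩ : ℂ)‖ ^ 2 = 1 := by
    rw [Complex.sq_norm, Complex.normSq_mk]
    have := Real.mul_self_sqrt (show 0 ≤ 4 - x ^ 2 by linarith)
    nlinarith
  exact (pow_eq_one_iff_of_nonneg (norm_nonneg _) two_ne_zero).1 h2

theorem M2_Uc_le {x : ℝ} (hx : |x| ≤ 2) (i : ℕ) : |SEL.Uc x i| ≤ i + 1 := by
  have h := SEL.Uc_le_pr x i
  rwa [M2_rt hx, one_pow, mul_one] at h

/-- the coefficients of `U_i / E` -/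
noncomputable def M2_c (x : ℂ) (i ν : ℕ) : ℂ :=
  ∑ α ∈ Finset.range (min i ν + 1), x ^ (ν + i - 2 * α)

theorem M2_c_zero (x : ℂ) (i : ℕ) : M2_c x i 0 = x ^ i := by
  simp [M2_c]

theorem M2_c_succ (x : ℂ) (i ν : ℕ) :
    M2_c x i (ν + 1) = x * M2_c x i ν + if ν < i then x ^ (i - ν - 1) else 0 := by
  unfold M2_c
  rw [Finset.mul_sum]
  split_ifs with h
  · have h1 : min i (ν + 1) = ν + 1 := by omega
    have h2 : min i ν = ν := by omega
    rw [h1, h2, Finset.sum_range_succ]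
    congr 1
    · refine Finset.sum_congr rfl fun α hα => ?_
      rw [← pow_succ']
      congr 1
      have := Finset.mem_range.1 hα
      omega
    · congr 1
      omega
  · have h1 : min i (ν + 1) = i := by omega
    have h2 : min i ν = i := by omega
    rw [h1, h2, add_zero]
    refine Finset.sum_congr rfl fun α hα => ?_
    rw [← pow_succ']
    congr 1
    have := Finset.mem_range.1 hα
    omega

theorem M2_c_le {x : ℂ} (hx : ‖x‖ < 1) (i ν : ℕ) : ‖M2_c x i ν‖ ≤ (i + 1) * ‖x‖ ^ (ν - i) := by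
  unfold M2_c
  have h1 : ∀ α ∈ Finset.range (min i ν + 1), ‖x ^ (ν + i - 2 * α)‖ ≤ ‖x‖ ^ (ν - i) := by
    intro α hα
    have := Finset.mem_range.1 hα
    rw [norm_pow]
    exact pow_le_pow_of_le_one (norm_nonneg _) hx.le (by omega)
  refine (norm_sum_le_of_le _ h1).trans ?_
  rw [Finset.sum_const, Finset.card_range, nsmul_eq_mul]
  have : ((min i ν + 1 : ℕ) : ℝ) ≤ i + 1 := by
    have : min i ν + 1 ≤ i + 1 := by omega
    exact_mod_cast this
  gcongr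

theorem M2_sumc {x : ℂ} (hx : ‖x‖ < 1) (i : ℕ) :
    Summable (fun ν : ℕ => ‖M2_c x i ν‖ * ((ν : ℝ) + 1)) := by
  have h0 : Summable (fun ν : ℕ => ((ν : ℝ) + (i + 1)) * ‖x‖ ^ ν) := by
    have h2 := summable_pow_mul_geometric_of_norm_lt_one 1 (r := ‖x‖) (by simpa using hx)
    have h3 := (summable_geometric_of_lt_one (norm_nonneg x) hx).mul_left ((i : ℝ) + 1)
    refine (h2.add h3).congr fun j => by ring
  have h1 : Summable (fun ν : ℕ => ((i : ℝ) + 1) * ‖x‖ ^ (ν - i) * ((ν : ℝ) + 1)) := by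
    rw [← summable_nat_add_iff i]
    refine (h0.mul_left ((i : ℝ) + 1)).congr fun ν => ?_
    rw [Nat.add_sub_cancel]
    push_cast
    ring
  refine Summable.of_nonneg_of_le (fun ν => by positivity) (fun ν => ?_) h1
  exact mul_le_mul_of_nonneg_right (M2_c_le hx i ν) (by positivity)

theorem M2_sumcU {θ : ℝ} (hθ : |θ| ≤ 2) {x : ℂ} (hx : ‖x‖ < 1) (i : ℕ) :
    Summable (fun ν : ℕ => M2_c x i ν * (SEL.Uc θ ν : ℂ)) := by
  refine Summable.of_norm_bounded (M2_sumc hx i) fun ν => ?_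
  rw [norm_mul, Complex.norm_real, Real.norm_eq_abs]
  exact mul_le_mul_of_nonneg_left (M2_Uc_le hθ ν) (norm_nonneg _)

theorem M2_key {θ : ℝ} (hθ : |θ| ≤ 2) {x : ℂ} (hx : ‖x‖ < 1) (i : ℕ) :
    EE θ x * ∑' ν : ℕ, M2_c x i ν * (SEL.Uc θ ν : ℂ) = (SEL.Uc θ i : ℂ) := by
  set c := M2_c x i with hc
  set U : ℕ → ℂ := fun ν => (SEL.Uc θ ν : ℂ) with hU
  have hs0 : Summable (fun ν : ℕ => c ν * U ν) := M2_sumcU hθ hx i
  have hUle : ∀ ν, ‖U ν‖ ≤ (ν : ℝ) + 1 := by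
    intro ν
    rw [hU]
    dsimp only
    rw [Complex.norm_real, Real.norm_eq_abs]
    exact M2_Uc_le hθ ν
  have hcn := M2_sumc hx i
  have hs1 : Summable (fun ν : ℕ => c ν * U (ν + 1)) := by
    refine Summable.of_norm_bounded (hcn.mul_left 2) fun ν => ?_
    rw [norm_mul]
    have := hUle (ν + 1)
    push_cast at this
    calc ‖c ν‖ * ‖U (ν + 1)‖ ≤ ‖c ν‖ * (2 * ((ν : ℝ) + 1)) :=
          mul_le_mul_of_nonneg_left (by linarith [(Nat.cast_nonneg ν : (0 : ℝ) ≤ ν)]) (norm_nonneg _)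
      _ = 2 * (‖c ν‖ * ((ν : ℝ) + 1)) := by ring
  have hs2 : Summable (fun ν : ℕ => c (ν + 1) * U ν) := by
    refine Summable.of_norm_bounded ((summable_nat_add_iff 1).2 hcn) fun ν => ?_
    rw [norm_mul]
    push_cast
    exact mul_le_mul_of_nonneg_left (by linarith [hUle ν]) (norm_nonneg _)
  have hfin : ∀ V : ℕ → ℂ, HasSum (fun ν : ℕ => (if ν < i then x ^ (i - ν - 1) else 0) * V ν)
      (∑ ν ∈ Finset.range i, x ^ (i - ν - 1) * V ν) := by
    intro V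
    have h1 : ∑ ν ∈ Finset.range i, x ^ (i - ν - 1) * V ν =
        ∑ ν ∈ Finset.range i, (if ν < i then x ^ (i - ν - 1) else 0) * V ν := by
      refine Finset.sum_congr rfl fun ν hν => ?_
      rw [if_pos (Finset.mem_range.1 hν)]
    rw [h1]
    refine hasSum_sum_of_ne_finset_zero fun ν hν => ?_
    rw [if_neg (by simpa using hν), zero_mul]
  have hU2 : ∀ ν, U (ν + 2) = θ * U (ν + 1) - U ν := by
    intro ν
    simp only [hU, SEL.Uc]
    push_cast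
    ring
  have hU0 : U 0 = 1 := by simp [hU, SEL.Uc]
  have hU1 : U 1 = θ := by simp [hU, SEL.Uc]
  -- identities
  have e1 : ∑' ν, c (ν + 1) * U ν = x * ∑' ν, c ν * U ν +
      ∑ ν ∈ Finset.range i, x ^ (i - ν - 1) * U ν := by
    have h1 := (hs0.hasSum.mul_left x).add (hfin U)
    rw [← h1.tsum_eq]
    refine tsum_congr fun ν => ?_
    rw [hc, M2_c_succ]
    ring
  have e2 : ∑' ν, c (ν + 1) * U (ν + 1) = x * ∑' ν, c ν * U (ν + 1) +
      ∑ ν ∈ Finset.range i, x ^ (i - ν - 1) * U (ν + 1) := by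
    have h1 := (hs1.hasSum.mul_left x).add (hfin fun ν => U (ν + 1))
    rw [← h1.tsum_eq]
    refine tsum_congr fun ν => ?_
    rw [hc, M2_c_succ]
    ring
  have e3 : ∑' ν, c ν * U ν = c 0 + ∑' ν, c (ν + 1) * U (ν + 1) := by
    rw [hs0.tsum_eq_zero_add, hU0, mul_one]
  have e4 : θ * ∑' ν, c ν * U ν - ∑' ν, c ν * U (ν + 1) = ∑' ν, c (ν + 1) * U ν := by
    have h1 := (hs0.mul_left (θ : ℂ)).sub hs1
    rw [← tsum_mul_left, ← (hs0.mul_left (θ : ℂ)).tsum_sub hs1, h1.tsum_eq_zero_add]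
    have h2 : (θ : ℂ) * (c 0 * U 0) - c 0 * U (0 + 1) = 0 := by
      rw [zero_add, hU0, hU1]
      ring
    rw [h2, zero_add]
    refine tsum_congr fun ν => ?_
    rw [show ν + 1 + 1 = ν + 2 from rfl, hU2]
    ring
  have e5 : ∑ ν ∈ Finset.range i, (x ^ (i - ν) * U ν - x ^ (i - (ν + 1)) * U (ν + 1)) =
      x ^ i - U i := by
    rw [Finset.sum_range_sub' (fun ν => x ^ (i - ν) * U ν)]
    simp [hU0]
  have e6 : ∑ ν ∈ Finset.range i, (x ^ (i - ν) * U ν - x ^ (i - (ν + 1)) * U (ν + 1)) =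
      x * ∑ ν ∈ Finset.range i, x ^ (i - ν - 1) * U ν -
        ∑ ν ∈ Finset.range i, x ^ (i - ν - 1) * U (ν + 1) := by
    rw [Finset.mul_sum, ← Finset.sum_sub_distrib]
    refine Finset.sum_congr rfl fun ν hν => ?_
    have h1 := Finset.mem_range.1 hν
    have h2 : i - ν = (i - ν - 1) + 1 := by omega
    rw [show i - (ν + 1) = i - ν - 1 by omega]
    nth_rw 1 [h2]
    rw [pow_succ]
    ring
  have hc0 : c 0 = x ^ i := M2_c_zero x i
  rw [EE]
  set S := ∑' ν, c ν * U ν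
  set T := ∑' ν, c ν * U (ν + 1)
  set R := ∑' ν, c (ν + 1) * U ν
  set P := ∑' ν, c (ν + 1) * U (ν + 1)
  show (1 - (θ : ℂ) * x + x ^ 2) * S = U i
  linear_combination (-x) * e4 + e3 + e2 - x * e1 + e6 - e5 + hc0

theorem M2_ne {θ : ℝ} (hθ : |θ| ≤ 2) {x : ℂ} (hx : ‖x‖ < 1) : EE θ x ≠ 0 := by
  intro h
  have h1 := M2_key hθ hx 0
  rw [h, zero_mul] at h1
  simp [SEL.Uc] at h1

theorem M2_hasSum {θ : ℝ} (hθ : |θ| ≤ 2) {x : ℂ} (hx : ‖x‖ < 1) (i : ℕ) :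
    HasSum (fun ν : ℕ => M2_c x i ν * (SEL.Uc θ ν : ℂ)) ((SEL.Uc θ i : ℂ) * (EE θ x)⁻¹) := by
  have h1 := (M2_sumcU hθ hx i).hasSum
  have h2 := M2_key hθ hx i
  rw [← h2, mul_comm, inv_mul_cancel_left₀ (M2_ne hθ hx)]
  exact h1

theorem Uc_gen {θ : ℝ} (hθ : |θ| ≤ 2) {x : ℂ} (hx : ‖x‖ < 1) :
    HasSum (fun j : ℕ => (SEL.Uc θ j : ℂ) * x ^ j) (EE θ x)⁻¹ := by
  have h := M2_hasSum hθ hx 0
  have h0 : (SEL.Uc θ 0 : ℂ) = 1 := by simp [SEL.Uc]
  rw [h0, one_mul] at h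
  refine M2_congr h fun j => ?_
  have h1 : M2_c x 0 j = x ^ j := by simp [M2_c]
  rw [h1, mul_comm]

theorem M2_cc {x : ℂ} (hx0 : x ≠ 0) (i ν : ℕ) : M2_c x i ν = x ^ ν * hl x i ν := by
  unfold M2_c hl
  rw [Finset.mul_sum]
  refine Finset.sum_congr rfl fun α hα => ?_
  have h1 := Finset.mem_range.1 hα
  rw [← zpow_natCast x ν, ← zpow_add₀ hx0, ← zpow_natCast]
  congr 1
  omega

theorem M2_two_cos (y : ℝ) : |2 * Real.cos y| ≤ 2 := by
  rw [abs_mul, abs_two]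
  linarith [Real.abs_cos_le_one y]

theorem M2_Ucont (i : ℕ) : Continuous (fun y : ℝ => (SEL.Uc (2 * Real.cos y) i : ℂ)) :=
  Complex.continuous_ofReal.comp ((Uc_cont i).comp (by fun_prop))

theorem M2_swap {x : ℂ} (hx : ‖x‖ < 1) (i : ℕ) {G : ℝ → ℂ} (hG : Continuous G) {B : ℝ}
    (hB : ∀ y, ‖G y‖ ≤ B) :
    HasSum (fun ν : ℕ => M2_c x i ν * ∫ y, (SEL.Uc (2 * Real.cos y) ν : ℂ) * G y ∂st)
      (∫ y, (SEL.Uc (2 * Real.cos y) i : ℂ) * (EE (2 * Real.cos y) x)⁻¹ * G y ∂st) := by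
  have := st_prob
  have hB0 : 0 ≤ B := (norm_nonneg _).trans (hB 0)
  have hle : ∀ ν y, ‖M2_c x i ν * ((SEL.Uc (2 * Real.cos y) ν : ℂ) * G y)‖ ≤
      ‖M2_c x i ν‖ * ((ν : ℝ) + 1) * B := by
    intro ν y
    rw [norm_mul, norm_mul, Complex.norm_real, Real.norm_eq_abs, ← mul_assoc]
    have h1 := M2_Uc_le (M2_two_cos y) ν
    have h2 := hB y
    gcongr
  have hint : ∀ ν, Integrable (fun y => M2_c x i ν * ((SEL.Uc (2 * Real.cos y) ν : ℂ) * G y)) st := by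
    intro ν
    exact Integrable.of_bound (((M2_Ucont ν).mul hG).const_mul _ |>.aestronglyMeasurable) _
      (Eventually.of_forall (hle ν))
  have hsum : Summable (fun ν => ∫ y, ‖M2_c x i ν * ((SEL.Uc (2 * Real.cos y) ν : ℂ) * G y)‖ ∂st) := by
    refine Summable.of_nonneg_of_le (fun ν => integral_nonneg fun y => norm_nonneg _) (fun ν => ?_)
      ((M2_sumc hx i).mul_right B)
    have h1 : ∫ y, ‖M2_c x i ν * ((SEL.Uc (2 * Real.cos y) ν : ℂ) * G y)‖ ∂st ≤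
        ∫ y, ‖M2_c x i ν‖ * ((ν : ℝ) + 1) * B ∂st :=
      integral_mono (hint ν).norm (integrable_const _) (hle ν)
    simpa using h1
  have h := hasSum_integral_of_summable_integral_norm hint hsum
  have h2 : ∀ y : ℝ, ∑' ν, M2_c x i ν * ((SEL.Uc (2 * Real.cos y) ν : ℂ) * G y) =
      (SEL.Uc (2 * Real.cos y) i : ℂ) * (EE (2 * Real.cos y) x)⁻¹ * G y := by
    intro y
    rw [← (M2_hasSum (M2_two_cos y) hx i).tsum_eq, ← tsum_mul_right]
    exact tsum_congr fun ν => by ring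
  simp_rw [h2] at h
  refine M2_congr h fun ν => ?_
  rw [integral_const_mul]

theorem M2_orth (i j : ℕ) :
    ∫ y, (SEL.Uc (2 * Real.cos y) i : ℂ) * (SEL.Uc (2 * Real.cos y) j : ℂ) ∂st =
      if i = j then 1 else 0 := by
  have h := st_orth i j
  have h2 : ∫ y, (SEL.Uc (2 * Real.cos y) i : ℂ) * (SEL.Uc (2 * Real.cos y) j : ℂ) ∂st =
      ((∫ y, SEL.Uc (2 * Real.cos y) i * SEL.Uc (2 * Real.cos y) j ∂st : ℝ) : ℂ) := by
    rw [← integral_complex_ofReal]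
    refine integral_congr_ae (Eventually.of_forall fun y => ?_)
    simp
  rw [h2, h]
  split_ifs <;> simp

theorem M2_EEcont {x : ℂ} (hx : ‖x‖ < 1) :
    Continuous (fun y : ℝ => (EE (2 * Real.cos y) x)⁻¹) := by
  refine Continuous.inv₀ ?_ fun y => ?_
  · unfold EE
    fun_prop
  · exact M2_ne (M2_two_cos y) hx

theorem M2_bdd {x : ℂ} (hx : ‖x‖ < 1) (i : ℕ) :
    ∃ B : ℝ, ∀ y : ℝ, ‖(SEL.Uc (2 * Real.cos y) i : ℂ) * (EE (2 * Real.cos y) x)⁻¹‖ ≤ B := by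
  refine ⟨∑' ν, ‖M2_c x i ν‖ * ((ν : ℝ) + 1), fun y => ?_⟩
  have h := M2_hasSum (M2_two_cos y) hx i
  rw [← h.tsum_eq]
  refine tsum_of_norm_bounded (M2_sumc hx i).hasSum fun ν => ?_
  rw [norm_mul, Complex.norm_real, Real.norm_eq_abs]
  exact mul_le_mul_of_nonneg_left (M2_Uc_le (M2_two_cos y) ν) (norm_nonneg _)

theorem st_local {x : ℂ} (hx0 : x ≠ 0) (hx : ‖x‖ < 1) (i j : ℕ) :
    HasSum (fun ν : ℕ => ((‖x‖ ^ 2 : ℝ) : ℂ) ^ ν * (hl x i ν * starRingEnd ℂ (hl x j ν)))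
      ((∫ y, (‖EE (2 * Real.cos y) x‖ ^ 2)⁻¹ * (SEL.Uc (2 * Real.cos y) i *
        SEL.Uc (2 * Real.cos y) j) ∂st : ℝ) : ℂ) := by
  obtain ⟨B, hB⟩ := M2_bdd hx j
  set G : ℝ → ℂ := fun y => starRingEnd ℂ ((SEL.Uc (2 * Real.cos y) j : ℂ) *
    (EE (2 * Real.cos y) x)⁻¹) with hGdef
  have hGc : Continuous G := Complex.continuous_conj.comp ((M2_Ucont j).mul (M2_EEcont hx))
  have hGb : ∀ y, ‖G y‖ ≤ B := by
    intro y
    rw [hGdef]
    dsimp only
    rw [RCLike.norm_conj]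
    exact hB y
  have h1 := M2_swap hx i hGc hGb
  have h2 : ∀ ν, ∫ y, (SEL.Uc (2 * Real.cos y) ν : ℂ) * G y ∂st = starRingEnd ℂ (M2_c x j ν) := by
    intro ν
    have h3 := M2_swap hx j (M2_Ucont ν) (B := (ν : ℝ) + 1) (fun y => by
      rw [Complex.norm_real, Real.norm_eq_abs]
      exact M2_Uc_le (M2_two_cos y) ν)
    have h4 : HasSum (fun μ : ℕ => M2_c x j μ * ∫ y, (SEL.Uc (2 * Real.cos y) μ : ℂ) *
        (SEL.Uc (2 * Real.cos y) ν : ℂ) ∂st) (M2_c x j ν) := by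
      have h5 := hasSum_ite_eq ν (M2_c x j ν)
      refine M2_congr h5 fun μ => ?_
      rw [M2_orth]
      split_ifs with h
      · rw [h, mul_one]
      · rw [mul_zero]
    have h6 := h3.unique h4
    rw [← h6, ← integral_conj]
    refine integral_congr_ae (Eventually.of_forall fun y => ?_)
    simp only [hGdef, map_mul, Complex.conj_ofReal]
    ring
  have h3 : ∫ y, (SEL.Uc (2 * Real.cos y) i : ℂ) * (EE (2 * Real.cos y) x)⁻¹ * G y ∂st =
      ((∫ y, (‖EE (2 * Real.cos y) x‖ ^ 2)⁻¹ * (SEL.Uc (2 * Real.cos y) i *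
        SEL.Uc (2 * Real.cos y) j) ∂st : ℝ) : ℂ) := by
    rw [← integral_complex_ofReal]
    refine integral_congr_ae (Eventually.of_forall fun y => ?_)
    simp only [hGdef, map_mul, Complex.conj_ofReal]
    have h4 : (((‖EE (2 * Real.cos y) x‖ ^ 2)⁻¹ : ℝ) : ℂ) =
        (EE (2 * Real.cos y) x)⁻¹ * starRingEnd ℂ (EE (2 * Real.cos y) x)⁻¹ := by
      rw [Complex.mul_conj, Complex.normSq_eq_norm_sq, norm_inv, inv_pow]
    push_cast at h4 ⊢
    rw [h4]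
    ring
  rw [← h3]
  refine M2_congr h1 fun ν => ?_
  rw [h2, M2_cc hx0, M2_cc hx0, map_mul, map_pow]
  have h4 : ((‖x‖ ^ 2 : ℝ) : ℂ) = x * starRingEnd ℂ x := by
    rw [Complex.mul_conj, Complex.normSq_eq_norm_sq]
  rw [h4, mul_pow]
  ring

theorem M2_hl (x : ℂ) (i ν : ℕ) : hl x i ν =
    ∑ α ∈ Finset.range (i + 1), if α ≤ ν then x ^ ((i : ℤ) - 2 * α) else 0 := by
  unfold hl
  rw [← Finset.sum_filter]
  refine Finset.sum_congr ?_ fun _ _ => rfl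
  ext α
  simp only [Finset.mem_range, Finset.mem_filter]
  omega

theorem M2_geo {q : ℝ} (h0 : 0 ≤ q) (h1 : q < 1) (m : ℕ) :
    HasSum (fun ν : ℕ => if m ≤ ν then (q : ℂ) ^ ν else 0) ((q : ℂ) ^ m * (1 - (q : ℂ))⁻¹) := by
  have hq : ‖(q : ℂ)‖ < 1 := by
    rw [Complex.norm_real, Real.norm_eq_abs, abs_of_nonneg h0]
    exact h1
  have h2 := (hasSum_geometric_of_norm_lt_one hq).mul_left ((q : ℂ) ^ m)
  rw [← hasSum_nat_add_iff' m]
  have h3 : ∑ ν ∈ Finset.range m, (if m ≤ ν then (q : ℂ) ^ ν else 0) = 0 := by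
    refine Finset.sum_eq_zero fun ν hν => ?_
    rw [if_neg (by simpa using hν)]
  rw [h3, sub_zero]
  refine M2_congr h2 fun ν => ?_
  rw [if_pos (Nat.le_add_left _ _), ← pow_add, add_comm]

theorem kern {p : ℕ} (hp : p.Prime) (t : ℝ) (i j : ℕ) :
    (((1 - 1 / (p : ℝ)) * ∫ y, (‖EE (2 * Real.cos y) ((p : ℂ) ^ (-(1 / 2 + t * I)))‖ ^ 2)⁻¹ *
      (SEL.Uc (2 * Real.cos y) i * SEL.Uc (2 * Real.cos y) j) ∂st : ℝ) : ℂ) = Kp p t i j := by
  have hp0 : (0 : ℝ) < p := by exact_mod_cast hp.pos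
  have hp1 : (1 : ℝ) < p := by exact_mod_cast hp.one_lt
  have hpc : (p : ℂ) ≠ 0 := by exact_mod_cast hp.ne_zero
  set x : ℂ := (p : ℂ) ^ (-(1 / 2 + t * I)) with hx
  set q : ℝ := 1 / p with hq
  have hq0 : 0 ≤ q := by positivity
  have hq1 : q < 1 := by
    rw [hq, div_lt_one hp0]
    exact hp1
  have hxe : x = cexp (-(1 / 2 + t * I) * Real.log p) := by
    rw [hx, Complex.cpow_def_of_ne_zero hpc, ← Complex.natCast_log, mul_comm]
  have hx0 : x ≠ 0 := by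
    rw [hxe]
    exact Complex.exp_ne_zero _
  have hxn : ‖x‖ ^ 2 = q := by
    rw [hx, Complex.norm_natCast_cpow_of_pos hp.pos]
    have h1 : (-(1 / 2 + (t : ℂ) * I)).re = -(1 / 2) := by simp
    rw [h1, ← Real.rpow_natCast, ← Real.rpow_mul hp0.le, hq]
    norm_num
    rw [Real.rpow_neg_one]
  have hxl : ‖x‖ < 1 := by
    have h1 : ‖x‖ ^ 2 < 1 := by rw [hxn]; exact hq1
    nlinarith [norm_nonneg x]
  set J : ℝ := ∫ y, (‖EE (2 * Real.cos y) x‖ ^ 2)⁻¹ * (SEL.Uc (2 * Real.cos y) i *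
        SEL.Uc (2 * Real.cos y) j) ∂st with hJ
  have h1 := st_local hx0 hxl i j
  rw [hxn, ← hJ] at h1
  have h2 : HasSum (fun ν : ℕ => (q : ℂ) ^ ν * (hl x i ν * starRingEnd ℂ (hl x j ν)))
      (∑ α ∈ Finset.range (i + 1), ∑ β ∈ Finset.range (j + 1),
        (x ^ ((i : ℤ) - 2 * α) * starRingEnd ℂ (x ^ ((j : ℤ) - 2 * β))) *
          ((q : ℂ) ^ (max α β) * (1 - (q : ℂ))⁻¹)) := by
    have h3 : HasSum (fun ν : ℕ => ∑ α ∈ Finset.range (i + 1), ∑ β ∈ Finset.range (j + 1),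
        (x ^ ((i : ℤ) - 2 * α) * starRingEnd ℂ (x ^ ((j : ℤ) - 2 * β))) *
          (if max α β ≤ ν then (q : ℂ) ^ ν else 0))
      (∑ α ∈ Finset.range (i + 1), ∑ β ∈ Finset.range (j + 1),
        (x ^ ((i : ℤ) - 2 * α) * starRingEnd ℂ (x ^ ((j : ℤ) - 2 * β))) *
          ((q : ℂ) ^ (max α β) * (1 - (q : ℂ))⁻¹)) :=
      hasSum_sum fun α _ => hasSum_sum fun β _ => (M2_geo hq0 hq1 _).mul_left _
    refine M2_congr h3 fun ν => ?_
    rw [M2_hl, M2_hl, map_sum, Finset.sum_mul_sum, Finset.mul_sum]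
    refine Finset.sum_congr rfl fun α _ => ?_
    rw [Finset.mul_sum]
    refine Finset.sum_congr rfl fun β _ => ?_
    by_cases hα : α ≤ ν
    · by_cases hβ : β ≤ ν
      · rw [if_pos (max_le hα hβ), if_pos hα, if_pos hβ]
        ring
      · rw [if_neg (fun h => hβ ((le_max_right _ _).trans h)), if_neg hβ, map_zero]
        ring
    · rw [if_neg (fun h => hα ((le_max_left _ _).trans h)), if_neg hα]
      ring
  have h3 := h1.unique h2
  have h4 : (1 - (q : ℂ)) ≠ 0 := by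
    have : (1 - q : ℝ) ≠ 0 := by linarith
    exact_mod_cast this
  have h5 : (((1 - q) * J : ℝ) : ℂ) = ∑ α ∈ Finset.range (i + 1), ∑ β ∈ Finset.range (j + 1),
        (x ^ ((i : ℤ) - 2 * α) * starRingEnd ℂ (x ^ ((j : ℤ) - 2 * β))) * (q : ℂ) ^ (max α β) := by
    rw [Complex.ofReal_mul, h3, Finset.mul_sum]
    refine Finset.sum_congr rfl fun α _ => ?_
    rw [Finset.mul_sum]
    refine Finset.sum_congr rfl fun β _ => ?_
    push_cast
    field_simp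
  rw [← Complex.conj_ofReal, h5, map_sum]
  unfold Kp
  refine Finset.sum_congr rfl fun α _ => ?_
  rw [map_sum]
  refine Finset.sum_congr rfl fun β _ => ?_
  have hxz : ∀ n : ℤ, x ^ n = cexp ((n : ℂ) * (-(1 / 2 + t * I) * Real.log p)) := by
    intro n
    rw [hxe, ← Complex.exp_int_mul]
  have hqe : (q : ℂ) ^ (max α β) = cexp (-((max α β : ℕ) : ℂ) * Real.log p) := by
    have h6 : (q : ℂ) = cexp (-(Real.log p : ℂ)) := by
      rw [hq, ← Complex.ofReal_neg, ← Complex.ofReal_exp, Real.exp_neg, Real.exp_log hp0, one_div]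
    rw [h6, ← Complex.exp_nat_mul]
    congr 1
    ring
  have hpe : (((p : ℝ) ^ (-((i : ℝ) + j) / 2 + (min α β : ℕ)) : ℝ) : ℂ) =
      cexp ((-((i : ℂ) + j) / 2 + ((min α β : ℕ) : ℂ)) * Real.log p) := by
    rw [Real.rpow_def_of_pos hp0, Complex.ofReal_exp]
    congr 1
    simp only [Complex.ofReal_mul, Complex.ofReal_add, Complex.ofReal_div, Complex.ofReal_neg,
      Complex.ofReal_natCast, Complex.ofReal_ofNat]
    ring
  rw [map_mul, map_mul, Complex.conj_conj, hxz, hxz, hqe, hpe, ← Complex.exp_conj, ← Complex.exp_conj,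
    ← Complex.exp_add, ← Complex.exp_add, ← Complex.exp_add]
  congr 1
  have hmm : ((min α β : ℕ) : ℂ) = α + β - ((max α β : ℕ) : ℂ) := by
    have : min α β + max α β = α + β := min_add_max α β
    rw [eq_sub_iff_add_eq]
    exact_mod_cast this
  rw [hmm]
  simp only [map_mul, map_neg, map_add, map_div₀, map_one, Complex.conj_ofReal, Complex.conj_I,
    map_intCast, map_natCast, map_ofNat]
  push_cast
  ring

end Pool.Agent.WS
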