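import Pool.Agent.Lib_helper98.WS.Defs
import Mathlib

/-!
# WS, block M8 (PRS): prime sums (helper29)
-/

set_option autoImplicit false

namespace Pool.Agent.WS

open Complex MeasureTheory Filter Topology
open Pool.Agent.SEL (NL Adm)

/-- primes up to `N` -/
noncomputable def m8_pr (N : ℕ) : Finset ℕ := (Finset.range (N + 1)).filter Nat.Prime

theorem m8_mem {N p : ℕ} : p ∈ m8_pr N ↔ p ≤ N ∧ p.Prime := by
  simp only [m8_pr, Finset.mem_filter, Finset.mem_range, Nat.lt_succ_iff]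

theorem m8_theta (N : ℕ) : ∑ p ∈ m8_pr N, Real.log p ≤ Real.log 4 * N := by
  have h := Chebyshev.theta_le_log4_mul_x (x := (N : ℝ)) (Nat.cast_nonneg N)
  have h2 : Chebyshev.theta (N : ℝ) = ∑ p ∈ m8_pr N, Real.log p := by
    rw [Chebyshev.theta_eq_sum_Icc]
    apply Finset.sum_congr _ (fun _ _ => rfl)
    ext p
    simp only [m8_pr, Finset.mem_filter, Finset.mem_Icc, Finset.mem_range, Nat.floor_natCast]
    constructor
    · rintro ⟨⟨_, h1⟩, h2⟩
      exact ⟨by omega, h2⟩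
    · rintro ⟨h1, h2⟩
      exact ⟨⟨by omega, by omega⟩, h2⟩
  rw [← h2]
  exact h

theorem m8_dvd (N : ℕ) : ∏ p ∈ m8_pr N, p ^ (N / p) ∣ N.factorial := by
  apply Finset.prod_dvd_of_isRelPrime
  · intro p hp q hq hpq
    have hp' := (Finset.mem_filter.mp (Finset.mem_coe.mp hp)).2
    have hq' := (Finset.mem_filter.mp (Finset.mem_coe.mp hq)).2
    exact Nat.coprime_iff_isRelPrime.mp
      (Nat.Coprime.pow _ _ ((Nat.coprime_primes hp' hq').mpr hpq))
  · intro p hp
    simp only [m8_pr, Finset.mem_filter, Finset.mem_range] at hp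
    have hb : Nat.log p N < N + 2 := lt_of_le_of_lt (Nat.log_le_self p N) (by omega)
    rw [hp.2.pow_dvd_factorial_iff hb]
    have h1 : N / p = N / p ^ 1 := by rw [pow_one]
    rw [h1]
    exact Finset.single_le_sum (f := fun i => N / p ^ i) (fun i _ => Nat.zero_le _)
      (Finset.mem_Ico.mpr ⟨le_refl 1, by omega⟩)

theorem m8_logsum (N : ℕ) (hN : 1 ≤ N) :
    ∑ p ∈ m8_pr N, Real.log p / p ≤ Real.log N + Real.log 4 := by
  have hN0 : (0 : ℝ) < N := by positivity
  have hp0 : ∀ p ∈ m8_pr N, (0 : ℝ) < p ∧ 0 ≤ Real.log p := by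
    intro p hp
    have := (m8_mem.1 hp).2.one_lt
    exact ⟨by exact_mod_cast (by omega : 0 < p), Real.log_natCast_nonneg p⟩
  have hfac : ∑ p ∈ m8_pr N, ((N / p : ℕ) : ℝ) * Real.log p ≤ N * Real.log N := by
    have h1 : (∏ p ∈ m8_pr N, p ^ (N / p)) ≤ N ^ N :=
      (Nat.le_of_dvd (Nat.factorial_pos N) (m8_dvd N)).trans (Nat.factorial_le_pow N)
    have h2 : Real.log ((∏ p ∈ m8_pr N, p ^ (N / p) : ℕ) : ℝ) ≤ Real.log ((N ^ N : ℕ) : ℝ) := by
      apply Real.log_le_log
      · have : 0 < ∏ p ∈ m8_pr N, p ^ (N / p) := by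
          apply Finset.prod_pos
          intro p hp
          exact pow_pos (m8_mem.1 hp).2.pos _
        exact_mod_cast this
      · exact_mod_cast h1
    rw [Nat.cast_pow, Real.log_pow, Nat.cast_prod, Real.log_prod] at h2
    · refine le_trans (le_of_eq ?_) h2
      apply Finset.sum_congr rfl
      intro p hp
      rw [Nat.cast_pow, Real.log_pow]
    · intro p hp
      rw [Nat.cast_pow]
      exact pow_ne_zero _ (hp0 p hp).1.ne'
  have hlow : ∀ p ∈ m8_pr N, (N : ℝ) * (Real.log p / p) ≤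
      ((N / p : ℕ) : ℝ) * Real.log p + Real.log p := by
    intro p hp
    obtain ⟨h1, h2⟩ := hp0 p hp
    have h3 : (N : ℝ) / p ≤ ((N / p : ℕ) : ℝ) + 1 := by
      have := Nat.lt_div_mul_add (a := N) (b := p) (by exact_mod_cast h1)
      rw [div_le_iff₀ h1]
      have h4 : (N : ℝ) < ((N / p : ℕ) : ℝ) * p + p := by exact_mod_cast this
      nlinarith
    calc (N : ℝ) * (Real.log p / p) = ((N : ℝ) / p) * Real.log p := by ring
      _ ≤ (((N / p : ℕ) : ℝ) + 1) * Real.log p := mul_le_mul_of_nonneg_right h3 h2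
      _ = _ := by ring
  have hsum := Finset.sum_le_sum hlow
  rw [← Finset.mul_sum, Finset.sum_add_distrib] at hsum
  have hth := m8_theta N
  have : (N : ℝ) * ∑ p ∈ m8_pr N, Real.log p / p ≤ N * (Real.log N + Real.log 4) := by nlinarith
  exact le_of_mul_le_mul_left this hN0

theorem m8_log4 : Real.log 4 = 2 * Real.log 2 := by
  have : (4 : ℝ) = 2 ^ 2 := by norm_num
  rw [this, Real.log_pow]; norm_num

/-- real-variable version: any finite set of primes up to `x` -/
theorem m8_logsum_real (x : ℝ) (hx : 1 ≤ x) (S : Finset ℕ) (hS : ∀ p ∈ S, p.Prime ∧ (p : ℝ) ≤ x) :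
    ∑ p ∈ S, Real.log p / p ≤ Real.log x + Real.log 4 := by
  have hf : 1 ≤ ⌊x⌋₊ := Nat.le_floor (by exact_mod_cast hx)
  have h1 : ∑ p ∈ S, Real.log p / p ≤ ∑ p ∈ m8_pr ⌊x⌋₊, Real.log p / p := by
    apply Finset.sum_le_sum_of_subset_of_nonneg
    · intro p hp
      exact m8_mem.2 ⟨Nat.le_floor (hS p hp).2, (hS p hp).1⟩
    · intro p _ _
      exact div_nonneg (Real.log_natCast_nonneg p) (Nat.cast_nonneg p)
  have h2 := m8_logsum ⌊x⌋₊ hf
  have h3 : Real.log (⌊x⌋₊ : ℝ) ≤ Real.log x := by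
    apply Real.log_le_log
    · exact_mod_cast hf
    · exact Nat.floor_le (by linarith)
  linarith

/-- one block -/
theorem m8_block (z : ℝ) (hz : 2 ≤ z) (S : Finset ℕ)
    (hS : ∀ p ∈ S, p.Prime ∧ z ≤ (p : ℝ) ∧ (p : ℝ) ≤ z ^ 2) :
    ∑ p ∈ S, 1 / (p : ℝ) ≤ 4 := by
  have hlogz : Real.log 2 ≤ Real.log z := Real.log_le_log (by norm_num) hz
  have hlog2 : 0 < Real.log 2 := Real.log_pos (by norm_num)
  have h1 := m8_logsum_real (z ^ 2) (by nlinarith) S (fun p hp => ⟨(hS p hp).1, (hS p hp).2.2⟩)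
  rw [Real.log_pow, m8_log4] at h1
  push_cast at h1
  have h2 : Real.log z * ∑ p ∈ S, 1 / (p : ℝ) ≤ ∑ p ∈ S, Real.log p / p := by
    rw [Finset.mul_sum]
    apply Finset.sum_le_sum
    intro p hp
    obtain ⟨hp1, hp2, _⟩ := hS p hp
    have : Real.log z ≤ Real.log p := Real.log_le_log (by linarith) hp2
    have hp0 : (0 : ℝ) < p := by linarith
    calc Real.log z * (1 / (p : ℝ)) ≤ Real.log p * (1 / (p : ℝ)) :=
          mul_le_mul_of_nonneg_right this (by positivity)
      _ = Real.log p / p := by ring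
  have h3 : Real.log z * ∑ p ∈ S, 1 / (p : ℝ) ≤ Real.log z * 4 := by nlinarith
  exact le_of_mul_le_mul_left h3 (by linarith)

/-- `n` blocks -/
theorem m8_blocks (z : ℝ) (hz : 2 ≤ z) (n : ℕ) : ∀ S : Finset ℕ,
    (∀ p ∈ S, p.Prime ∧ z ≤ (p : ℝ) ∧ (p : ℝ) ≤ z ^ (2 ^ n)) →
    ∑ p ∈ S, 1 / (p : ℝ) ≤ 4 * n + 4 := by
  induction n with
  | zero =>
    intro S hS
    have := m8_block z hz S (fun p hp => ⟨(hS p hp).1, (hS p hp).2.1, by
      have h := (hS p hp).2.2
      rw [pow_zero, pow_one] at h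
      nlinarith⟩)
    push_cast
    linarith
  | succ n ih =>
    intro S hS
    classical
    set S1 := S.filter (fun p : ℕ => (p : ℝ) ≤ z ^ (2 ^ n)) with hS1
    set S2 := S.filter (fun p : ℕ => ¬ (p : ℝ) ≤ z ^ (2 ^ n)) with hS2
    have hsplit : ∑ p ∈ S, 1 / (p : ℝ) = ∑ p ∈ S1, 1 / (p : ℝ) + ∑ p ∈ S2, 1 / (p : ℝ) :=
      (Finset.sum_filter_add_sum_filter_not S _ _).symm
    have h1 := ih S1 (fun p hp => by
      rw [hS1, Finset.mem_filter] at hp
      exact ⟨(hS p hp.1).1, (hS p hp.1).2.1, hp.2⟩)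
    have hz1 : 2 ≤ z ^ (2 ^ n) := by
      calc (2 : ℝ) ≤ z := hz
        _ ≤ z ^ (2 ^ n) := le_self_pow₀ (by linarith) (by positivity)
    have h2 := m8_block (z ^ (2 ^ n)) hz1 S2 (fun p hp => by
      rw [hS2, Finset.mem_filter] at hp
      refine ⟨(hS p hp.1).1, (not_le.1 hp.2).le, ?_⟩
      have := (hS p hp.1).2.2
      rwa [← pow_mul, ← pow_succ])
    push_cast
    linarith

theorem m8_log_two_gt : (1 : ℝ) / 2 < Real.log 2 := by
  have := Real.log_two_gt_d9
  linarith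

theorem m8_lt_NL {L : ℝ} {p : ℕ} (h : p < NL L) : (p : ℝ) ≤ Real.exp L := by
  unfold NL at h
  exact (Nat.lt_ceil.1 h).le

theorem m8_ge_NL {L : ℝ} {p : ℕ} (h : NL L ≤ p) : Real.exp L ≤ p := by
  unfold NL at h
  exact Nat.ceil_le.1 h

theorem prime_sum : ∃ C : ℝ, 0 < C ∧ ∀ L A : ℝ, 1 ≤ L → 0 ≤ A →
    ∑ p ∈ Nat.primesBelow (NL L), min 2 (A * Real.log p) / p ≤
      C * (1 + Real.log (1 + A * L)) := by
  refine ⟨64, by norm_num, ?_⟩
  intro L A hL hA
  have hAL : 0 ≤ A * L := by positivity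
  have hlog0 : 0 ≤ Real.log (1 + A * L) := Real.log_nonneg (by linarith)
  classical
  have hpb : ∀ p ∈ Nat.primesBelow (NL L), p.Prime ∧ (p : ℝ) ≤ Real.exp L := by
    intro p hp
    rw [Nat.mem_primesBelow] at hp
    exact ⟨hp.2, m8_lt_NL hp.1⟩
  have hl4 : Real.log 4 ≤ 2 := by
    rw [m8_log4]; have := Real.log_two_lt_d9; linarith
  -- small primes, general bound
  by_cases hsmall : A * L ≤ 1
  · have h1 : ∑ p ∈ Nat.primesBelow (NL L), min 2 (A * Real.log p) / p ≤
        A * (L + Real.log 4) := by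
      calc ∑ p ∈ Nat.primesBelow (NL L), min 2 (A * Real.log p) / p
          ≤ ∑ p ∈ Nat.primesBelow (NL L), A * (Real.log p / p) := by
            apply Finset.sum_le_sum
            intro p _
            rw [← mul_div_assoc]
            exact div_le_div_of_nonneg_right (min_le_right _ _) (Nat.cast_nonneg p)
        _ = A * ∑ p ∈ Nat.primesBelow (NL L), Real.log p / p := by rw [Finset.mul_sum]
        _ ≤ A * (L + Real.log 4) := by
            apply mul_le_mul_of_nonneg_left _ hA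
            have := m8_logsum_real (Real.exp L) (Real.one_le_exp (by linarith)) _ hpb
            rwa [Real.log_exp] at this
    have hA1 : A ≤ 1 := by nlinarith
    nlinarith
  · rw [not_le] at hsmall
    have hApos : 0 < A := by
      rcases hA.lt_or_eq with h | h
      · exact h
      · rw [← h, zero_mul] at hsmall; linarith
    -- threshold
    set z : ℝ := max 2 (Real.exp (1 / A)) with hz
    have hz2 : 2 ≤ z := le_max_left _ _
    have hzlog : 1 / A ≤ Real.log z := by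
      have : Real.exp (1 / A) ≤ z := le_max_right _ _
      calc 1 / A = Real.log (Real.exp (1 / A)) := (Real.log_exp _).symm
        _ ≤ Real.log z := Real.log_le_log (Real.exp_pos _) this
    have hzpos : 0 < Real.log z := lt_of_lt_of_le (by positivity) hzlog
    set S1 := (Nat.primesBelow (NL L)).filter (fun p : ℕ => (p : ℝ) < z) with hS1
    set S2 := (Nat.primesBelow (NL L)).filter (fun p : ℕ => ¬ (p : ℝ) < z) with hS2
    have hsplit : ∑ p ∈ Nat.primesBelow (NL L), min 2 (A * Real.log p) / p =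
        ∑ p ∈ S1, min 2 (A * Real.log p) / p + ∑ p ∈ S2, min 2 (A * Real.log p) / p :=
      (Finset.sum_filter_add_sum_filter_not _ _ _).symm
    have h1 : ∑ p ∈ S1, min 2 (A * Real.log p) / p ≤ 5 := by
      by_cases hA2 : Real.exp (1 / A) ≤ 2
      · have hempty : S1 = ∅ := by
          rw [Finset.eq_empty_iff_forall_notMem]
          intro p hp
          rw [hS1, Finset.mem_filter] at hp
          have h2 := (hpb p hp.1).1.two_le
          have h3 : (2 : ℝ) ≤ p := by exact_mod_cast h2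
          have h4 : z = 2 := max_eq_left hA2
          rw [h4] at hp
          linarith [hp.2]
        rw [hempty, Finset.sum_empty]; norm_num
      · rw [not_le] at hA2
        have hz' : z = Real.exp (1 / A) := max_eq_right hA2.le
        have hAle : A ≤ 2 := by
          by_contra hcon
          rw [not_le] at hcon
          have h2 : 1 / A < 1 / 2 := one_div_lt_one_div_of_lt (by norm_num) hcon
          have h3 : Real.exp (1 / A) < Real.exp (Real.log 2) :=
            Real.exp_lt_exp.2 (h2.trans m8_log_two_gt)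
          rw [Real.exp_log (by norm_num)] at h3
          linarith
        calc ∑ p ∈ S1, min 2 (A * Real.log p) / p ≤ ∑ p ∈ S1, A * (Real.log p / p) := by
              apply Finset.sum_le_sum
              intro p _
              rw [← mul_div_assoc]
              exact div_le_div_of_nonneg_right (min_le_right _ _) (Nat.cast_nonneg p)
          _ = A * ∑ p ∈ S1, Real.log p / p := by rw [Finset.mul_sum]
          _ ≤ A * (1 / A + Real.log 4) := by
              apply mul_le_mul_of_nonneg_left _ hA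
              have := m8_logsum_real (Real.exp (1 / A)) (Real.one_le_exp (by positivity)) S1
                (fun p hp => by
                  rw [hS1, Finset.mem_filter, hz'] at hp
                  exact ⟨(hpb p hp.1).1, hp.2.le⟩)
              rwa [Real.log_exp] at this
          _ = 1 + A * Real.log 4 := by field_simp
          _ ≤ 5 := by nlinarith
    -- number of blocks
    set n := ⌈Real.logb 2 (1 + A * L)⌉₊ with hn
    have hn1 : Real.logb 2 (1 + A * L) ≤ n := Nat.le_ceil _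
    have hlb0 : 0 ≤ Real.logb 2 (1 + A * L) := Real.logb_nonneg (by norm_num) (by linarith)
    have hn2 : (n : ℝ) < Real.logb 2 (1 + A * L) + 1 := Nat.ceil_lt_add_one hlb0
    have hn3 : 1 + A * L ≤ 2 ^ n := by
      have h2 : (2 : ℝ) ^ (Real.logb 2 (1 + A * L)) ≤ (2 : ℝ) ^ (n : ℝ) :=
        Real.rpow_le_rpow_of_exponent_le (by norm_num) hn1
      rw [Real.rpow_logb (by norm_num) (by norm_num) (by linarith), Real.rpow_natCast] at h2
      exact h2
    have hcover : Real.exp L ≤ z ^ (2 ^ n) := by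
      have h2 : L ≤ (2 ^ n : ℕ) * Real.log z := by
        push_cast
        have h3 : L ≤ (A * L) * Real.log z := by
          have := mul_le_mul_of_nonneg_left hzlog hAL
          have h4 : A * L * (1 / A) = L := by field_simp
          linarith
        have h5 : (A * L) * Real.log z ≤ 2 ^ n * Real.log z :=
          mul_le_mul_of_nonneg_right (by linarith) hzpos.le
        linarith
      calc Real.exp L ≤ Real.exp ((2 ^ n : ℕ) * Real.log z) := Real.exp_le_exp.2 h2
        _ = z ^ (2 ^ n) := by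
          rw [Real.exp_nat_mul, Real.exp_log (by linarith)]
    have h2 : ∑ p ∈ S2, min 2 (A * Real.log p) / p ≤ 2 * (4 * n + 4) := by
      calc ∑ p ∈ S2, min 2 (A * Real.log p) / p ≤ ∑ p ∈ S2, 2 * (1 / (p : ℝ)) := by
            apply Finset.sum_le_sum
            intro p _
            rw [← mul_div_assoc, mul_one]
            exact div_le_div_of_nonneg_right (min_le_left _ _) (Nat.cast_nonneg p)
        _ = 2 * ∑ p ∈ S2, 1 / (p : ℝ) := by rw [Finset.mul_sum]
        _ ≤ 2 * (4 * n + 4) := by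
            apply mul_le_mul_of_nonneg_left _ (by norm_num)
            apply m8_blocks z hz2 n
            intro p hp
            rw [hS2, Finset.mem_filter] at hp
            exact ⟨(hpb p hp.1).1, not_lt.1 hp.2, (hpb p hp.1).2.trans hcover⟩
    have h3 : Real.logb 2 (1 + A * L) ≤ 2 * Real.log (1 + A * L) := by
      rw [Real.logb, div_le_iff₀ (by linarith [m8_log_two_gt])]
      nlinarith [m8_log_two_gt]
    rw [hsplit]
    nlinarith

theorem m8_tail_blocks (z σ : ℝ) (hz : 2 ≤ z) (hσ : 0 ≤ σ) (n : ℕ) : ∀ S : Finset ℕ,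
    (∀ p ∈ S, p.Prime ∧ z ≤ (p : ℝ) ∧ (p : ℝ) ≤ z ^ (2 ^ n)) →
    ∑ p ∈ S, (p : ℝ) ^ (-(1 + σ)) ≤ 4 + ∑ j ∈ Finset.range n, 4 * (z ^ (2 ^ j)) ^ (-σ) := by
  have key : ∀ (y : ℝ) (hy : 2 ≤ y) (S : Finset ℕ),
      (∀ p ∈ S, p.Prime ∧ y ≤ (p : ℝ) ∧ (p : ℝ) ≤ y ^ 2) →
      ∑ p ∈ S, (p : ℝ) ^ (-(1 + σ)) ≤ 4 * y ^ (-σ) := by
    intro y hy S hS
    have h1 := m8_block y hy S hS
    calc ∑ p ∈ S, (p : ℝ) ^ (-(1 + σ)) ≤ ∑ p ∈ S, 1 / (p : ℝ) * y ^ (-σ) := by
          apply Finset.sum_le_sum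
          intro p hp
          obtain ⟨_, h2, _⟩ := hS p hp
          have hp0 : (0 : ℝ) < p := by linarith
          have h3 : (p : ℝ) ^ (-(1 + σ)) = 1 / (p : ℝ) * (p : ℝ) ^ (-σ) := by
            rw [neg_add, Real.rpow_add hp0, Real.rpow_neg_one, one_div]
          rw [h3]
          apply mul_le_mul_of_nonneg_left _ (by positivity)
          exact Real.rpow_le_rpow_of_nonpos (by linarith) h2 (by linarith)
      _ = (∑ p ∈ S, 1 / (p : ℝ)) * y ^ (-σ) := by rw [Finset.sum_mul]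
      _ ≤ 4 * y ^ (-σ) := mul_le_mul_of_nonneg_right h1 (Real.rpow_nonneg (by linarith) _)
  induction n with
  | zero =>
    intro S hS
    have h1 := key z hz S (fun p hp => ⟨(hS p hp).1, (hS p hp).2.1, by
      have h := (hS p hp).2.2
      rw [pow_zero, pow_one] at h
      nlinarith⟩)
    have h2 : z ^ (-σ) ≤ 1 := Real.rpow_le_one_of_one_le_of_nonpos (by linarith) (by linarith)
    simp only [Finset.range_zero, Finset.sum_empty, add_zero]
    linarith
  | succ n ih =>
    intro S hS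
    classical
    set S1 := S.filter (fun p : ℕ => (p : ℝ) ≤ z ^ (2 ^ n)) with hS1
    set S2 := S.filter (fun p : ℕ => ¬ (p : ℝ) ≤ z ^ (2 ^ n)) with hS2
    have hsplit : ∑ p ∈ S, (p : ℝ) ^ (-(1 + σ)) =
        ∑ p ∈ S1, (p : ℝ) ^ (-(1 + σ)) + ∑ p ∈ S2, (p : ℝ) ^ (-(1 + σ)) :=
      (Finset.sum_filter_add_sum_filter_not S _ _).symm
    have h1 := ih S1 (fun p hp => by
      rw [hS1, Finset.mem_filter] at hp
      exact ⟨(hS p hp.1).1, (hS p hp.1).2.1, hp.2⟩)
    have hz1 : 2 ≤ z ^ (2 ^ n) := by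
      calc (2 : ℝ) ≤ z := hz
        _ ≤ z ^ (2 ^ n) := le_self_pow₀ (by linarith) (by positivity)
    have h2 := key (z ^ (2 ^ n)) hz1 S2 (fun p hp => by
      rw [hS2, Finset.mem_filter] at hp
      refine ⟨(hS p hp.1).1, (not_le.1 hp.2).le, ?_⟩
      have := (hS p hp.1).2.2
      rwa [← pow_mul, ← pow_succ])
    rw [Finset.sum_range_succ, hsplit]
    linarith

theorem prime_tail : ∃ C : ℝ, 0 < C ∧ ∀ (L : ℝ) (N : ℕ), 1 ≤ L →
    ∑ p ∈ (Nat.primesBelow N).filter (fun p : ℕ => NL L ≤ p),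
      (p : ℝ) ^ (-(1 + 1 / (4 * L))) ≤ C := by
  have hq0 : (0 : ℝ) < Real.exp (-(1 / 4)) := Real.exp_pos _
  have hq1 : Real.exp (-(1 / 4)) < 1 := by
    rw [Real.exp_lt_one_iff]; norm_num
  refine ⟨4 + 4 * (1 - Real.exp (-(1 / 4)))⁻¹, ?_, ?_⟩
  · have : 0 < (1 - Real.exp (-(1 / 4)))⁻¹ := inv_pos.2 (by linarith)
    linarith
  intro L N hL
  have hz : 2 ≤ Real.exp L := by
    have h1 : Real.exp 1 ≤ Real.exp L := Real.exp_le_exp.2 hL
    have h2 := Real.add_one_le_exp (1 : ℝ)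
    linarith
  have h1 := m8_tail_blocks (Real.exp L) (1 / (4 * L)) hz (by positivity) N
    ((Nat.primesBelow N).filter (fun p : ℕ => NL L ≤ p)) (fun p hp => by
      rw [Finset.mem_filter, Nat.mem_primesBelow] at hp
      refine ⟨hp.1.2, m8_ge_NL hp.2, ?_⟩
      have h2 : (p : ℝ) ≤ N := by exact_mod_cast hp.1.1.le
      have h3 : (N : ℝ) ≤ 2 ^ (2 ^ N) := by
        have h4 : N < 2 ^ N := Nat.lt_two_pow_self
        have h5 : 2 ^ N < 2 ^ (2 ^ N) := Nat.lt_two_pow_self
        exact_mod_cast (h4.trans h5).le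
      have h4 : (2 : ℝ) ^ (2 ^ N) ≤ (Real.exp L) ^ (2 ^ N) :=
        pow_le_pow_left₀ (by norm_num) hz _
      linarith)
  refine h1.trans ?_
  have h2 : ∀ j ∈ Finset.range N, 4 * ((Real.exp L) ^ (2 ^ j)) ^ (-(1 / (4 * L))) ≤
      4 * (Real.exp (-(1 / 4))) ^ j := by
    intro j _
    apply mul_le_mul_of_nonneg_left _ (by norm_num)
    rw [← Real.exp_nat_mul, ← Real.exp_mul, ← Real.exp_nat_mul]
    apply Real.exp_le_exp.2
    have h3 : ((2 ^ j : ℕ) : ℝ) * L * (-(1 / (4 * L))) = -(((2 ^ j : ℕ) : ℝ) / 4) := by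
      field_simp
    rw [h3]
    have h4 : (j : ℝ) ≤ ((2 ^ j : ℕ) : ℝ) := by exact_mod_cast Nat.lt_two_pow_self.le
    linarith
  have h3 : ∑ j ∈ Finset.range N, 4 * ((Real.exp L) ^ (2 ^ j)) ^ (-(1 / (4 * L))) ≤
      4 * (1 - Real.exp (-(1 / 4)))⁻¹ := by
    calc _ ≤ ∑ j ∈ Finset.range N, 4 * (Real.exp (-(1 / 4))) ^ j := Finset.sum_le_sum h2
      _ = 4 * ∑ j ∈ Finset.range N, (Real.exp (-(1 / 4))) ^ j := by rw [Finset.mul_sum]
      _ ≤ 4 * (1 - Real.exp (-(1 / 4)))⁻¹ := by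
          apply mul_le_mul_of_nonneg_left _ (by norm_num)
          rw [← tsum_geometric_of_lt_one hq0.le hq1]
          exact (summable_geometric_of_lt_one hq0.le hq1).sum_le_tsum _
            (fun _ _ => pow_nonneg hq0.le _)
  linarith

theorem mertens_up {N : ℕ} (hN : 2 ≤ N) :
    ∏ p ∈ Nat.primesBelow N, (1 - 1 / (p : ℝ)) ≤ 1 / Real.log N := by
  let f : ℕ →* ℝ :=
    { toFun := fun n => (n : ℝ)⁻¹
      map_one' := by simp
      map_mul' := fun a b => by simp [mul_comm] }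
  have hf : ∀ {p : ℕ}, p.Prime → ‖f p‖ < 1 := by
    intro p hp
    have h2 : (2 : ℝ) ≤ p := by exact_mod_cast hp.two_le
    change ‖(p : ℝ)⁻¹‖ < 1
    rw [norm_inv, Real.norm_of_nonneg (by linarith)]
    exact inv_lt_one_of_one_lt₀ (by linarith)
  obtain ⟨hsum, hhas⟩ :=
    EulerProduct.summable_and_hasSum_smoothNumbers_prod_primesBelow_geometric hf N
  have hN1 : (0 : ℝ) < Real.log N := Real.log_pos (by exact_mod_cast hN)
  have hlow : Real.log N ≤ ∏ p ∈ Nat.primesBelow N, (1 - f p)⁻¹ := by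
    rw [← hhas.tsum_eq]
    have h1 : Real.log N ≤ ∑ n ∈ Finset.Ico 1 N, (n : ℝ)⁻¹ := by
      have h2 := log_add_one_le_harmonic (N - 1)
      rw [Nat.sub_add_cancel (by omega)] at h2
      refine h2.trans (le_of_eq ?_)
      rw [harmonic]
      push_cast
      rw [Finset.sum_Ico_eq_sum_range]
      apply Finset.sum_congr rfl
      intro i _
      push_cast
      rw [add_comm]
    refine h1.trans ?_
    have hsm : Summable (fun m : Nat.smoothNumbers N => f m) := hhas.summable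
    let e : {n // n ∈ Finset.Ico 1 N} → Nat.smoothNumbers N := fun n =>
      ⟨n.1, Nat.mem_smoothNumbers_of_lt (Finset.mem_Ico.1 n.2).1 (Finset.mem_Ico.1 n.2).2⟩
    have hinj : Function.Injective e := fun a b hab => Subtype.ext (congrArg (fun x => x.1) hab)
    have h3 : ∑ n ∈ Finset.Ico 1 N, (n : ℝ)⁻¹ =
        ∑ m ∈ (Finset.univ.map ⟨e, hinj⟩ : Finset (Nat.smoothNumbers N)), f m := by
      rw [Finset.sum_map]
      exact (Finset.sum_coe_sort (Finset.Ico 1 N) (fun n => (n : ℝ)⁻¹)).symm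
    rw [h3]
    apply hsm.sum_le_tsum
    intro m _
    exact inv_nonneg.2 (Nat.cast_nonneg _)
  have hprod : ∏ p ∈ Nat.primesBelow N, (1 - f p)⁻¹ =
      (∏ p ∈ Nat.primesBelow N, (1 - 1 / (p : ℝ)))⁻¹ := by
    rw [← Finset.prod_inv_distrib]
    apply Finset.prod_congr rfl
    intro p _
    rw [one_div]
    rfl
  rw [hprod] at hlow
  have hpos : 0 < ∏ p ∈ Nat.primesBelow N, (1 - 1 / (p : ℝ)) := by
    have : 0 < (∏ p ∈ Nat.primesBelow N, (1 - 1 / (p : ℝ)))⁻¹ := lt_of_lt_of_le hN1 hlow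
    exact inv_pos.1 this
  rw [le_div_iff₀ hN1]
  calc (∏ p ∈ Nat.primesBelow N, (1 - 1 / (p : ℝ))) * Real.log N
      ≤ (∏ p ∈ Nat.primesBelow N, (1 - 1 / (p : ℝ))) *
        (∏ p ∈ Nat.primesBelow N, (1 - 1 / (p : ℝ)))⁻¹ := mul_le_mul_of_nonneg_left hlow hpos.le
    _ = 1 := mul_inv_cancel₀ hpos.ne'

end Pool.Agent.WS
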