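import Pool.Agent.Lib_helper98.WSF.M7
import Pool.Agent.Lib_helper98.WSF.M8

/-! WS block M9: the product of the local integrals -/

namespace Pool.Agent.WS

open Complex MeasureTheory Filter Topology
open Pool.Agent.SEL (NL)

/-- `|1 - e^{-v}| ≤ min(2, |v|)` for `Re v ≥ 0` -/
theorem m9_exp {v : ℂ} (hv : 0 ≤ v.re) : ‖1 - cexp (-v)‖ ≤ min 2 ‖v‖ := by
  refine le_min ?_ ?_
  · calc ‖1 - cexp (-v)‖ ≤ ‖(1 : ℂ)‖ + ‖cexp (-v)‖ := norm_sub_le _ _
      _ ≤ 1 + 1 := by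
          rw [norm_one, Complex.norm_exp, Complex.neg_re]
          have : Real.exp (-v.re) ≤ 1 := Real.exp_le_one_iff.2 (by linarith)
          linarith
      _ = 2 := by norm_num
  · -- mean value inequality along the segment
    have h1 : ∀ z ∈ {z : ℂ | z.re ≤ 0}, HasDerivWithinAt cexp (cexp z) {z : ℂ | z.re ≤ 0} z :=
      fun z _ => (Complex.hasDerivAt_exp z).hasDerivWithinAt
    have h2 : ∀ z ∈ {z : ℂ | z.re ≤ 0}, ‖cexp z‖ ≤ 1 := by
      intro z hz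
      rw [Complex.norm_exp]
      exact Real.exp_le_one_iff.2 hz
    have h3 : Convex ℝ {z : ℂ | z.re ≤ 0} := convex_halfSpace_re_le 0
    have h4 := h3.norm_image_sub_le_of_norm_hasDerivWithin_le h1 h2
      (x := -v) (y := 0) (by simpa using hv) (by simp)
    simpa using h4

theorem m9_local {p : ℕ} (hp : p.Prime) {s w : ℂ} (hs : 1 / 2 ≤ s.re) (hw : 0 ≤ w.re) :
    ∫ y, (‖EE (2 * Real.cos y) ((p : ℂ) ^ (-s))‖ ^ 2)⁻¹ *
      ‖EE (2 * Real.cos y) ((p : ℂ) ^ (-(s + w)))‖ ^ 2 ∂st ≤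
      Real.exp (12 * (min 2 (‖w‖ * Real.log p) / p)) := by
  have hp0 : (0 : ℝ) < p := by exact_mod_cast hp.pos
  have hp1 : (1 : ℝ) < p := by exact_mod_cast hp.one_lt
  have hpc : (p : ℂ) ≠ 0 := by exact_mod_cast hp.ne_zero
  have hlog : 0 < Real.log p := Real.log_pos hp1
  have hn : ∀ z : ℂ, ‖(p : ℂ) ^ (-z)‖ = (p : ℝ) ^ (-z.re) := by
    intro z
    rw [Complex.norm_natCast_cpow_of_pos hp.pos, Complex.neg_re]
  have h := mb_local hp (x := (p : ℂ) ^ (-s)) (z := (p : ℂ) ^ (-(s + w)))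
    (δ := min 2 (‖w‖ * Real.log p)) ?_ ?_ ?_ (min_le_left _ _) ?_
  · rw [mul_div_assoc] at h
    exact h
  · rw [Ne, Complex.cpow_eq_zero_iff]
    exact fun hh => hpc hh.1
  · rw [hn, ← Real.rpow_natCast, ← Real.rpow_mul hp0.le, one_div, ← Real.rpow_neg_one]
    apply Real.rpow_le_rpow_of_exponent_le hp1.le
    push_cast
    linarith
  · rw [hn, hn]
    apply Real.rpow_le_rpow_of_exponent_le hp1.le
    rw [Complex.add_re]
    linarith
  · have h1 : (p : ℂ) ^ (-s) - (p : ℂ) ^ (-(s + w)) =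
        (1 - cexp (-(w * Real.log p))) * (p : ℂ) ^ (-s) := by
      rw [neg_add, Complex.cpow_add _ _ hpc]
      have h2 : (p : ℂ) ^ (-w) = cexp (-(w * Real.log p)) := by
        rw [Complex.cpow_def_of_ne_zero hpc, ← Complex.natCast_log]
        congr 1
        ring
      rw [h2]
      ring
    rw [h1, norm_mul]
    have h3 := m9_exp (v := w * Real.log p) (by
      rw [Complex.re_mul_ofReal]
      positivity)
    rw [norm_mul, Complex.norm_real, Real.norm_of_nonneg hlog.le] at h3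
    gcongr

theorem m9_inv {p : ℕ} (hp : p.Prime) {s : ℂ} {L : ℝ} (hL : 1 ≤ L)
    (hs : 1 / 2 + 1 / (8 * L) ≤ s.re) :
    ∫ y, (‖EE (2 * Real.cos y) ((p : ℂ) ^ (-s))‖ ^ 2)⁻¹ ∂st ≤
      Real.exp (2 * (p : ℝ) ^ (-(1 + 1 / (4 * L)))) := by
  have hp0 : (0 : ℝ) < p := by exact_mod_cast hp.pos
  have hp1 : (1 : ℝ) < p := by exact_mod_cast hp.one_lt
  have hp2 : (2 : ℝ) ≤ p := by exact_mod_cast hp.two_le
  have hL0 : 0 < L := by linarith
  have hn : ‖(p : ℂ) ^ (-s)‖ = (p : ℝ) ^ (-s.re) := by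
    rw [Complex.norm_natCast_cpow_of_pos hp.pos, Complex.neg_re]
  have h8 : 0 < 1 / (8 * L) := by positivity
  have hsq : ‖(p : ℂ) ^ (-s)‖ ^ 2 ≤ (p : ℝ) ^ (-(1 + 1 / (4 * L))) := by
    rw [hn, ← Real.rpow_natCast, ← Real.rpow_mul hp0.le]
    apply Real.rpow_le_rpow_of_exponent_le hp1.le
    push_cast
    have h9 : 1 / (4 * L) = 2 * (1 / (8 * L)) := by
      field_simp
      norm_num
    rw [h9]
    linarith
  have hhalf : (p : ℝ) ^ (-(1 + 1 / (4 * L))) ≤ 1 / 2 := by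
    calc (p : ℝ) ^ (-(1 + 1 / (4 * L))) ≤ (p : ℝ) ^ (-1 : ℝ) := by
          apply Real.rpow_le_rpow_of_exponent_le hp1.le
          have : 0 < 1 / (4 * L) := by positivity
          linarith
      _ = 1 / p := by rw [Real.rpow_neg_one, one_div]
      _ ≤ 1 / 2 := by gcongr
  have hlt : ‖(p : ℂ) ^ (-s)‖ < 1 := by
    rw [hn]
    apply Real.rpow_lt_one_of_one_lt_of_neg hp1
    linarith
  rw [mb_inv hlt]
  set y : ℝ := ‖(p : ℂ) ^ (-s)‖ ^ 2 with hy
  have hy0 : 0 ≤ y := by positivity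
  have hyh : y ≤ 1 / 2 := hsq.trans hhalf
  have h1 : 1 / (1 - y) ≤ 1 + 2 * y := by
    rw [div_le_iff₀ (by linarith)]
    nlinarith
  calc 1 / (1 - y) ≤ 1 + 2 * y := h1
    _ ≤ Real.exp (2 * y) := by linarith [Real.add_one_le_exp (2 * y)]
    _ ≤ _ := by
        apply Real.exp_le_exp.2
        linarith

theorem mb_int : ∃ C : ℝ, 0 < C ∧ ∀ (L : ℝ) (N : ℕ) (s w : ℂ), 1 ≤ L → NL L ≤ N → 0 ≤ w.re →
    (s.re = 1 / 2 ∧ N = NL L) ∨ 1 / 2 + 1 / (8 * L) ≤ s.re →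
    ∫ X, ‖LX N (th X) s‖ ^ 2 * ∏ p ∈ Nat.primesBelow (NL L),
      ‖EE (th X p) ((p : ℂ) ^ (-(s + w)))‖ ^ 2 ∂(mu N) ≤ C * (1 + ‖w‖ * L) ^ C := by
  obtain ⟨C₀, hC₀, hps⟩ := prime_sum
  obtain ⟨C₁, hC₁, hpt⟩ := prime_tail
  set K : ℝ := max (Real.exp (12 * C₀ + 2 * C₁)) (12 * C₀) with hK
  have hK0 : 0 < K := lt_of_lt_of_le (Real.exp_pos _) (le_max_left _ _)
  refine ⟨K, hK0, fun L N s w hL hN hw hs => ?_⟩
  have hL0 : 0 < L := by linarith
  have hsr : 1 / 2 ≤ s.re := by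
    rcases hs with hs | hs
    · rw [hs.1]
    · have : 0 < 1 / (8 * L) := by positivity
      linarith
  set f : ℕ → ℝ → ℝ := fun p x => (‖EE (2 * Real.cos x) ((p : ℂ) ^ (-s))‖ ^ 2)⁻¹ *
    (if p < NL L then ‖EE (2 * Real.cos x) ((p : ℂ) ^ (-(s + w)))‖ ^ 2 else 1) with hf
  have hpb : (Nat.primesBelow N).filter (fun p => p < NL L) = Nat.primesBelow (NL L) := by
    ext p
    simp only [Finset.mem_filter, Nat.mem_primesBelow]
    constructor
    · rintro ⟨⟨_, h2⟩, h3⟩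
      exact ⟨h3, h2⟩
    · rintro ⟨h1, h2⟩
      exact ⟨⟨lt_of_lt_of_le h1 hN, h2⟩, h1⟩
  have e1 : ∀ X : Nat.primesBelow N → ℝ, ‖LX N (th X) s‖ ^ 2 * ∏ p ∈ Nat.primesBelow (NL L),
      ‖EE (th X p) ((p : ℂ) ^ (-(s + w)))‖ ^ 2 = ∏ p : Nat.primesBelow N, f p (X p) := by
    intro X
    unfold LX
    rw [norm_prod, ← Finset.prod_pow, ← hpb, Finset.prod_filter, ← Finset.prod_mul_distrib,
      ← Finset.prod_coe_sort]
    refine Finset.prod_congr rfl fun p _ => ?_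
    have hth : th X (p : ℕ) = 2 * Real.cos (X p) := by
      unfold th
      rw [dif_pos p.2]
    rw [hth, norm_inv, inv_pow, hf]
  have e2 : ∫ X, ‖LX N (th X) s‖ ^ 2 * ∏ p ∈ Nat.primesBelow (NL L),
      ‖EE (th X p) ((p : ℂ) ^ (-(s + w)))‖ ^ 2 ∂(mu N) =
      ∏ p ∈ Nat.primesBelow N, ∫ x, f p x ∂st := by
    have h1 := mu_prod N (fun p x => ((f p x : ℝ) : ℂ))
    have h2 : (fun X : Nat.primesBelow N → ℝ => ∏ p : Nat.primesBelow N, ((f p (X p) : ℝ) : ℂ)) =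
        fun X => ((‖LX N (th X) s‖ ^ 2 * ∏ p ∈ Nat.primesBelow (NL L),
          ‖EE (th X p) ((p : ℂ) ^ (-(s + w)))‖ ^ 2 : ℝ) : ℂ) := by
      funext X
      rw [e1]
      push_cast
      rfl
    rw [h2, integral_complex_ofReal] at h1
    simp_rw [integral_complex_ofReal] at h1
    exact_mod_cast h1
  rw [e2]
  have hf0 : ∀ p, 0 ≤ ∫ x, f p x ∂st := by
    intro p
    apply integral_nonneg
    intro x
    simp only [hf]
    show 0 ≤ _
    split_ifs <;> positivity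
  set b : ℕ → ℝ := fun p => if p < NL L then 12 * (min 2 (‖w‖ * Real.log p) / p) else
    2 * (p : ℝ) ^ (-(1 + 1 / (4 * L))) with hb
  have hloc : ∀ p ∈ Nat.primesBelow N, ∫ x, f p x ∂st ≤ Real.exp (b p) := by
    intro p hp
    have hpp : p.Prime := (Nat.mem_primesBelow.1 hp).2
    simp only [hf, hb]
    by_cases hlt : p < NL L
    · simp only [hlt, if_true]
      exact m9_local hpp hsr hw
    · simp only [hlt, if_false, mul_one]
      rcases hs with hs | hs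
      · exfalso
        apply hlt
        rw [← hs.2]
        exact (Nat.mem_primesBelow.1 hp).1
      · exact m9_inv hpp hL hs
  have h3 : ∏ p ∈ Nat.primesBelow N, ∫ x, f p x ∂st ≤
      Real.exp (∑ p ∈ Nat.primesBelow N, b p) := by
    rw [Real.exp_sum]
    exact Finset.prod_le_prod (fun p _ => hf0 p) hloc
  refine h3.trans ?_
  have h4 : ∑ p ∈ Nat.primesBelow N, b p ≤
      12 * (C₀ * (1 + Real.log (1 + ‖w‖ * L))) + 2 * C₁ := by
    rw [← Finset.sum_filter_add_sum_filter_not (Nat.primesBelow N) (fun p => p < NL L) b]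
    have h5 : ∑ p ∈ (Nat.primesBelow N).filter (fun p => p < NL L), b p =
        12 * ∑ p ∈ Nat.primesBelow (NL L), min 2 (‖w‖ * Real.log p) / p := by
      rw [← hpb, Finset.mul_sum]
      refine Finset.sum_congr rfl fun p hp => ?_
      simp only [hb]
      rw [if_pos (Finset.mem_filter.1 hp).2]
    have h6 : ∑ p ∈ (Nat.primesBelow N).filter (fun p => ¬ p < NL L), b p =
        2 * ∑ p ∈ (Nat.primesBelow N).filter (fun p : ℕ => NL L ≤ p),
          (p : ℝ) ^ (-(1 + 1 / (4 * L))) := by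
      rw [Finset.mul_sum]
      have h7 : (Nat.primesBelow N).filter (fun p => ¬ p < NL L) =
          (Nat.primesBelow N).filter (fun p : ℕ => NL L ≤ p) := by
        refine Finset.filter_congr fun p _ => ?_
        rw [not_lt]
      rw [h7]
      refine Finset.sum_congr rfl fun p hp => ?_
      simp only [hb]
      rw [if_neg (not_lt.2 (Finset.mem_filter.1 hp).2)]
    rw [h5, h6]
    have h8 := hps L ‖w‖ hL (norm_nonneg w)
    have h9 := hpt L N hL
    linarith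
  have hA1 : 1 ≤ 1 + ‖w‖ * L := by
    have : 0 ≤ ‖w‖ * L := by positivity
    linarith
  have hA0 : 0 < 1 + ‖w‖ * L := by linarith
  calc Real.exp (∑ p ∈ Nat.primesBelow N, b p)
      ≤ Real.exp (12 * (C₀ * (1 + Real.log (1 + ‖w‖ * L))) + 2 * C₁) := Real.exp_le_exp.2 h4
    _ = Real.exp (12 * C₀ + 2 * C₁) * (1 + ‖w‖ * L) ^ (12 * C₀) := by
        rw [Real.rpow_def_of_pos hA0, ← Real.exp_add]
        congr 1
        ring
    _ ≤ K * (1 + ‖w‖ * L) ^ K := by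
        have h5 : Real.exp (12 * C₀ + 2 * C₁) ≤ K := le_max_left _ _
        have h6 : (1 + ‖w‖ * L) ^ (12 * C₀) ≤ (1 + ‖w‖ * L) ^ K :=
          Real.rpow_le_rpow_of_exponent_le hA1 (le_max_right _ _)
        gcongr

end Pool.Agent.WS
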