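import Pool.Agent.Lib_helper98.WSF.G1
import Pool.Agent.Lib_helper98.WAF.B1a
import Pool.Agent.Lib_helper98.WAF.B5a

/-! # WS, block S3A (EXP): expansion of the cusp part -/

namespace Pool.Agent.WS

open Complex MeasureTheory Filter Topology
open scoped MatrixGroups ENNReal
open Pool.Agent.GL2 (qs HData FD)
open Pool.Agent.WA (CForm pn geo Lf gd gk omk om Fam rho PsiB)
open Pool.Agent.SEL (NL Adm)

theorem S3A_log {L : ℝ} {l : ℕ} (hl : 1 ≤ l) (hl' : l < NL L) : Real.log l < L := by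
  unfold NL at hl'
  rw [Nat.lt_ceil] at hl'
  have h0 : (0 : ℝ) < l := by exact_mod_cast hl
  rw [Real.log_lt_iff_lt_exp h0]
  exact hl'

theorem S3A_gint {k : ℕ} (hk : 1 ≤ k) {b : ℝ} (hb : 0 < b) :
    Integrable (fun u : ℝ => Real.exp (k * u / 2 - b * Real.exp u)) := by
  have hk' : (0 : ℝ) < k := by exact_mod_cast hk
  have himg : Real.exp '' Set.univ = Set.Ioi 0 := by
    rw [Set.image_univ, Real.range_exp]
  have hder : ∀ x ∈ (Set.univ : Set ℝ), HasDerivWithinAt Real.exp (Real.exp x) Set.univ x :=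
    fun x _ => (Real.hasDerivAt_exp x).hasDerivWithinAt
  have h1 := integrableOn_rpow_mul_exp_neg_mul_rpow (p := 1) (s := (k : ℝ) / 2 - 1)
    (b := b) (by linarith) one_pos hb
  rw [← himg, integrableOn_image_iff_integrableOn_abs_deriv_smul MeasurableSet.univ hder
    Real.exp_injective.injOn, integrableOn_univ] at h1
  refine h1.congr (Eventually.of_forall fun u => ?_)
  simp only [smul_eq_mul]
  rw [abs_of_pos (Real.exp_pos u), Real.rpow_one, ← Real.exp_mul, ← Real.exp_add,
    ← Real.exp_add]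
  congr 1
  ring

/-- where the step does not vanish -/
theorem S3A_eta {L : ℝ} (hL : 0 < L) (S : Step) {v : ℝ} (h : S.η (v / (8 * L)) ≠ 0) :
    4 * L < v := by
  by_contra h2
  push Not at h2
  apply h
  apply S.zero
  rw [div_le_iff₀ (by positivity)]
  linarith

theorem S3A_term {k : ℕ} {L : ℝ} (hL : 0 < L) (S : Step) (t : ℝ) {n l m : ℕ} (hn : 1 ≤ n)
    (hl : 1 ≤ l) (hl' : l < NL L) (v : ℝ) :
    ‖(gd k n (v + (Real.log m - Real.log l)) : ℂ) * (S.η (v / (8 * L)) : ℂ) * cexp (t * v * I)‖ ≤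
      Real.exp (-Real.pi * n) * Real.exp (k * (v + (Real.log m - Real.log l)) / 2 -
        Real.pi * Real.exp (v + (Real.log m - Real.log l))) := by
  have hexp : ‖cexp (t * v * I)‖ = 1 := by
    have : (t * v * I : ℂ) = ((t * v : ℝ) : ℂ) * I := by push_cast; ring
    rw [this, Complex.norm_exp_ofReal_mul_I]
  rw [norm_mul, hexp, mul_one, norm_mul, Complex.norm_real, Complex.norm_real,
    Real.norm_of_nonneg (WA.B5a_gd_pos k n _).le, Real.norm_of_nonneg (S.nonneg _)]
  by_cases h : S.η (v / (8 * L)) = 0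
  · rw [h, mul_zero]
    positivity
  · have hv := S3A_eta hL S h
    set u := v + (Real.log m - Real.log l) with hu
    have hlog := S3A_log hl hl'
    have hm : 0 ≤ Real.log m := Real.log_natCast_nonneg m
    have hu0 : 0 ≤ u := by rw [hu]; linarith
    have hE : 1 ≤ Real.exp u := Real.one_le_exp hu0
    have hn' : (1 : ℝ) ≤ n := by exact_mod_cast hn
    have hgd : gd k n u ≤ Real.exp (-Real.pi * n) *
        Real.exp (k * u / 2 - Real.pi * Real.exp u) := by
      unfold gd
      rw [← Real.exp_add]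
      apply Real.exp_le_exp.2
      have hpi := Real.pi_pos
      have h1 : Real.pi * n * 1 ≤ Real.pi * n * Real.exp u :=
        mul_le_mul_of_nonneg_left hE (by positivity)
      have h2 : Real.pi * Real.exp u * 1 ≤ Real.pi * Real.exp u * n :=
        mul_le_mul_of_nonneg_left hn' (by positivity)
      nlinarith
    calc gd k n u * S.η (v / (8 * L)) ≤ gd k n u * 1 :=
          mul_le_mul_of_nonneg_left (S.le_one _) (WA.B5a_gd_pos k n u).le
      _ ≤ _ := by rw [mul_one]; exact hgd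

theorem s3_exp {k : ℕ} {a : ℕ → ℝ} (H : HData k a) {L : ℝ} (hL : 0 < L) (Θ : ℝ → ℝ) (S : Step)
    (t : ℝ) :
    HasSum (fun n : ℕ => (a n : ℂ) * ∑ m ∈ Finset.Ico 1 (NL L), ∑ l ∈ Finset.Ico 1 (NL L),
      ((be k a L Θ m * be k a L Θ l / (√m * √l) : ℝ) : ℂ) * tau k L S.η t n m l)
      (∫ v, ff k a L Θ v * (S.η (v / (8 * L)) : ℂ) * cexp (t * v * I)) := by
  have hkp := H.kpos
  have hCF := WA.cf_of_hdata H
  set c : ℕ → ℕ → ℂ := fun m l => ((be k a L Θ m * be k a L Θ l / (√m * √l) : ℝ) : ℂ) with hc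
  set e : ℝ → ℂ := fun v => (S.η (v / (8 * L)) : ℂ) * cexp (t * v * I) with he
  set F : ℕ → ℝ → ℂ := fun n v => (a n : ℂ) * ∑ m ∈ Finset.Ico 1 (NL L),
    ∑ l ∈ Finset.Ico 1 (NL L), c m l *
      ((gd k n (v + (Real.log m - Real.log l)) : ℂ) * (S.η (v / (8 * L)) : ℂ) *
        cexp (t * v * I)) with hF
  set G : ℝ → ℝ := fun v => ∑ m ∈ Finset.Ico 1 (NL L), ∑ l ∈ Finset.Ico 1 (NL L), ‖c m l‖ *
    Real.exp (k * (v + (Real.log m - Real.log l)) / 2 -
        Real.pi * Real.exp (v + (Real.log m - Real.log l))) with hG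
  have hGi : Integrable G := by
    rw [hG]
    refine integrable_finsetSum _ fun m _ => integrable_finsetSum _ fun l _ => ?_
    exact ((S3A_gint hkp Real.pi_pos).comp_add_right (Real.log m - Real.log l)).const_mul _
  have hG0 : ∀ v, 0 ≤ G v := fun v => Finset.sum_nonneg fun m _ => Finset.sum_nonneg fun l _ => by
    positivity
  have hbd : ∀ n v, ‖F n v‖ ≤ (‖((a n : ℝ) : ℂ)‖ * Real.exp (-Real.pi * n)) * G v := by
    intro n v
    rcases Nat.eq_zero_or_pos n with h0 | h0
    · have : F n v = 0 := by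
        simp only [hF]
        rw [h0, H.zero]
        simp
      rw [this, norm_zero]
      have := hG0 v
      positivity
    · simp only [hF]
      rw [norm_mul, mul_assoc (‖((a n : ℝ) : ℂ)‖)]
      apply mul_le_mul_of_nonneg_left _ (norm_nonneg _)
      rw [hG]
      simp only
      rw [Finset.mul_sum]
      refine (norm_sum_le _ _).trans (Finset.sum_le_sum fun m _ => ?_)
      rw [Finset.mul_sum]
      refine (norm_sum_le _ _).trans (Finset.sum_le_sum fun l hl => ?_)
      rw [Finset.mem_Ico] at hl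
      rw [norm_mul, mul_left_comm]
      exact mul_le_mul_of_nonneg_left (S3A_term hL S t h0 hl.1 hl.2 v) (norm_nonneg _)
  have hFc : ∀ n, Continuous (F n) := by
    intro n
    simp only [hF]
    apply continuous_const.mul
    refine continuous_finsetSum _ fun m _ => continuous_finsetSum _ fun l _ => ?_
    have h1 := WA.B5a_gd_cont k n
    have h2 := S.cont
    apply continuous_const.mul
    apply Continuous.mul
    · apply Continuous.mul
      · exact Complex.continuous_ofReal.comp (h1.comp (by fun_prop))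
      · exact Complex.continuous_ofReal.comp (h2.comp (by fun_prop))
    · fun_prop
  have hFi : ∀ n, Integrable (F n) := by
    intro n
    exact (hGi.const_mul (‖((a n : ℝ) : ℂ)‖ * Real.exp (-Real.pi * n))).mono'
      (hFc n).aestronglyMeasurable (Eventually.of_forall (hbd n))
  have hFs : Summable fun n => ∫ v, ‖F n v‖ := by
    have h1 := (WA.cf_summable hCF Real.pi_pos).mul_right (∫ v, G v)
    refine Summable.of_nonneg_of_le (fun n => integral_nonneg fun v => norm_nonneg _)
      (fun n => ?_) h1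
    calc ∫ v, ‖F n v‖ ≤ ∫ v, (‖((a n : ℝ) : ℂ)‖ * Real.exp (-Real.pi * n)) * G v :=
          integral_mono (hFi n).norm (hGi.const_mul _) (hbd n)
      _ = _ := by rw [integral_const_mul]
  have hmain := hasSum_integral_of_summable_integral_norm hFi hFs
  have hR : ∫ v, ∑' n, F n v = ∫ v, ff k a L Θ v * (S.η (v / (8 * L)) : ℂ) * cexp (t * v * I) := by
    congr 1
    funext v
    have hs : HasSum (fun n => F n v)
        (∑ m ∈ Finset.Ico 1 (NL L), ∑ l ∈ Finset.Ico 1 (NL L), c m l *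
          (geo k (fun n => (a n : ℂ)) 0 (v + (Real.log m - Real.log l)) * e v)) := by
      have h1 : HasSum (fun n : ℕ => ∑ m ∈ Finset.Ico 1 (NL L), ∑ l ∈ Finset.Ico 1 (NL L), c m l *
          (((a n : ℂ) * (gd k n (v + (Real.log m - Real.log l)) : ℂ)) * e v))
          (∑ m ∈ Finset.Ico 1 (NL L), ∑ l ∈ Finset.Ico 1 (NL L), c m l *
          (geo k (fun n => (a n : ℂ)) 0 (v + (Real.log m - Real.log l)) * e v)) := by
        refine hasSum_sum fun m _ => hasSum_sum fun l _ => ?_
        apply HasSum.mul_left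
        apply HasSum.mul_right
        have h2 := WA.geo_series hCF 0 (v + (Real.log m - Real.log l))
        simpa using h2
      refine h1.congr_fun fun n => ?_
      simp only [hF]
      rw [Finset.mul_sum]
      apply Finset.sum_congr rfl
      intro m _
      rw [Finset.mul_sum]
      apply Finset.sum_congr rfl
      intro l _
      simp only [he]
      ring
    rw [hs.tsum_eq]
    unfold ff
    rw [mul_assoc, Finset.sum_mul]
    apply Finset.sum_congr rfl
    intro m _
    rw [Finset.sum_mul]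
    apply Finset.sum_congr rfl
    intro l _
    simp only [he, hc]
    ring
  rw [hR] at hmain
  refine hmain.congr_fun fun n => ?_
  rcases Nat.eq_zero_or_pos n with h0 | h0
  · have h1 : (fun v => F n v) = fun _ => 0 := by
      funext v
      simp only [hF]
      rw [h0, H.zero]
      simp
    rw [h1, h0, H.zero]
    simp
  · simp only [hF]
    rw [integral_const_mul]
    congr 1
    have hti : ∀ m ∈ Finset.Ico 1 (NL L), ∀ l ∈ Finset.Ico 1 (NL L), Integrable (fun v : ℝ =>
        c m l * ((gd k n (v + (Real.log m - Real.log l)) : ℂ) * (S.η (v / (8 * L)) : ℂ) *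
          cexp (t * v * I))) := by
      intro m _ l hl
      rw [Finset.mem_Ico] at hl
      apply Integrable.const_mul
      have h1 := ((S3A_gint hkp Real.pi_pos).comp_add_right
        (Real.log m - Real.log l)).const_mul (Real.exp (-Real.pi * n))
      refine h1.mono' ?_ (Eventually.of_forall fun v => S3A_term hL S t h0 hl.1 hl.2 v)
      have h1 := WA.B5a_gd_cont k n
      have h2 := S.cont
      apply Continuous.aestronglyMeasurable
      apply Continuous.mul
      · apply Continuous.mul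
        · exact Complex.continuous_ofReal.comp (h1.comp (by fun_prop))
        · exact Complex.continuous_ofReal.comp (h2.comp (by fun_prop))
      · fun_prop
    rw [integral_finsetSum _ fun m hm => integrable_finsetSum _ fun l hl => hti m hm l hl]
    apply Finset.sum_congr rfl
    intro m hm
    rw [integral_finsetSum _ fun l hl => hti m hm l hl]
    apply Finset.sum_congr rfl
    intro l _
    rw [integral_const_mul]
    rfl

theorem tau_le {k : ℕ} (hk : 2 ≤ k) (he : Even k) {L : ℝ} (hL : 0 < L) (S : Step) (t : ℝ)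
    {n m l : ℕ} (hn : 1 ≤ n) (hm : 1 ≤ m) (hm' : m < NL L) (hl : 1 ≤ l) (hl' : l < NL L) :
    ‖tau k L S.η t n m l‖ ≤ gk k * (n : ℝ) ^ (-(k : ℝ) / 2) ∧
    ‖tau k L S.η t n m l‖ ≤ gk k * (n : ℝ) ^ (-(k : ℝ) / 2) *
      ((k : ℝ) / (2 * Real.pi * n * Real.exp (3 * L))) ^ ((k : ℝ) / 2) := by
  have _ := hm'
  have _ := hm
  set δ : ℝ := Real.log m - Real.log l with hδ
  obtain ⟨hgi, hgv⟩ := WA.gd_int (k := k) (n := n) (by omega) hn
  have hgs : Integrable (fun v => gd k n (v + δ)) := hgi.comp_add_right δ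
  have hexp : ∀ v : ℝ, ‖cexp (t * v * I)‖ = 1 := by
    intro v
    have : (t * v * I : ℂ) = ((t * v : ℝ) : ℂ) * I := by push_cast; ring
    rw [this, Complex.norm_exp_ofReal_mul_I]
  have hnorm : ∀ v : ℝ, ‖(gd k n (v + δ) : ℂ) * (S.η (v / (8 * L)) : ℂ) * cexp (t * v * I)‖ =
      gd k n (v + δ) * S.η (v / (8 * L)) := by
    intro v
    rw [norm_mul, hexp, mul_one, norm_mul, Complex.norm_real, Complex.norm_real,
      Real.norm_of_nonneg (WA.B5a_gd_pos k n _).le, Real.norm_of_nonneg (S.nonneg _)]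
  have hgc := WA.B5a_gd_cont k n
  have hηc := S.cont
  have hci : Integrable (fun v => gd k n (v + δ) * S.η (v / (8 * L))) := by
    refine hgs.mono' ?_ (Eventually.of_forall fun v => ?_)
    · apply Continuous.aestronglyMeasurable
      exact (hgc.comp (by fun_prop)).mul (hηc.comp (by fun_prop))
    · rw [Real.norm_of_nonneg (mul_nonneg (WA.B5a_gd_pos k n _).le (S.nonneg _))]
      exact mul_le_of_le_one_right (WA.B5a_gd_pos k n _).le (S.le_one _)
  have h1 : ‖tau k L S.η t n m l‖ ≤ ∫ v, gd k n (v + δ) * S.η (v / (8 * L)) := by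
    unfold tau
    refine (norm_integral_le_integral_norm _).trans (le_of_eq ?_)
    congr 1
    funext v
    exact hnorm v
  constructor
  · refine h1.trans ?_
    rw [← hgv, ← integral_add_right_eq_self (gd k n) δ]
    apply integral_mono hci hgs
    intro v
    exact mul_le_of_le_one_right (WA.B5a_gd_pos k n _).le (S.le_one _)
  · refine h1.trans ?_
    refine le_trans ?_ (gd_rankin hk he hn (3 * L))
    rw [← integral_indicator measurableSet_Ioi,
      ← integral_add_right_eq_self ((Set.Ioi (3 * L)).indicator (gd k n)) δ]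
    apply integral_mono hci ((hgi.indicator measurableSet_Ioi).comp_add_right δ)
    intro v
    show gd k n (v + δ) * S.η (v / (8 * L)) ≤ (Set.Ioi (3 * L)).indicator (gd k n) (v + δ)
    by_cases h : S.η (v / (8 * L)) = 0
    · rw [h, mul_zero]
      apply Set.indicator_nonneg
      intro x _
      exact (WA.B5a_gd_pos k n x).le
    · have hv := S3A_eta hL S h
      have hlog := S3A_log hl hl'
      have hm0 : 0 ≤ Real.log m := Real.log_natCast_nonneg m
      have hmem : v + δ ∈ Set.Ioi (3 * L) := by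
        show 3 * L < v + δ
        rw [hδ]
        linarith
      rw [Set.indicator_of_mem hmem]
      exact mul_le_of_le_one_right (WA.B5a_gd_pos k n _).le (S.le_one _)

theorem S3A_sq (N : ℕ) : ∑ n ∈ Finset.range N, 1 / ((n : ℝ) + 1) ^ 2 ≤ 2 := by
  have key : ∀ N : ℕ, ∑ n ∈ Finset.range N, 1 / ((n : ℝ) + 1) ^ 2 ≤ 2 * (1 - 1 / ((N : ℝ) + 1)) := by
    intro N
    induction N with
    | zero => simp
    | succ N ih =>
      rw [Finset.sum_range_succ]
      have h1 : (0 : ℝ) < (N : ℝ) + 1 := by positivity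
      have h2 : (0 : ℝ) < (N : ℝ) + 1 + 1 := by positivity
      have h3 : 1 / ((N : ℝ) + 1) ^ 2 ≤ 2 * (1 / ((N : ℝ) + 1) - 1 / ((N : ℝ) + 1 + 1)) := by
        rw [div_sub_div _ _ h1.ne' h2.ne', ← mul_div_assoc, div_le_div_iff₀ (by positivity)
          (by positivity)]
        nlinarith
      push_cast
      linarith
  have h := key N
  have : 0 ≤ 1 / ((N : ℝ) + 1) := by positivity
  linarith

theorem tail_num (B : ℝ) (hB : 0 < B) : ∃ k₀ : ℕ, ∀ k : ℕ, k₀ ≤ k → ∀ L : ℝ,
    L = Real.log k / B → ∀ N₀ : ℕ, N₀ = ⌊(k : ℝ) / (8 * Real.pi * (NL L : ℝ) ^ 2)⌋₊ →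
    Summable (fun n : ℕ => ((n : ℝ) + N₀ + 1) ^ 2 *
      ((k : ℝ) / (2 * Real.pi * ((n : ℝ) + N₀ + 1) * Real.exp (3 * L))) ^ ((k : ℝ) / 2)) ∧
    (NL L : ℝ) ^ 8 * ∑' n : ℕ, ((n : ℝ) + N₀ + 1) ^ 2 *
      ((k : ℝ) / (2 * Real.pi * ((n : ℝ) + N₀ + 1) * Real.exp (3 * L))) ^ ((k : ℝ) / 2) ≤ 1 := by
  have hlim := tendsto_rpow_mul_exp_neg_mul_atTop_nhds_zero (8 / B + 4) (1 / 2) (by norm_num)
  have hc0 : (0 : ℝ) < 1 / (2 ^ 9 * Real.exp 4) := by positivity
  have hev1 : ∀ᶠ x : ℝ in atTop, x ^ (8 / B + 4) * Real.exp (-(1 / 2) * x) ≤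
      1 / (2 ^ 9 * Real.exp 4) := (hlim.eventually (gt_mem_nhds hc0)).mono fun x hx => hx.le
  have hev2 : ∀ᶠ x : ℝ in atTop, Real.exp ((Real.log 16 + 1) * B) ≤ x := eventually_ge_atTop _
  have hev3 : ∀ᶠ x : ℝ in atTop, (8 : ℝ) ≤ x := eventually_ge_atTop _
  obtain ⟨x₀, hx₀⟩ := eventually_atTop.1 (hev1.and (hev2.and hev3))
  refine ⟨⌈x₀⌉₊, ?_⟩
  intro k hk L hL N₀ hN₀
  obtain ⟨c1, c2, c3⟩ := hx₀ k ((Nat.le_ceil x₀).trans (by exact_mod_cast hk))
  have hk0 : (0 : ℝ) < k := by linarith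
  have hpi := Real.pi_gt_three
  have hlk : (Real.log 16 + 1) * B ≤ Real.log k := by
    rw [Real.le_log_iff_exp_le hk0]
    exact c2
  have hL1 : Real.log 16 + 1 ≤ L := by
    rw [hL, le_div_iff₀ hB]
    exact hlk
  have hlog16 : 0 < Real.log 16 := Real.log_pos (by norm_num)
  have hL0 : 0 < L := by linarith
  have hE1 : 1 ≤ Real.exp L := Real.one_le_exp hL0.le
  have hNL : (NL L : ℝ) ≤ 2 * Real.exp L := by
    have h1 := (Nat.ceil_lt_add_one (Real.exp_nonneg L)).le
    have h2 : (NL L : ℝ) ≤ Real.exp L + 1 := h1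
    linarith
  have hNL1 : 1 ≤ (NL L : ℝ) := by
    have h1 : Real.exp L ≤ (NL L : ℝ) := Nat.le_ceil _
    linarith
  -- lower bound for the integers
  have hn' : ∀ n : ℕ, (k : ℝ) / (32 * Real.pi * Real.exp (2 * L)) ≤ (n : ℝ) + N₀ + 1 := by
    intro n
    have h1 : (k : ℝ) / (8 * Real.pi * (NL L : ℝ) ^ 2) < N₀ + 1 := by
      rw [hN₀]
      exact Nat.lt_floor_add_one _
    have h2 : (k : ℝ) / (32 * Real.pi * Real.exp (2 * L)) ≤
        (k : ℝ) / (8 * Real.pi * (NL L : ℝ) ^ 2) := by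
      apply div_le_div_of_nonneg_left hk0.le (by positivity)
      have h3 : (NL L : ℝ) ^ 2 ≤ (2 * Real.exp L) ^ 2 := pow_le_pow_left₀ (by linarith) hNL 2
      have h4 : (2 * Real.exp L) ^ 2 = 4 * Real.exp (2 * L) := by
        rw [mul_pow, ← Real.exp_nat_mul]
        norm_num
      rw [h4] at h3
      calc 8 * Real.pi * (NL L : ℝ) ^ 2 ≤ 8 * Real.pi * (4 * Real.exp (2 * L)) :=
            mul_le_mul_of_nonneg_left h3 (by positivity)
        _ = 32 * Real.pi * Real.exp (2 * L) := by ring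
    have h5 : (0 : ℝ) ≤ n := Nat.cast_nonneg n
    linarith
  have hn1 : ∀ n : ℕ, (n : ℝ) + 1 ≤ (n : ℝ) + N₀ + 1 := by
    intro n
    have : (0 : ℝ) ≤ N₀ := Nat.cast_nonneg N₀
    linarith
  set D : ℝ := Real.exp (-((k : ℝ) / 2 - 4)) * (k : ℝ) ^ 4 with hD
  have hterm : ∀ n : ℕ, ((n : ℝ) + N₀ + 1) ^ 2 *
      ((k : ℝ) / (2 * Real.pi * ((n : ℝ) + N₀ + 1) * Real.exp (3 * L))) ^ ((k : ℝ) / 2) ≤
      D * (1 / ((n : ℝ) + 1) ^ 2) := by
    intro n
    set n' : ℝ := (n : ℝ) + N₀ + 1 with hn'def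
    have hnpos : (0 : ℝ) < (n : ℝ) + 1 := by positivity
    have hn'0 : 0 < n' := lt_of_lt_of_le hnpos (hn1 n)
    set q : ℝ := (k : ℝ) / (2 * Real.pi * n' * Real.exp (3 * L)) with hq
    have hq0 : 0 < q := by positivity
    have hq1 : q ≤ Real.exp (-1) := by
      have h1 : q ≤ 16 * Real.exp (-L) := by
        rw [hq, div_le_iff₀ (by positivity)]
        have h2 := hn' n
        rw [div_le_iff₀ (by positivity)] at h2
        have h3 : 16 * Real.exp (-L) * (2 * Real.pi * n' * Real.exp (3 * L)) =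
            n' * (32 * Real.pi * Real.exp (2 * L)) := by
          have : Real.exp (-L) * Real.exp (3 * L) = Real.exp (2 * L) := by
            rw [← Real.exp_add]
            congr 1
            ring
          rw [← this]
          ring
        rw [h3]
        exact h2
      have h4 : 16 * Real.exp (-L) ≤ Real.exp (-1) := by
        have h5 : (16 : ℝ) = Real.exp (Real.log 16) := (Real.exp_log (by norm_num)).symm
        rw [h5, ← Real.exp_add]
        apply Real.exp_le_exp.2
        linarith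
      exact h1.trans h4
    have h6 : q ^ ((k : ℝ) / 2) = q ^ ((k : ℝ) / 2 - 4) * q ^ 4 := by
      have : q ^ 4 = q ^ (4 : ℝ) := by
        rw [← Real.rpow_natCast]
        norm_num
      rw [this, ← Real.rpow_add hq0]
      congr 1
      ring
    have h7 : q ^ ((k : ℝ) / 2 - 4) ≤ Real.exp (-((k : ℝ) / 2 - 4)) := by
      calc q ^ ((k : ℝ) / 2 - 4) ≤ Real.exp (-1) ^ ((k : ℝ) / 2 - 4) :=
            Real.rpow_le_rpow hq0.le hq1 (by linarith)
        _ = Real.exp (-((k : ℝ) / 2 - 4)) := by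
            rw [← Real.exp_mul]
            congr 1
            ring
    have h8 : q ≤ k / n' := by
      rw [hq]
      apply div_le_div_of_nonneg_left hk0.le hn'0
      have hE3 : 1 ≤ Real.exp (3 * L) := Real.one_le_exp (by linarith)
      have h9 : 1 ≤ 2 * Real.pi := by linarith
      calc n' = 1 * n' * 1 := by ring
        _ ≤ 2 * Real.pi * n' * Real.exp (3 * L) :=
          mul_le_mul (mul_le_mul_of_nonneg_right h9 hn'0.le) hE3 (by norm_num) (by positivity)
    have h10 : q ^ 4 ≤ (k / n') ^ 4 := pow_le_pow_left₀ hq0.le h8 4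
    rw [h6]
    calc n' ^ 2 * (q ^ ((k : ℝ) / 2 - 4) * q ^ 4)
        ≤ n' ^ 2 * (Real.exp (-((k : ℝ) / 2 - 4)) * (k / n') ^ 4) := by
          apply mul_le_mul_of_nonneg_left _ (sq_nonneg _)
          exact mul_le_mul h7 h10 (by positivity) (Real.exp_nonneg _)
      _ = D * (1 / n' ^ 2) := by
          rw [hD]
          field_simp
      _ ≤ D * (1 / ((n : ℝ) + 1) ^ 2) := by
          apply mul_le_mul_of_nonneg_left _ (by positivity)
          apply one_div_le_one_div_of_le (by positivity)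
          exact pow_le_pow_left₀ hnpos.le (hn1 n) 2
  have ht0 : ∀ n : ℕ, 0 ≤ ((n : ℝ) + N₀ + 1) ^ 2 *
      ((k : ℝ) / (2 * Real.pi * ((n : ℝ) + N₀ + 1) * Real.exp (3 * L))) ^ ((k : ℝ) / 2) := by
    intro n
    positivity
  have hsum : ∀ N : ℕ, ∑ n ∈ Finset.range N, ((n : ℝ) + N₀ + 1) ^ 2 *
      ((k : ℝ) / (2 * Real.pi * ((n : ℝ) + N₀ + 1) * Real.exp (3 * L))) ^ ((k : ℝ) / 2) ≤
      D * 2 := by
    intro N
    calc _ ≤ ∑ n ∈ Finset.range N, D * (1 / ((n : ℝ) + 1) ^ 2) :=
          Finset.sum_le_sum fun n _ => hterm n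
      _ = D * ∑ n ∈ Finset.range N, 1 / ((n : ℝ) + 1) ^ 2 := by rw [Finset.mul_sum]
      _ ≤ D * 2 := mul_le_mul_of_nonneg_left (S3A_sq N) (by positivity)
  refine ⟨summable_of_sum_range_le ht0 hsum, ?_⟩
  have hT := Real.tsum_le_of_sum_range_le ht0 hsum
  have hNL8 : (NL L : ℝ) ^ 8 ≤ 2 ^ 8 * Real.exp (8 * L) := by
    calc (NL L : ℝ) ^ 8 ≤ (2 * Real.exp L) ^ 8 := pow_le_pow_left₀ (by linarith) hNL 8
      _ = 2 ^ 8 * Real.exp (8 * L) := by
          rw [mul_pow, ← Real.exp_nat_mul]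
          norm_num
  have hE8 : Real.exp (8 * L) = (k : ℝ) ^ (8 / B) := by
    rw [Real.rpow_def_of_pos hk0, hL]
    congr 1
    field_simp
  calc (NL L : ℝ) ^ 8 * ∑' n : ℕ, _ ≤ (2 ^ 8 * Real.exp (8 * L)) * (D * 2) :=
        mul_le_mul hNL8 hT (tsum_nonneg ht0) (by positivity)
    _ = 2 ^ 9 * Real.exp 4 * ((k : ℝ) ^ (8 / B + 4) * Real.exp (-(1 / 2) * k)) := by
        rw [hE8, hD, Real.rpow_add hk0]
        have e1 : (k : ℝ) ^ (4 : ℝ) = (k : ℝ) ^ 4 := by
          rw [← Real.rpow_natCast]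
          norm_num
        have e2 : Real.exp (-((k : ℝ) / 2 - 4)) = Real.exp 4 * Real.exp (-(1 / 2) * k) := by
          rw [← Real.exp_add]
          congr 1
          ring
        rw [e1, e2]
        ring
    _ ≤ 2 ^ 9 * Real.exp 4 * (1 / (2 ^ 9 * Real.exp 4)) :=
        mul_le_mul_of_nonneg_left c1 (by positivity)
    _ = 1 := by field_simp

end Pool.Agent.WS
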