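import Pool.Agent.Lib_helper98.WSF.M10
import Pool.Agent.Lib_helper98.WSF.S3A

/-!
# WS, block S3D: the cusp part in the model
-/

namespace Pool.Agent.WS

open Complex MeasureTheory Filter Topology
open scoped ENNReal
open Pool.Agent.GL2 (qs HData FD)
open Pool.Agent.WA (CForm pn geo Lf gd gk omk om Fam rho PsiB)
open Pool.Agent.SEL (NL Adm)

/-- the point `z = (1 + τ i) / (8 L) + t i` -/
noncomputable def s3d_z (L t τ : ℝ) : ℂ := (1 + τ * I) / (8 * L) + t * I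

theorem s3d_z_re (L t τ : ℝ) : (s3d_z L t τ).re = 1 / (8 * L) := by
  unfold s3d_z
  rw [show ((1 + τ * I) / (8 * L) + t * I : ℂ) =
    ((1 / (8 * L) : ℝ) : ℂ) + ((τ / (8 * L) + t : ℝ) : ℂ) * I by push_cast; ring]
  rw [Complex.add_re, Complex.ofReal_re, Complex.re_ofReal_mul, Complex.I_re, mul_zero, add_zero]

theorem s3d_z_cont (L t : ℝ) : Continuous (s3d_z L t) := by
  unfold s3d_z
  fun_prop

theorem s3d_gd_cont (k n : ℕ) : Continuous (gd k n) := by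
  unfold gd
  fun_prop

theorem s3d_gd_pos (k n : ℕ) (u : ℝ) : 0 < gd k n u := by
  unfold gd
  exact Real.exp_pos _

/-- integrability of the density against a real exponential -/
theorem s3d_gd_int {k n : ℕ} (hk : 1 ≤ k) (hn : 1 ≤ n) {c : ℝ} (hc : 0 < c) :
    Integrable (fun u : ℝ => gd k n u * Real.exp (c * u)) := by
  have h := (gd_mellin hk hn (z := (c : ℂ)) (by
    rw [Complex.ofReal_re]
    have : (0 : ℝ) ≤ (k : ℝ) / 2 := by positivity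
    linarith)).1
  have h2 := h.re
  refine h2.congr (ae_of_all _ fun u => ?_)
  show ((gd k n u : ℂ) * cexp ((c : ℂ) * u)).re = gd k n u * Real.exp (c * u)
  rw [← Complex.ofReal_mul, ← Complex.ofReal_exp, ← Complex.ofReal_mul, Complex.ofReal_re]

theorem s3d_inner {k : ℕ} (hk : 1 ≤ k) {n : ℕ} (hn : 1 ≤ n) {z : ℂ} (hz : 0 < z.re) (δ : ℝ) :
    ∫ v : ℝ, (gd k n (v + δ) : ℂ) * cexp (z * v) =
      cexp (-(z * δ)) * (Gamma ((k : ℂ) / 2 + z) *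
        ((2 * Real.pi * n : ℝ) : ℂ) ^ (-((k : ℂ) / 2 + z))) := by
  have h := (gd_mellin hk hn (z := z) (by
    have : (0 : ℝ) ≤ (k : ℝ) / 2 := by positivity
    linarith)).2
  rw [← h, ← integral_const_mul]
  have h2 := integral_add_right_eq_self (μ := (volume : Measure ℝ))
    (fun u : ℝ => cexp (-(z * δ)) * ((gd k n u : ℂ) * cexp (z * u))) δ
  rw [← h2]
  refine integral_congr_ae (ae_of_all _ fun v => ?_)
  show (gd k n (v + δ) : ℂ) * cexp (z * v) =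
    cexp (-(z * δ)) * ((gd k n (v + δ) : ℂ) * cexp (z * ((v + δ : ℝ) : ℂ)))
  rw [mul_left_comm, ← Complex.exp_add]
  congr 2
  push_cast
  ring

/-- the algebra of the powers -/
theorem s3d_alg {k n m l : ℕ} (hn : 1 ≤ n) (hm : 1 ≤ m) (hl : 1 ≤ l) (z G : ℂ) :
    (((n : ℝ) ^ (((k : ℝ) - 1) / 2) / (√m * √l) : ℝ) : ℂ) *
      (cexp (-(z * ((Real.log m - Real.log l : ℝ) : ℂ))) *
        (G * ((2 * Real.pi * n : ℝ) : ℂ) ^ (-((k : ℂ) / 2 + z)))) =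
      (G * ((2 * Real.pi : ℝ) : ℂ) ^ (-((k : ℂ) / 2 + z))) *
        ((n : ℂ) ^ (-(1 / 2 + z)) * (m : ℂ) ^ (-(1 / 2 + z)) * (l : ℂ) ^ (-(1 / 2 - z))) := by
  have hn0 : (n : ℂ) ≠ 0 := by exact_mod_cast (by omega : n ≠ 0)
  have hm0 : (m : ℂ) ≠ 0 := by exact_mod_cast (by omega : m ≠ 0)
  have hl0 : (l : ℂ) ≠ 0 := by exact_mod_cast (by omega : l ≠ 0)
  have hnr : (0 : ℝ) < n := by exact_mod_cast (by omega : 0 < n)
  have hmr : (0 : ℝ) < m := by exact_mod_cast (by omega : 0 < m)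
  have hlr : (0 : ℝ) < l := by exact_mod_cast (by omega : 0 < l)
  have e1 : ((2 * Real.pi * n : ℝ) : ℂ) ^ (-((k : ℂ) / 2 + z)) =
      ((2 * Real.pi : ℝ) : ℂ) ^ (-((k : ℂ) / 2 + z)) * (n : ℂ) ^ (-((k : ℂ) / 2 + z)) := by
    rw [Complex.ofReal_mul, Complex.mul_cpow_ofReal_nonneg (by positivity) hnr.le,
      Complex.ofReal_natCast]
  have e2 : (((n : ℝ) ^ (((k : ℝ) - 1) / 2) : ℝ) : ℂ) = (n : ℂ) ^ (((k : ℂ) - 1) / 2) := by
    rw [Complex.ofReal_cpow hnr.le]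
    push_cast
    rfl
  have e3 : ∀ j : ℕ, 0 < (j : ℝ) → ((√(j : ℝ) : ℝ) : ℂ) = (j : ℂ) ^ (1 / 2 : ℂ) := by
    intro j hj
    rw [Real.sqrt_eq_rpow, Complex.ofReal_cpow hj.le]
    push_cast
    rfl
  have e4 : cexp (-(z * ((Real.log m - Real.log l : ℝ) : ℂ))) = (m : ℂ) ^ (-z) * (l : ℂ) ^ z := by
    rw [Complex.cpow_def_of_ne_zero hm0, Complex.cpow_def_of_ne_zero hl0, ← Complex.exp_add]
    congr 1
    rw [Complex.ofReal_sub, ← Complex.natCast_log, ← Complex.natCast_log]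
    ring
  have e5 : (n : ℂ) ^ (((k : ℂ) - 1) / 2) * (n : ℂ) ^ (-((k : ℂ) / 2 + z)) =
      (n : ℂ) ^ (-(1 / 2 + z)) := by
    rw [← Complex.cpow_add _ _ hn0]
    congr 1
    ring
  have e6 : (m : ℂ) ^ (-z) = (m : ℂ) ^ (-(1 / 2 + z)) * (m : ℂ) ^ (1 / 2 : ℂ) := by
    rw [← Complex.cpow_add _ _ hm0]
    congr 1
    ring
  have e7 : (l : ℂ) ^ z = (l : ℂ) ^ (-(1 / 2 - z)) * (l : ℂ) ^ (1 / 2 : ℂ) := by
    rw [← Complex.cpow_add _ _ hl0]
    congr 1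
    ring
  have hm2 : (m : ℂ) ^ (1 / 2 : ℂ) ≠ 0 := by
    rw [Complex.cpow_def_of_ne_zero hm0]; exact Complex.exp_ne_zero _
  have hl2 : (l : ℂ) ^ (1 / 2 : ℂ) ≠ 0 := by
    rw [Complex.cpow_def_of_ne_zero hl0]; exact Complex.exp_ne_zero _
  rw [Complex.ofReal_div, Complex.ofReal_mul, e2, e3 m hmr, e3 l hlr, e4, e1, e6, e7, ← e5]
  field_simp

theorem tau_rep {k : ℕ} (hk : 1 ≤ k) {L : ℝ} (hL : 0 < L) (S : Step) (t : ℝ) {n m l : ℕ}
    (hn : 1 ≤ n) (hm : 1 ≤ m) (hl : 1 ≤ l) :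
    (((n : ℝ) ^ (((k : ℝ) - 1) / 2) / (√m * √l) : ℝ) : ℂ) * tau k L S.η t n m l =
      ∫ τ : ℝ, S.K τ * (Gamma ((k : ℂ) / 2 + ((1 + τ * I) / (8 * L) + t * I)) *
        ((2 * Real.pi : ℝ) : ℂ) ^ (-((k : ℂ) / 2 + ((1 + τ * I) / (8 * L) + t * I)))) *
        ((n : ℂ) ^ (-(1 / 2 + (1 + τ * I) / (8 * L) + t * I)) *
          (m : ℂ) ^ (-(1 / 2 + (1 + τ * I) / (8 * L) + t * I)) *
          (l : ℂ) ^ (-(1 / 2 - (1 + τ * I) / (8 * L) - t * I))) := by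
  set δ : ℝ := Real.log m - Real.log l with hδ
  have hL8 : (0 : ℝ) < 1 / (8 * L) := by positivity
  have hzre : ∀ τ : ℝ, 0 < (s3d_z L t τ).re := fun τ => by rw [s3d_z_re]; exact hL8
  -- the double integral
  have hfc : Continuous (fun p : ℝ × ℝ => (gd k n (p.1 + δ) : ℂ) *
      (S.K p.2 * cexp (s3d_z L t p.2 * p.1))) := by
    have h1 := s3d_gd_cont k n
    have h2 := S.Kc
    have h3 := s3d_z_cont L t
    refine ((Complex.continuous_ofReal.comp (h1.comp (by fun_prop)))).mul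
      ((h2.comp continuous_snd).mul (Complex.continuous_exp.comp
        ((h3.comp continuous_snd).mul (Complex.continuous_ofReal.comp continuous_fst))))
  have hint : Integrable (fun p : ℝ × ℝ => (gd k n (p.1 + δ) : ℂ) *
      (S.K p.2 * cexp (s3d_z L t p.2 * p.1))) (volume.prod volume) := by
    have h1 : Integrable (fun v : ℝ => gd k n (v + δ) * Real.exp (1 / (8 * L) * v)) := by
      have h0 := (s3d_gd_int hk hn hL8).comp_add_right δ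
      have h00 := h0.const_mul (Real.exp (-(1 / (8 * L) * δ)))
      refine h00.congr (ae_of_all _ fun v => ?_)
      show Real.exp (-(1 / (8 * L) * δ)) * (gd k n (v + δ) * Real.exp (1 / (8 * L) * (v + δ))) = _
      rw [mul_left_comm, ← Real.exp_add]
      congr 2
      ring
    have h2 := h1.mul_prod S.Ki.norm
    refine h2.mono hfc.aestronglyMeasurable (ae_of_all _ fun p => ?_)
    rw [norm_mul, norm_mul, norm_mul, Complex.norm_exp, norm_mul, norm_norm, Real.norm_eq_abs,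
      Real.norm_eq_abs, Complex.norm_real, Real.norm_eq_abs, abs_of_pos (s3d_gd_pos k n _),
      abs_of_pos (Real.exp_pos _)]
    have e : (s3d_z L t p.2 * (p.1 : ℂ)).re = 1 / (8 * L) * p.1 := by
      rw [Complex.re_mul_ofReal, s3d_z_re]
    rw [e]
    apply le_of_eq
    ring
  have hA : tau k L S.η t n m l = ∫ v : ℝ, ∫ τ : ℝ, (gd k n (v + δ) : ℂ) *
      (S.K τ * cexp (s3d_z L t τ * v)) := by
    unfold tau
    refine integral_congr_ae (ae_of_all _ fun v => ?_)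
    show (gd k n (v + (Real.log m - Real.log l)) : ℂ) * (S.η (v / (8 * L)) : ℂ) *
      cexp (t * v * I) = ∫ τ : ℝ, (gd k n (v + δ) : ℂ) * (S.K τ * cexp (s3d_z L t τ * v))
    rw [S.rep, mul_assoc, ← integral_mul_const, ← integral_const_mul]
    refine integral_congr_ae (ae_of_all _ fun τ => ?_)
    show (gd k n (v + (Real.log m - Real.log l)) : ℂ) *
      (S.K τ * cexp ((1 + τ * I) * ((v / (8 * L) : ℝ) : ℂ)) * cexp (t * v * I)) =
      (gd k n (v + δ) : ℂ) * (S.K τ * cexp (s3d_z L t τ * v))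
    rw [← hδ, mul_assoc, ← Complex.exp_add]
    congr 2
    unfold s3d_z
    push_cast
    ring_nf
  rw [hA, integral_integral_swap hint, ← integral_const_mul]
  refine integral_congr_ae (ae_of_all _ fun τ => ?_)
  show (((n : ℝ) ^ (((k : ℝ) - 1) / 2) / (√m * √l) : ℝ) : ℂ) *
    (∫ v : ℝ, (gd k n (v + δ) : ℂ) * (S.K τ * cexp (s3d_z L t τ * v))) = _
  have hB : ∫ v : ℝ, (gd k n (v + δ) : ℂ) * (S.K τ * cexp (s3d_z L t τ * v)) =
      S.K τ * (cexp (-(s3d_z L t τ * δ)) * (Gamma ((k : ℂ) / 2 + s3d_z L t τ) *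
        ((2 * Real.pi * n : ℝ) : ℂ) ^ (-((k : ℂ) / 2 + s3d_z L t τ)))) := by
    rw [← s3d_inner hk hn (hzre τ) δ, ← integral_const_mul]
    refine integral_congr_ae (ae_of_all _ fun v => ?_)
    show (gd k n (v + δ) : ℂ) * (S.K τ * cexp (s3d_z L t τ * v)) =
      S.K τ * ((gd k n (v + δ) : ℂ) * cexp (s3d_z L t τ * v))
    ring
  beta_reduce
  rw [hB, mul_left_comm, hδ, s3d_alg hn hm hl (s3d_z L t τ)]
  have e1 : (1 / 2 + (1 + τ * I) / (8 * L) + t * I : ℂ) = 1 / 2 + s3d_z L t τ := by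
    unfold s3d_z; ring
  have e2 : (1 / 2 - (1 + τ * I) / (8 * L) - t * I : ℂ) = 1 / 2 - s3d_z L t τ := by
    unfold s3d_z; ring
  rw [e1, e2]
  unfold s3d_z
  ring

/-- the archimedean factor -/
noncomputable def s3d_G (k : ℕ) (L t τ : ℝ) : ℂ :=
  Gamma ((k : ℂ) / 2 + s3d_z L t τ) * ((2 * Real.pi : ℝ) : ℂ) ^ (-((k : ℂ) / 2 + s3d_z L t τ))

theorem s3d_G_cont {k : ℕ} {L : ℝ} (hL : 0 < L) (t : ℝ) : Continuous (s3d_G k L t) := by
  have hz := s3d_z_cont L t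
  have h8 : (0 : ℝ) < 1 / (8 * L) := by positivity
  have h1 : Continuous fun τ : ℝ => Gamma ((k : ℂ) / 2 + s3d_z L t τ) := by
    rw [continuous_iff_continuousAt]
    intro τ
    have hd : DifferentiableAt ℂ Gamma ((k : ℂ) / 2 + s3d_z L t τ) := by
      refine Complex.differentiableAt_Gamma _ fun j hj => ?_
      have := congrArg Complex.re hj
      rw [Complex.add_re, s3d_z_re, Complex.neg_re, Complex.natCast_re,
        show ((k : ℂ) / 2).re = (k : ℝ) / 2 by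
          rw [show (k : ℂ) / 2 = (((k : ℝ) / 2 : ℝ) : ℂ) by push_cast; ring, Complex.ofReal_re]]
        at this
      have a1 : (0 : ℝ) ≤ (k : ℝ) / 2 := by positivity
      have a2 : (0 : ℝ) ≤ (j : ℝ) := by positivity
      linarith
    exact hd.continuousAt.comp (f := fun τ : ℝ => (k : ℂ) / 2 + s3d_z L t τ)
      (continuous_const.add hz).continuousAt
  unfold s3d_G
  refine h1.mul ?_
  refine Continuous.const_cpow (by fun_prop) (Or.inl ?_)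
  exact Complex.ofReal_ne_zero.mpr (by positivity)

theorem s3d_G_bd {k : ℕ} (hk : 1 ≤ k) {L : ℝ} (hL : 0 < L) (t τ : ℝ) :
    ‖s3d_G k L t τ‖ ≤ ∫ u : ℝ, gd k 1 u * Real.exp (1 / (8 * L) * u) := by
  have h8 : (0 : ℝ) < 1 / (8 * L) := by positivity
  have h := (gd_mellin hk le_rfl (z := s3d_z L t τ) (by
    rw [s3d_z_re]
    have : (0 : ℝ) ≤ (k : ℝ) / 2 := by positivity
    linarith)).2
  have e : s3d_G k L t τ = ∫ u : ℝ, (gd k 1 u : ℂ) * cexp (s3d_z L t τ * u) := by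
    rw [h]
    unfold s3d_G
    rw [Nat.cast_one, mul_one]
  rw [e]
  refine (norm_integral_le_integral_norm _).trans (le_of_eq ?_)
  refine integral_congr_ae (ae_of_all _ fun u => ?_)
  show ‖(gd k 1 u : ℂ) * cexp (s3d_z L t τ * u)‖ = gd k 1 u * Real.exp (1 / (8 * L) * u)
  rw [norm_mul, Complex.norm_exp, Complex.re_mul_ofReal, s3d_z_re, Complex.norm_real,
    Real.norm_eq_abs, abs_of_pos (s3d_gd_pos k 1 u)]

theorem s3d_int {k : ℕ} (hk : 1 ≤ k) {L : ℝ} (hL : 0 < L) (t : ℝ) (S : Step) {E : ℝ → ℂ}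
    (hE : Continuous E) {M : ℝ} (hM : ∀ τ, ‖E τ‖ ≤ M) :
    Integrable fun τ : ℝ => S.K τ * s3d_G k L t τ * E τ := by
  have h1 : Integrable fun τ : ℝ => ‖S.K τ‖ *
      ((∫ u : ℝ, gd k 1 u * Real.exp (1 / (8 * L) * u)) * M) := S.Ki.norm.mul_const _
  refine h1.mono' ((S.Kc.mul (s3d_G_cont hL t)).mul hE).aestronglyMeasurable
    (ae_of_all _ fun τ => ?_)
  rw [norm_mul, norm_mul, mul_assoc]
  refine mul_le_mul_of_nonneg_left ?_ (norm_nonneg _)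
  exact mul_le_mul (s3d_G_bd hk hL t τ) (hM τ) (norm_nonneg _)
    ((norm_nonneg _).trans (s3d_G_bd hk hL t τ))

theorem s3d_cpow_cont {L : ℝ} (t : ℝ) {n : ℕ} (hn : 1 ≤ n) (a b : ℂ) :
    Continuous fun τ : ℝ => (n : ℂ) ^ (a + b * s3d_z L t τ) := by
  have hz := s3d_z_cont L t
  refine Continuous.const_cpow (by fun_prop) (Or.inl ?_)
  exact_mod_cast (by omega : n ≠ 0)

/-- the monomials -/
noncomputable def s3d_E (L t : ℝ) (n m l : ℕ) (τ : ℝ) : ℂ :=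
  (n : ℂ) ^ (-(1 / 2 + s3d_z L t τ)) * (m : ℂ) ^ (-(1 / 2 + s3d_z L t τ)) *
    (l : ℂ) ^ (-(1 / 2 - s3d_z L t τ))

theorem s3d_p1_cont (L t : ℝ) {n : ℕ} (hn : 1 ≤ n) :
    Continuous fun τ : ℝ => (n : ℂ) ^ (-(1 / 2 + s3d_z L t τ)) := by
  have hz := s3d_z_cont L t
  refine Continuous.const_cpow (by fun_prop) (Or.inl ?_)
  exact_mod_cast (by omega : n ≠ 0)

theorem s3d_p2_cont (L t : ℝ) {n : ℕ} (hn : 1 ≤ n) :
    Continuous fun τ : ℝ => (n : ℂ) ^ (-(1 / 2 - s3d_z L t τ)) := by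
  have hz := s3d_z_cont L t
  refine Continuous.const_cpow (by fun_prop) (Or.inl ?_)
  exact_mod_cast (by omega : n ≠ 0)

theorem s3d_half_re : (1 / 2 : ℂ).re = 1 / 2 := by
  rw [show (1 / 2 : ℂ) = ((1 / 2 : ℝ) : ℂ) by push_cast; ring, Complex.ofReal_re]

theorem s3d_p1_norm (L t : ℝ) {n : ℕ} (hn : 1 ≤ n) (τ : ℝ) :
    ‖(n : ℂ) ^ (-(1 / 2 + s3d_z L t τ))‖ = (n : ℝ) ^ (-(1 / 2 + 1 / (8 * L))) := by
  rw [Complex.norm_natCast_cpow_of_pos (by omega), Complex.neg_re, Complex.add_re, s3d_z_re,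
    s3d_half_re]

theorem s3d_p2_norm (L t : ℝ) {n : ℕ} (hn : 1 ≤ n) (τ : ℝ) :
    ‖(n : ℂ) ^ (-(1 / 2 - s3d_z L t τ))‖ = (n : ℝ) ^ (-(1 / 2 - 1 / (8 * L))) := by
  rw [Complex.norm_natCast_cpow_of_pos (by omega), Complex.neg_re, Complex.sub_re, s3d_z_re,
    s3d_half_re]

theorem s3d_E_int {k : ℕ} (hk : 1 ≤ k) {L : ℝ} (hL : 0 < L) (t : ℝ) (S : Step) {n m l : ℕ}
    (hn : 1 ≤ n) (hm : 1 ≤ m) (hl : 1 ≤ l) :
    Integrable fun τ : ℝ => S.K τ * s3d_G k L t τ * s3d_E L t n m l τ := by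
  refine s3d_int hk hL t S (((s3d_p1_cont L t hn).mul (s3d_p1_cont L t hm)).mul
    (s3d_p2_cont L t hl)) (M := (n : ℝ) ^ (-(1 / 2 + 1 / (8 * L))) *
      (m : ℝ) ^ (-(1 / 2 + 1 / (8 * L))) * (l : ℝ) ^ (-(1 / 2 - 1 / (8 * L)))) fun τ => ?_
  unfold s3d_E
  rw [norm_mul, norm_mul, s3d_p1_norm L t hn, s3d_p1_norm L t hm, s3d_p2_norm L t hl]

/-- `tau_rep` in the notation of this file -/
theorem s3d_rep {k : ℕ} (hk : 1 ≤ k) {L : ℝ} (hL : 0 < L) (S : Step) (t : ℝ) {n m l : ℕ}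
    (hn : 1 ≤ n) (hm : 1 ≤ m) (hl : 1 ≤ l) :
    ∫ τ : ℝ, S.K τ * s3d_G k L t τ * s3d_E L t n m l τ =
      (((n : ℝ) ^ (((k : ℝ) - 1) / 2) / (√m * √l) : ℝ) : ℂ) * tau k L S.η t n m l := by
  rw [tau_rep hk hL S t hn hm hl]
  refine integral_congr_ae (ae_of_all _ fun τ => ?_)
  have e1 : (1 / 2 + (1 + τ * I) / (8 * L) + t * I : ℂ) = 1 / 2 + s3d_z L t τ := by
    unfold s3d_z; ring
  have e2 : (1 / 2 - (1 + τ * I) / (8 * L) - t * I : ℂ) = 1 / 2 - s3d_z L t τ := by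
    unfold s3d_z; ring
  beta_reduce
  rw [e1, e2]
  rfl

/-- the summands of the truncated cusp part -/
noncomputable def s3d_T (k : ℕ) (L : ℝ) (Θ η : ℝ → ℝ) (t : ℝ) (θ : ℕ → ℝ) (n : ℕ) : ℂ :=
  ∑ m ∈ Finset.Ico 1 (NL L), ∑ l ∈ Finset.Ico 1 (NL L),
    ((xm L Θ m * xm L Θ l * (al θ m * al θ l * hs θ n) * (n : ℝ) ^ (((k : ℝ) - 1) / 2) : ℝ) : ℂ) *
      tau k L η t n m l

/-- the product of the two mollifiers -/
theorem s3d_mol (L : ℝ) (Θ : ℝ → ℝ) (θ : ℕ → ℝ) (s s' : ℂ) :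
    mol L Θ θ s * mol L Θ θ s' = ∑ m ∈ Finset.Ico 1 (NL L), ∑ l ∈ Finset.Ico 1 (NL L),
      ((al θ m * Θ (Real.log m / L) : ℝ) : ℂ) * ((al θ l * Θ (Real.log l / L) : ℝ) : ℂ) *
        ((m : ℂ) ^ (-s) * (l : ℂ) ^ (-s')) := by
  unfold mol
  rw [Finset.sum_mul_sum]
  refine Finset.sum_congr rfl fun m _ => Finset.sum_congr rfl fun l _ => ?_
  ring

theorem s3d_term {k : ℕ} (hk : 1 ≤ k) {L : ℝ} (hL : 0 < L) (t : ℝ) (S : Step) (Θ : ℝ → ℝ)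
    (θ : ℕ → ℝ) {n : ℕ} (hn : 1 ≤ n) :
    ∫ τ : ℝ, S.K τ * s3d_G k L t τ * ((hs θ n : ℂ) * (n : ℂ) ^ (-(1 / 2 + s3d_z L t τ)) *
      (mol L Θ θ (1 / 2 + s3d_z L t τ) * mol L Θ θ (1 / 2 - s3d_z L t τ))) =
      s3d_T k L Θ S.η t θ n := by
  have e : (fun τ : ℝ => S.K τ * s3d_G k L t τ * ((hs θ n : ℂ) *
      (n : ℂ) ^ (-(1 / 2 + s3d_z L t τ)) *
      (mol L Θ θ (1 / 2 + s3d_z L t τ) * mol L Θ θ (1 / 2 - s3d_z L t τ)))) =
      fun τ : ℝ => ∑ m ∈ Finset.Ico 1 (NL L), ∑ l ∈ Finset.Ico 1 (NL L),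
        ((hs θ n : ℂ) * (((al θ m * Θ (Real.log m / L) : ℝ) : ℂ) *
          ((al θ l * Θ (Real.log l / L) : ℝ) : ℂ))) *
          (S.K τ * s3d_G k L t τ * s3d_E L t n m l τ) := by
    funext τ
    rw [s3d_mol, Finset.mul_sum, Finset.mul_sum]
    refine Finset.sum_congr rfl fun m _ => ?_
    rw [Finset.mul_sum, Finset.mul_sum]
    refine Finset.sum_congr rfl fun l _ => ?_
    unfold s3d_E
    ring
  rw [e, integral_finsetSum]
  · unfold s3d_T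
    refine Finset.sum_congr rfl fun m hm => ?_
    rw [integral_finsetSum]
    · refine Finset.sum_congr rfl fun l hl => ?_
      rw [integral_const_mul, s3d_rep hk hL S t hn (Finset.mem_Ico.mp hm).1
        (Finset.mem_Ico.mp hl).1]
      unfold xm
      push_cast
      ring
    · intro l hl
      exact (s3d_E_int hk hL t S hn (Finset.mem_Ico.mp hm).1 (Finset.mem_Ico.mp hl).1).const_mul _
  · intro m hm
    refine integrable_finsetSum _ fun l hl => ?_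
    exact (s3d_E_int hk hL t S hn (Finset.mem_Ico.mp hm).1 (Finset.mem_Ico.mp hl).1).const_mul _

theorem s3d_mol_int {k : ℕ} (hk : 1 ≤ k) {L : ℝ} (hL : 0 < L) (t : ℝ) (S : Step) (Θ : ℝ → ℝ)
    (θ : ℕ → ℝ) :
    Integrable fun τ : ℝ => S.K τ * s3d_G k L t τ *
      (mol L Θ θ (1 / 2 + s3d_z L t τ) * mol L Θ θ (1 / 2 - s3d_z L t τ)) := by
  have e : (fun τ : ℝ => S.K τ * s3d_G k L t τ *
      (mol L Θ θ (1 / 2 + s3d_z L t τ) * mol L Θ θ (1 / 2 - s3d_z L t τ))) =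
      fun τ : ℝ => ∑ m ∈ Finset.Ico 1 (NL L), ∑ l ∈ Finset.Ico 1 (NL L),
        (((al θ m * Θ (Real.log m / L) : ℝ) : ℂ) *
          ((al θ l * Θ (Real.log l / L) : ℝ) : ℂ)) *
          (S.K τ * s3d_G k L t τ * s3d_E L t 1 m l τ) := by
    funext τ
    rw [s3d_mol, Finset.mul_sum]
    refine Finset.sum_congr rfl fun m _ => ?_
    rw [Finset.mul_sum]
    refine Finset.sum_congr rfl fun l _ => ?_
    unfold s3d_E
    rw [Nat.cast_one, Complex.one_cpow]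
    ring
  rw [e]
  refine integrable_finsetSum _ fun m hm => integrable_finsetSum _ fun l hl => ?_
  exact (s3d_E_int hk hL t S le_rfl (Finset.mem_Ico.mp hm).1 (Finset.mem_Ico.mp hl).1).const_mul _

/-- the full integral as a sum over the smooth numbers -/
theorem s3d_hasSum {k : ℕ} (hk : 1 ≤ k) {L : ℝ} (hL : 0 < L) (t : ℝ) (S : Step) (Θ : ℝ → ℝ)
    (N : ℕ) {θ : ℕ → ℝ} (hθ : ∀ p, |θ p| ≤ 2) :
    HasSum (fun n : Nat.smoothNumbers N => s3d_T k L Θ S.η t θ n)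
      (∫ τ : ℝ, S.K τ * s3d_G k L t τ * (LX N θ (1 / 2 + s3d_z L t τ) *
        mol L Θ θ (1 / 2 + s3d_z L t τ) * mol L Θ θ (1 / 2 - s3d_z L t τ))) := by
  have h8 : (0 : ℝ) < 1 / (8 * L) := by positivity
  have hre : ∀ τ : ℝ, 0 < (1 / 2 + s3d_z L t τ).re := by
    intro τ
    rw [Complex.add_re, s3d_z_re, s3d_half_re]
    linarith
  have hpos : ∀ n : Nat.smoothNumbers N, 1 ≤ (n : ℕ) := fun n =>
    Nat.one_le_iff_ne_zero.mpr (Nat.ne_zero_of_mem_smoothNumbers n.2)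
  have hH := s3d_mol_int hk hL t S Θ θ
  set F : Nat.smoothNumbers N → ℝ → ℂ := fun n τ => S.K τ * s3d_G k L t τ *
    ((hs θ n : ℂ) * ((n : ℕ) : ℂ) ^ (-(1 / 2 + s3d_z L t τ)) *
      (mol L Θ θ (1 / 2 + s3d_z L t τ) * mol L Θ θ (1 / 2 - s3d_z L t τ))) with hF
  have hFn : ∀ n : Nat.smoothNumbers N, ∀ τ : ℝ, F n τ =
      ((hs θ n : ℂ) * ((n : ℕ) : ℂ) ^ (-(1 / 2 + s3d_z L t τ))) *
        (S.K τ * s3d_G k L t τ *
      (mol L Θ θ (1 / 2 + s3d_z L t τ) * mol L Θ θ (1 / 2 - s3d_z L t τ))) := by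
    intro n τ
    rw [hF]
    ring
  have hnorm : ∀ n : Nat.smoothNumbers N, ∀ τ : ℝ, ‖F n τ‖ =
      (|hs θ n| * ((n : ℕ) : ℝ) ^ (-(1 / 2 + 1 / (8 * L)))) * ‖S.K τ * s3d_G k L t τ *
      (mol L Θ θ (1 / 2 + s3d_z L t τ) * mol L Θ θ (1 / 2 - s3d_z L t τ))‖ := by
    intro n τ
    rw [hFn, norm_mul, norm_mul, s3d_p1_norm L t (hpos n), Complex.norm_real, Real.norm_eq_abs]
  have hmeas : ∀ n : Nat.smoothNumbers N, AEStronglyMeasurable (F n) volume := by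
    intro n
    have e : F n = fun τ => ((hs θ n : ℂ) * ((n : ℕ) : ℂ) ^ (-(1 / 2 + s3d_z L t τ))) *
        (S.K τ * s3d_G k L t τ *
      (mol L Θ θ (1 / 2 + s3d_z L t τ) * mol L Θ θ (1 / 2 - s3d_z L t τ))) := funext (hFn n)
    rw [e]
    exact (continuous_const.mul (s3d_p1_cont L t (hpos n))).aestronglyMeasurable.mul
      hH.aestronglyMeasurable
  have hint : ∀ n : Nat.smoothNumbers N, Integrable (F n) := by
    intro n
    refine (hH.norm.const_mul (|hs θ n| * ((n : ℕ) : ℝ) ^ (-(1 / 2 + 1 / (8 * L))))).mono'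
      (hmeas n) (ae_of_all _ fun τ => ?_)
    rw [hnorm]
  have hsum : Summable fun n : Nat.smoothNumbers N => ∫ τ, ‖F n τ‖ := by
    have h0 := (hs_euler hθ N (s := ((1 / 2 + 1 / (8 * L) : ℝ) : ℂ)) (by
      rw [Complex.ofReal_re]; linarith)).1
    have h1 := h0.mul_right (∫ τ, ‖S.K τ * s3d_G k L t τ *
      (mol L Θ θ (1 / 2 + s3d_z L t τ) * mol L Θ θ (1 / 2 - s3d_z L t τ))‖)
    refine h1.congr fun n => ?_
    have e : (fun τ => ‖F n τ‖) = fun τ => (|hs θ n| * ((n : ℕ) : ℝ) ^ (-(1 / 2 + 1 / (8 * L)))) *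
      ‖S.K τ * s3d_G k L t τ *
      (mol L Θ θ (1 / 2 + s3d_z L t τ) * mol L Θ θ (1 / 2 - s3d_z L t τ))‖ := funext (hnorm n)
    rw [e, integral_const_mul, norm_mul, Complex.norm_real, Real.norm_eq_abs,
      Complex.norm_natCast_cpow_of_pos (hpos n), Complex.neg_re, Complex.ofReal_re]
  have key := hasSum_integral_of_summable_integral_norm hint hsum
  have e1 : ∀ n : Nat.smoothNumbers N, ∫ τ, F n τ = s3d_T k L Θ S.η t θ n := fun n =>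
    s3d_term hk hL t S Θ θ (hpos n)
  have e2 : (∫ τ, ∑' n, F n τ) = ∫ τ : ℝ, S.K τ * s3d_G k L t τ * (LX N θ (1 / 2 + s3d_z L t τ) *
        mol L Θ θ (1 / 2 + s3d_z L t τ) * mol L Θ θ (1 / 2 - s3d_z L t τ)) := by
    refine integral_congr_ae (ae_of_all _ fun τ => ?_)
    beta_reduce
    rw [← (hs_euler hθ N (hre τ)).2]
    have e3 : (fun n : Nat.smoothNumbers N => F n τ) = fun n : Nat.smoothNumbers N =>
      ((hs θ n : ℂ) * ((n : ℕ) : ℂ) ^ (-(1 / 2 + s3d_z L t τ))) *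
        (S.K τ * s3d_G k L t τ *
      (mol L Θ θ (1 / 2 + s3d_z L t τ) * mol L Θ θ (1 / 2 - s3d_z L t τ))) :=
      funext fun n => hFn n τ
    rw [e3, tsum_mul_right]
    ring
  rw [← e2]
  exact key.congr_fun fun n => (e1 n).symm

theorem s3d_NL (L : ℝ) : 1 ≤ NL L := by
  unfold Pool.Agent.SEL.NL
  exact Nat.one_le_iff_ne_zero.mpr (Nat.ceil_pos.mpr (Real.exp_pos L)).ne'

theorem s3d_xm {L : ℝ} {Θ : ℝ → ℝ} (hΘ : ∀ x, 0 ≤ Θ x ∧ Θ x ≤ 1) {m : ℕ} (hm : 1 ≤ m) :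
    |xm L Θ m| ≤ 1 := by
  unfold xm
  have h1 : (1 : ℝ) ≤ √(m : ℝ) := Real.one_le_sqrt.mpr (by exact_mod_cast hm)
  rw [abs_div, abs_of_nonneg (hΘ _).1, abs_of_pos (by linarith)]
  rw [div_le_one (by linarith)]
  linarith [(hΘ (Real.log m / L)).2]

theorem s3d_T_bd {k : ℕ} (hk : 2 ≤ k) (he : Even k) {L : ℝ} (hL : 0 < L) (t : ℝ) (S : Step)
    {Θ : ℝ → ℝ} (hΘ : ∀ x, 0 ≤ Θ x ∧ Θ x ≤ 1) {θ : ℕ → ℝ} (hθ : ∀ p, |θ p| ≤ 2) {n : ℕ}
    (hn : 1 ≤ n) : ‖s3d_T k L Θ S.η t θ n‖ ≤ gk k * ((NL L : ℝ) ^ 8 * ((n : ℝ) ^ 2 *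
      ((k : ℝ) / (2 * Real.pi * n * Real.exp (3 * L))) ^ ((k : ℝ) / 2))) := by
  set q : ℝ := ((k : ℝ) / (2 * Real.pi * n * Real.exp (3 * L))) ^ ((k : ℝ) / 2) with hq
  have hq0 : 0 ≤ q := by rw [hq]; positivity
  have hgk : 0 < gk k := by
    unfold gk
    have : (0 : ℝ) < (k : ℝ) / 2 := by
      have : (2 : ℝ) ≤ k := by exact_mod_cast hk
      linarith
    have := Real.Gamma_pos_of_pos this
    positivity
  have hNL : (1 : ℝ) ≤ NL L := by exact_mod_cast s3d_NL L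
  have hnr : (1 : ℝ) ≤ n := by exact_mod_cast hn
  have hn0 : (0 : ℝ) < n := by linarith
  have hterm : ∀ m ∈ Finset.Ico 1 (NL L), ∀ l ∈ Finset.Ico 1 (NL L),
      ‖((xm L Θ m * xm L Θ l * (al θ m * al θ l * hs θ n) *
        (n : ℝ) ^ (((k : ℝ) - 1) / 2) : ℝ) : ℂ) * tau k L S.η t n m l‖ ≤
        gk k * ((NL L : ℝ) ^ 2 * ((n : ℝ) ^ 2 * q)) := by
    intro m hm l hl
    obtain ⟨hm1, hm2⟩ := Finset.mem_Ico.mp hm
    obtain ⟨hl1, hl2⟩ := Finset.mem_Ico.mp hl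
    have h1 := (tau_le hk he hL S t hn hm1 hm2 hl1 hl2).2
    rw [← hq] at h1
    have a1 := s3d_xm (L := L) hΘ hm1
    have a2 := s3d_xm (L := L) hΘ hl1
    have a3 : |al θ m| ≤ NL L := ((hs_le hθ (by omega : 0 < m)).2).trans (by exact_mod_cast hm2.le)
    have a4 : |al θ l| ≤ NL L := ((hs_le hθ (by omega : 0 < l)).2).trans (by exact_mod_cast hl2.le)
    have a5 : |hs θ n| ≤ n := (hs_le hθ (by omega : 0 < n)).1
    rw [norm_mul, Complex.norm_real, Real.norm_eq_abs, abs_mul, abs_mul, abs_mul, abs_mul, abs_mul,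
      abs_of_pos (Real.rpow_pos_of_pos hn0 _)]
    have b1 : |xm L Θ m| * |xm L Θ l| * (|al θ m| * |al θ l| * |hs θ n|) ≤
        1 * 1 * ((NL L : ℝ) * NL L * n) := by
      gcongr
    have b2 : |xm L Θ m| * |xm L Θ l| * (|al θ m| * |al θ l| * |hs θ n|) *
        (n : ℝ) ^ (((k : ℝ) - 1) / 2) * ‖tau k L S.η t n m l‖ ≤
        1 * 1 * ((NL L : ℝ) * NL L * n) * (n : ℝ) ^ (((k : ℝ) - 1) / 2) *
          (gk k * (n : ℝ) ^ (-(k : ℝ) / 2) * q) := by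
      refine mul_le_mul (mul_le_mul_of_nonneg_right b1 (by positivity)) h1 (norm_nonneg _)
        (by positivity)
    refine b2.trans ?_
    have b3 : (n : ℝ) ^ (((k : ℝ) - 1) / 2) * (n : ℝ) ^ (-(k : ℝ) / 2) ≤ 1 := by
      rw [← Real.rpow_add hn0]
      refine Real.rpow_le_one_of_one_le_of_nonpos hnr ?_
      linarith
    have b4 : (n : ℝ) ≤ (n : ℝ) ^ 2 := by nlinarith
    calc 1 * 1 * ((NL L : ℝ) * NL L * n) * (n : ℝ) ^ (((k : ℝ) - 1) / 2) *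
          (gk k * (n : ℝ) ^ (-(k : ℝ) / 2) * q)
        = gk k * ((NL L : ℝ) ^ 2 * (n * q)) *
          ((n : ℝ) ^ (((k : ℝ) - 1) / 2) * (n : ℝ) ^ (-(k : ℝ) / 2)) := by ring
      _ ≤ gk k * ((NL L : ℝ) ^ 2 * (n * q)) * 1 :=
          mul_le_mul_of_nonneg_left b3 (by positivity)
      _ ≤ gk k * ((NL L : ℝ) ^ 2 * ((n : ℝ) ^ 2 * q)) := by
          rw [mul_one]
          gcongr
  unfold s3d_T
  calc ‖∑ m ∈ Finset.Ico 1 (NL L), ∑ l ∈ Finset.Ico 1 (NL L),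
      ((xm L Θ m * xm L Θ l * (al θ m * al θ l * hs θ n) *
        (n : ℝ) ^ (((k : ℝ) - 1) / 2) : ℝ) : ℂ) * tau k L S.η t n m l‖
      ≤ ∑ m ∈ Finset.Ico 1 (NL L), ∑ l ∈ Finset.Ico 1 (NL L),
        gk k * ((NL L : ℝ) ^ 2 * ((n : ℝ) ^ 2 * q)) := by
        refine (norm_sum_le _ _).trans (Finset.sum_le_sum fun m hm => ?_)
        refine (norm_sum_le _ _).trans (Finset.sum_le_sum fun l hl => ?_)
        exact hterm m hm l hl
    _ = ((NL L - 1 : ℕ) : ℝ) * (((NL L - 1 : ℕ) : ℝ) *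
        (gk k * ((NL L : ℝ) ^ 2 * ((n : ℝ) ^ 2 * q)))) := by
        rw [Finset.sum_const, Finset.sum_const, Nat.card_Ico, nsmul_eq_mul, nsmul_eq_mul]
    _ ≤ (NL L : ℝ) * ((NL L : ℝ) * (gk k * ((NL L : ℝ) ^ 2 * ((n : ℝ) ^ 2 * q)))) := by
        have h1 : ((NL L - 1 : ℕ) : ℝ) ≤ NL L := by exact_mod_cast Nat.sub_le _ _
        gcongr
    _ = gk k * ((NL L : ℝ) ^ 4 * ((n : ℝ) ^ 2 * q)) := by ring
    _ ≤ gk k * ((NL L : ℝ) ^ 8 * ((n : ℝ) ^ 2 * q)) := by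
        have h1 : (NL L : ℝ) ^ 4 ≤ (NL L : ℝ) ^ 8 := pow_le_pow_right₀ hNL (by norm_num)
        gcongr

theorem s3_full {Θ : ℝ → ℝ} (hΘ : ∀ x, 0 ≤ Θ x ∧ Θ x ≤ 1) (S : Step) (B : ℝ) (hB : 0 < B) :
    ∃ k₀ : ℕ, ∀ k : ℕ, k₀ ≤ k → Even k → ∀ L : ℝ, L = Real.log k / B → ∀ N₀ : ℕ,
    N₀ = ⌊(k : ℝ) / (8 * Real.pi * (NL L : ℝ) ^ 2)⌋₊ → ∀ (t : ℝ)
    (X : Nat.primesBelow (k + 1) → ℝ),
    ‖(∫ τ : ℝ, S.K τ * (Gamma ((k : ℂ) / 2 + ((1 + τ * I) / (8 * L) + t * I)) *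
        ((2 * Real.pi : ℝ) : ℂ) ^ (-((k : ℂ) / 2 + ((1 + τ * I) / (8 * L) + t * I)))) *
        (LX (k + 1) (th X) (1 / 2 + (1 + τ * I) / (8 * L) + t * I) *
          mol L Θ (th X) (1 / 2 + (1 + τ * I) / (8 * L) + t * I) *
          mol L Θ (th X) (1 / 2 - (1 + τ * I) / (8 * L) - t * I))) -
      Tp k L Θ S.η t N₀ (th X)‖ ≤ gk k := by
  obtain ⟨k₀, hk₀⟩ := tail_num B hB
  refine ⟨max k₀ 2, fun k hk he L hLB N₀ hN₀ t X => ?_⟩
  have hk0 : k₀ ≤ k := (le_max_left _ _).trans hk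
  have hk2 : 2 ≤ k := (le_max_right _ _).trans hk
  have hk1 : 1 ≤ k := by omega
  have hL : 0 < L := by
    rw [hLB]
    refine div_pos (Real.log_pos ?_) hB
    exact_mod_cast (by omega : 1 < k)
  obtain ⟨hsum, htail⟩ := hk₀ k hk0 L hLB N₀ hN₀
  have hgk : 0 < gk k := by
    unfold gk
    have : (0 : ℝ) < (k : ℝ) / 2 := by
      have : (2 : ℝ) ≤ k := by exact_mod_cast hk2
      linarith
    have := Real.Gamma_pos_of_pos this
    positivity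
  have hNL : (1 : ℝ) ≤ NL L := by exact_mod_cast s3d_NL L
  have hθ : ∀ p, |th X p| ≤ 2 := th_le X
  have hfull := s3d_hasSum hk1 hL t S Θ (k + 1) hθ
  have eI : (∫ τ : ℝ, S.K τ * (Gamma ((k : ℂ) / 2 + ((1 + τ * I) / (8 * L) + t * I)) *
        ((2 * Real.pi : ℝ) : ℂ) ^ (-((k : ℂ) / 2 + ((1 + τ * I) / (8 * L) + t * I)))) *
        (LX (k + 1) (th X) (1 / 2 + (1 + τ * I) / (8 * L) + t * I) *
          mol L Θ (th X) (1 / 2 + (1 + τ * I) / (8 * L) + t * I) *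
          mol L Θ (th X) (1 / 2 - (1 + τ * I) / (8 * L) - t * I))) =
      ∫ τ : ℝ, S.K τ * s3d_G k L t τ * (LX (k + 1) (th X) (1 / 2 + s3d_z L t τ) *
        mol L Θ (th X) (1 / 2 + s3d_z L t τ) * mol L Θ (th X) (1 / 2 - s3d_z L t τ)) := by
    refine integral_congr_ae (ae_of_all _ fun τ => ?_)
    have e1 : (1 / 2 + (1 + τ * I) / (8 * L) + t * I : ℂ) = 1 / 2 + s3d_z L t τ := by
      unfold s3d_z; ring
    have e2 : (1 / 2 - (1 + τ * I) / (8 * L) - t * I : ℂ) = 1 / 2 - s3d_z L t τ := by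
      unfold s3d_z; ring
    beta_reduce
    rw [e1, e2]
    rfl
  rw [eI]
  set Full : ℂ := ∫ τ : ℝ, S.K τ * s3d_G k L t τ * (LX (k + 1) (th X) (1 / 2 + s3d_z L t τ) *
        mol L Θ (th X) (1 / 2 + s3d_z L t τ) * mol L Θ (th X) (1 / 2 - s3d_z L t τ)) with hFull
  set T : ℕ → ℂ := s3d_T k L Θ S.η t (th X) with hT
  set T' : ℕ → ℂ := (Nat.smoothNumbers (k + 1)).indicator T with hT'
  have hind : HasSum T' Full := by
    rw [hT', ← hasSum_subtype_iff_indicator]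
    exact hfull
  -- the truncated sum
  have hN0k : N₀ ≤ k := by
    rw [hN₀]
    refine Nat.floor_le_of_le ?_
    refine div_le_self (Nat.cast_nonneg k) ?_
    have h1 : (1 : ℝ) ≤ (NL L : ℝ) ^ 2 := one_le_pow₀ hNL
    have h2 := Real.pi_gt_three
    nlinarith
  have hsm : ∀ n : ℕ, 1 ≤ n → n ≤ N₀ → n ∈ Nat.smoothNumbers (k + 1) := by
    intro n h1 h2
    rw [Nat.mem_smoothNumbers]
    refine ⟨by omega, fun p hp => ?_⟩
    have := Nat.le_of_mem_primeFactorsList hp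
    omega
  have hTp : Tp k L Θ S.η t N₀ (th X) = ∑ n ∈ Finset.range (N₀ + 1), T' n := by
    have h1 : Tp k L Θ S.η t N₀ (th X) = ∑ n ∈ Finset.Icc 1 N₀, T n := rfl
    have h2 : ∑ n ∈ Finset.Icc 1 N₀, T n = ∑ n ∈ Finset.Icc 1 N₀, T' n := by
      refine Finset.sum_congr rfl fun n hn => ?_
      obtain ⟨a1, a2⟩ := Finset.mem_Icc.mp hn
      rw [hT', Set.indicator_of_mem (hsm n a1 a2)]
    rw [h1, h2]
    refine Finset.sum_subset (fun n hn => ?_) fun n hn hn' => ?_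
    · rw [Finset.mem_range]
      have := (Finset.mem_Icc.mp hn).2
      omega
    · rw [Finset.mem_range] at hn
      rw [Finset.mem_Icc] at hn'
      have h0 : n = 0 := by omega
      rw [hT', Set.indicator_of_notMem]
      rw [h0]
      exact fun h => Nat.ne_zero_of_mem_smoothNumbers h rfl
  have hdiff : Full - Tp k L Θ S.η t N₀ (th X) = ∑' n : ℕ, T' (n + (N₀ + 1)) := by
    rw [hTp, ← hind.tsum_eq, ← hind.summable.sum_add_tsum_nat_add (N₀ + 1)]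
    ring
  rw [hdiff]
  have hb : ∀ n : ℕ, ‖T' (n + (N₀ + 1))‖ ≤ gk k * ((NL L : ℝ) ^ 8 * (((n : ℝ) + N₀ + 1) ^ 2 *
      ((k : ℝ) / (2 * Real.pi * ((n : ℝ) + N₀ + 1) * Real.exp (3 * L))) ^ ((k : ℝ) / 2))) := by
    intro n
    have hc : (((n + (N₀ + 1) : ℕ)) : ℝ) = (n : ℝ) + N₀ + 1 := by push_cast; ring
    have h1 : ‖T (n + (N₀ + 1))‖ ≤ gk k * ((NL L : ℝ) ^ 8 * (((n : ℝ) + N₀ + 1) ^ 2 *
      ((k : ℝ) / (2 * Real.pi * ((n : ℝ) + N₀ + 1) * Real.exp (3 * L))) ^ ((k : ℝ) / 2))) := by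
      have h2 := s3d_T_bd hk2 he hL t S hΘ hθ (n := n + (N₀ + 1)) (by omega)
      rw [hc] at h2
      exact h2
    refine le_trans ?_ h1
    rw [hT']
    exact norm_indicator_le_norm_self _ _
  have hS2 : HasSum (fun n : ℕ => gk k * ((NL L : ℝ) ^ 8 * (((n : ℝ) + N₀ + 1) ^ 2 *
      ((k : ℝ) / (2 * Real.pi * ((n : ℝ) + N₀ + 1) * Real.exp (3 * L))) ^ ((k : ℝ) / 2))))
      (gk k * ((NL L : ℝ) ^ 8 * ∑' n : ℕ, ((n : ℝ) + N₀ + 1) ^ 2 *
      ((k : ℝ) / (2 * Real.pi * ((n : ℝ) + N₀ + 1) * Real.exp (3 * L))) ^ ((k : ℝ) / 2))) :=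
    (hsum.hasSum.mul_left _).mul_left _
  refine (tsum_of_norm_bounded hS2 hb).trans ?_
  calc gk k * ((NL L : ℝ) ^ 8 * ∑' n : ℕ, ((n : ℝ) + N₀ + 1) ^ 2 *
      ((k : ℝ) / (2 * Real.pi * ((n : ℝ) + N₀ + 1) * Real.exp (3 * L))) ^ ((k : ℝ) / 2))
      ≤ gk k * 1 := mul_le_mul_of_nonneg_left htail hgk.le
    _ = gk k := mul_one _

end Pool.Agent.WS
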