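import Pool.Agent.Lib_helper98.WS.Defs
import Pool.Agent.Lib_helper68.SEL.Z11A

/-! # WS, block B1 (BMP): the weights -/

namespace Pool.Agent.WS

open Complex MeasureTheory Filter Topology
open scoped MatrixGroups ENNReal ContDiff
open Pool.Agent.GL2 (qs HData FD)
open Pool.Agent.WA (CForm pn geo Lf gd gk omk om Fam rho PsiB)
open Pool.Agent.SEL (NL Adm)

theorem exists_bump2 : ∃ Θ : ℝ → ℝ, Adm Θ ∧ (∀ x, 0 ≤ Θ x ∧ Θ x ≤ 1) ∧
    (∀ x, 0 ≤ x → x ≤ 1 / 2 → Θ x = 1) ∧ (∀ x, 1 ≤ x → Θ x = 0) := by
  let b : ContDiffBump (0 : ℝ) := ⟨1 / 2, 1, by norm_num, by norm_num⟩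
  refine ⟨b, ?_, fun x => ⟨b.nonneg, b.le_one⟩, ?_, ?_⟩
  · obtain ⟨g, hg1, hg2, hg3⟩ := SEL.sel_z11a_rep (fun x : ℝ => ((Real.exp (1 * x) * b x : ℝ) : ℂ))
      (by
        apply HasCompactSupport.comp_left (g := fun x : ℝ => (x : ℂ)) _ (by simp)
        exact b.hasCompactSupport.mul_left)
      (by
        apply Complex.ofRealCLM.contDiff.comp
        exact (Real.contDiff_exp.comp (contDiff_const.mul contDiff_id)).mul b.contDiff)
    refine ⟨g, hg1, hg2, fun x _ => ?_⟩
    have h := hg3 x
    have h1 : ((b x : ℝ) : ℂ) = cexp (-x) * ((Real.exp (1 * x) * b x : ℝ) : ℂ) := by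
      push_cast
      rw [← mul_assoc, ← Complex.exp_add]
      ring_nf
      simp
    rw [h1, h, ← integral_const_mul]
    congr 1
    funext u
    rw [mul_left_comm, ← Complex.exp_add]
    ring_nf
  · intro x h0 h1
    apply b.one_of_mem_closedBall
    rw [mem_closedBall_zero_iff, Real.norm_eq_abs, abs_of_nonneg h0]
    exact h1
  · intro x hx
    apply b.zero_of_le_dist
    rw [Real.dist_eq, sub_zero]
    exact le_trans hx (le_abs_self x)

theorem exists_step : Nonempty Step := by
  let b : ContDiffBump (3 / 4 : ℝ) := ⟨1 / 8, 1 / 4, by norm_num, by norm_num⟩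
  set ρ : ℝ → ℝ := b.normed volume with hρ
  have ρ0 : ∀ x, 0 ≤ ρ x := fun x => b.nonneg_normed x
  have ρc : Continuous ρ := b.continuous_normed
  have ρi : Integrable ρ := b.integrable_normed
  have ρ1 : ∫ x, ρ x = 1 := b.integral_normed
  have ρs : ∀ x, x ≤ 1 / 2 ∨ 1 ≤ x → ρ x = 0 := by
    intro x hx
    by_contra h
    have h2 : x ∈ Function.support ρ := h
    rw [hρ, b.support_normed_eq, Metric.mem_ball, Real.dist_eq] at h2
    have h3 : |x - 3 / 4| < 1 / 4 := h2
    rw [abs_lt] at h3
    rcases hx with h4 | h4 <;> linarith [h3.1, h3.2]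
  -- Fourier representation of `e^{-y} ρ(y)`
  obtain ⟨g, hg1, hg2, hg3⟩ := SEL.sel_z11a_rep (fun x : ℝ => ((Real.exp (-x) * ρ x : ℝ) : ℂ))
    (by
      apply HasCompactSupport.comp_left (g := fun x : ℝ => (x : ℂ)) _ (by simp)
      exact b.hasCompactSupport_normed.mul_left)
    (by
      apply Complex.ofRealCLM.contDiff.comp
      exact (Real.contDiff_exp.comp contDiff_neg).mul b.contDiff_normed)
  have hgi : Integrable g := by
    have := hg2 0
    simp only [pow_zero, mul_one] at this
    exact (integrable_norm_iff hg1.aestronglyMeasurable).1 this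
  have hne : ∀ u : ℝ, (1 + u * I : ℂ) ≠ 0 := by
    intro u h
    have := congrArg Complex.re h
    simp at this
  have hη : ∀ x : ℝ, ((∫ y in Set.Iic x, ρ y : ℝ) : ℂ) =
      ∫ τ : ℝ, (g τ / (1 + τ * I)) * cexp ((1 + τ * I) * x) := by
    intro x
    have e1 : ((∫ y in Set.Iic x, ρ y : ℝ) : ℂ) =
        ∫ y in Set.Iic x, ∫ u : ℝ, g u * cexp ((1 + u * I) * y) := by
      rw [← integral_complex_ofReal]
      apply setIntegral_congr_fun measurableSet_Iic
      intro y _
      have h := hg3 y
      have h1 : ((ρ y : ℝ) : ℂ) = cexp y * ((Real.exp (-y) * ρ y : ℝ) : ℂ) := by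
        push_cast
        rw [← mul_assoc, ← Complex.exp_add]
        simp
      show ((ρ y : ℝ) : ℂ) = _
      rw [h1, h, ← integral_const_mul]
      congr 1
      funext u
      rw [mul_left_comm, ← Complex.exp_add]
      ring_nf
    rw [e1, integral_integral_swap]
    · congr 1
      funext u
      rw [integral_const_mul, integral_exp_mul_complex_Iic (by simp)]
      ring
    · -- integrability on the product
      have hm : Integrable (fun z : ℝ × ℝ => Real.exp (1 * z.1) * ‖g z.2‖)
          ((volume.restrict (Set.Iic x)).prod volume) :=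
        (integrableOn_exp_mul_Iic (a := 1) one_pos x).mul_prod hgi.norm
      refine hm.mono' ?_ (Eventually.of_forall fun z => ?_)
      · apply Continuous.aestronglyMeasurable
        have : Continuous fun z : ℝ × ℝ => g z.2 := hg1.comp continuous_snd
        fun_prop
      · show ‖g z.2 * cexp ((1 + z.2 * I) * z.1)‖ ≤ _
        rw [norm_mul, Complex.norm_exp, mul_comm]
        apply le_of_eq
        congr 2
        simp
  refine ⟨{
    η := fun x => ∫ y in Set.Iic x, ρ y
    K := fun u => g u / (1 + u * I)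
    cont := ?_
    nonneg := ?_
    le_one := ?_
    zero := ?_
    one := ?_
    Kc := ?_
    Ki := ?_
    rep := hη }⟩
  · have h1 : (fun x => ∫ y in Set.Iic x, ρ y) =
        fun x => (∫ y in Set.Iic (0 : ℝ), ρ y) + ∫ y in (0 : ℝ)..x, ρ y := by
      funext x
      have := intervalIntegral.integral_Iic_sub_Iic (a := (0 : ℝ)) (b := x) (f := ρ)
        (μ := volume) ρi.integrableOn ρi.integrableOn
      linarith
    rw [h1]
    exact continuous_const.add (intervalIntegral.continuous_primitive
      (fun a b => ρc.intervalIntegrable a b) 0)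
  · intro x
    exact setIntegral_nonneg measurableSet_Iic fun y _ => ρ0 y
  · intro x
    rw [← ρ1]
    exact setIntegral_le_integral ρi (Eventually.of_forall ρ0)
  · intro x hx
    show ∫ y in Set.Iic x, ρ y = 0
    rw [setIntegral_congr_fun (g := fun _ => (0 : ℝ)) measurableSet_Iic]
    · simp
    · intro y hy
      have hy' : y ≤ x := hy
      exact ρs y (Or.inl (hy'.trans hx))
  · intro x hx
    show ∫ y in Set.Iic x, ρ y = 1
    rw [← ρ1]
    apply setIntegral_eq_integral_of_forall_compl_eq_zero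
    intro y hy
    have hy' : x < y := by
      simpa using hy
    exact ρs y (Or.inr (hx.trans hy'.le))
  · exact hg1.div (by fun_prop) hne
  · refine hgi.norm.mono' (hg1.div (by fun_prop) hne).aestronglyMeasurable
      (Eventually.of_forall fun u => ?_)
    rw [norm_div]
    apply div_le_self (norm_nonneg _)
    have h1 : (1 : ℝ) = |(1 + u * I : ℂ).re| := by simp
    calc (1 : ℝ) = |(1 + u * I : ℂ).re| := h1
      _ ≤ ‖(1 + u * I : ℂ)‖ := Complex.abs_re_le_norm _

end Pool.Agent.WS
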