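import Pool.Agent.Lib_helper98.WSF.W1
import Pool.Agent.Lib_helper24.ABS.FWE

/-! WS block W2: all intervals, weighted -/

namespace Pool.Agent.WS

open Complex MeasureTheory Filter Topology

theorem wfam_uniform {C c m δ M : ℝ} (hC : 0 ≤ C) (hc : 0 < c) (hm : 0 < m) (hδ : 0 < δ)
    (hM : 0 ≤ M) : ∃ C' : ℝ, 0 < C' ∧ ∀ (T : ℝ) (ι : Type) (S : Finset ι) (ω : ι → ℝ)
      (P : ι → ABS.Piece) (L Φ : ℝ), 1 ≤ L → WFam C c T m δ M S ω P L Φ →
      ∀ a b h H : ℝ, -T + 1 ≤ a → b + 1 ≤ T → 0 < H → H ≤ 1 → H ≤ h → h ≤ b - a →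
      (∀ i ∈ S, ∃ x : ℝ, a ≤ x ∧ x + h ≤ b ∧
        (ABS.oddZ (P i).Λ ∩ Set.Ioo x (x + h)).encard ≤ ⌊h / H⌋₊) →
      ∑ i ∈ S, ω i ≤ C' * (b - a) * Φ / (h * H * L) := by
  classical
  obtain ⟨C₁, hC₁, hw⟩ := wfam_empty hC hc hm hδ hM
  refine ⟨16 * C₁, by positivity, fun T ι S ω P L Φ hL F a b h H ha hb hH hH1 hHh hba hS => ?_⟩
  have hΦ : 0 ≤ Φ := (Finset.sum_nonneg F.nonneg).trans F.card
  have hh0 : 0 < h := hH.trans_le hHh
  have hL0 : 0 < L := by linarith
  set d : ℝ := H / 4 with hd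
  have hd0 : 0 < d := by positivity
  set J : ℕ := ⌊(b - a) / d⌋₊ with hJ
  have hJle : (J : ℝ) ≤ (b - a) / d := Nat.floor_le (div_nonneg (by linarith) hd0.le)
  set E : ℕ → Finset ι := fun j => S.filter fun i =>
    ∀ s ∈ Set.Ioo (a + j * d) (a + j * d + d), s ∉ ABS.oddZ (P i).Λ with hE
  have hcell : ∀ j ∈ Finset.range J, ∑ i ∈ E j, ω i ≤ C₁ * Φ / (d * L) := by
    intro j hj
    have hjJ : (j : ℝ) + 1 ≤ J := by exact_mod_cast Finset.mem_range.1 hj
    have h1 : ((j : ℝ) + 1) * d ≤ b - a := by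
      have := hjJ.trans hJle
      rwa [le_div_iff₀ hd0] at this
    have hj0 : (0 : ℝ) ≤ j * d := by positivity
    refine hw T ι S ω P L Φ hL F (a + j * d) d ?_ hd0 (by rw [hd]; linarith) (E j)
      (Finset.filter_subset _ _) (fun i hi => (Finset.mem_filter.1 hi).2)
    have : |a + j * d| ≤ T - 1 := by
      rw [abs_le]
      constructor
      · linarith
      · linarith [add_mul (j : ℝ) 1 d]
    linarith
  have hper : ∀ i ∈ S, h / H ≤ ∑ j ∈ Finset.range J,
      if (∀ s ∈ Set.Ioo (a + j * d) (a + j * d + d), s ∉ ABS.oddZ (P i).Λ) then (1 : ℝ) else 0 := by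
    intro i hi
    obtain ⟨x, hx, hx', hN⟩ := hS i hi
    set j₀ : ℕ := ⌈(x - a) / d⌉₊ with hj₀
    set j₁ : ℕ := ⌊(x + h - a) / d⌋₊ with hj₁
    have h1 : x ≤ a + j₀ * d := by
      have := Nat.le_ceil ((x - a) / d)
      rw [div_le_iff₀ hd0] at this
      linarith
    have h2 : (j₀ : ℝ) * d < (x - a) + d := by
      have := Nat.ceil_lt_add_one (div_nonneg (by linarith : 0 ≤ x - a) hd0.le)
      have := mul_lt_mul_of_pos_right this hd0
      rw [add_mul, div_mul_cancel₀ _ hd0.ne', one_mul] at this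
      exact this
    have h3 : a + j₁ * d ≤ x + h := by
      have := Nat.floor_le (div_nonneg (by linarith : 0 ≤ x + h - a) hd0.le)
      rw [le_div_iff₀ hd0] at this
      linarith
    have h4 : x + h - a < (j₁ + 1) * d := by
      have := Nat.lt_floor_add_one ((x + h - a) / d)
      rwa [div_lt_iff₀ hd0] at this
    have hj : j₀ ≤ j₁ := by
      have h5 : (j₀ : ℝ) * d < (j₁ + 1) * d := by linarith
      have h6 : (j₀ : ℝ) < j₁ + 1 := lt_of_mul_lt_mul_right h5 hd0.le
      have h7 : j₀ < j₁ + 1 := by exact_mod_cast h6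
      omega
    obtain ⟨N, hNe⟩ : ∃ N, j₁ = j₀ + N := ⟨j₁ - j₀, by omega⟩
    have hNe' : (j₁ : ℝ) = j₀ + N := by exact_mod_cast hNe
    have hJ1 : j₁ ≤ J := by
      rw [hJ, hj₁]
      exact Nat.floor_le_floor (by gcongr)
    have hNM : 4 * (h / H) - 2 < N := by
      have h5 : h < (N + 2) * d := by
        rw [hNe'] at h4
        linarith
      have h6 : h / d < N + 2 := by rwa [div_lt_iff₀ hd0]
      have h7 : h / d = 4 * (h / H) := by rw [hd]; field_simp
      linarith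
    have hce := ABS.cells_empty (x := a + j₀ * d) hd0 (M := N)
      (n := ⌊h / H⌋₊) (Z := ABS.oddZ (P i).Λ ∩ Set.Ioo (a + j₀ * d) (a + j₀ * d + N * d))
      (le_trans (Set.encard_le_encard (by
        intro s hs
        refine ⟨hs.1, ?_, ?_⟩
        · exact lt_of_le_of_lt h1 hs.2.1
        · refine lt_of_lt_of_le hs.2.2 ?_
          rw [hNe'] at h3
          linarith)) hN) (fun t ht => ⟨ht.2.1, ht.2.2⟩)
    rw [← Finset.sum_filter, Finset.sum_const, nsmul_eq_mul, mul_one]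
    have hcard : ((Finset.range N).filter fun j : ℕ =>
        ∀ s ∈ Set.Ioo (a + j₀ * d + j * d) (a + j₀ * d + j * d + d),
          s ∉ ABS.oddZ (P i).Λ ∩ Set.Ioo (a + j₀ * d) (a + j₀ * d + N * d)).card ≤
        ((Finset.range J).filter fun j : ℕ =>
        ∀ s ∈ Set.Ioo (a + j * d) (a + j * d + d), s ∉ ABS.oddZ (P i).Λ).card := by
      refine Finset.card_le_card_of_injOn (fun j => j₀ + j) ?_ (fun p _ q _ hpq => by
        simpa using hpq)
      intro j hj
      rw [Finset.mem_coe, Finset.mem_filter] at hj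
      show j₀ + j ∈ ((Finset.range J).filter fun j : ℕ =>
        ∀ s ∈ Set.Ioo (a + j * d) (a + j * d + d), s ∉ ABS.oddZ (P i).Λ)
      have hjN := Finset.mem_range.1 hj.1
      rw [Finset.mem_filter, Finset.mem_range]
      refine ⟨by omega, fun s hs hsZ => ?_⟩
      push_cast at hs
      have hs' : s ∈ Set.Ioo (a + j₀ * d + j * d) (a + j₀ * d + j * d + d) := by
        constructor
        · have := hs.1; linarith
        · have := hs.2; linarith
      refine hj.2 s hs' ⟨hsZ, ?_, ?_⟩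
      · have : (0 : ℝ) ≤ j * d := by positivity
        linarith [hs'.1]
      · have h5 : (j : ℝ) + 1 ≤ N := by exact_mod_cast hjN
        have h6 : ((j : ℝ) + 1) * d ≤ N * d := by gcongr
        linarith [hs'.2]
    have h8 : N ≤ ⌊h / H⌋₊ + ((Finset.range J).filter fun j : ℕ =>
        ∀ s ∈ Set.Ioo (a + j * d) (a + j * d + d), s ∉ ABS.oddZ (P i).Λ).card :=
      hce.trans (Nat.add_le_add_left hcard _)
    have h9 : (N : ℝ) ≤ ⌊h / H⌋₊ + (((Finset.range J).filter fun j : ℕ =>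
        ∀ s ∈ Set.Ioo (a + j * d) (a + j * d + d), s ∉ ABS.oddZ (P i).Λ).card : ℝ) := by
      exact_mod_cast h8
    have h10 : (⌊h / H⌋₊ : ℝ) ≤ h / H := Nat.floor_le (by positivity)
    have h11 : 1 ≤ h / H := by rwa [one_le_div hH]
    linarith
  have hsum : (h / H) * ∑ i ∈ S, ω i ≤ (b - a) / d * (C₁ * Φ / (d * L)) := by
    calc (h / H) * ∑ i ∈ S, ω i = ∑ i ∈ S, ω i * (h / H) := by
          rw [Finset.mul_sum]; exact Finset.sum_congr rfl fun i _ => mul_comm _ _
      _ ≤ ∑ i ∈ S, ω i * ∑ j ∈ Finset.range J,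
          (if (∀ s ∈ Set.Ioo (a + j * d) (a + j * d + d), s ∉ ABS.oddZ (P i).Λ)
            then (1 : ℝ) else 0) :=
          Finset.sum_le_sum fun i hi => mul_le_mul_of_nonneg_left (hper i hi) (F.nonneg i hi)
      _ = ∑ j ∈ Finset.range J, ∑ i ∈ E j, ω i := by
          simp_rw [Finset.mul_sum]
          rw [Finset.sum_comm]
          refine Finset.sum_congr rfl fun j _ => ?_
          rw [hE, Finset.sum_filter]
          refine Finset.sum_congr rfl fun i _ => ?_
          split_ifs <;> simp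
      _ ≤ ∑ j ∈ Finset.range J, C₁ * Φ / (d * L) := Finset.sum_le_sum hcell
      _ = J * (C₁ * Φ / (d * L)) := by rw [Finset.sum_const, Finset.card_range, nsmul_eq_mul]
      _ ≤ _ := by gcongr
  have hfin : ∑ i ∈ S, ω i ≤ (b - a) / d * (C₁ * Φ / (d * L)) / (h / H) := by
    rw [le_div_iff₀ (by positivity)]
    linarith
  refine hfin.trans (le_of_eq ?_)
  rw [hd]
  field_simp
  ring

end Pool.Agent.WS
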