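import Pool.Agent.Lib_helper98.WSF.F3B
import Pool.Agent.Lib_helper98.WAF.B1a

/-! Block F3 (ZUP), part a: `zer_up`. -/

namespace Pool.Agent.WS

open Complex MeasureTheory Filter Topology
open UpperHalfPlane hiding I
open scoped MatrixGroups Modular ENNReal
open Pool.Agent.GL2 (qs HData FD)
open Pool.Agent.WA (CForm pn geo Lf gd gk omk om Fam rho PsiB KS MainI MainR vz ch)
open Pool.Agent.SEL (NL Adm)
open Pool.Agent.SQS (hat)

set_option linter.unusedVariables false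

/-- the bound for the integral -/
noncomputable def f3_G (k : ℕ) : ℝ :=
  Real.Gamma ((k : ℝ) / 2 + 16) * (2 * Real.pi) ^ (-((k : ℝ) / 2 + 16))

lemma f3_gam (x : ℝ) (hx : 15 ≤ x) (m : ℕ) (hm : m ≤ 16) :
    Real.Gamma (x + m) ≤ Real.Gamma x * (2 * x) ^ m := by
  induction m with
  | zero => simp
  | succ m ih =>
    have hm' : (m : ℝ) ≤ 15 := by
      have : m ≤ 15 := by omega
      exact_mod_cast this
    have hm0 : (0 : ℝ) ≤ m := Nat.cast_nonneg _
    have h1 : x + ((m + 1 : ℕ) : ℝ) = (x + m) + 1 := by push_cast; ring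
    rw [h1, Real.Gamma_add_one (by positivity), pow_succ, ← mul_assoc,
      mul_comm (x + (m : ℝ)) _]
    have h2 := ih (by omega)
    have h3 : x + m ≤ 2 * x := by linarith
    have h4 : 0 < Real.Gamma (x + m) := Real.Gamma_pos_of_pos (by positivity)
    exact mul_le_mul h2 h3 (by positivity) (h4.le.trans h2)

lemma f3_G_le {k : ℕ} (hk : 30 ≤ k) : f3_G k ≤ gk k * (k : ℝ) ^ 16 := by
  have hk' : (30 : ℝ) ≤ k := by exact_mod_cast hk
  have h1 := f3_gam ((k : ℝ) / 2) (by linarith) 16 le_rfl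
  have h2 : (2 * Real.pi) ^ (-((k : ℝ) / 2 + 16)) ≤ (2 * Real.pi) ^ (-(k : ℝ) / 2) := by
    apply Real.rpow_le_rpow_of_exponent_le
    · nlinarith [Real.pi_gt_three]
    · linarith
  have h3 : 0 < Real.Gamma ((k : ℝ) / 2) := Real.Gamma_pos_of_pos (by positivity)
  unfold f3_G gk
  have e : 2 * ((k : ℝ) / 2) = k := by ring
  rw [e] at h1
  push_cast at h1
  calc Real.Gamma ((k : ℝ) / 2 + 16) * (2 * Real.pi) ^ (-((k : ℝ) / 2 + 16))
      ≤ (Real.Gamma ((k : ℝ) / 2) * (k : ℝ) ^ 16) * (2 * Real.pi) ^ (-(k : ℝ) / 2) := by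
        exact mul_le_mul h1 h2 (by positivity) (by positivity)
    _ = _ := by ring

lemma f3_gd_int {k n : ℕ} (hk : 1 ≤ k) (hn : 1 ≤ n) :
    Integrable (fun u : ℝ => gd k n u * Real.exp (16 * u)) ∧
    ∫ u : ℝ, gd k n u * Real.exp (16 * u) =
      Real.Gamma ((k : ℝ) / 2 + 16) * (2 * Real.pi * n) ^ (-((k : ℝ) / 2 + 16)) := by
  have hk' : (0 : ℝ) < k := by exact_mod_cast hk
  have hn' : (0 : ℝ) < n := by exact_mod_cast hn
  obtain ⟨h1, h2⟩ := gd_mellin (k := k) (n := n) hk hn (z := 16) (by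
    have : ((16 : ℂ)).re = 16 := by simp
    rw [this]; linarith)
  have e : (fun u : ℝ => (gd k n u : ℂ) * cexp (16 * u)) =
      fun u : ℝ => ((gd k n u * Real.exp (16 * u) : ℝ) : ℂ) := by
    funext u; push_cast; rfl
  rw [e] at h1 h2
  refine ⟨h1.re, ?_⟩
  have e1 : ((Real.Gamma ((k : ℝ) / 2 + 16) : ℝ) : ℂ) = Complex.Gamma ((k : ℂ) / 2 + 16) := by
    rw [← Complex.Gamma_ofReal]; push_cast; rfl
  have e2 : (((2 * Real.pi * n) ^ (-((k : ℝ) / 2 + 16)) : ℝ) : ℂ) =
      ((2 * Real.pi * n : ℝ) : ℂ) ^ (-((k : ℂ) / 2 + 16)) := by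
    rw [Complex.ofReal_cpow (by positivity)]; push_cast; rfl
  have h3 : ((∫ u : ℝ, gd k n u * Real.exp (16 * u) : ℝ) : ℂ) =
      ((Real.Gamma ((k : ℝ) / 2 + 16) * (2 * Real.pi * n) ^ (-((k : ℝ) / 2 + 16)) : ℝ) : ℂ) := by
    rw [← integral_complex_ofReal]
    rw [show (∫ u : ℝ, ((gd k n u * Real.exp (16 * u) : ℝ) : ℂ)) = _ from h2]
    rw [← e1, ← e2, ← Complex.ofReal_mul]
  exact_mod_cast h3

lemma f3_lint {k : ℕ} {a : ℕ → ℝ} (H : HData k a) :
    ∫⁻ u : ℝ, ENNReal.ofReal (‖geo k (fun n => (a n : ℂ)) 0 u‖ * Real.exp (16 * u)) ≤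
      ENNReal.ofReal (2 * f3_G k) := by
  have hk := H.kpos
  have hk' : (0 : ℝ) < k := by exact_mod_cast hk
  have hC := WA.cf_of_hdata H
  set F : ℕ → ℝ → ℝ := fun n u => |a n| * (gd k n u * Real.exp (16 * u)) with hF
  have hgd : ∀ n u, 0 ≤ gd k n u := fun n u => (Real.exp_pos _).le
  have hF0 : ∀ n u, 0 ≤ F n u := fun n u => by
    have := hgd n u
    simp only [hF]; positivity
  have hgc : ∀ n, Continuous (fun u => gd k n u) := by
    intro n; unfold gd; fun_prop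
  have hFc : ∀ n, Continuous (F n) := by
    intro n
    have := hgc n
    simp only [hF]
    fun_prop
  have hG0 : 0 ≤ f3_G k := by
    unfold f3_G
    have := Real.Gamma_pos_of_pos (show (0 : ℝ) < k / 2 + 16 by positivity)
    positivity
  -- pointwise
  have hpt : ∀ u : ℝ, ENNReal.ofReal (‖geo k (fun n => (a n : ℂ)) 0 u‖ * Real.exp (16 * u)) ≤
      ∑' n, ENNReal.ofReal (F n u) := by
    intro u
    have h1 := WA.geo_series hC 0 u
    have h2 : Summable (fun n => ‖(a n : ℂ) * cexp (2 * Real.pi * Complex.I * n * (0 : ℝ)) * (gd k n u : ℂ)‖) :=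
      h1.summable.norm
    have h3 : ∀ n : ℕ, ‖(a n : ℂ) * cexp (2 * Real.pi * Complex.I * n * (0 : ℝ)) * (gd k n u : ℂ)‖ =
        |a n| * gd k n u := by
      intro n
      rw [norm_mul, norm_mul]
      simp [abs_of_nonneg (hgd n u)]
    simp only [h3] at h2
    have h4 : ‖geo k (fun n => (a n : ℂ)) 0 u‖ ≤ ∑' n, |a n| * gd k n u := by
      rw [← h1.tsum_eq]
      refine (norm_tsum_le_tsum_norm ?_).trans ?_
      · exact h1.summable.norm
      · exact le_of_eq (tsum_congr h3)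
    have h5 : Summable (fun n => F n u) := by
      have := h2.mul_right (Real.exp (16 * u))
      simpa [hF, mul_assoc] using this
    rw [← ENNReal.ofReal_tsum_of_nonneg (fun n => hF0 n u) h5]
    apply ENNReal.ofReal_le_ofReal
    have h6 : ∑' n, F n u = (∑' n, |a n| * gd k n u) * Real.exp (16 * u) := by
      rw [← tsum_mul_right]
      exact tsum_congr fun n => by simp only [hF]; ring
    rw [h6]
    exact mul_le_mul_of_nonneg_right h4 (Real.exp_pos _).le
  refine (lintegral_mono hpt).trans ?_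
  have hlt : ∫⁻ u : ℝ, ∑' n : ℕ, ENNReal.ofReal (F n u) =
      ∑' n : ℕ, ∫⁻ u : ℝ, ENNReal.ofReal (F n u) :=
    lintegral_tsum (fun n => (ENNReal.measurable_ofReal.comp (hFc n).measurable).aemeasurable)
  rw [hlt]
  -- termwise
  have hterm : ∀ n : ℕ, ∫⁻ u : ℝ, ENNReal.ofReal (F n u) ≤
      ENNReal.ofReal (f3_G k * (1 / (n : ℝ) ^ 2)) := by
    intro n
    rcases Nat.eq_zero_or_pos n with h | h
    · subst h
      have : ∀ u, F 0 u = 0 := fun u => by simp [hF, H.zero]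
      simp [this]
    · obtain ⟨i1, i2⟩ := f3_gd_int (k := k) (n := n) hk h
      have hn' : (1 : ℝ) ≤ n := by exact_mod_cast h
      have hn0 : (0 : ℝ) < n := by linarith
      rw [← ofReal_integral_eq_lintegral_ofReal (i1.const_mul |a n|)
        (Filter.Eventually.of_forall fun u => hF0 n u)]
      apply ENNReal.ofReal_le_ofReal
      rw [integral_const_mul, i2, Real.mul_rpow (by positivity) hn0.le]
      have h1 := f3_a_le H h
      have h2 : (n : ℝ) ^ ((k : ℝ) / 2 + 1) * (n : ℝ) ^ (-((k : ℝ) / 2 + 16)) ≤ 1 / (n : ℝ) ^ 2 := by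
        rw [← Real.rpow_add hn0]
        have : (1 : ℝ) / (n : ℝ) ^ 2 = (n : ℝ) ^ (-(2 : ℝ)) := by
          rw [Real.rpow_neg hn0.le, one_div]
          congr 1
          exact_mod_cast (Real.rpow_natCast (n : ℝ) 2).symm
        rw [this]
        apply Real.rpow_le_rpow_of_exponent_le hn'
        linarith
      have h3 : 0 ≤ (n : ℝ) ^ (-((k : ℝ) / 2 + 16)) := by positivity
      have h4 : |a n| * (n : ℝ) ^ (-((k : ℝ) / 2 + 16)) ≤ 1 / (n : ℝ) ^ 2 :=
        (mul_le_mul_of_nonneg_right h1 h3).trans h2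
      calc |a n| * (Real.Gamma ((k : ℝ) / 2 + 16) * ((2 * Real.pi) ^ (-((k : ℝ) / 2 + 16)) *
            (n : ℝ) ^ (-((k : ℝ) / 2 + 16))))
          = f3_G k * (|a n| * (n : ℝ) ^ (-((k : ℝ) / 2 + 16))) := by unfold f3_G; ring
        _ ≤ _ := mul_le_mul_of_nonneg_left h4 hG0
  refine (ENNReal.tsum_le_tsum hterm).trans ?_
  have hz := hasSum_zeta_two.mul_left (f3_G k)
  rw [← ENNReal.ofReal_tsum_of_nonneg (fun n => by positivity) hz.summable]
  apply ENNReal.ofReal_le_ofReal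
  rw [hz.tsum_eq]
  have hpi : Real.pi ^ 2 / 6 ≤ 2 := by
    have h1 := Real.pi_lt_d2
    have h2 := Real.pi_pos
    nlinarith
  nlinarith

theorem zer_up : ∃ (C : ℝ) (k₀ : ℕ), 0 < C ∧ ∀ k : ℕ, k₀ ≤ k → Even k → ∀ {a : ℕ → ℝ}, HData k a →
    ∀ Λ : ℂ → ℂ, IsLam1 k a Λ → ∀ s : ℂ, |s.re - 1 / 2| ≤ 12 →
      ‖Λ s‖ ≤ gk k * (k : ℝ) ^ C := by
  refine ⟨17, 30, by norm_num, ?_⟩
  intro k hk he a H Λ hΛ s hs
  have hk30 : (30 : ℝ) ≤ k := by exact_mod_cast hk
  obtain ⟨Λ', hΛ', hm⟩ := lam_mellin H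
  have hE : Λ = Λ' := lam1_unique hΛ hΛ'
  rw [hE, (hm s).2]
  set A : ℝ → ℂ := geo k (fun n => (a n : ℂ)) 0 with hA
  have hAc : Continuous A := WA.geo_cont (WA.cf_of_hdata H) 0
  obtain ⟨ε, hε, hsym⟩ := geo_sym H he
  have hsymn : ∀ u, ‖A (-u)‖ = ‖A u‖ := by
    intro u
    rw [hA, hsym u, norm_mul]
    rcases hε with h | h <;> simp [h]
  have hG0 : 0 ≤ f3_G k := by
    unfold f3_G
    have := Real.Gamma_pos_of_pos (show (0 : ℝ) < k / 2 + 16 by positivity)
    positivity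
  have h1 : ‖∫ u : ℝ, A u * cexp ((s - 1 / 2) * u)‖ ≤ 4 * f3_G k := by
    refine (norm_integral_le_lintegral_norm _).trans ?_
    apply ENNReal.toReal_le_of_le_ofReal (by positivity)
    have h2 : ∀ u : ℝ, ENNReal.ofReal ‖A u * cexp ((s - 1 / 2) * u)‖ ≤
        ENNReal.ofReal (‖A u‖ * Real.exp (16 * u)) +
          ENNReal.ofReal (‖A (-u)‖ * Real.exp (16 * (-u))) := by
      intro u
      rw [← ENNReal.ofReal_add (by positivity) (by positivity), hsymn]
      apply ENNReal.ofReal_le_ofReal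
      rw [norm_mul, ← mul_add]
      apply mul_le_mul_of_nonneg_left _ (norm_nonneg _)
      rw [Complex.norm_exp]
      have e1 : ((s - 1 / 2) * (u : ℂ)).re = (s.re - 1 / 2) * u := by
        simp [Complex.mul_re]
      rw [e1]
      have hab := abs_le.1 hs
      rcases le_total 0 u with hu | hu
      · have : Real.exp ((s.re - 1 / 2) * u) ≤ Real.exp (16 * u) :=
          Real.exp_le_exp.2 (by nlinarith)
        have := Real.exp_pos (16 * (-u))
        linarith
      · have : Real.exp ((s.re - 1 / 2) * u) ≤ Real.exp (16 * (-u)) :=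
          Real.exp_le_exp.2 (by nlinarith)
        have := Real.exp_pos (16 * u)
        linarith
    refine (lintegral_mono h2).trans ?_
    have hmeas : Measurable (fun u : ℝ => ENNReal.ofReal (‖A u‖ * Real.exp (16 * u))) := by
      apply ENNReal.measurable_ofReal.comp
      apply Continuous.measurable
      fun_prop
    rw [lintegral_add_left hmeas]
    have h3 : ∫⁻ u : ℝ, ENNReal.ofReal (‖A (-u)‖ * Real.exp (16 * (-u))) =
        ∫⁻ u : ℝ, ENNReal.ofReal (‖A u‖ * Real.exp (16 * u)) :=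
      lintegral_neg_eq_self (μ := volume)
        (fun u : ℝ => ENNReal.ofReal (‖A u‖ * Real.exp (16 * u)))
    rw [h3]
    have h4 := f3_lint H
    refine (add_le_add h4 h4).trans ?_
    rw [← ENNReal.ofReal_add (by positivity) (by positivity)]
    apply ENNReal.ofReal_le_ofReal
    linarith
  have h5 := f3_G_le hk
  have hg := f3_gk_pos (k := k) (by omega)
  have h6 : (k : ℝ) ^ (17 : ℝ) = (k : ℝ) ^ 16 * k := by
    rw [← pow_succ]
    exact_mod_cast Real.rpow_natCast (k : ℝ) 17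
  rw [norm_mul, h6]
  have h7 : ‖(2 : ℂ)‖ = 2 := by simp
  rw [h7]
  have h8 : 0 ≤ gk k * (k : ℝ) ^ 16 := by positivity
  nlinarith

end Pool.Agent.WS
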