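import Pool.Agent.Lib_helper98.WSF.F3A
import Pool.Agent.Lib_helper92.SQA.NZJ

/-! # WS block F4: the number of zeros -/

namespace Pool.Agent.WS

open Complex MeasureTheory Filter Topology
open scoped ENNReal
open Pool.Agent.GL2 (qs HData FD)
open Pool.Agent.WA (CForm pn geo Lf gd gk omk om Fam rho PsiB)
open Pool.Agent.SQ (nzj_finsum_ge nzj_order_le)

/-- `SQ.nzj_count` with the upper bound in a smaller strip. -/
theorem f4_count (f : ℂ → ℂ) (hf : Differentiable ℂ f) (K : ℕ) (M c : ℝ) (hM : 1 ≤ M)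
    (hc : 0 < c) (hlow : ∀ k ∈ Finset.Icc (-(K : ℤ)) K, c ≤ ‖f (2 + ((k : ℝ) : ℂ) * I)‖)
    (hup : ∀ z : ℂ, -2 ≤ z.re → z.re ≤ 6 → ‖f z‖ ≤ M)
    (hstrip : ∀ ρ : ℂ, f ρ = 0 → 0 ≤ ρ.re ∧ ρ.re ≤ 1) (T : ℝ) (hT : T ≤ K) :
    ∑' ρ : {ρ : ℂ // |ρ.im| ≤ T}, (analyticOrderNatAt f ρ.1 : ENNReal) ≤
      ENNReal.ofReal ((2 * K + 1) * (Real.log (M / c) / Real.log (4 / 3))) := by
  classical
  have han : ∀ U : Set ℂ, AnalyticOnNhd ℂ f U := fun U z _ => hf.analyticAt z
  have hlog : 0 < Real.log (4 / 3) := Real.log_pos (by norm_num)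
  set cen : ℤ → ℂ := fun k => 2 + ((k : ℝ) : ℂ) * I with hcen
  set D : ℤ → ℂ → ℤ := fun k u =>
    MeromorphicOn.divisor f (Metric.closedBall (cen k) |(3 : ℝ)|) u with hD
  have hD0 : ∀ k u, 0 ≤ D k u := fun k u =>
    (MeromorphicOn.AnalyticOnNhd.divisor_nonneg (han _)) u
  have hDfin : ∀ k, (D k).support.Finite := fun k =>
    (MeromorphicOn.divisor f (Metric.closedBall (cen k) |(3 : ℝ)|)).finiteSupport
      (isCompact_closedBall _ _)
  have hjen : ∀ k ∈ Finset.Icc (-(K : ℤ)) K,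
      ((∑ᶠ u, D k u : ℤ) : ℝ) ≤ Real.log (M / c) / Real.log (4 / 3) := by
    intro k hk
    have hne : f (cen k) ≠ 0 := by
      intro h0
      have := hlow k hk
      rw [show (2 + ((k : ℝ) : ℂ) * I) = cen k from rfl, h0, norm_zero] at this
      linarith
    have hb : ∀ z ∈ Metric.sphere (cen k) |(4 : ℝ)|, ‖f z‖ ≤ M := by
      intro z hz
      rw [mem_sphere_iff_norm, abs_of_pos (by norm_num : (0 : ℝ) < 4)] at hz
      have h1 : |(z - cen k).re| ≤ 4 := hz ▸ Complex.abs_re_le_norm _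
      have h2 : (z - cen k).re = z.re - 2 := by simp [hcen]
      rw [h2, abs_le] at h1
      exact hup z (by linarith [h1.1]) (by linarith [h1.2])
    have h1 := AnalyticOnNhd.sum_divisor_le (c := cen k) (r := 3) (R := 4) (M := M) (f := f)
      (by norm_num) (by norm_num) hM (han _) hne hb
    refine h1.trans ?_
    apply div_le_div_of_nonneg_right _ hlog.le
    apply Real.log_le_log
    · exact div_pos (by linarith) (norm_pos_iff.mpr hne)
    · exact div_le_div_of_nonneg_left (by linarith) hc (hlow k hk)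
  rw [ENNReal.tsum_eq_iSup_sum]
  refine iSup_le fun s => ?_
  have hkey : ∀ ρ : {ρ : ℂ // |ρ.im| ≤ T}, (analyticOrderNatAt f ρ.1 : ℤ) ≤
      ∑ k ∈ Finset.Icc (-(K : ℤ)) K, D k ρ.1 := by
    intro ρ
    by_cases h0 : f ρ.1 = 0
    · have hst := hstrip ρ.1 h0
      have him := abs_le.mp ρ.2
      set k : ℤ := ⌊ρ.1.im⌋ with hk
      have hk1 : (k : ℝ) ≤ ρ.1.im := Int.floor_le _
      have hk2 : ρ.1.im < k + 1 := Int.lt_floor_add_one _
      have hkI : k ∈ Finset.Icc (-(K : ℤ)) K := by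
        rw [Finset.mem_Icc]
        constructor
        · rw [hk, Int.le_floor]
          push_cast
          linarith
        · have : (k : ℝ) ≤ K := by linarith
          exact_mod_cast this
      have hball : ρ.1 ∈ Metric.closedBall (cen k) |(3 : ℝ)| := by
        rw [mem_closedBall_iff_norm, abs_of_pos (by norm_num : (0 : ℝ) < 3)]
        have hre : (ρ.1 - cen k).re = ρ.1.re - 2 := by simp [hcen]
        have him' : (ρ.1 - cen k).im = ρ.1.im - k := by simp [hcen]
        have h3 : ‖ρ.1 - cen k‖ ^ 2 ≤ 3 ^ 2 := by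
          rw [← Complex.normSq_eq_norm_sq, Complex.normSq_apply, hre, him']
          nlinarith [hst.1, hst.2]
        exact le_of_sq_le_sq h3 (by norm_num)
      refine (nzj_order_le (han _) hball).trans ?_
      exact Finset.single_le_sum (f := fun k => D k ρ.1) (fun k _ => hD0 k _) hkI
    · have h1 : analyticOrderNatAt f ρ.1 = 0 := by
        unfold analyticOrderNatAt
        rw [(hf.analyticAt ρ.1).analyticOrderAt_eq_zero.mpr h0]
        rfl
      rw [h1]
      exact Finset.sum_nonneg fun k _ => hD0 k _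
  have hint : (∑ ρ ∈ s, (analyticOrderNatAt f ρ.1 : ℤ)) ≤
      ∑ k ∈ Finset.Icc (-(K : ℤ)) K, ∑ᶠ u, D k u := by
    calc (∑ ρ ∈ s, (analyticOrderNatAt f ρ.1 : ℤ))
        ≤ ∑ ρ ∈ s, ∑ k ∈ Finset.Icc (-(K : ℤ)) K, D k ρ.1 := Finset.sum_le_sum fun ρ _ => hkey ρ
      _ = ∑ k ∈ Finset.Icc (-(K : ℤ)) K, ∑ ρ ∈ s, D k ρ.1 := Finset.sum_comm
      _ ≤ _ := by
          refine Finset.sum_le_sum fun k _ => ?_
          have h1 : ∑ ρ ∈ s, D k ρ.1 = ∑ u ∈ s.map (Function.Embedding.subtype _), D k u := by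
            rw [Finset.sum_map]
            rfl
          rw [h1]
          exact nzj_finsum_ge (D k) (hD0 k) (hDfin k) _
  have hreal : ((∑ ρ ∈ s, analyticOrderNatAt f ρ.1 : ℕ) : ℝ) ≤
      (2 * K + 1) * (Real.log (M / c) / Real.log (4 / 3)) := by
    have h1 : ((∑ ρ ∈ s, analyticOrderNatAt f ρ.1 : ℕ) : ℝ) =
        ((∑ ρ ∈ s, (analyticOrderNatAt f ρ.1 : ℤ) : ℤ) : ℝ) := by push_cast; rfl
    rw [h1]
    refine (Int.cast_le.mpr hint).trans ?_
    push_cast
    refine (Finset.sum_le_sum hjen).trans ?_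
    rw [Finset.sum_const, Int.card_Icc, nsmul_eq_mul]
    have h2 : (((K : ℤ) + 1 - -(K : ℤ)).toNat : ℝ) = 2 * K + 1 := by
      have : ((K : ℤ) + 1 - -(K : ℤ)).toNat = 2 * K + 1 := by omega
      rw [this]; push_cast; ring
    rw [h2]
  calc ∑ ρ ∈ s, (analyticOrderNatAt f ρ.1 : ENNReal)
      = ((∑ ρ ∈ s, analyticOrderNatAt f ρ.1 : ℕ) : ENNReal) := by push_cast; rfl
    _ = ENNReal.ofReal ((∑ ρ ∈ s, analyticOrderNatAt f ρ.1 : ℕ) : ℝ) :=
        (ENNReal.ofReal_natCast _).symm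
    _ ≤ _ := ENNReal.ofReal_le_ofReal hreal

theorem f4_gk_pos {k : ℕ} (hk : 0 < k) : 0 < gk k := by
  unfold WA.gk
  apply mul_pos
  · apply Real.Gamma_pos_of_pos
    have : (0 : ℝ) < k := by exact_mod_cast hk
    linarith
  · positivity

/-- order under the affine change of variables -/
theorem f4_order {Λ : ℂ → ℂ} (hΛ : Differentiable ℂ Λ) {g : ℂ} (hg : g ≠ 0) (b ρ : ℂ) :
    analyticOrderNatAt (fun z => Λ (2 * z + b) / g) ((ρ - b) / 2) = analyticOrderNatAt Λ ρ := by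
  unfold analyticOrderNatAt
  congr 1
  set A : ℂ → ℂ := fun z => 2 * z + b with hA
  set z₀ : ℂ := (ρ - b) / 2 with hz₀
  have hAz : A z₀ = ρ := by
    rw [hA, hz₀]
    simp only []
    ring
  have hAd : Differentiable ℂ A := by
    rw [hA]
    fun_prop
  have h1 : analyticOrderAt (fun z => Λ (2 * z + b) / g) z₀ =
      analyticOrderAt (fun _ : ℂ => g⁻¹) z₀ + analyticOrderAt (Λ ∘ A) z₀ := by
    have e : (fun z => Λ (2 * z + b) / g) = (fun _ : ℂ => g⁻¹) * (Λ ∘ A) := by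
      funext z
      simp only [Pi.mul_apply, Function.comp_apply, hA]
      rw [div_eq_mul_inv, mul_comm]
    rw [e]
    exact analyticOrderAt_mul analyticAt_const ((hΛ.comp hAd).analyticAt _)
  have h2 : analyticOrderAt (fun _ : ℂ => g⁻¹) z₀ = 0 := by
    rw [analyticAt_const.analyticOrderAt_eq_zero]
    exact inv_ne_zero hg
  rw [h1, h2, zero_add]
  have hder : deriv A z₀ ≠ 0 := by
    have hd : HasDerivAt A (2 * 1) z₀ := ((hasDerivAt_id z₀).const_mul 2).add_const b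
    rw [hd.deriv]
    norm_num
  have h3 := analyticOrderAt_comp_of_deriv_ne_zero (f := Λ) (g := A) (z₀ := z₀)
    (hAd.analyticAt z₀) hder
  rw [h3, hAz]

theorem zeros_count : ∃ (C c₂ : ℝ) (k₀ : ℕ), 0 < C ∧ 0 < c₂ ∧ ∀ k : ℕ, k₀ ≤ k → Even k →
    ∀ {a : ℕ → ℝ}, HData k a → ∀ Λ : ℂ → ℂ, IsLam1 k a Λ → ∀ x h : ℝ, 0 < h →
      -(c₂ * √k) ≤ x → x + h ≤ c₂ * √k →
      allZer Λ x (x + h) ≤ ENNReal.ofReal (C * (1 + h) * Real.log k) := by
  obtain ⟨C₁, k₁, hC₁, hup⟩ := zer_up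
  obtain ⟨c, k₂, hc, hlow⟩ := zer_low
  have hlog43 : 0 < Real.log (4 / 3) := Real.log_pos (by norm_num)
  have hlog2 : 0 < Real.log 2 := Real.log_pos (by norm_num)
  refine ⟨3 * ((C₁ + |Real.log c| / Real.log 2) / Real.log (4 / 3)), c / 2,
    max (max k₁ k₂) (max 2 ⌈(4 / c) ^ 2⌉₊), by positivity, by positivity, ?_⟩
  intro k hk he a H Λ hΛ x h hh hx1 hx2
  have hk1 : k₁ ≤ k := le_trans (le_trans (le_max_left _ _) (le_max_left _ _)) hk
  have hk2 : k₂ ≤ k := le_trans (le_trans (le_max_right _ _) (le_max_left _ _)) hk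
  have hk3 : 2 ≤ k := le_trans (le_trans (le_max_left _ _) (le_max_right _ _)) hk
  have hk4 : ⌈(4 / c) ^ 2⌉₊ ≤ k := le_trans (le_trans (le_max_right _ _) (le_max_right _ _)) hk
  have hkpos : 0 < k := by omega
  have hkR : (2 : ℝ) ≤ k := by exact_mod_cast hk3
  have hsq : 4 / c ≤ √k := by
    apply Real.le_sqrt_of_sq_le
    exact (Nat.le_ceil _).trans (by exact_mod_cast hk4)
  have hsq2 : 2 ≤ c / 2 * √k := by
    have h1 : c * (4 / c) ≤ c * √k := mul_le_mul_of_nonneg_left hsq hc.le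
    have h2 : c * (4 / c) = 4 := by field_simp
    linarith
  have hg : 0 < gk k := f4_gk_pos hkpos
  have hg0 : (gk k : ℂ) ≠ 0 := by exact_mod_cast hg.ne'
  set b : ℂ := -1 / 2 + (x + h / 2 : ℝ) * I with hb
  have hbre : b.re = -1 / 2 := by simp [hb]
  have hbim : b.im = x + h / 2 := by simp [hb]
  set f : ℂ → ℂ := fun z => Λ (2 * z + b) / (gk k : ℂ) with hf
  set K : ℕ := ⌈h / 4⌉₊ with hK
  have hKle : (K : ℝ) ≤ h / 4 + 1 := (Nat.ceil_lt_add_one (by positivity)).le
  have hfd : Differentiable ℂ f := by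
    rw [hf]
    exact (hΛ.1.comp (by fun_prop)).div_const _
  have hM1 : 1 ≤ (k : ℝ) ^ C₁ := Real.one_le_rpow (by linarith) hC₁.le
  have hcount := f4_count f hfd K ((k : ℝ) ^ C₁) c hM1 hc ?_ ?_ ?_ (h / 4) (Nat.le_ceil _)
  · -- comparison of the sums
    have hle : allZer Λ x (x + h) ≤
        ∑' z : {z : ℂ // |z.im| ≤ h / 4}, (analyticOrderNatAt f z.1 : ENNReal) := by
      unfold allZer
      set i : {ρ : ℂ // x < ρ.im ∧ ρ.im < x + h} → {z : ℂ // |z.im| ≤ h / 4} := fun ρ =>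
        ⟨(ρ.1 - b) / 2, by
          have h1 : ((ρ.1 - b) / 2).im = (ρ.1.im - b.im) / 2 := by
            rw [show (2 : ℂ) = ((2 : ℝ) : ℂ) by norm_num, Complex.div_ofReal_im, Complex.sub_im]
          rw [h1, hbim, abs_le]
          constructor <;> linarith [ρ.2.1, ρ.2.2]⟩ with hi
      have hinj : Function.Injective i := by
        intro ρ ρ' hρ
        have h1 : (ρ.1 - b) / 2 = (ρ'.1 - b) / 2 := congrArg Subtype.val hρ
        apply Subtype.ext
        linear_combination 2 * h1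
      have h2 : ∑' ρ : {ρ : ℂ // x < ρ.im ∧ ρ.im < x + h}, (analyticOrderNatAt Λ ρ.1 : ℝ≥0∞) =
          ∑' ρ : {ρ : ℂ // x < ρ.im ∧ ρ.im < x + h},
            (fun z : {z : ℂ // |z.im| ≤ h / 4} => (analyticOrderNatAt f z.1 : ENNReal)) (i ρ) := by
        refine tsum_congr fun ρ => ?_
        show (analyticOrderNatAt Λ ρ.1 : ℝ≥0∞) = (analyticOrderNatAt f ((ρ.1 - b) / 2) : ENNReal)
        rw [hf, f4_order hΛ.1 hg0 b ρ.1]
      rw [h2]
      exact ENNReal.tsum_comp_le_tsum_of_injective hinj _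
    refine hle.trans (hcount.trans (ENNReal.ofReal_le_ofReal ?_))
    have hlogk : Real.log 2 ≤ Real.log k := Real.log_le_log (by norm_num) hkR
    have hlogk0 : 0 < Real.log k := lt_of_lt_of_le hlog2 hlogk
    have h3 : Real.log ((k : ℝ) ^ C₁ / c) ≤ (C₁ + |Real.log c| / Real.log 2) * Real.log k := by
      rw [Real.log_div (by positivity) hc.ne', Real.log_rpow (by linarith), add_mul]
      have h4 : -Real.log c ≤ |Real.log c| / Real.log 2 * Real.log k := by
        rw [div_mul_eq_mul_div, le_div_iff₀ hlog2]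
        calc -Real.log c * Real.log 2 ≤ |Real.log c| * Real.log 2 :=
              mul_le_mul_of_nonneg_right (neg_le_abs _) hlog2.le
          _ ≤ |Real.log c| * Real.log k := mul_le_mul_of_nonneg_left hlogk (abs_nonneg _)
      linarith
    have h5 : (2 * (K : ℝ) + 1) ≤ 3 * (1 + h) := by linarith
    calc (2 * (K : ℝ) + 1) * (Real.log ((k : ℝ) ^ C₁ / c) / Real.log (4 / 3))
        ≤ (2 * (K : ℝ) + 1) *
          ((C₁ + |Real.log c| / Real.log 2) * Real.log k / Real.log (4 / 3)) := by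
          apply mul_le_mul_of_nonneg_left _ (by positivity)
          exact div_le_div_of_nonneg_right h3 hlog43.le
      _ ≤ (3 * (1 + h)) *
          ((C₁ + |Real.log c| / Real.log 2) * Real.log k / Real.log (4 / 3)) := by
          apply mul_le_mul_of_nonneg_right h5 (by positivity)
      _ = _ := by ring
  · -- lower bound
    intro j hj
    rw [Finset.mem_Icc] at hj
    have hj1 : -(K : ℝ) ≤ (j : ℝ) := by exact_mod_cast hj.1
    have hj2 : (j : ℝ) ≤ K := by exact_mod_cast hj.2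
    have e1 : (2 : ℂ) * (2 + ((j : ℝ) : ℂ) * I) + b =
        7 / 2 + ((2 * j + (x + h / 2) : ℝ) : ℂ) * I := by
      rw [hb]
      push_cast
      ring
    rw [hf]
    simp only []
    rw [e1, norm_div, Complex.norm_real, Real.norm_eq_abs, abs_of_pos hg, le_div_iff₀ hg]
    apply hlow k hk2 he H Λ hΛ
    rw [abs_le]
    constructor <;> linarith
  · -- upper bound
    intro z hz1 hz2
    rw [hf]
    simp only []
    rw [norm_div, Complex.norm_real, Real.norm_eq_abs, abs_of_pos hg, div_le_iff₀ hg,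
      mul_comm ((k : ℝ) ^ C₁)]
    apply hup k hk1 he H Λ hΛ
    have e1 : (2 * z + b).re = 2 * z.re - 1 / 2 := by
      rw [Complex.add_re, hbre]
      simp
      ring
    rw [e1, abs_le]
    constructor <;> linarith
  · -- strip
    intro ρ hρ
    rw [hf] at hρ
    simp only [] at hρ
    rw [div_eq_zero_iff] at hρ
    have h0 : Λ (2 * ρ + b) = 0 := by
      rcases hρ with h1 | h1
      · exact h1
      · exact absurd h1 hg0
    obtain ⟨h1, h2⟩ := zer_strip H he hΛ _ h0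
    have e1 : (2 * ρ + b).re = 2 * ρ.re - 1 / 2 := by
      rw [Complex.add_re, hbre]
      simp
      ring
    rw [e1] at h1 h2
    constructor <;> linarith

end Pool.Agent.WS
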