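import Pool.Agent.Lib_helper98.WS.Defs
import Pool.Agent.Lib_helper98.WAF.A4

/-! Block A1 (KSU) of WS: the kernel sum, uniformly. -/

namespace Pool.Agent.WS

open Complex MeasureTheory Filter Topology
open UpperHalfPlane hiding I
open scoped MatrixGroups Modular ENNReal
open Pool.Agent.WA (vz ch gX gp gq A4_sumSL A4_low ch_formula)

theorem ch_sum_u : ∃ C : ℝ, 0 < C ∧ ∀ β β' V : ℝ, |β| ≤ 1 → |β'| ≤ 1 → 0 ≤ V →
    ∀ u ∈ Set.Icc (-V) V, ∀ u' ∈ Set.Icc (-V) V,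
    ∑' g : SL(2, ℤ), ENNReal.ofReal (ch (g • vz β u) (vz β' u') ^ (-(4 : ℝ))) ≤
      ENNReal.ofReal (C * Real.exp (8 * V)) := by
  obtain ⟨T, hT⟩ : ∃ T : ℝ≥0∞, T = ∑' g : SL(2, ℤ), ENNReal.ofReal
    ((1 + ((g 0 0 : ℤ) : ℝ) ^ 2 + ((g 0 1 : ℤ) : ℝ) ^ 2 + ((g 1 0 : ℤ) : ℝ) ^ 2 +
      ((g 1 1 : ℤ) : ℝ) ^ 2) ^ (-(4 : ℝ))) := ⟨_, rfl⟩
  have hTf : T ≠ ∞ := by rw [hT]; exact A4_sumSL.ne
  refine ⟨320 ^ 4 * (T.toReal + 1), by positivity, ?_⟩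
  intro β β' V hβ hβ' hV u hu u' hu'
  obtain ⟨κ, hκ⟩ : ∃ κ : ℝ, κ = Real.exp (-(2 * V)) / 320 := ⟨_, rfl⟩
  have hκ0 : 0 < κ := by rw [hκ]; positivity
  have hκ4 : κ ^ (-(4 : ℝ)) = 320 ^ 4 * Real.exp (8 * V) := by
    rw [Real.rpow_neg hκ0.le, show (4 : ℝ) = ((4 : ℕ) : ℝ) by norm_num, Real.rpow_natCast, hκ,
      div_pow, ← Real.exp_nat_mul, inv_div, div_eq_mul_inv, ← Real.exp_neg]
    congr 2
    push_cast
    ring
  have hfin : ENNReal.ofReal (κ ^ (-(4 : ℝ)) * T.toReal) ≤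
      ENNReal.ofReal (320 ^ 4 * (T.toReal + 1) * Real.exp (8 * V)) := by
    apply ENNReal.ofReal_le_ofReal
    rw [hκ4]
    have h1 : (0 : ℝ) ≤ 320 ^ 4 * Real.exp (8 * V) := by positivity
    linarith
  refine le_trans ?_ hfin
  rw [ENNReal.ofReal_mul (by positivity), ENNReal.ofReal_toReal hTf, hT, ← ENNReal.tsum_mul_left]
  apply ENNReal.tsum_le_tsum
  intro g
  rw [← ENNReal.ofReal_mul (by positivity), ← Real.mul_rpow hκ0.le (by positivity)]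
  apply ENNReal.ofReal_le_ofReal
  apply Real.rpow_le_rpow_of_nonpos
  · positivity
  · have hlow := A4_low g β β'
    rw [ch_formula]
    obtain ⟨X, hX⟩ : ∃ X, X = gX g β β' := ⟨_, rfl⟩
    obtain ⟨p, hp⟩ : ∃ X, X = gp g β' := ⟨_, rfl⟩
    obtain ⟨q, hq⟩ : ∃ X, X = gq g β := ⟨_, rfl⟩
    rw [← hX, ← hp, ← hq] at hlow ⊢
    have hE : Real.exp (-(2 * V)) ≤ 1 := by
      rw [Real.exp_le_one_iff]
      linarith
    have m1 : Real.exp (-(2 * V)) ≤ Real.exp (-(u + u')) := by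
      apply Real.exp_le_exp.mpr
      linarith [hu.2, hu'.2]
    have m2 : Real.exp (-(2 * V)) ≤ Real.exp (u + u') := by
      apply Real.exp_le_exp.mpr
      linarith [hu.1, hu'.1]
    have m3 : Real.exp (-(2 * V)) ≤ Real.exp (u - u') := by
      apply Real.exp_le_exp.mpr
      linarith [hu.1, hu'.2]
    have m4 : Real.exp (-(2 * V)) ≤ Real.exp (u' - u) := by
      apply Real.exp_le_exp.mpr
      linarith [hu.2, hu'.1]
    have hS0 : 0 ≤ X ^ 2 + ((g 1 0 : ℤ) : ℝ) ^ 2 + p ^ 2 + q ^ 2 + 1 := by positivity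
    have hb1 : β ^ 2 ≤ 1 := by
      rw [← sq_abs β]
      exact pow_le_one₀ (abs_nonneg β) hβ
    have hb2 : β' ^ 2 ≤ 1 := by
      rw [← sq_abs β']
      exact pow_le_one₀ (abs_nonneg β') hβ'
    have h80 : (20 * (1 + β ^ 2) * (1 + β' ^ 2)) ≤ 80 := by
      nlinarith [sq_nonneg β, sq_nonneg β']
    have hlow2 : 1 + ((g 0 0 : ℤ) : ℝ) ^ 2 + ((g 0 1 : ℤ) : ℝ) ^ 2 + ((g 1 0 : ℤ) : ℝ) ^ 2 +
        ((g 1 1 : ℤ) : ℝ) ^ 2 ≤ 80 * (X ^ 2 + ((g 1 0 : ℤ) : ℝ) ^ 2 + p ^ 2 + q ^ 2 + 1) :=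
      hlow.trans (mul_le_mul_of_nonneg_right h80 hS0)
    have hstep := mul_le_mul_of_nonneg_left hlow2 hκ0.le
    refine hstep.trans ?_
    have hk : κ * (80 * (X ^ 2 + ((g 1 0 : ℤ) : ℝ) ^ 2 + p ^ 2 + q ^ 2 + 1)) =
        (Real.exp (-(2 * V)) * X ^ 2 + Real.exp (-(2 * V)) * ((g 1 0 : ℤ) : ℝ) ^ 2 +
          Real.exp (-(2 * V)) * p ^ 2 + Real.exp (-(2 * V)) * q ^ 2 + Real.exp (-(2 * V))) / 4 := by
      rw [hκ]
      ring
    rw [hk]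
    apply div_le_div_of_nonneg_right _ (by norm_num)
    have n1 := mul_le_mul_of_nonneg_right m1 (sq_nonneg X)
    have n2 := mul_le_mul_of_nonneg_right m2 (sq_nonneg ((g 1 0 : ℤ) : ℝ))
    have n3 := mul_le_mul_of_nonneg_right m3 (sq_nonneg p)
    have n4 := mul_le_mul_of_nonneg_right m4 (sq_nonneg q)
    linarith
  · norm_num

end Pool.Agent.WS
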