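import Pool.Agent.Lib_helper98.WSF.A1
import Pool.Agent.Lib_helper98.WAF.A9

/-! Block A2 (NMU) of WS: the terms off the two geodesics, uniformly. -/

namespace Pool.Agent.WS

open Complex MeasureTheory Filter Topology
open UpperHalfPlane hiding I
open scoped MatrixGroups Modular ENNReal
open Pool.Agent.WA

/-- the entries of an element of type (iv) -/
theorem A2_entries {N : ℕ} (hN : 0 < N) {β β' : ℚ} {P P' : ℤ} (hβ : (β : ℝ) * N = P)
    (hβ' : (β' : ℝ) * N = P') (hb1 : |(β : ℝ)| ≤ 1) (hb2 : |(β' : ℝ)| ≤ 1)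
    {g : SL(2, ℤ)} (hg : A9S β β' g) :
    |((g 0 0 : ℤ) : ℝ)| ≤ 4 * (N : ℝ) ^ 2 ∧ |((g 0 1 : ℤ) : ℝ)| ≤ 4 * (N : ℝ) ^ 2 ∧
    |((g 1 0 : ℤ) : ℝ)| ≤ 4 * (N : ℝ) ^ 2 ∧ |((g 1 1 : ℤ) : ℝ)| ≤ 4 * (N : ℝ) ^ 2 := by
  obtain ⟨h1, h2⟩ := hg
  have hpq := pq_cX g β β'
  obtain ⟨⟨m1, hm1⟩, ⟨m2, hm2⟩, ⟨m3, hm3⟩⟩ := A9_int hβ hβ' g
  have hN1 : (1 : ℝ) ≤ N := by exact_mod_cast hN
  have hN0 : (0 : ℝ) < N := by linarith
  have hN2 : (0 : ℝ) < (N : ℝ) ^ 2 := by positivity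
  set X := gX g β β' with hXd
  set p := gp g β' with hpd
  set q := gq g β with hqd
  set c : ℝ := ((g 1 0 : ℤ) : ℝ) with hcdef
  have hX0 : X ≠ 0 := by
    intro h; rw [h] at h2; simp at h2
  have hc0 : c ≠ 0 := by
    intro h; rw [h] at h2; simp at h2
  have hp0 : p ≠ 0 := by
    intro h; rw [h] at h1; simp at h1
  have hq0 : q ≠ 0 := by
    intro h; rw [h] at h1; simp at h1
  have hXb : 1 / (N : ℝ) ^ 2 ≤ |X| := A9_sep hN hm1 hX0
  have hpb : 1 / (N : ℝ) ^ 2 ≤ |p| := by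
    refine A9_sep (m := m2 * N) hN ?_ hp0
    push_cast
    rw [← hm2]; ring
  have hqb : 1 / (N : ℝ) ^ 2 ≤ |q| := by
    refine A9_sep (m := m3 * N) hN ?_ hq0
    push_cast
    rw [← hm3]; ring
  have hcb : 1 ≤ |c| := by
    have : g 1 0 ≠ 0 := by
      intro h; apply hc0; rw [hcdef, h]; simp
    have := Int.one_le_abs this
    rw [hcdef]
    exact_mod_cast this
  have e1 : |c| * |X| ≤ 1 := by
    rw [← abs_mul, abs_of_neg h2]; linarith
  have e2 : |p| * |q| ≤ 1 := by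
    rw [← abs_mul, abs_of_pos h1]; linarith
  have b1 : |X| ≤ 1 := by
    calc |X| = 1 * |X| := (one_mul _).symm
      _ ≤ |c| * |X| := mul_le_mul_of_nonneg_right hcb (abs_nonneg X)
      _ ≤ 1 := e1
  have b2 : |c| ≤ (N : ℝ) ^ 2 := by
    have : |c| * (1 / (N : ℝ) ^ 2) ≤ 1 := (mul_le_mul_of_nonneg_left hXb (abs_nonneg c)).trans e1
    rw [mul_one_div, div_le_one hN2] at this
    exact this
  have b3 : |p| ≤ (N : ℝ) ^ 2 := by
    have : |p| * (1 / (N : ℝ) ^ 2) ≤ 1 := (mul_le_mul_of_nonneg_left hqb (abs_nonneg p)).trans e2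
    rw [mul_one_div, div_le_one hN2] at this
    exact this
  have b4 : |q| ≤ (N : ℝ) ^ 2 := by
    have : |q| * (1 / (N : ℝ) ^ 2) ≤ 1 := by
      rw [mul_comm] at e2
      exact (mul_le_mul_of_nonneg_left hpb (abs_nonneg q)).trans e2
    rw [mul_one_div, div_le_one hN2] at this
    exact this
  have ha : ((g 0 0 : ℤ) : ℝ) = p + β' * c := by
    rw [hpd, hcdef]; unfold gp; ring
  have hd : ((g 1 1 : ℤ) : ℝ) = q - c * β := by
    rw [hqd, hcdef]; unfold gq; ring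
  have hb : ((g 0 1 : ℤ) : ℝ) = X - ((g 0 0 : ℤ) : ℝ) * β + β' * q := by
    rw [hXd, hqd]; unfold gX gq; ring
  have na : |((g 0 0 : ℤ) : ℝ)| ≤ (N : ℝ) ^ 2 * (1 + |(β' : ℝ)|) := by
    rw [ha]
    calc |p + β' * c| ≤ |p| + |(β' : ℝ)| * |c| := by
          rw [← abs_mul]; exact abs_add_le _ _
      _ ≤ (N : ℝ) ^ 2 + |(β' : ℝ)| * (N : ℝ) ^ 2 := by gcongr
      _ = (N : ℝ) ^ 2 * (1 + |(β' : ℝ)|) := by ring
  have nd : |((g 1 1 : ℤ) : ℝ)| ≤ (N : ℝ) ^ 2 * (1 + |(β : ℝ)|) := by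
    rw [hd]
    calc |q - c * β| ≤ |q| + |c| * |(β : ℝ)| := by
          rw [← abs_mul]; exact abs_sub _ _
      _ ≤ (N : ℝ) ^ 2 + (N : ℝ) ^ 2 * |(β : ℝ)| := by gcongr
      _ = (N : ℝ) ^ 2 * (1 + |(β : ℝ)|) := by ring
  have nb : |((g 0 1 : ℤ) : ℝ)| ≤ 1 + (N : ℝ) ^ 2 * (1 + |(β' : ℝ)|) * |(β : ℝ)| +
      |(β' : ℝ)| * (N : ℝ) ^ 2 := by
    rw [hb]
    calc |X - ((g 0 0 : ℤ) : ℝ) * β + β' * q| ≤ |X - ((g 0 0 : ℤ) : ℝ) * β| + |β' * q| :=
          abs_add_le _ _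
      _ ≤ |X| + |((g 0 0 : ℤ) : ℝ) * β| + |β' * q| := by
          gcongr
          exact abs_sub _ _
      _ = |X| + |((g 0 0 : ℤ) : ℝ)| * |(β : ℝ)| + |(β' : ℝ)| * |q| := by
          rw [abs_mul, abs_mul]
      _ ≤ 1 + (N : ℝ) ^ 2 * (1 + |(β' : ℝ)|) * |(β : ℝ)| + |(β' : ℝ)| * (N : ℝ) ^ 2 := by
          gcongr
  have hN21 : (1 : ℝ) ≤ (N : ℝ) ^ 2 := one_le_pow₀ hN1
  have t1 : (N : ℝ) ^ 2 * |(β : ℝ)| ≤ (N : ℝ) ^ 2 := mul_le_of_le_one_right hN2.le hb1
  have t2 : (N : ℝ) ^ 2 * |(β' : ℝ)| ≤ (N : ℝ) ^ 2 := mul_le_of_le_one_right hN2.le hb2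
  have t0 : 0 ≤ (N : ℝ) ^ 2 * |(β : ℝ)| := by positivity
  have t3 : (N : ℝ) ^ 2 * |(β : ℝ)| * |(β' : ℝ)| ≤ (N : ℝ) ^ 2 :=
    (mul_le_of_le_one_right t0 hb2).trans t1
  refine ⟨?_, ?_, ?_, ?_⟩
  · linarith
  · have e : 1 + (N : ℝ) ^ 2 * (1 + |(β' : ℝ)|) * |(β : ℝ)| + |(β' : ℝ)| * (N : ℝ) ^ 2 =
        1 + (N : ℝ) ^ 2 * |(β : ℝ)| + (N : ℝ) ^ 2 * |(β : ℝ)| * |(β' : ℝ)| +
          (N : ℝ) ^ 2 * |(β' : ℝ)| := by ring
    linarith
  · change |c| ≤ _
    linarith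
  · linarith

/-- the finite set of type (iv), with its cardinality -/
theorem A2_card {N : ℕ} (hN : 0 < N) {β β' : ℚ} {P P' : ℤ} (hβ : (β : ℝ) * N = P)
    (hβ' : (β' : ℝ) * N = P') (hb1 : |(β : ℝ)| ≤ 1) (hb2 : |(β' : ℝ)| ≤ 1) :
    ∃ S : Finset SL(2, ℤ), (∀ g, A9S β β' g → g ∈ S) ∧ (S.card : ℝ) ≤ 6561 * (N : ℝ) ^ 8 := by
  classical
  set M : ℤ := 4 * (N : ℤ) ^ 2 with hM
  let e : SL(2, ℤ) → ℤ × ℤ × ℤ × ℤ := fun g => (g 0 0, g 0 1, g 1 0, g 1 1)
  have he : Function.Injective e := by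
    intro g g' h
    simp only [e, Prod.mk.injEq] at h
    obtain ⟨h1, h2, h3, h4⟩ := h
    ext i j
    fin_cases i <;> fin_cases j <;> simp_all
  set T : Finset (ℤ × ℤ × ℤ × ℤ) :=
    Finset.Icc (-M) M ×ˢ Finset.Icc (-M) M ×ˢ Finset.Icc (-M) M ×ˢ Finset.Icc (-M) M with hT
  refine ⟨T.preimage e he.injOn, ?_, ?_⟩
  · intro g hg
    obtain ⟨h1, h2, h3, h4⟩ := A2_entries hN hβ hβ' hb1 hb2 hg
    have hin : ∀ z : ℤ, |((z : ℤ) : ℝ)| ≤ 4 * (N : ℝ) ^ 2 → z ∈ Finset.Icc (-M) M := by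
      intro z hz
      rw [abs_le] at hz
      rw [Finset.mem_Icc, hM]
      constructor
      · exact_mod_cast hz.1
      · exact_mod_cast hz.2
    rw [Finset.mem_preimage, hT]
    simp only [e, Finset.mem_product]
    exact ⟨hin _ h1, hin _ h2, hin _ h3, hin _ h4⟩
  · have hc : (T.preimage e he.injOn).card ≤ T.card := by
      apply Finset.card_le_card_of_injOn e
      · intro g hg
        exact Finset.mem_preimage.1 hg
      · exact he.injOn
    have hN1 : (1 : ℝ) ≤ N := by exact_mod_cast hN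
    have hM0 : 0 ≤ M := by rw [hM]; positivity
    have hIcc : ((Finset.Icc (-M) M).card : ℝ) ≤ 9 * (N : ℝ) ^ 2 := by
      rw [Int.card_Icc]
      have h5 : ((M + 1 - -M).toNat : ℤ) = 2 * M + 1 := by
        rw [Int.toNat_of_nonneg (by omega)]
        ring
      have h6 : (((M + 1 - -M).toNat : ℕ) : ℝ) = 2 * (4 * (N : ℝ) ^ 2) + 1 := by
        have : (((M + 1 - -M).toNat : ℤ) : ℝ) = ((2 * M + 1 : ℤ) : ℝ) := by rw [h5]
        rw [hM] at this
        push_cast at this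
        rw [hM]
        push_cast
        exact this
      rw [h6]
      have : (1 : ℝ) ≤ (N : ℝ) ^ 2 := one_le_pow₀ hN1
      linarith
    have hTc : (T.card : ℝ) ≤ (9 * (N : ℝ) ^ 2) ^ 4 := by
      rw [hT, Finset.card_product, Finset.card_product, Finset.card_product]
      push_cast
      calc ((Finset.Icc (-M) M).card : ℝ) * ((Finset.Icc (-M) M).card *
            ((Finset.Icc (-M) M).card * (Finset.Icc (-M) M).card))
          ≤ (9 * (N : ℝ) ^ 2) * ((9 * (N : ℝ) ^ 2) * ((9 * (N : ℝ) ^ 2) * (9 * (N : ℝ) ^ 2))) := by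
            gcongr
        _ = _ := by ring
    calc ((T.preimage e he.injOn).card : ℝ) ≤ T.card := by exact_mod_cast hc
      _ ≤ _ := hTc
      _ = 6561 * (N : ℝ) ^ 8 := by ring

theorem nonmain_u : ∃ C E : ℝ, 0 < C ∧ 0 < E ∧ ∀ (β β' : ℚ) (N : ℕ) (V : ℝ) (k : ℕ), 16 ≤ k →
    0 ≤ V → β.den ≤ N → β'.den ≤ N → |(β : ℝ)| ≤ 1 → |(β' : ℝ)| ≤ 1 →
    ∫⁻ u in Set.Icc (-V) V, ∫⁻ u' in Set.Icc (-V) V,
      ∑' g : {g : SL(2, ℤ) // ¬ MainI (β : ℝ) (β' : ℝ) g ∧ ¬ MainR (β : ℝ) (β' : ℝ) g},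
        ENNReal.ofReal (ch (g.1 • vz β u) (vz β' u') ^ (-(k : ℝ) / 2)) ≤
      ENNReal.ofReal (C * (N : ℝ) ^ E * Real.exp (E * V) / k) := by
  classical
  obtain ⟨C₁, hC₁, hch⟩ := ch_sum_u
  refine ⟨96 * C₁ + 6561 * (8 * Real.pi ^ 2), 20, by positivity, by norm_num, ?_⟩
  intro β β' NN V k hk16 hV hd hd' hb1 hb2
  have hC₀ := hch (β : ℝ) (β' : ℝ) V hb1 hb2 hV
  obtain ⟨C₀, hC₀d⟩ : ∃ C₀ : ℝ, C₀ = C₁ * Real.exp (8 * V) := ⟨_, rfl⟩
  rw [← hC₀d] at hC₀
  have hC₀0 : 0 < C₀ := by rw [hC₀d]; positivity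
  -- the common denominator
  set N : ℕ := β.den * β'.den with hNdef
  have hN : 0 < N := Nat.mul_pos β.den_pos β'.den_pos
  have hβ : (β : ℝ) * N = ((β.num * β'.den : ℤ) : ℝ) := by
    rw [hNdef]
    have h0 : (β.den : ℝ) ≠ 0 := by exact_mod_cast β.den_ne_zero
    have h1 : (β : ℝ) * β.den = β.num := by
      have := Rat.mul_den_eq_num β
      exact_mod_cast this
    push_cast
    rw [← h1]; ring
  have hβ' : (β' : ℝ) * N = ((β'.num * β.den : ℤ) : ℝ) := by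
    rw [hNdef]
    have h1 : (β' : ℝ) * β'.den = β'.num := by
      have := Rat.mul_den_eq_num β'
      exact_mod_cast this
    push_cast
    rw [← h1]; ring
  obtain ⟨S, hSmem, hScard⟩ := A2_card hN hβ hβ' hb1 hb2
  set η : ℝ := Real.exp (-2 * V) / (4 * (N : ℝ) ^ 4) with hη
  have hN0 : (0 : ℝ) < N := by exact_mod_cast hN
  have hη0 : 0 < η := by positivity
  have hk : 8 ≤ k := by omega
  have hk' : (8 : ℝ) ≤ k := by exact_mod_cast hk
  have hk0 : (0 : ℝ) < k := by linarith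
  set κ : ℝ := k / (16 * (N : ℝ) ^ 2) with hκ
  have hκ0 : 0 < κ := by positivity
  set D : ℝ := (1 + η) ^ (-((k : ℝ) / 2 - 4)) with hD
  have hD0 : 0 < D := by positivity
  -- the kernels
  let G : SL(2, ℤ) → ℝ → ℝ → ℝ≥0∞ := fun g u u' =>
    A8K κ (u + u' - A9s β β' g) * A8K κ (u - u' - A9t β β' g)
  have hGm : ∀ g, Measurable (Function.uncurry (G g)) := by
    intro g
    change Measurable (fun p : ℝ × ℝ => A8K κ (p.1 + p.2 - A9s β β' g) *
      A8K κ (p.1 - p.2 - A9t β β' g))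
    exact ((A8K_meas κ).comp (by fun_prop)).mul ((A8K_meas κ).comp (by fun_prop))
  have hpt : ∀ u ∈ Set.Icc (-V) V, ∀ u' ∈ Set.Icc (-V) V,
      ∑' g : {g : SL(2, ℤ) // ¬ MainI (β : ℝ) (β' : ℝ) g ∧ ¬ MainR (β : ℝ) (β' : ℝ) g},
        ENNReal.ofReal (ch (g.1 • vz β u) (vz β' u') ^ (-(k : ℝ) / 2)) ≤
      ENNReal.ofReal (D * |C₀|) + ∑ g ∈ S, G g u u' := by
    intro u hu u' hu'
    let F1 : SL(2, ℤ) → ℝ≥0∞ := fun g =>
      ENNReal.ofReal D * ENNReal.ofReal (ch (g • vz β u) (vz β' u') ^ (-(4 : ℝ)))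
    let F2 : SL(2, ℤ) → ℝ≥0∞ := fun g => if g ∈ S then G g u u' else 0
    have hle : ∀ g : {g : SL(2, ℤ) // ¬ MainI (β : ℝ) (β' : ℝ) g ∧ ¬ MainR (β : ℝ) (β' : ℝ) g},
        ENNReal.ofReal (ch (g.1 • vz β u) (vz β' u') ^ (-(k : ℝ) / 2)) ≤ F1 g.1 + F2 g.1 := by
      intro ⟨g, hg1, hg2⟩
      by_cases hgS : A9S β β' g
      · have hmem : g ∈ S := hSmem g hgS
        simp only [F2, if_pos hmem]
        refine le_trans ?_ le_add_self
        exact A9_S hN hβ hβ' hgS (by omega) u u'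
      · refine le_trans ?_ le_self_add
        obtain ⟨i1, i2, i3⟩ := A9_int hβ hβ' g
        have hch := A9_ch hN i1 i2 i3 hu hu' hg1 hg2 hgS
        rw [← hη] at hch
        have hchpos : 0 < ch (g • vz β u) (vz β' u') := by linarith
        simp only [F1]
        rw [← ENNReal.ofReal_mul hD0.le]
        apply ENNReal.ofReal_le_ofReal
        have e1 : ch (g • vz β u) (vz β' u') ^ (-(k : ℝ) / 2) =
            ch (g • vz β u) (vz β' u') ^ (-((k : ℝ) / 2 - 4)) *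
              ch (g • vz β u) (vz β' u') ^ (-(4 : ℝ)) := by
          rw [← Real.rpow_add hchpos]
          congr 1
          ring
        rw [e1]
        apply mul_le_mul_of_nonneg_right _ (by positivity)
        exact Real.rpow_le_rpow_of_nonpos (by positivity) hch (by linarith)
    calc ∑' g : {g : SL(2, ℤ) // ¬ MainI (β : ℝ) (β' : ℝ) g ∧ ¬ MainR (β : ℝ) (β' : ℝ) g},
          ENNReal.ofReal (ch (g.1 • vz β u) (vz β' u') ^ (-(k : ℝ) / 2))
        ≤ ∑' g : {g : SL(2, ℤ) // ¬ MainI (β : ℝ) (β' : ℝ) g ∧ ¬ MainR (β : ℝ) (β' : ℝ) g},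
          (fun g => F1 g + F2 g) g.1 := ENNReal.tsum_le_tsum hle
      _ ≤ ∑' g : SL(2, ℤ), (F1 g + F2 g) :=
          ENNReal.tsum_comp_le_tsum_of_injective Subtype.val_injective _
      _ = ∑' g : SL(2, ℤ), F1 g + ∑' g : SL(2, ℤ), F2 g := ENNReal.tsum_add
      _ ≤ ENNReal.ofReal (D * |C₀|) + ∑ g ∈ S, G g u u' := by
          gcongr
          · simp only [F1]
            rw [ENNReal.tsum_mul_left, ENNReal.ofReal_mul hD0.le]
            gcongr
            exact (hC₀ u hu u' hu').trans (ENNReal.ofReal_le_ofReal (le_abs_self _))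
          · rw [tsum_eq_sum (s := S)]
            · apply Finset.sum_le_sum
              intro g hg
              simp only [F2, if_pos hg]
              exact le_rfl
            · intro g hg
              simp only [F2, if_neg hg]
  -- integrate
  have hvol : volume (Set.Icc (-V) V) = ENNReal.ofReal (2 * V) := by
    rw [Real.volume_Icc]
    congr 1
    ring
  have hGi : ∀ g, ∫⁻ u : ℝ, ∫⁻ u' : ℝ, G g u u' =
      ENNReal.ofReal (8 * Real.pi ^ 2 * (N : ℝ) ^ 2 / k) := by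
    intro g
    have := A9_int2 hκ0 (A9s β β' g) (A9t β β' g)
    simp only [G]
    rw [this]
    congr 1
    rw [hκ]
    field_simp
    ring
  calc ∫⁻ u in Set.Icc (-V) V, ∫⁻ u' in Set.Icc (-V) V,
      ∑' g : {g : SL(2, ℤ) // ¬ MainI (β : ℝ) (β' : ℝ) g ∧ ¬ MainR (β : ℝ) (β' : ℝ) g},
        ENNReal.ofReal (ch (g.1 • vz β u) (vz β' u') ^ (-(k : ℝ) / 2))
      ≤ ∫⁻ u in Set.Icc (-V) V, ∫⁻ u' in Set.Icc (-V) V,
          (ENNReal.ofReal (D * |C₀|) + ∑ g ∈ S, G g u u') := by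
        refine setLIntegral_mono' measurableSet_Icc fun u hu => ?_
        exact setLIntegral_mono' measurableSet_Icc fun u' hu' => hpt u hu u' hu'
    _ = ∫⁻ u in Set.Icc (-V) V, (ENNReal.ofReal (D * |C₀|) * ENNReal.ofReal (2 * V) +
          ∫⁻ u' in Set.Icc (-V) V, ∑ g ∈ S, G g u u') := by
        refine lintegral_congr fun u => ?_
        rw [lintegral_add_left measurable_const, setLIntegral_const, hvol]
    _ = ENNReal.ofReal (D * |C₀|) * ENNReal.ofReal (2 * V) * ENNReal.ofReal (2 * V) +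
          ∫⁻ u in Set.Icc (-V) V, ∫⁻ u' in Set.Icc (-V) V, ∑ g ∈ S, G g u u' := by
        rw [lintegral_add_left measurable_const, setLIntegral_const, hvol]
    _ ≤ ENNReal.ofReal (D * |C₀|) * ENNReal.ofReal (2 * V) * ENNReal.ofReal (2 * V) +
          ∫⁻ u : ℝ, ∫⁻ u' : ℝ, ∑ g ∈ S, G g u u' := by
        refine add_le_add le_rfl ?_
        refine (setLIntegral_le_lintegral _ _).trans ?_
        exact lintegral_mono fun u => setLIntegral_le_lintegral _ _
    _ = ENNReal.ofReal (D * |C₀|) * ENNReal.ofReal (2 * V) * ENNReal.ofReal (2 * V) +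
          ∑ g ∈ S, ∫⁻ u : ℝ, ∫⁻ u' : ℝ, G g u u' := by
        congr 1
        rw [← lintegral_finsetSum]
        · refine lintegral_congr fun u => ?_
          rw [lintegral_finsetSum]
          intro g _
          exact (hGm g).of_uncurry_left
        · intro g _
          exact (hGm g).lintegral_prod_right'
    _ = ENNReal.ofReal (D * |C₀|) * ENNReal.ofReal (2 * V) * ENNReal.ofReal (2 * V) +
          (S.card : ℝ≥0∞) * ENNReal.ofReal (8 * Real.pi ^ 2 * (N : ℝ) ^ 2 / k) := by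
        simp only [hGi, Finset.sum_const, nsmul_eq_mul]
    _ ≤ ENNReal.ofReal (((2 * V) ^ 2 * |C₀| * ((1 + η) ^ 4 * (2 / η)) +
          S.card * (8 * Real.pi ^ 2 * (N : ℝ) ^ 2)) / k) := by
        rw [add_div, ENNReal.ofReal_add (by positivity) (by positivity)]
        gcongr
        · rcases lt_or_ge V 0 with hV | hV
          · have : ENNReal.ofReal (2 * V) = 0 := ENNReal.ofReal_of_nonpos (by linarith)
            rw [this]
            simp
          · rw [mul_assoc, ← ENNReal.ofReal_mul (by positivity), ← ENNReal.ofReal_mul (by positivity)]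
            apply ENNReal.ofReal_le_ofReal
            have hDb : D ≤ (1 + η) ^ 4 * (2 / η) / k := by
              have e1 : D = (1 + η) ^ 4 * ((1 + η) ^ ((k : ℝ) / 2))⁻¹ := by
                rw [hD, ← Real.rpow_natCast (1 + η) 4, ← Real.rpow_neg (by positivity),
                  ← Real.rpow_add (by positivity)]
                congr 1
                push_cast
                ring
              have e2 : 1 + (k : ℝ) / 2 * η ≤ (1 + η) ^ ((k : ℝ) / 2) :=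
                one_add_mul_self_le_rpow_one_add (by linarith) (by linarith)
              have e3 : (k : ℝ) / 2 * η ≤ (1 + η) ^ ((k : ℝ) / 2) := by linarith
              have e4 : ((1 + η) ^ ((k : ℝ) / 2))⁻¹ ≤ ((k : ℝ) / 2 * η)⁻¹ :=
                inv_anti₀ (by positivity) e3
              calc D = (1 + η) ^ 4 * ((1 + η) ^ ((k : ℝ) / 2))⁻¹ := e1
                _ ≤ (1 + η) ^ 4 * ((k : ℝ) / 2 * η)⁻¹ := by gcongr
                _ = (1 + η) ^ 4 * (2 / η) / k := by field_simp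
            calc D * |C₀| * (2 * V * (2 * V)) ≤
                  ((1 + η) ^ 4 * (2 / η) / k) * |C₀| * (2 * V * (2 * V)) := by gcongr
              _ = (2 * V) ^ 2 * |C₀| * ((1 + η) ^ 4 * (2 / η)) / k := by ring
        · have e5 : (S.card : ℝ) * (8 * Real.pi ^ 2 * (N : ℝ) ^ 2) / k =
              (S.card : ℝ) * (8 * Real.pi ^ 2 * (N : ℝ) ^ 2 / k) := by ring
          rw [e5, ENNReal.ofReal_mul (by positivity), ENNReal.ofReal_natCast]
    _ ≤ _ := by
        apply ENNReal.ofReal_le_ofReal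
        apply div_le_div_of_nonneg_right _ hk0.le
        rw [abs_of_pos hC₀0]
        have hN1 : (1 : ℝ) ≤ N := by exact_mod_cast hN
        have hNN1 : (1 : ℝ) ≤ NN := by
          have : 1 ≤ NN := le_trans β.den_pos hd
          exact_mod_cast this
        have hNle : (N : ℝ) ≤ (NN : ℝ) ^ 2 := by
          rw [hNdef, sq]
          push_cast
          have h1 : (β.den : ℝ) ≤ NN := by exact_mod_cast hd
          have h2 : (β'.den : ℝ) ≤ NN := by exact_mod_cast hd'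
          exact mul_le_mul h1 h2 (by positivity) (by positivity)
        have hexpV : V ≤ Real.exp V := by
          have := Real.add_one_le_exp V
          linarith
        have f1 : (2 * V) ^ 2 ≤ 4 * Real.exp (2 * V) := by
          have : V ^ 2 ≤ Real.exp V ^ 2 := pow_le_pow_left₀ hV hexpV 2
          rw [← Real.exp_nat_mul] at this
          push_cast at this
          nlinarith
        have hη1 : η ≤ 1 / 4 := by
          rw [hη]
          have h1 : Real.exp (-2 * V) ≤ 1 := by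
            rw [Real.exp_le_one_iff]; linarith
          have h2 : (1 : ℝ) ≤ (N : ℝ) ^ 4 := one_le_pow₀ hN1
          rw [div_le_div_iff₀ (by positivity) (by norm_num)]
          linarith
        have f2 : (1 + η) ^ 4 ≤ 3 := by
          calc (1 + η) ^ 4 ≤ (1 + 1 / 4) ^ 4 := by gcongr
            _ ≤ 3 := by norm_num
        have f3 : 2 / η = 8 * (N : ℝ) ^ 4 * Real.exp (2 * V) := by
          rw [hη, show (-2 * V) = -(2 * V) by ring, Real.exp_neg]
          field_simp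
          ring
        have f4 : (N : ℝ) ^ 4 ≤ (NN : ℝ) ^ 8 := by
          calc (N : ℝ) ^ 4 ≤ ((NN : ℝ) ^ 2) ^ 4 := by gcongr
            _ = (NN : ℝ) ^ 8 := by ring
        have f5 : (N : ℝ) ^ 10 ≤ (NN : ℝ) ^ 20 := by
          calc (N : ℝ) ^ 10 ≤ ((NN : ℝ) ^ 2) ^ 10 := by gcongr
            _ = (NN : ℝ) ^ 20 := by ring
        have f6 : (NN : ℝ) ^ 8 ≤ (NN : ℝ) ^ 20 := pow_le_pow_right₀ hNN1 (by norm_num)
        have f7 : (1 : ℝ) ≤ Real.exp (20 * V) := Real.one_le_exp (by positivity)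
        have f8 : Real.exp (2 * V) * Real.exp (8 * V) * Real.exp (2 * V) ≤ Real.exp (20 * V) := by
          rw [← Real.exp_add, ← Real.exp_add]
          apply Real.exp_le_exp.2
          linarith
        have f9 : (NN : ℝ) ^ (20 : ℝ) = (NN : ℝ) ^ 20 := by
          rw [← Real.rpow_natCast]
          norm_num
        rw [f9]
        have g1 : (2 * V) ^ 2 * C₀ * ((1 + η) ^ 4 * (2 / η)) ≤
            96 * C₁ * (NN : ℝ) ^ 20 * Real.exp (20 * V) := by
          rw [f3, hC₀d]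
          calc (2 * V) ^ 2 * (C₁ * Real.exp (8 * V)) *
                ((1 + η) ^ 4 * (8 * (N : ℝ) ^ 4 * Real.exp (2 * V)))
              ≤ (4 * Real.exp (2 * V)) * (C₁ * Real.exp (8 * V)) *
                (3 * (8 * (NN : ℝ) ^ 20 * Real.exp (2 * V))) := by
                gcongr
                exact f4.trans f6
            _ = 96 * C₁ * (NN : ℝ) ^ 20 *
                (Real.exp (2 * V) * Real.exp (8 * V) * Real.exp (2 * V)) := by ring
            _ ≤ _ := by gcongr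
        have g2 : (S.card : ℝ) * (8 * Real.pi ^ 2 * (N : ℝ) ^ 2) ≤
            6561 * (8 * Real.pi ^ 2) * (NN : ℝ) ^ 20 * Real.exp (20 * V) := by
          calc (S.card : ℝ) * (8 * Real.pi ^ 2 * (N : ℝ) ^ 2)
              ≤ (6561 * (N : ℝ) ^ 8) * (8 * Real.pi ^ 2 * (N : ℝ) ^ 2) := by gcongr
            _ = 6561 * (8 * Real.pi ^ 2) * (N : ℝ) ^ 10 := by ring
            _ ≤ 6561 * (8 * Real.pi ^ 2) * (NN : ℝ) ^ 20 := by gcongr
            _ ≤ _ := le_mul_of_one_le_right (by positivity) f7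
        calc _ ≤ 96 * C₁ * (NN : ℝ) ^ 20 * Real.exp (20 * V) +
              6561 * (8 * Real.pi ^ 2) * (NN : ℝ) ^ 20 * Real.exp (20 * V) := add_le_add g1 g2
          _ = _ := by ring

end Pool.Agent.WS
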