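import Pool.Agent.Lib_helper98.WSF.A2
import Pool.Agent.Lib_helper98.WAF.A10
import Pool.Agent.Lib_helper98.WAF.A7

/-! Block A3 (RBU) of WS: functionals on rational geodesics, uniformly. -/

namespace Pool.Agent.WS

open Complex MeasureTheory Filter Topology
open UpperHalfPlane hiding I
open scoped MatrixGroups Modular ENNReal
open Pool.Agent.WA

theorem ks_u : ∃ C E : ℝ, 0 < C ∧ 0 < E ∧ ∀ (k : ℕ), 16 ≤ k → ∀ {J : Type} [Fintype J]
    (β : J → ℚ), (∀ i j, i ≠ j → ∀ n : ℤ, β i - β j ≠ n) → ∀ (N : ℕ) (M V : ℝ), 0 ≤ V →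
    (∀ j, (β j).den ≤ N ∧ |(β j : ℝ)| ≤ 1) → ∀ Ψ : J → ℝ → ℂ, PsiB Ψ M V →
      KS k (fun j => (β j : ℝ)) Ψ ≤
        ENNReal.ofReal (36 * (∑ j, ∫ u, ‖Ψ j u‖ ^ 2) / Real.sqrt k +
          C * (M * Fintype.card J) ^ 2 * (N : ℝ) ^ E * Real.exp (E * V) / k) := by
  classical
  obtain ⟨C₁, E, hC₁, hE, hnon⟩ := nonmain_u
  refine ⟨C₁, E, hC₁, hE, ?_⟩
  intro k hk J _ β hβ N M V hV hden Ψ hΨ
  obtain ⟨C₀, hC₀⟩ : ∃ C₀ : ℝ, C₀ = C₁ * (N : ℝ) ^ E * Real.exp (E * V) := ⟨_, rfl⟩
  have hC₀0 : 0 ≤ C₀ := by rw [hC₀]; positivity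
  obtain ⟨D, hD⟩ : ∃ D : ℝ, D = ∑ p : J × J, |M| * |M| * C₀ := ⟨_, rfl⟩
  have hD0 : 0 ≤ D := by rw [hD]; positivity
  have hDe : D = C₁ * (M * Fintype.card J) ^ 2 * (N : ℝ) ^ E * Real.exp (E * V) := by
    rw [hD, Finset.sum_const, Finset.card_univ, Fintype.card_prod, nsmul_eq_mul, hC₀,
      abs_mul_abs_self]
    push_cast
    ring
  have hk0 : 1 ≤ k := by omega
  have hkR : (0 : ℝ) < k := by exact_mod_cast hk0
  have hsk : 0 < Real.sqrt k := Real.sqrt_pos.mpr hkR
  obtain ⟨S, hS⟩ : ∃ S : J → ℝ≥0∞, S = fun j => ∫⁻ u, ‖Ψ j u‖ₑ ^ 2 := ⟨_, rfl⟩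
  obtain ⟨s, hs⟩ : ∃ s : ℝ≥0∞, s = ENNReal.ofReal (9 / Real.sqrt k) := ⟨_, rfl⟩
  -- the diagonal terms
  have hI : ∑ j, ∑ j', (if ∃ g, MainI (β j : ℝ) (β j' : ℝ) g then s * (S j + S j') else 0) ≤
      2 * (s * ∑ j, S j) := by
    calc _ ≤ ∑ j, ∑ j', (if j = j' then s * (S j + S j') else 0) := by
          apply Finset.sum_le_sum
          intro j _
          apply Finset.sum_le_sum
          intro j' _
          by_cases h : j = j'
          · rw [if_pos h]
            split_ifs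
            · exact le_rfl
            · exact bot_le
          · rw [if_neg h, if_neg]
            rintro ⟨g, hg⟩
            obtain ⟨n, hn⟩ := mainI_int hg
            apply hβ j j' h n
            exact_mod_cast hn
      _ = ∑ j, s * (S j + S j) := by
          apply Finset.sum_congr rfl
          intro j _
          rw [Finset.sum_ite_eq]
          simp
      _ = 2 * (s * ∑ j, S j) := by
          rw [Finset.mul_sum, Finset.mul_sum]
          apply Finset.sum_congr rfl
          intro j _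
          ring
  -- a general counting bound
  have hcount : ∀ P : J → J → Prop, (∀ j a b, P j a → P j b → a = b) →
      ∀ f : J → ℝ≥0∞, ∀ j, ∑ j', (if P j j' then f j else 0) ≤ f j := by
    intro P hP f j
    by_cases h : ∃ a, P j a
    · obtain ⟨a, ha⟩ := h
      calc ∑ j', (if P j j' then f j else 0) ≤ ∑ j', (if a = j' then f j else 0) := by
            apply Finset.sum_le_sum
            intro j' _
            by_cases h' : P j j'
            · rw [if_pos h', if_pos (hP j a j' ha h')]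
            · rw [if_neg h']
              exact bot_le
        _ = f j := by
            rw [Finset.sum_ite_eq]
            simp
    · have : ∀ j' ∈ Finset.univ, (if P j j' then f j else 0) = 0 := by
        intro j' _
        rw [if_neg]
        exact fun hh => h ⟨j', hh⟩
      rw [Finset.sum_eq_zero this]
      exact bot_le
  have hR : ∑ j, ∑ j', (if ∃ g, MainR (β j : ℝ) (β j' : ℝ) g then s * (S j + S j') else 0) ≤
      2 * (s * ∑ j, S j) := by
    have hr1 : ∀ j a b : J, (∃ g, MainR (β j : ℝ) (β a : ℝ) g) →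
        (∃ g, MainR (β j : ℝ) (β b : ℝ) g) → a = b := by
      rintro j a b ⟨g, hg⟩ ⟨g', hg'⟩
      by_contra hab
      obtain ⟨n, hn⟩ := mainR_right hg hg'
      apply hβ a b hab n
      exact_mod_cast hn
    have hr2 : ∀ j a b : J, (∃ g, MainR (β a : ℝ) (β j : ℝ) g) →
        (∃ g, MainR (β b : ℝ) (β j : ℝ) g) → a = b := by
      rintro j a b ⟨g, hg⟩ ⟨g', hg'⟩
      by_contra hab
      obtain ⟨n, hn⟩ := mainR_left hg hg'
      apply hβ a b hab n
      exact_mod_cast hn
    calc _ = ∑ j, ∑ j', (if ∃ g, MainR (β j : ℝ) (β j' : ℝ) g then s * S j else 0) +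
          ∑ j, ∑ j', (if ∃ g, MainR (β j : ℝ) (β j' : ℝ) g then s * S j' else 0) := by
          rw [← Finset.sum_add_distrib]
          apply Finset.sum_congr rfl
          intro j _
          rw [← Finset.sum_add_distrib]
          apply Finset.sum_congr rfl
          intro j' _
          split_ifs
          · ring
          · simp
      _ ≤ ∑ j, s * S j + ∑ j', s * S j' := by
          apply add_le_add
          · apply Finset.sum_le_sum
            intro j _
            exact hcount (fun j j' => ∃ g, MainR (β j : ℝ) (β j' : ℝ) g) hr1 (fun j => s * S j) j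
          · rw [Finset.sum_comm]
            apply Finset.sum_le_sum
            intro j' _
            exact hcount (fun j' j => ∃ g, MainR (β j : ℝ) (β j' : ℝ) g) hr2 (fun j => s * S j) j'
      _ = 2 * (s * ∑ j, S j) := by
          rw [Finset.mul_sum]
          ring
  have hSreal : ∀ j, S j = ENNReal.ofReal (∫ u, ‖Ψ j u‖ ^ 2) := by
    intro j
    rw [hS]
    exact A10_sq (hΨ.meas j) (hΨ.bdd j) (hΨ.supp j)
  have hsum : ∑ j, S j = ENNReal.ofReal (∑ j, ∫ u, ‖Ψ j u‖ ^ 2) := by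
    rw [ENNReal.ofReal_sum_of_nonneg (fun j _ => integral_nonneg (fun u => by positivity))]
    exact Finset.sum_congr rfl (fun j _ => hSreal j)
  have hT0 : 0 ≤ ∑ j, ∫ u, ‖Ψ j u‖ ^ 2 :=
    Finset.sum_nonneg (fun j _ => integral_nonneg (fun u => by positivity))
  have hrest : ∑ _j : J, ∑ _j' : J, ENNReal.ofReal M * ENNReal.ofReal M * ENNReal.ofReal (C₀ / k) ≤
      ENNReal.ofReal (D / k) := by
    calc _ ≤ ∑ _j : J, ∑ _j' : J, ENNReal.ofReal (|M| * |M| * C₀ / k) := by
          apply Finset.sum_le_sum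
          intro j _
          apply Finset.sum_le_sum
          intro j' _
          rw [mul_div_assoc, ENNReal.ofReal_mul (by positivity), ENNReal.ofReal_mul (abs_nonneg _)]
          gcongr
          · exact le_abs_self M
          · exact le_abs_self M
      _ = ENNReal.ofReal (D / k) := by
          rw [hD, Finset.sum_div, Fintype.sum_prod_type,
            ENNReal.ofReal_sum_of_nonneg (fun j _ => Finset.sum_nonneg (fun j' _ => by positivity))]
          apply Finset.sum_congr rfl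
          intro j _
          rw [ENNReal.ofReal_sum_of_nonneg (fun j' _ => by positivity)]
  unfold KS
  calc _ ≤ ∑ j, ∑ j', ((if ∃ g, MainI (β j : ℝ) (β j' : ℝ) g then s * (S j + S j') else 0) +
        (if ∃ g, MainR (β j : ℝ) (β j' : ℝ) g then s * (S j + S j') else 0) +
        ENNReal.ofReal M * ENNReal.ofReal M * ENNReal.ofReal (C₀ / k)) := by
        apply Finset.sum_le_sum
        intro j _
        apply Finset.sum_le_sum
        intro j' _
        have hh := hnon (β j) (β j') N V k hk hV (hden j).1 (hden j').1 (hden j).2 (hden j').2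
        rw [← hC₀] at hh
        have := A10_pair (J := J) (β j) (β j') V C₀ k hh hk0 hΨ j j'
        rw [hS, hs]
        convert this using 3
    _ = (∑ j, ∑ j', (if ∃ g, MainI (β j : ℝ) (β j' : ℝ) g then s * (S j + S j') else 0)) +
        (∑ j, ∑ j', (if ∃ g, MainR (β j : ℝ) (β j' : ℝ) g then s * (S j + S j') else 0)) +
        ∑ j, ∑ j', ENNReal.ofReal M * ENNReal.ofReal M * ENNReal.ofReal (C₀ / k) := by
        simp_rw [Finset.sum_add_distrib]
    _ ≤ 2 * (s * ∑ j, S j) + 2 * (s * ∑ j, S j) + ENNReal.ofReal (D / k) :=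
        add_le_add (add_le_add hI hR) hrest
    _ = ENNReal.ofReal (36 * (∑ j, ∫ u, ‖Ψ j u‖ ^ 2) / Real.sqrt k + D / k) := by
        rw [hsum, hs, ← ENNReal.ofReal_mul (by positivity)]
        have h2 : (2 : ℝ≥0∞) = ENNReal.ofReal 2 := by simp
        rw [h2, ← ENNReal.ofReal_mul (by norm_num), ← ENNReal.ofReal_add (by positivity)
          (by positivity), ← ENNReal.ofReal_add (by positivity) (by positivity)]
        congr 1
        ring
    _ = _ := by rw [hDe]

theorem rb_u : ∃ C E : ℝ, 0 < C ∧ 0 < E ∧ ∀ (k : ℕ), 16 ≤ k → ∀ {J : Type} [Fintype J]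
    (β : J → ℚ), (∀ i j, i ≠ j → ∀ n : ℤ, β i - β j ≠ n) → ∀ (N : ℕ) (M V : ℝ), 0 ≤ V →
    (∀ j, (β j).den ≤ N ∧ |(β j : ℝ)| ≤ 1) → ∀ Ψ : J → ℝ → ℂ, PsiB Ψ M V →
      ∀ b, CForm k b → ‖Lf k (fun j => (β j : ℝ)) Ψ b‖ ^ 2 ≤
        (Real.sqrt k * (2 * ∑ j, ∫ u, ‖Ψ j u‖ ^ 2) +
          C * (M * Fintype.card J) ^ 2 * (N : ℝ) ^ E * Real.exp (E * V)) * pn k b := by
  obtain ⟨C, E, hC, hE, hks⟩ := ks_u
  refine ⟨C, E, hC, hE, ?_⟩
  intro k hk J _ β hβ N M V hV hden Ψ hΨ b hb
  have h1 := hks k hk β hβ N M V hV hden Ψ hΨ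
  have h2 := point_bound hk (fun j => (β j : ℝ)) hΨ hb
  obtain ⟨T, hT⟩ : ∃ T : ℝ, T = ∑ j, ∫ u, ‖Ψ j u‖ ^ 2 := ⟨_, rfl⟩
  obtain ⟨D, hD⟩ : ∃ D : ℝ, D = C * (M * Fintype.card J) ^ 2 * (N : ℝ) ^ E * Real.exp (E * V) :=
    ⟨_, rfl⟩
  rw [← hT, ← hD] at h1
  rw [← hT, ← hD]
  have hT0 : 0 ≤ T := by
    rw [hT]
    exact Finset.sum_nonneg fun j _ => integral_nonneg fun u => by positivity
  have hD0 : 0 ≤ D := by rw [hD]; positivity
  have hpn : 0 ≤ pn k b := pn_nonneg k b
  have hk16 : (16 : ℝ) ≤ k := by exact_mod_cast hk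
  have hk0 : (0 : ℝ) < k := by linarith
  have hsk : 0 < Real.sqrt k := Real.sqrt_pos.mpr hk0
  have hss : Real.sqrt k * Real.sqrt k = k := Real.mul_self_sqrt hk0.le
  have hpi : 3 < Real.pi := Real.pi_gt_three
  have h3 : ENNReal.ofReal (‖Lf k (fun j => (β j : ℝ)) Ψ b‖ ^ 2) ≤
      ENNReal.ofReal (((k : ℝ) - 1) / (8 * Real.pi) * pn k b * (36 * T / Real.sqrt k + D / k)) := by
    refine h2.trans ?_
    rw [ENNReal.ofReal_mul (p := ((k : ℝ) - 1) / (8 * Real.pi) * pn k b)]
    · gcongr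
    · have : 0 ≤ (k : ℝ) - 1 := by linarith
      positivity
  have h4 : 0 ≤ ((k : ℝ) - 1) / (8 * Real.pi) * pn k b * (36 * T / Real.sqrt k + D / k) := by
    have : 0 ≤ (k : ℝ) - 1 := by linarith
    positivity
  rw [ENNReal.ofReal_le_ofReal_iff h4] at h3
  refine h3.trans ?_
  have h5 : ((k : ℝ) - 1) / (8 * Real.pi) * (36 * T / Real.sqrt k + D / k) ≤
      Real.sqrt k * (2 * T) + D := by
    have h6 : ((k : ℝ) - 1) / (8 * Real.pi) ≤ k / 24 := by
      rw [div_le_div_iff₀ (by positivity) (by norm_num)]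
      nlinarith
    have h7 : 0 ≤ 36 * T / Real.sqrt k + D / k := by positivity
    calc ((k : ℝ) - 1) / (8 * Real.pi) * (36 * T / Real.sqrt k + D / k)
        ≤ k / 24 * (36 * T / Real.sqrt k + D / k) := mul_le_mul_of_nonneg_right h6 h7
      _ = 36 / 24 * (Real.sqrt k * T) + D / 24 := by
          have e1 : (k : ℝ) * (36 * T / Real.sqrt k) = 36 * (Real.sqrt k * T) := by
            have e0 : (k : ℝ) / Real.sqrt k = Real.sqrt k := Real.div_sqrt
            calc (k : ℝ) * (36 * T / Real.sqrt k) = 36 * ((k / Real.sqrt k) * T) := by ring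
              _ = _ := by rw [e0]
          have e2 : (k : ℝ) * (D / k) = D := by field_simp
          calc (k : ℝ) / 24 * (36 * T / Real.sqrt k + D / k) =
                (k * (36 * T / Real.sqrt k) + k * (D / k)) / 24 := by ring
            _ = _ := by rw [e1, e2]; ring
      _ ≤ _ := by
          have : 0 ≤ Real.sqrt k * T := by positivity
          linarith
  calc ((k : ℝ) - 1) / (8 * Real.pi) * pn k b * (36 * T / Real.sqrt k + D / k)
      = (((k : ℝ) - 1) / (8 * Real.pi) * (36 * T / Real.sqrt k + D / k)) * pn k b := by ring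
    _ ≤ _ := mul_le_mul_of_nonneg_right h5 hpn

end Pool.Agent.WS
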