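import Pool.Agent.Lib_helper98.WS.Defs
import Pool.Agent.Lib_helper98.WAF.B2
import Pool.Agent.Lib_helper98.WAF.B3
import Pool.Agent.Lib_helper98.WAF.B4

/-!
# Block C1 (CFS): sums of coefficients
-/

namespace Pool.Agent.WS

open Complex MeasureTheory Filter Topology
open Pool.Agent.GL2 (qs HData FD)
open Pool.Agent.WA (CForm pn geo Lf gd gk omk om Fam rho)

theorem coefsum : ∃ k₀ : ℕ, ∀ k : ℕ, k₀ ≤ k → ∀ {ι : Type} [Fintype ι] (F : Fam k ι) (N : ℕ),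
    8 * Real.pi * N ≤ k → ∀ c : ℕ → ℂ,
    ∑ i, om k (F.a i) * ‖∑ n ∈ Finset.Icc 1 N, c n * (SEL.lam k (F.a i) n : ℂ)‖ ^ 2 ≤
      2 * ∑ n ∈ Finset.Icc 1 N, ‖c n‖ ^ 2 := by
  classical
  obtain ⟨k₁, h1⟩ := WA.rho_low
  refine ⟨k₁ + 2, fun k hk ι _ F N hN c => ?_⟩
  have hk2 : 2 ≤ k := by omega
  have homk := WA.omk_pos hk2
  set S : ℝ := ∑ n ∈ Finset.Icc 1 N, ‖c n‖ ^ 2 with hS
  have hS0 : 0 ≤ S := Finset.sum_nonneg fun _ _ => by positivity
  -- the coefficients of the functional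
  set t : ℕ → ℂ := fun n => if n ∈ Finset.Icc 1 N then
    c n * (((n : ℝ) ^ (-(((k : ℝ) - 1) / 2)) : ℝ) : ℂ) else 0 with ht
  have hL : ∀ b : ℕ → ℂ, ∑' n : ℕ, b n * t n =
      ∑ n ∈ Finset.Icc 1 N, c n * (((n : ℝ) ^ (-(((k : ℝ) - 1) / 2)) : ℝ) : ℂ) * b n := by
    intro b
    rw [tsum_eq_sum (s := Finset.Icc 1 N)]
    · refine Finset.sum_congr rfl fun n hn => ?_
      simp only [ht, if_pos hn]
      ring
    · intro n hn
      simp only [ht, if_neg hn, mul_zero]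
  have hterm : ∀ n ∈ Finset.Icc 1 N, ‖t n‖ ^ 2 / rho k n ≤ 2 / omk k * ‖c n‖ ^ 2 := by
    intro n hn
    have hn1 : 1 ≤ n := (Finset.mem_Icc.1 hn).1
    have hnN : n ≤ N := (Finset.mem_Icc.1 hn).2
    have hn0 : (0 : ℝ) < n := by exact_mod_cast hn1
    have hpi := Real.pi_pos
    have hle : 8 * Real.pi * n ≤ k := by
      refine le_trans ?_ hN
      have : (n : ℝ) ≤ N := by exact_mod_cast hnN
      nlinarith
    have h2 := h1 k (by omega) n hn1 hle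
    have h3 : 0 < omk k / (2 * (n : ℝ) ^ (k - 1)) := by positivity
    have h4 : ‖t n‖ ^ 2 = ‖c n‖ ^ 2 * ((n : ℝ) ^ (k - 1))⁻¹ := by
      simp only [ht, if_pos hn]
      rw [norm_mul, mul_pow, Complex.norm_real, Real.norm_of_nonneg (by positivity)]
      congr 1
      rw [← Real.rpow_natCast, ← Real.rpow_mul hn0.le, ← Real.rpow_natCast, ← Real.rpow_neg hn0.le]
      congr 1
      rw [Nat.cast_sub (by omega)]
      push_cast
      ring
    calc ‖t n‖ ^ 2 / rho k n ≤ ‖t n‖ ^ 2 / (omk k / (2 * (n : ℝ) ^ (k - 1))) := by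
          gcongr
      _ = 2 / omk k * ‖c n‖ ^ 2 := by
          rw [h4]
          field_simp
  have hsupp : ∀ n ∉ Finset.Icc 1 N, ‖t n‖ ^ 2 / rho k n = 0 := by
    intro n hn
    simp only [ht, if_neg hn]
    simp
  have hsum : Summable (fun n : ℕ => ‖t n‖ ^ 2 / rho k n) := summable_of_ne_finset_zero hsupp
  have htot : ∑' n : ℕ, ‖t n‖ ^ 2 / rho k n ≤ 2 / omk k * S := by
    rw [tsum_eq_sum hsupp, hS, Finset.mul_sum]
    exact Finset.sum_le_sum hterm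
  set M : ℝ := 2 / omk k * S with hM
  have hM0 : 0 ≤ M := by positivity
  have hb := WA.bessel hk2 F (fun b => ∑' n : ℕ, b n * t n) (by
    intro d
    simp only [hL]
    simp only [Finset.mul_sum]
    rw [Finset.sum_comm]
    refine Finset.sum_congr rfl fun i _ => Finset.sum_congr rfl fun n _ => ?_
    ring) hM0 (by
    intro b hb
    obtain ⟨-, h5⟩ := WA.coef_bound hk2 hb hsum
    exact h5.trans (mul_le_mul_of_nonneg_right htot (WA.pn_nonneg k b)))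
  have h6 : ∀ i, om k (F.a i) * ‖∑ n ∈ Finset.Icc 1 N, c n * (SEL.lam k (F.a i) n : ℂ)‖ ^ 2 =
      omk k * (‖∑' n : ℕ, F.c i n * t n‖ ^ 2 / pn k (F.c i)) := by
    intro i
    rw [hL]
    have h7 : ∑ n ∈ Finset.Icc 1 N, c n * (SEL.lam k (F.a i) n : ℂ) =
        ∑ n ∈ Finset.Icc 1 N, c n * (((n : ℝ) ^ (-(((k : ℝ) - 1) / 2)) : ℝ) : ℂ) * F.c i n := by
      refine Finset.sum_congr rfl fun n _ => ?_
      unfold SEL.lam WA.Fam.c
      push_cast
      ring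
    rw [h7]
    unfold om
    have h8 : (fun n => (F.a i n : ℂ)) = F.c i := rfl
    rw [h8]
    ring
  simp only [h6]
  rw [← Finset.mul_sum]
  calc omk k * ∑ i, ‖∑' n : ℕ, F.c i n * t n‖ ^ 2 / pn k (F.c i) ≤ omk k * M :=
        mul_le_mul_of_nonneg_left hb homk.le
    _ = 2 * S := by
        rw [hM]
        field_simp

theorem om_total : ∃ k₀ : ℕ, ∀ k : ℕ, k₀ ≤ k → ∀ {ι : Type} [Fintype ι] (F : Fam k ι),
    (∀ i, 0 ≤ om k (F.a i)) ∧ ∑ i, om k (F.a i) ≤ 2 := by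
  obtain ⟨k₁, h1⟩ := coefsum
  refine ⟨k₁ + 26, fun k hk ι _ F => ?_⟩
  have hk2 : 2 ≤ k := by omega
  refine ⟨fun i => (WA.om_pos hk2 (F.data i)).le, ?_⟩
  have hpi : Real.pi ≤ 3.15 := Real.pi_lt_d2.le
  have hkr : (26 : ℝ) ≤ k := by exact_mod_cast (by omega : 26 ≤ k)
  have h2 := h1 k (by omega) F 1 (by push_cast; linarith) (fun _ => 1)
  have h3 : ∀ i, SEL.lam k (F.a i) 1 = 1 := by
    intro i
    unfold SEL.lam
    rw [(F.data i).one]
    simp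
  simpa [h3] using h2

end Pool.Agent.WS
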