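import Pool.Agent.Lib_helper98.WSF.H1
import Pool.Agent.Lib_helper68.GL2.HP
import Pool.Agent.Lib_helper68.SEL.Z1

/-! WS block T1 (TRV): trivial bounds for the eigenvalues. Cites H1 (lam_hs). -/

namespace Pool.Agent.WS

open Complex MeasureTheory Filter Topology
open UpperHalfPlane hiding I
open scoped MatrixGroups Modular ENNReal
open Pool.Agent.GL2 (qs HData FD)
open Pool.Agent.WA (CForm pn geo Lf gd gk omk om Fam rho PsiB KS MainI MainR vz ch)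
open Pool.Agent.SEL (NL Adm)
open Pool.Agent.SQS (hat)

theorem lam_p_triv {k : ℕ} {a : ℕ → ℝ} (H : HData k a) {p : ℕ} (hp : p.Prime) :
    |SEL.lam k a p| ≤ √p + 1 / √p := by
  have h1 := (GL2.abs_ap_lt_pr H hp).le
  have hpR : (0 : ℝ) < p := by exact_mod_cast hp.pos
  have h2 : (0 : ℝ) < (p : ℝ) ^ (-(((k : ℝ) - 1) / 2)) := Real.rpow_pos_of_pos hpR _
  rw [SEL.lam, abs_mul, abs_of_pos h2]
  have e1 : (p : ℝ) ^ ((k : ℝ) / 2) * (p : ℝ) ^ (-(((k : ℝ) - 1) / 2)) = √p := by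
    rw [← Real.rpow_add hpR, Real.sqrt_eq_rpow]
    congr 1
    ring
  have e2 : (p : ℝ) ^ ((k : ℝ) / 2 - 1) * (p : ℝ) ^ (-(((k : ℝ) - 1) / 2)) = 1 / √p := by
    rw [← Real.rpow_add hpR, Real.sqrt_eq_rpow, one_div, ← Real.rpow_neg hpR.le]
    congr 1
    ring
  calc |a p| * (p : ℝ) ^ (-(((k : ℝ) - 1) / 2))
      ≤ ((p : ℝ) ^ ((k : ℝ) / 2) + (p : ℝ) ^ ((k : ℝ) / 2 - 1)) *
        (p : ℝ) ^ (-(((k : ℝ) - 1) / 2)) := mul_le_mul_of_nonneg_right h1 h2.le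
    _ = √p + 1 / √p := by rw [add_mul, e1, e2]

theorem t1_rt {x c : ℝ} (hc : 1 ≤ c) (hx : |x| ≤ c + 1 / c) : ‖SEL.rt x‖ ≤ c := by
  obtain ⟨h1, h2, -, h4⟩ := SEL.sel_Z1_rt_cases x
  have hne := SEL.sel_Z1_rt_ne x
  rcases h4 with h | h
  · -- modulus one
    have h5 : ‖SEL.rt x‖ = ‖SEL.rt x‖⁻¹ := by
      have := congrArg norm h
      rwa [Complex.norm_conj, norm_inv] at this
    have h6 : ‖SEL.rt x‖ * ‖SEL.rt x‖ = 1 := by
      calc ‖SEL.rt x‖ * ‖SEL.rt x‖ = ‖SEL.rt x‖⁻¹ * ‖SEL.rt x‖ := by rw [← h5]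
        _ = 1 := inv_mul_cancel₀ (norm_ne_zero_iff.mpr hne)
    nlinarith
  · -- real
    obtain ⟨r, hr⟩ := Complex.conj_eq_iff_real.mp h
    rw [hr] at h1 h2 hne ⊢
    have hr0 : r ≠ 0 := by exact_mod_cast hne
    have h5 : r + r⁻¹ = x := by exact_mod_cast h1
    rw [Complex.norm_real, Real.norm_eq_abs] at h2 ⊢
    have hrp : 0 < |r| := abs_pos.mpr hr0
    have h6 : |x| = |r| + 1 / |r| := by
      rw [← h5]
      rcases lt_or_gt_of_ne hr0 with h | h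
      · rw [abs_of_neg h, abs_of_neg (add_neg h (inv_lt_zero.mpr h))]
        field_simp
        ring
      · rw [abs_of_pos h, abs_of_pos (by positivity)]
        field_simp
    rw [h6] at hx
    by_contra hcon
    push Not at hcon
    -- t + 1/t is increasing on t ≥ 1
    have h7 : |r| + 1 / |r| - (c + 1 / c) = (|r| - c) * (1 - 1 / (|r| * c)) := by
      field_simp
      ring
    have h8 : 1 / (|r| * c) < 1 := by
      rw [div_lt_one (by positivity)]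
      nlinarith
    have h9 : 0 < (|r| - c) * (1 - 1 / (|r| * c)) := mul_pos (by linarith) (by linarith)
    linarith

theorem t1_psi (n : ℕ) (hn : 0 < n) :
    (n : ℝ) ^ (3 / 2 : ℝ) = n.factorization.prod fun p i => ((p : ℝ) ^ (3 / 2 : ℝ)) ^ i := by
  conv_lhs => rw [← Nat.prod_factorization_pow_eq_self hn.ne']
  rw [Finsupp.prod, Finsupp.prod, Nat.cast_prod, ← Real.finsetProd_rpow _ _ fun i _ => by positivity]
  refine Finset.prod_congr rfl fun p _ => ?_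
  rw [Nat.cast_pow, ← Real.rpow_natCast, ← Real.rpow_mul (by positivity), mul_comm,
    Real.rpow_mul (by positivity), Real.rpow_natCast]

theorem t1_loc {k : ℕ} {a : ℕ → ℝ} (H : HData k a) {p : ℕ} (hp : p.Prime) (i : ℕ) {y : ℝ}
    (hy : |y| ≤ (i + 1) * ‖SEL.rt (SEL.lam k a p)‖ ^ i) : |y| ≤ ((p : ℝ) ^ (3 / 2 : ℝ)) ^ i := by
  have hpR : (2 : ℝ) ≤ p := by exact_mod_cast hp.two_le
  have hs : (1 : ℝ) ≤ √p := by
    rw [Real.one_le_sqrt]
    linarith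
  have h1 : ‖SEL.rt (SEL.lam k a p)‖ ≤ √p := t1_rt hs (lam_p_triv H hp)
  have h2 : (p : ℝ) ^ (3 / 2 : ℝ) = p * √p := by
    rw [Real.sqrt_eq_rpow, show (3 / 2 : ℝ) = 1 + 1 / 2 by norm_num,
      Real.rpow_add (by linarith), Real.rpow_one]
  have h3 : ((i : ℝ) + 1) ≤ (p : ℝ) ^ i := by
    have h4 : (1 : ℝ) + i * 1 ≤ (1 + 1) ^ i := one_add_mul_le_pow (by norm_num) i
    calc (i : ℝ) + 1 = 1 + i * 1 := by ring
      _ ≤ (1 + 1) ^ i := h4
      _ ≤ (p : ℝ) ^ i := pow_le_pow_left₀ (by norm_num) (by linarith) i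
  calc |y| ≤ (i + 1) * ‖SEL.rt (SEL.lam k a p)‖ ^ i := hy
    _ ≤ (p : ℝ) ^ i * (√p) ^ i :=
        mul_le_mul h3 (pow_le_pow_left₀ (norm_nonneg _) h1 i) (by positivity) (by positivity)
    _ = ((p : ℝ) ^ (3 / 2 : ℝ)) ^ i := by rw [h2, mul_pow]

theorem triv {k : ℕ} {a : ℕ → ℝ} (H : HData k a) {n : ℕ} (hn : 0 < n) :
    |SEL.lam k a n| ≤ (n : ℝ) ^ (3 / 2 : ℝ) ∧ |hs (SEL.lam k a) n| ≤ (n : ℝ) ^ (3 / 2 : ℝ) ∧
      |al (SEL.lam k a) n| ≤ (n : ℝ) ^ (3 / 2 : ℝ) := by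
  have h1 : |hs (SEL.lam k a) n| ≤ (n : ℝ) ^ (3 / 2 : ℝ) := by
    rw [t1_psi n hn, hs, Finsupp.prod, Finsupp.prod, Finset.abs_prod]
    refine Finset.prod_le_prod (fun p _ => abs_nonneg _) fun p hp => ?_
    exact t1_loc H (Nat.prime_of_mem_primeFactors hp) _ (SEL.Uc_le_pr _ _)
  have h2 : |al (SEL.lam k a) n| ≤ (n : ℝ) ^ (3 / 2 : ℝ) := by
    rw [t1_psi n hn, al, Finsupp.prod, Finsupp.prod, Finset.abs_prod]
    refine Finset.prod_le_prod (fun p _ => abs_nonneg _) fun p hp => ?_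
    exact t1_loc H (Nat.prime_of_mem_primeFactors hp) _ (SEL.aloc_le_pr _ _)
  exact ⟨by rw [lam_hs H hn]; exact h1, h1, h2⟩

end Pool.Agent.WS
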