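import Pool.Agent.Lib_helper98.WSF.G1
import Pool.Agent.Lib_helper98.WSF.T1
import Pool.Agent.Lib_helper98.WAF.B1a
import Pool.Agent.Lib_helper98.WAF.B4
import Pool.Agent.Lib_helper98.WAF.B5a

/-! Block S2 (STW): the mollified main term (helper50). -/

namespace Pool.Agent.WS

open Complex MeasureTheory Filter Topology
open scoped ENNReal
open Pool.Agent.GL2 (qs HData FD)
open Pool.Agent.WA (CForm pn geo Lf gd gk omk om Fam rho PsiB KS MainI MainR vz ch)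
open Pool.Agent.SEL (NL Adm)
open Pool.Agent.SQS (hat)

/-- reindexing -/
theorem s2_reindex (Y N : ℕ) (hYN : Y < N) (F : ℕ → ℕ → ℕ → ℂ) :
    ∑ m ∈ Finset.Ico 1 N, ∑ l ∈ Finset.Ico 1 N, ∑ n ∈ Finset.Icc 1 (Y / (m * l)), F m l n =
      ∑ M ∈ Finset.Icc 1 Y, ∑ v ∈ M.divisorsAntidiagonal, ∑ w ∈ v.2.divisorsAntidiagonal,
        F w.1 w.2 v.1 := by
  simp only [Finset.sum_sigma']
  refine Finset.sum_bij' (fun x _ => ⟨x.2.2 * (x.1 * x.2.1), ⟨(x.2.2, x.1 * x.2.1),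
    (x.1, x.2.1)⟩⟩) (fun x _ => ⟨x.2.2.1, ⟨x.2.2.2, x.2.1.1⟩⟩) ?_ ?_ ?_ ?_ ?_
  · rintro ⟨m, l, n⟩ hx
    simp only [Finset.mem_sigma, Finset.mem_Ico, Finset.mem_Icc] at hx
    obtain ⟨⟨hm1, hm2⟩, ⟨hl1, hl2⟩, hn1, hn2⟩ := hx
    have hml : 0 < m * l := Nat.mul_pos hm1 hl1
    have h1 : n * (m * l) ≤ Y := (Nat.le_div_iff_mul_le hml).mp hn2
    simp only [Finset.mem_sigma, Finset.mem_Icc, Nat.mem_divisorsAntidiagonal]
    have h2 : 0 < n * (m * l) := Nat.mul_pos hn1 hml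
    exact ⟨⟨h2, h1⟩, ⟨trivial, h2.ne'⟩, trivial, hml.ne'⟩
  · rintro ⟨M, ⟨n, r⟩, ⟨m, l⟩⟩ hx
    simp only [Finset.mem_sigma, Finset.mem_Icc, Nat.mem_divisorsAntidiagonal] at hx
    obtain ⟨⟨hM1, hM2⟩, ⟨hv, hv0⟩, hw, hw0⟩ := hx
    subst hw
    subst hv
    have hn : 0 < n := Nat.pos_of_ne_zero (by rintro rfl; simp at hv0)
    have hm : 0 < m := Nat.pos_of_ne_zero (by rintro rfl; simp at hw0)
    have hl : 0 < l := Nat.pos_of_ne_zero (by rintro rfl; simp at hw0)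
    have hml : 0 < m * l := Nat.mul_pos hm hl
    simp only [Finset.mem_sigma, Finset.mem_Ico, Finset.mem_Icc]
    have h1 : m * l ≤ n * (m * l) := Nat.le_mul_of_pos_left _ hn
    have h2 : m ≤ m * l := Nat.le_mul_of_pos_right _ hl
    have h3 : l ≤ m * l := Nat.le_mul_of_pos_left _ hm
    exact ⟨⟨hm, by omega⟩, ⟨hl, by omega⟩, hn, (Nat.le_div_iff_mul_le hml).mpr hM2⟩
  · rintro ⟨m, l, n⟩ hx
    rfl
  · rintro ⟨M, ⟨n, r⟩, ⟨m, l⟩⟩ hx
    simp only [Finset.mem_sigma, Finset.mem_Icc, Nat.mem_divisorsAntidiagonal] at hx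
    obtain ⟨⟨hM1, hM2⟩, ⟨hv, hv0⟩, hw, hw0⟩ := hx
    subst hw
    subst hv
    rfl
  · rintro ⟨m, l, n⟩ hx
    rfl

theorem s2_gd (k : ℕ) {n m l : ℕ} (hm : 1 ≤ m) (hl : 1 ≤ l) (u : ℝ) :
    gd k n (u + (Real.log m + Real.log l)) =
      ((m : ℝ) * l) ^ ((k : ℝ) / 2) * gd k (n * (m * l)) u := by
  have hm0 : (0 : ℝ) < m := by exact_mod_cast hm
  have hl0 : (0 : ℝ) < l := by exact_mod_cast hl
  unfold Pool.Agent.WA.gd
  rw [Real.rpow_def_of_pos (mul_pos hm0 hl0), Real.log_mul hm0.ne' hl0.ne', ← Real.exp_add,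
    Real.exp_add u, Real.exp_add (Real.log m), Real.exp_log hm0, Real.exp_log hl0]
  congr 1
  push_cast
  ring

theorem s2_a {k : ℕ} {a : ℕ → ℝ} {n : ℕ} (hn : 1 ≤ n) :
    a n = SEL.lam k a n * (n : ℝ) ^ (((k : ℝ) - 1) / 2) := by
  have hn0 : (0 : ℝ) < n := by exact_mod_cast hn
  unfold Pool.Agent.SEL.lam
  rw [mul_assoc, ← Real.rpow_add hn0]
  simp

theorem s2_term {k : ℕ} {a : ℕ → ℝ} (A : ℝ) {n m l : ℕ} (hn : 1 ≤ n) (hm : 1 ≤ m) (hl : 1 ≤ l)
    (u : ℝ) :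
    A / (√m * √l) * (a n * gd k n (u + (Real.log m + Real.log l))) =
      A * SEL.lam k a n * (((n * (m * l) : ℕ) : ℝ) ^ (((k : ℝ) - 1) / 2) *
        gd k (n * (m * l)) u) := by
  have hm0 : (0 : ℝ) < m := by exact_mod_cast hm
  have hl0 : (0 : ℝ) < l := by exact_mod_cast hl
  have hn0 : (0 : ℝ) < n := by exact_mod_cast hn
  rw [s2_gd k hm hl, s2_a (k := k) (a := a) hn]
  have h1 : ((n * (m * l) : ℕ) : ℝ) ^ (((k : ℝ) - 1) / 2) =
      (n : ℝ) ^ (((k : ℝ) - 1) / 2) * (((m : ℝ) * l) ^ ((k : ℝ) / 2) / (√m * √l)) := by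
    push_cast
    rw [Real.mul_rpow hn0.le (by positivity)]
    congr 1
    rw [eq_div_iff (by positivity), ← Real.sqrt_mul hm0.le, Real.sqrt_eq_rpow,
      ← Real.rpow_add (by positivity)]
    congr 1
    ring
  rw [h1]
  field_simp

/-- the terms with `nml ≤ e^{L/2}` -/
theorem s2_small {k : ℕ} {a : ℕ → ℝ} (H : HData k a) {Θ : ℝ → ℝ}
    (h0 : ∀ x, 0 ≤ x → x ≤ 1 / 2 → Θ x = 1) {L : ℝ} (hL : 0 < L) (u : ℝ) :
    ∑ m ∈ Finset.Ico 1 (NL L), ∑ l ∈ Finset.Ico 1 (NL L),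
      ((be k a L Θ m * be k a L Θ l / (√m * √l) : ℝ) : ℂ) *
        ∑ n ∈ Finset.Icc 1 (⌊Real.exp (L / 2)⌋₊ / (m * l)),
          (a n : ℂ) * (gd k n (u + (Real.log m + Real.log l)) : ℂ) = (gd k 1 u : ℂ) := by
  set Y := ⌊Real.exp (L / 2)⌋₊ with hY
  have hY1 : (Y : ℝ) ≤ Real.exp (L / 2) := Nat.floor_le (Real.exp_pos _).le
  have hYN : Y < NL L := by
    unfold Pool.Agent.SEL.NL
    rw [Nat.lt_ceil]
    exact hY1.trans_lt (Real.exp_lt_exp.mpr (by linarith))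
  have hY0 : 1 ≤ Y := by
    rw [hY]
    exact Nat.one_le_floor_iff _ |>.mpr (Real.one_le_exp (by linarith))
  simp only [Finset.mul_sum]
  rw [s2_reindex Y (NL L) hYN (fun m l n => ((be k a L Θ m * be k a L Θ l / (√m * √l) : ℝ) : ℂ) *
        ((a n : ℂ) * (gd k n (u + (Real.log m + Real.log l)) : ℂ)))]
  have hΘ1 : ∀ m : ℕ, 1 ≤ m → m ≤ Y → Θ (Real.log m / L) = 1 := by
    intro m hm1 hm2
    apply h0
    · have : 0 ≤ Real.log m := Real.log_nonneg (by exact_mod_cast hm1)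
      positivity
    · rw [div_le_iff₀ hL]
      have h1 : (m : ℝ) ≤ Real.exp (L / 2) := le_trans (by exact_mod_cast hm2) hY1
      have h2 : Real.log m ≤ L / 2 := by
        rw [Real.log_le_iff_le_exp (by exact_mod_cast hm1)]
        exact h1
      linarith
  have hM : ∀ M ∈ Finset.Icc 1 Y, ∑ v ∈ M.divisorsAntidiagonal,
      ∑ w ∈ v.2.divisorsAntidiagonal,
        ((be k a L Θ w.1 * be k a L Θ w.2 / (√w.1 * √w.2) : ℝ) : ℂ) *
        ((a v.1 : ℂ) * (gd k v.1 (u + (Real.log w.1 + Real.log w.2)) : ℂ)) =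
      if M = 1 then (gd k 1 u : ℂ) else 0 := by
    intro M hM
    rw [Finset.mem_Icc] at hM
    have h1 : ∑ v ∈ M.divisorsAntidiagonal, ∑ w ∈ v.2.divisorsAntidiagonal,
        ((be k a L Θ w.1 * be k a L Θ w.2 / (√w.1 * √w.2) : ℝ) : ℂ) *
        ((a v.1 : ℂ) * (gd k v.1 (u + (Real.log w.1 + Real.log w.2)) : ℂ)) =
        ∑ v ∈ M.divisorsAntidiagonal, ∑ w ∈ v.2.divisorsAntidiagonal,
        ((hs (SEL.lam k a) v.1 * (al (SEL.lam k a) w.1 * al (SEL.lam k a) w.2) *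
          ((M : ℝ) ^ (((k : ℝ) - 1) / 2) * gd k M u) : ℝ) : ℂ) := by
      refine Finset.sum_congr rfl fun v hv => Finset.sum_congr rfl fun w hw => ?_
      obtain ⟨n, r⟩ := v
      obtain ⟨m, l⟩ := w
      simp only [Nat.mem_divisorsAntidiagonal] at hv hw
      obtain ⟨hv, hv0⟩ := hv
      obtain ⟨hw, hw0⟩ := hw
      subst hw
      subst hv
      have hn : 0 < n := Nat.pos_of_ne_zero (by rintro rfl; simp at hv0)
      have hm : 0 < m := Nat.pos_of_ne_zero (by rintro rfl; simp at hw0)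
      have hl : 0 < l := Nat.pos_of_ne_zero (by rintro rfl; simp at hw0)
      have hml : m * l ≤ n * (m * l) := Nat.le_mul_of_pos_left _ hn
      have hmY : m ≤ Y := (Nat.le_mul_of_pos_right _ hl).trans (hml.trans hM.2)
      have hlY : l ≤ Y := (Nat.le_mul_of_pos_left _ hm).trans (hml.trans hM.2)
      simp only
      rw [← Complex.ofReal_mul, ← Complex.ofReal_mul, s2_term (k := k) (a := a) _ hn hm hl,
        ← lam_hs H hn]
      unfold be
      rw [hΘ1 m hm hmY, hΘ1 l hl hlY]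
      push_cast
      ring
    rw [h1]
    have h2 : ∑ v ∈ M.divisorsAntidiagonal, ∑ w ∈ v.2.divisorsAntidiagonal,
        ((hs (SEL.lam k a) v.1 * (al (SEL.lam k a) w.1 * al (SEL.lam k a) w.2) *
          ((M : ℝ) ^ (((k : ℝ) - 1) / 2) * gd k M u) : ℝ) : ℂ) =
        (((if M = 1 then 1 else 0) * ((M : ℝ) ^ (((k : ℝ) - 1) / 2) * gd k M u) : ℝ) : ℂ) := by
      rw [← al_conv (SEL.lam k a) (by omega : 0 < M)]
      rw [Finset.sum_mul]
      push_cast
      refine Finset.sum_congr rfl fun v _ => ?_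
      rw [Finset.mul_sum, Finset.sum_mul]
    rw [h2]
    by_cases hM1 : M = 1
    · subst hM1
      simp
    · simp [hM1]
  rw [Finset.sum_congr rfl hM, Finset.sum_ite_eq']
  rw [if_pos (Finset.mem_Icc.mpr ⟨le_rfl, hY0⟩)]


/-- a single tail term -/
theorem s2_bound {k : ℕ} {a : ℕ → ℝ} (H : HData k a) {j : ℕ} (hkj : k = 2 * j) (hj : 50 ≤ j)
    {L : ℝ} (hL : 4 * Real.log 4 ≤ L) {n m l : ℕ} (hm : 1 ≤ m) (hl : 1 ≤ l)
    (hn : ⌊Real.exp (L / 2)⌋₊ / (m * l) < n) :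
    |a n| * ∫ u in Set.Ioi (-(1 / 4 * L) + (c0 k + (Real.log m + Real.log l))), gd k n u ≤
      gk k * (8 * Real.exp (L / 4) ^ 3 * (2 / Real.exp (L / 4)) ^ (j - 3)) / (m * l) *
        (1 / (n : ℝ) ^ 2) := by
  have hn1 : 1 ≤ n := (Nat.zero_le _).trans_lt hn
  have hm0 : (0 : ℝ) < m := by exact_mod_cast hm
  have hl0 : (0 : ℝ) < l := by exact_mod_cast hl
  have hn0 : (0 : ℝ) < n := by exact_mod_cast hn1
  set y := Real.exp (L / 4) with hy
  have hy0 : 0 < y := Real.exp_pos _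
  have hy4 : 4 ≤ y := by
    rw [hy, ← Real.log_le_iff_le_exp (by norm_num)]
    linarith
  have hy2 : Real.exp (L / 2) = y ^ 2 := by
    rw [hy, ← Real.exp_nat_mul]; congr 1; push_cast; ring
  set N : ℝ := (n : ℝ) * (m * l) with hN
  have hN0 : 0 < N := by positivity
  have hml1 : (1 : ℝ) ≤ (m : ℝ) * l := by
    have : 1 ≤ m * l := Nat.mul_pos hm hl
    exact_mod_cast this
  have hNn : (n : ℝ) ≤ N := by
    rw [hN]; exact le_mul_of_one_le_right hn0.le hml1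
  have hNy : y ^ 2 < N := by
    have h1 : ⌊Real.exp (L / 2)⌋₊ < n * (m * l) := by
      have hml : 0 < m * l := Nat.mul_pos hm hl
      exact (Nat.div_lt_iff_lt_mul hml).mp hn
    rw [Nat.floor_lt (Real.exp_pos _).le, hy2] at h1
    rw [hN]
    exact_mod_cast h1
  have hpi := Real.pi_pos
  have hk0 : (0 : ℝ) < k := by
    rw [hkj]; push_cast
    have : (50 : ℝ) ≤ j := by exact_mod_cast hj
    linarith
  -- Rankin
  have h1 := gd_rankin (k := k) (n := n) (by omega) (by rw [hkj]; exact even_two_mul j) hn1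
    (-(1 / 4 * L) + (c0 k + (Real.log m + Real.log l)))
  have h2 : Real.exp (-(1 / 4 * L) + (c0 k + (Real.log m + Real.log l))) =
      k * (m * l) / (4 * Real.pi * y) := by
    rw [Real.exp_add, Real.exp_add, Real.exp_add (Real.log m), Real.exp_log hm0, Real.exp_log hl0,
      c0, Real.exp_log (by positivity), Real.exp_neg, hy]
    have : (1 : ℝ) / 4 * L = L / 4 := by ring
    rw [this]
    field_simp
  have h3 : (k : ℝ) / (2 * Real.pi * n *
      Real.exp (-(1 / 4 * L) + (c0 k + (Real.log m + Real.log l)))) = 2 * y / N := by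
    rw [h2, hN]
    field_simp
    ring
  have hkj' : (k : ℝ) / 2 = (j : ℕ) := by rw [hkj]; push_cast; ring
  have hq : (2 * y / N) ^ ((k : ℝ) / 2) ≤ (8 * y ^ 3 * (2 / y) ^ (j - 3)) * (1 / N ^ 3) := by
    rw [hkj', Real.rpow_natCast]
    have e1 : j = 3 + (j - 3) := by omega
    conv_lhs => rw [e1]
    rw [pow_add]
    have h4 : 2 * y / N ≤ 2 / y := by
      rw [div_le_div_iff₀ hN0 hy0]
      nlinarith
    have h5 : (2 * y / N) ^ (j - 3) ≤ (2 / y) ^ (j - 3) := pow_le_pow_left₀ (by positivity) h4 _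
    calc (2 * y / N) ^ 3 * (2 * y / N) ^ (j - 3) ≤ (2 * y / N) ^ 3 * (2 / y) ^ (j - 3) :=
          mul_le_mul_of_nonneg_left h5 (by positivity)
      _ = _ := by rw [div_pow]; ring
  have ha : |a n| * (n : ℝ) ^ (-(k : ℝ) / 2) ≤ n := by
    rw [s2_a (k := k) (a := a) hn1, abs_mul,
      abs_of_pos (Real.rpow_pos_of_pos hn0 (((k : ℝ) - 1) / 2)), mul_assoc, ← Real.rpow_add hn0]
    have h4 := (triv H (n := n) hn1).1
    calc |SEL.lam k a n| * (n : ℝ) ^ (((k : ℝ) - 1) / 2 + -(k : ℝ) / 2)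
        ≤ (n : ℝ) ^ (3 / 2 : ℝ) * (n : ℝ) ^ (((k : ℝ) - 1) / 2 + -(k : ℝ) / 2) :=
          mul_le_mul_of_nonneg_right h4 (by positivity)
      _ = n := by
          rw [← Real.rpow_add hn0]
          have : (3 / 2 : ℝ) + (((k : ℝ) - 1) / 2 + -(k : ℝ) / 2) = 1 := by ring
          rw [this, Real.rpow_one]
  have hgk := Pool.Agent.WA.gk_pos (k := k) (by omega)
  calc |a n| * ∫ u in Set.Ioi (-(1 / 4 * L) + (c0 k + (Real.log m + Real.log l))), gd k n u
      ≤ |a n| * (gk k * (n : ℝ) ^ (-(k : ℝ) / 2) * (2 * y / N) ^ ((k : ℝ) / 2)) := by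
        rw [h3] at h1
        exact mul_le_mul_of_nonneg_left h1 (abs_nonneg _)
    _ = (|a n| * (n : ℝ) ^ (-(k : ℝ) / 2)) * gk k * (2 * y / N) ^ ((k : ℝ) / 2) := by ring
    _ ≤ n * gk k * ((8 * y ^ 3 * (2 / y) ^ (j - 3)) * (1 / N ^ 3)) := by
        gcongr
    _ = gk k * (8 * y ^ 3 * (2 / y) ^ (j - 3)) / (m * l) * (1 / (n : ℝ) ^ 2) *
        (1 / ((m * l) ^ 2 : ℝ)) := by
        rw [hN]; field_simp
    _ ≤ gk k * (8 * y ^ 3 * (2 / y) ^ (j - 3)) / (m * l) * (1 / (n : ℝ) ^ 2) := by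
        apply mul_le_of_le_one_right (by positivity)
        rw [div_le_one (by positivity)]
        exact one_le_pow₀ hml1

theorem s2_shift (f : ℝ → ℝ) (b s : ℝ) :
    ∫ v in Set.Ioi b, f (v + s) = ∫ u in Set.Ioi (b + s), f u := by
  rw [← integral_indicator measurableSet_Ioi, ← integral_indicator measurableSet_Ioi,
    ← integral_add_right_eq_self (fun u => (Set.Ioi (b + s)).indicator f u) s]
  congr 1
  funext v
  by_cases h : b < v
  · rw [Set.indicator_of_mem (by exact h), Set.indicator_of_mem (by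
      rw [Set.mem_Ioi]; linarith)]
  · rw [Set.indicator_of_notMem (by exact h), Set.indicator_of_notMem (by
      rw [Set.mem_Ioi]; linarith)]

theorem s2_int {W : ℝ → ℂ} (hW : Measurable W) {M V : ℝ} (hWb : ∀ v, ‖W v‖ ≤ M)
    (hWs : ∀ v, V < |v| → W v = 0) : Integrable W := by
  have h1 : IntegrableOn W (Set.Icc (-V) V) := by
    refine Integrable.mono' (g := fun _ => M) (integrable_const M) hW.aestronglyMeasurable ?_
    exact Filter.Eventually.of_forall hWb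
  rw [← integrableOn_iff_integrable_of_support_subset (s := Set.Icc (-V) V)]
  · exact h1
  · intro v hv
    by_contra h
    apply hv
    apply hWs
    rw [Set.mem_Icc, ← abs_le] at h
    exact not_le.mp h

/-- the integral of one term -/
theorem s2_one {k : ℕ} {n : ℕ} (hk : 1 ≤ k) (hn : 1 ≤ n) (s L : ℝ) {W : ℝ → ℂ}
    (hW : Measurable W) {M : ℝ} (hWb : ∀ v, ‖W v‖ ≤ M) (hWs : ∀ v, 1 / 4 * L < |v| → W v = 0) :
    Integrable (fun v => (gd k n (v + s) : ℂ) * W v) ∧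
    ∫ v, ‖(gd k n (v + s) : ℂ) * W v‖ ≤ M * ∫ u in Set.Ioi (-(1 / 4 * L) + s), gd k n u := by
  obtain ⟨h1, -⟩ := Pool.Agent.WA.gd_int hk hn
  have h2 : Integrable (fun v => gd k n (v + s)) := h1.comp_add_right s
  have h3 : Integrable (fun v => (gd k n (v + s) : ℂ) * W v) :=
    h2.ofReal.mul_bdd hW.aestronglyMeasurable (Filter.Eventually.of_forall hWb)
  refine ⟨h3, ?_⟩
  have hM0 : 0 ≤ M := (norm_nonneg _).trans (hWb 0)
  have h4 : ∀ v, ‖(gd k n (v + s) : ℂ) * W v‖ ≤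
      (Set.Ici (-(1 / 4 * L))).indicator (fun v => M * gd k n (v + s)) v := by
    intro v
    by_cases hv : v ∈ Set.Ici (-(1 / 4 * L))
    · rw [Set.indicator_of_mem hv, norm_mul, Complex.norm_real, Real.norm_eq_abs,
        abs_of_pos (Pool.Agent.WA.B5a_gd_pos k n _), mul_comm]
      exact mul_le_mul_of_nonneg_right (hWb v) (Pool.Agent.WA.B5a_gd_pos k n _).le
    · rw [Set.indicator_of_notMem hv, hWs v]
      · simp
      · rw [Set.mem_Ici, not_le] at hv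
        have : -v ≤ |v| := neg_le_abs v
        linarith
  calc ∫ v, ‖(gd k n (v + s) : ℂ) * W v‖
      ≤ ∫ v, (Set.Ici (-(1 / 4 * L))).indicator (fun v => M * gd k n (v + s)) v :=
        integral_mono h3.norm ((h2.const_mul M).indicator measurableSet_Ici) h4
    _ = M * ∫ u in Set.Ioi (-(1 / 4 * L) + s), gd k n u := by
        rw [integral_indicator measurableSet_Ici, integral_Ici_eq_integral_Ioi,
          integral_const_mul, s2_shift]

theorem s2_zeta : Summable (fun n : ℕ => 1 / (n : ℝ) ^ 2) ∧ ∑' n : ℕ, 1 / (n : ℝ) ^ 2 ≤ 2 := by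
  have h := hasSum_zeta_two
  refine ⟨h.summable, ?_⟩
  rw [h.tsum_eq]
  have h1 := Real.pi_lt_d2
  have h2 := Real.pi_pos
  nlinarith

/-- the tail for fixed `m, l` -/
theorem s2_tail {k : ℕ} {a : ℕ → ℝ} (H : HData k a) {j : ℕ} (hkj : k = 2 * j) (hj : 50 ≤ j)
    {L : ℝ} (hL : 4 * Real.log 4 ≤ L) {m l : ℕ} (hm : 1 ≤ m) (hl : 1 ≤ l) {W : ℝ → ℂ}
    (hW : Measurable W) {M : ℝ} (hWb : ∀ v, ‖W v‖ ≤ M) (hWs : ∀ v, 1 / 4 * L < |v| → W v = 0) :
    Integrable (fun v => (geo k (fun n => (a n : ℂ)) 0 (v + c0 k + (Real.log m + Real.log l)) -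
      ∑ n ∈ Finset.Icc 1 (⌊Real.exp (L / 2)⌋₊ / (m * l)),
        (a n : ℂ) * (gd k n (v + c0 k + (Real.log m + Real.log l)) : ℂ)) * W v) ∧
    ‖∫ v, (geo k (fun n => (a n : ℂ)) 0 (v + c0 k + (Real.log m + Real.log l)) -
      ∑ n ∈ Finset.Icc 1 (⌊Real.exp (L / 2)⌋₊ / (m * l)),
        (a n : ℂ) * (gd k n (v + c0 k + (Real.log m + Real.log l)) : ℂ)) * W v‖ ≤
      2 * (M * (gk k * (8 * Real.exp (L / 4) ^ 3 * (2 / Real.exp (L / 4)) ^ (j - 3)) /
        (m * l))) := by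
  have hk1 : 1 ≤ k := by omega
  have hC : CForm k (fun n => (a n : ℂ)) := Pool.Agent.WA.cf_of_hdata H
  have hWi : Integrable W := s2_int hW hWb hWs
  have hM0 : 0 ≤ M := (norm_nonneg _).trans (hWb 0)
  set Y := ⌊Real.exp (L / 2)⌋₊ / (m * l) with hY
  set s := Real.log m + Real.log l with hs
  set Kc := gk k * (8 * Real.exp (L / 4) ^ 3 * (2 / Real.exp (L / 4)) ^ (j - 3)) / (m * l) with hKc
  have hgk := Pool.Agent.WA.gk_pos (k := k) hk1
  have hKc0 : 0 ≤ Kc := by positivity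
  -- integrability
  have hI1 : Integrable (fun v => geo k (fun n => (a n : ℂ)) 0 (v + c0 k + s) * W v) := by
    obtain ⟨C, hC'⟩ := Pool.Agent.WA.geo_bdd hC
    have hcont : Continuous (fun v => geo k (fun n => (a n : ℂ)) 0 (v + c0 k + s)) :=
      (Pool.Agent.WA.geo_cont hC 0).comp (by fun_prop)
    exact hWi.bdd_mul hcont.aestronglyMeasurable (Filter.Eventually.of_forall (fun v => hC' 0 _))
  have hadd : ∀ v : ℝ, v + c0 k + s = v + (c0 k + s) := fun v => by ring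
  have hI2 : Integrable (fun v => (∑ n ∈ Finset.Icc 1 Y,
        (a n : ℂ) * (gd k n (v + c0 k + s) : ℂ)) * W v) := by
    simp only [Finset.sum_mul]
    refine integrable_finsetSum _ (fun n hn => ?_)
    rw [Finset.mem_Icc] at hn
    have h1 := (s2_one hk1 hn.1 (c0 k + s) L hW hWb hWs).1.const_mul (a n : ℂ)
    refine h1.congr (Filter.Eventually.of_forall (fun v => ?_))
    simp only [hadd]
    ring
  refine ⟨?_, ?_⟩
  · refine (hI1.sub hI2).congr (Filter.Eventually.of_forall (fun v => ?_))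
    simp only [Pi.sub_apply]
    ring
  -- series
  set F : ℕ → ℝ → ℂ := fun n v => if Y < n then (a n : ℂ) * ((gd k n (v + (c0 k + s)) : ℂ) * W v)
    else 0 with hF
  have hFi : ∀ n, Integrable (F n) := by
    intro n
    by_cases hn : Y < n
    · simp only [hF, if_pos hn]
      exact (s2_one hk1 ((Nat.zero_le _).trans_lt hn) (c0 k + s) L hW hWb hWs).1.const_mul (a n : ℂ)
    · simp only [hF, if_neg hn]
      exact integrable_zero _ _ _
  have hFb : ∀ n, ∫ v, ‖F n v‖ ≤ M * Kc * (1 / (n : ℝ) ^ 2) := by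
    intro n
    by_cases hn : Y < n
    · simp only [hF, if_pos hn]
      have h1 : ∀ v, ‖(a n : ℂ) * ((gd k n (v + (c0 k + s)) : ℂ) * W v)‖ =
          |a n| * ‖(gd k n (v + (c0 k + s)) : ℂ) * W v‖ := by
        intro v
        rw [norm_mul, Complex.norm_real, Real.norm_eq_abs]
      simp only [h1]
      rw [integral_const_mul]
      have h2 := (s2_one hk1 (Nat.succ_le_of_lt ((Nat.zero_le _).trans_lt hn) : 1 ≤ n) (c0 k + s) L hW hWb hWs).2
      have h3 := s2_bound H hkj hj hL hm hl hn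
      calc |a n| * ∫ v, ‖(gd k n (v + (c0 k + s)) : ℂ) * W v‖
          ≤ |a n| * (M * ∫ u in Set.Ioi (-(1 / 4 * L) + (c0 k + s)), gd k n u) :=
            mul_le_mul_of_nonneg_left h2 (abs_nonneg _)
        _ = M * (|a n| * ∫ u in Set.Ioi (-(1 / 4 * L) + (c0 k + s)), gd k n u) := by ring
        _ ≤ M * (Kc * (1 / (n : ℝ) ^ 2)) := mul_le_mul_of_nonneg_left h3 hM0
        _ = _ := by ring
    · simp only [hF, if_neg hn, norm_zero, integral_zero]
      positivity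
  obtain ⟨hz1, hz2⟩ := s2_zeta
  have hsum : Summable (fun n => ∫ v, ‖F n v‖) :=
    Summable.of_nonneg_of_le (fun n => integral_nonneg fun v => norm_nonneg _) hFb
      (hz1.mul_left (M * Kc))
  have hint := hasSum_integral_of_summable_integral_norm hFi hsum
  have hpt : ∀ v, ∑' n, F n v = (geo k (fun n => (a n : ℂ)) 0 (v + c0 k + s) -
      ∑ n ∈ Finset.Icc 1 Y, (a n : ℂ) * (gd k n (v + c0 k + s) : ℂ)) * W v := by
    intro v
    have hg := Pool.Agent.WA.geo_series hC 0 (v + (c0 k + s))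
    simp only [Complex.ofReal_zero, mul_zero, Complex.exp_zero, mul_one] at hg
    have hfin : HasSum (fun n : ℕ => if n ∈ Finset.Icc 1 Y then
        (a n : ℂ) * (gd k n (v + (c0 k + s)) : ℂ) else 0)
        (∑ n ∈ Finset.Icc 1 Y, (a n : ℂ) * (gd k n (v + (c0 k + s)) : ℂ)) := by
      have h9 : HasSum (fun n : ℕ => if n ∈ Finset.Icc 1 Y then
        (a n : ℂ) * (gd k n (v + (c0 k + s)) : ℂ) else 0)
        (∑ n ∈ Finset.Icc 1 Y, if n ∈ Finset.Icc 1 Y then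
        (a n : ℂ) * (gd k n (v + (c0 k + s)) : ℂ) else 0) :=
        hasSum_sum_of_ne_finset_zero (fun n hn => if_neg hn)
      rwa [Finset.sum_congr rfl (fun n hn => if_pos hn)] at h9
    have h1 := (hg.sub hfin).mul_right (W v)
    rw [hadd v, ← h1.tsum_eq]
    refine tsum_congr fun n => ?_
    simp only [hF]
    by_cases hn : Y < n
    · rw [if_pos hn, if_neg (by rw [Finset.mem_Icc]; omega)]
      ring
    · rw [if_neg hn]
      by_cases hn0 : n = 0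
      · subst hn0
        rw [H.zero]
        simp
      · rw [if_pos (by rw [Finset.mem_Icc]; omega)]
        ring
  simp only [hpt] at hint
  rw [← hint.tsum_eq]
  have hns : Summable (fun n => ‖∫ v, F n v‖) :=
    Summable.of_nonneg_of_le (fun n => norm_nonneg _) (fun n => norm_integral_le_integral_norm _)
      hsum
  calc ‖∑' n, ∫ v, F n v‖ ≤ ∑' n, ‖∫ v, F n v‖ := norm_tsum_le_tsum_norm hns
    _ ≤ ∑' n : ℕ, M * Kc * (1 / (n : ℝ) ^ 2) := by
        refine hns.tsum_le_tsum (fun n => ?_) (hz1.mul_left (M * Kc))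
        exact (norm_integral_le_integral_norm _).trans (hFb n)
    _ = M * Kc * ∑' n : ℕ, 1 / (n : ℝ) ^ 2 := tsum_mul_left
    _ ≤ M * Kc * 2 := mul_le_mul_of_nonneg_left hz2 (by positivity)
    _ = 2 * (M * Kc) := by ring

theorem s2_num {j : ℕ} (hj : 50 ≤ j) {y : ℝ} (hy : 4 ≤ y) :
    64 * y ^ 11 * (2 / y) ^ (j - 3) ≤ 1 / ((2 * j : ℕ) : ℝ) := by
  have hy0 : 0 < y := by linarith
  have h1 : (2 / y) ^ (j - 3) = (2 / y) ^ 22 * (2 / y) ^ (j - 25) := by
    rw [← pow_add]; congr 1; omega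
  have h2 : y ^ 11 * (2 / y) ^ 22 ≤ 1 := by
    have h3 : y ^ 11 * (2 / y) ^ 22 = (4 / y) ^ 11 := by
      rw [div_pow, div_pow]
      field_simp
      norm_num
    rw [h3]
    exact pow_le_one₀ (by positivity) (by rw [div_le_one hy0]; exact hy)
  have h3 : (2 / y) ^ (j - 25) ≤ (1 / 2 : ℝ) ^ (j - 25) := by
    apply pow_le_pow_left₀ (by positivity)
    rw [div_le_div_iff₀ hy0 (by norm_num)]
    linarith
  have h4 : (128 : ℝ) * j ≤ 2 ^ (j - 25) := by
    obtain ⟨i, rfl⟩ : ∃ i, j = 50 + i := ⟨j - 50, by omega⟩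
    have h5 : i + 1 ≤ 2 ^ i := Nat.lt_two_pow_self
    have h6 : 50 + i - 25 = 25 + i := by omega
    rw [h6, pow_add]
    have h7 : ((i : ℝ) + 1) ≤ 2 ^ i := by exact_mod_cast h5
    push_cast
    have h8 : (2 : ℝ) ^ 25 * ((i : ℝ) + 1) ≤ 2 ^ 25 * 2 ^ i := by gcongr
    have h9 : (0 : ℝ) ≤ i := Nat.cast_nonneg i
    have h10 : (128 : ℝ) * (50 + i) ≤ 2 ^ 25 * ((i : ℝ) + 1) := by norm_num; linarith
    linarith
  have hj0 : (0 : ℝ) < j := by
    have : (50 : ℝ) ≤ j := by exact_mod_cast hj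
    linarith
  calc 64 * y ^ 11 * (2 / y) ^ (j - 3) = 64 * (y ^ 11 * (2 / y) ^ 22) * (2 / y) ^ (j - 25) := by
        rw [h1]; ring
    _ ≤ 64 * 1 * (1 / 2 : ℝ) ^ (j - 25) := by gcongr
    _ = 64 / 2 ^ (j - 25) := by rw [div_pow, one_pow]; ring
    _ ≤ 64 / (128 * j) := by gcongr
    _ = 1 / ((2 * j : ℕ) : ℝ) := by push_cast; field_simp; norm_num

theorem s_two {Θ : ℝ → ℝ} (hΘ : ∀ x, 0 ≤ Θ x ∧ Θ x ≤ 1)
    (h0 : ∀ x, 0 ≤ x → x ≤ 1 / 2 → Θ x = 1) (B : ℝ) (hB : 0 < B) :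
    ∃ k₀ : ℕ, ∀ k : ℕ, k₀ ≤ k → Even k → ∀ {a : ℕ → ℝ}, HData k a → ∀ L : ℝ,
      L = Real.log k / B → ∀ (W : ℝ → ℂ) (M : ℝ), Measurable W → (∀ v, ‖W v‖ ≤ M) →
      (∀ v, 1 / 4 * L < |v| → W v = 0) →
      ‖∫ v, (DD k a L Θ (v + c0 k) - (gd k 1 (v + c0 k) : ℂ)) * W v‖ ≤ gk k * M / k := by
  refine ⟨max 100 ⌈Real.exp (4 * Real.log 4 * B)⌉₊, fun k hk he a H L hLB W M hW hWb hWs => ?_⟩
  have hk100 : 100 ≤ k := (le_max_left _ _).trans hk
  have hkB : Real.exp (4 * Real.log 4 * B) ≤ k := by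
    have : ⌈Real.exp (4 * Real.log 4 * B)⌉₊ ≤ k := (le_max_right _ _).trans hk
    exact (Nat.le_ceil _).trans (by exact_mod_cast this)
  have hk0 : (0 : ℝ) < k := by
    have : (100 : ℝ) ≤ k := by exact_mod_cast hk100
    linarith
  have hL4 : 4 * Real.log 4 ≤ L := by
    rw [hLB, le_div_iff₀ hB, Real.le_log_iff_exp_le hk0]
    exact hkB
  have hlog4 : 0 < Real.log 4 := Real.log_pos (by norm_num)
  have hL0 : 0 < L := by linarith
  obtain ⟨j, hj⟩ := he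
  have hkj : k = 2 * j := by omega
  have hj50 : 50 ≤ j := by omega
  have hM0 : 0 ≤ M := (norm_nonneg _).trans (hWb 0)
  have hgk := Pool.Agent.WA.gk_pos (k := k) (by omega)
  set y := Real.exp (L / 4) with hy
  have hy0 : 0 < y := Real.exp_pos _
  have hy4 : 4 ≤ y := by
    rw [hy, ← Real.log_le_iff_le_exp (by norm_num)]
    linarith
  -- pointwise identity
  set T : ℕ → ℕ → ℝ → ℂ := fun m l v =>
    (geo k (fun n => (a n : ℂ)) 0 (v + c0 k + (Real.log m + Real.log l)) -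
      ∑ n ∈ Finset.Icc 1 (⌊Real.exp (L / 2)⌋₊ / (m * l)),
        (a n : ℂ) * (gd k n (v + c0 k + (Real.log m + Real.log l)) : ℂ)) * W v with hT
  have hpt : ∀ v, (DD k a L Θ (v + c0 k) - (gd k 1 (v + c0 k) : ℂ)) * W v =
      ∑ m ∈ Finset.Ico 1 (NL L), ∑ l ∈ Finset.Ico 1 (NL L),
        ((be k a L Θ m * be k a L Θ l / (√m * √l) : ℝ) : ℂ) * T m l v := by
    intro v
    rw [← s2_small H h0 hL0 (v + c0 k)]
    unfold DD
    rw [← Finset.sum_sub_distrib, Finset.sum_mul]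
    refine Finset.sum_congr rfl fun m _ => ?_
    rw [← Finset.sum_sub_distrib, Finset.sum_mul]
    refine Finset.sum_congr rfl fun l _ => ?_
    simp only [hT]
    ring
  simp only [hpt]
  have hIco : ∀ {m : ℕ}, m ∈ Finset.Ico 1 (NL L) → 1 ≤ m := fun h => (Finset.mem_Ico.mp h).1
  rw [integral_finsetSum _ (fun m hm => integrable_finsetSum _ (fun l hl =>
    (s2_tail H hkj hj50 hL4 (hIco hm) (hIco hl) hW hWb hWs).1.const_mul _))]
  have hbe : ∀ m : ℕ, 1 ≤ m → |be k a L Θ m| ≤ (m : ℝ) ^ (3 / 2 : ℝ) := by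
    intro m hm
    unfold be
    rw [abs_mul]
    have h1 := (triv H (n := m) hm).2.2
    have h2 : |Θ (Real.log m / L)| ≤ 1 := by
      rw [abs_of_nonneg (hΘ _).1]; exact (hΘ _).2
    calc |al (SEL.lam k a) m| * |Θ (Real.log m / L)| ≤ (m : ℝ) ^ (3 / 2 : ℝ) * 1 :=
          mul_le_mul h1 h2 (abs_nonneg _) (by positivity)
      _ = _ := mul_one _
  have hbe2 : ∀ m : ℕ, 1 ≤ m → |be k a L Θ m| / √m ≤ m := by
    intro m hm
    have hm0 : (0 : ℝ) < m := by exact_mod_cast hm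
    rw [div_le_iff₀ (by positivity)]
    refine (hbe m hm).trans (le_of_eq ?_)
    rw [Real.sqrt_eq_rpow]
    nth_rewrite 2 [← Real.rpow_one (m : ℝ)]
    rw [← Real.rpow_add hm0]
    norm_num
  set Q : ℝ := 2 * (M * (gk k * (8 * y ^ 3 * (2 / y) ^ (j - 3)))) with hQ
  have hQ0 : 0 ≤ Q := by positivity
  have hterm : ∀ m ∈ Finset.Ico 1 (NL L), ∀ l ∈ Finset.Ico 1 (NL L),
      ‖∫ v, ((be k a L Θ m * be k a L Θ l / (√m * √l) : ℝ) : ℂ) * T m l v‖ ≤ Q := by
    intro m hm l hl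
    have hm1 := hIco hm
    have hl1 := hIco hl
    have hm0 : (0 : ℝ) < m := by exact_mod_cast hm1
    have hl0 : (0 : ℝ) < l := by exact_mod_cast hl1
    rw [integral_const_mul, norm_mul, Complex.norm_real, Real.norm_eq_abs]
    have h1 := (s2_tail H hkj hj50 hL4 hm1 hl1 hW hWb hWs).2
    have h2 : |be k a L Θ m * be k a L Θ l / (√m * √l)| ≤ m * l := by
      rw [abs_div, abs_mul, abs_of_pos (by positivity : 0 < √(m : ℝ) * √(l : ℝ))]
      calc |be k a L Θ m| * |be k a L Θ l| / (√m * √l)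
          = (|be k a L Θ m| / √m) * (|be k a L Θ l| / √l) := by field_simp
        _ ≤ m * l := mul_le_mul (hbe2 m hm1) (hbe2 l hl1) (by positivity) hm0.le
    calc |be k a L Θ m * be k a L Θ l / (√m * √l)| * ‖∫ v, T m l v‖
        ≤ (m * l) * (2 * (M * (gk k * (8 * y ^ 3 * (2 / y) ^ (j - 3)) / (m * l)))) :=
          mul_le_mul h2 h1 (norm_nonneg _) (by positivity)
      _ = Q := by rw [hQ]; field_simp
  have hcard : ((Finset.Ico 1 (NL L)).card : ℝ) ≤ 2 * y ^ 4 := by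
    rw [Nat.card_Ico]
    have h1 : ((NL L - 1 : ℕ) : ℝ) ≤ NL L := by exact_mod_cast Nat.sub_le _ _
    have h2 : (NL L : ℝ) ≤ 2 * Real.exp L := by
      unfold Pool.Agent.SEL.NL
      have h3 := (Nat.ceil_lt_add_one (Real.exp_pos L).le).le
      have h4 : 1 ≤ Real.exp L := Real.one_le_exp hL0.le
      linarith
    have h5 : Real.exp L = y ^ 4 := by
      rw [hy, ← Real.exp_nat_mul]; congr 1; push_cast; ring
    rw [h5] at h2
    linarith
  calc ‖∑ m ∈ Finset.Ico 1 (NL L), ∫ v, ∑ l ∈ Finset.Ico 1 (NL L),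
        ((be k a L Θ m * be k a L Θ l / (√m * √l) : ℝ) : ℂ) * T m l v‖
      ≤ ∑ m ∈ Finset.Ico 1 (NL L), ‖∫ v, ∑ l ∈ Finset.Ico 1 (NL L),
        ((be k a L Θ m * be k a L Θ l / (√m * √l) : ℝ) : ℂ) * T m l v‖ := norm_sum_le _ _
    _ ≤ ∑ m ∈ Finset.Ico 1 (NL L), ∑ l ∈ Finset.Ico 1 (NL L), Q := by
        refine Finset.sum_le_sum fun m hm => ?_
        rw [integral_finsetSum _ (fun l hl =>
          (s2_tail H hkj hj50 hL4 (hIco hm) (hIco hl) hW hWb hWs).1.const_mul _)]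
        exact (norm_sum_le _ _).trans (Finset.sum_le_sum fun l hl => hterm m hm l hl)
    _ = (Finset.Ico 1 (NL L)).card * ((Finset.Ico 1 (NL L)).card * Q) := by
        rw [Finset.sum_const, Finset.sum_const, nsmul_eq_mul, nsmul_eq_mul]
    _ ≤ (2 * y ^ 4) * ((2 * y ^ 4) * Q) := by gcongr
    _ = gk k * M * (64 * y ^ 11 * (2 / y) ^ (j - 3)) := by rw [hQ]; ring
    _ ≤ gk k * M * (1 / ((2 * j : ℕ) : ℝ)) :=
        mul_le_mul_of_nonneg_left (s2_num hj50 hy4) (by positivity)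
    _ = gk k * M / k := by rw [← hkj]; ring

end Pool.Agent.WS
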