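import Pool.Agent.Lib_helper98.WSF.H2
import Pool.Agent.Lib_helper98.WAF.B1a

/-! Block H3 (FAR): Farey dissection. -/

namespace Pool.Agent.WS

open Complex MeasureTheory Filter Topology
open Pool.Agent.GL2 (qs HData FD)
open Pool.Agent.WA (CForm pn geo Lf gd gk omk om Fam rho PsiB)

theorem h3_mem {D : ℕ} {p : ℕ × ℕ} : p ∈ FS D ↔ (1 ≤ p.1 ∧ p.1 ≤ D) ∧ p.2 < p.1 ∧ p.2.Coprime p.1 := by
  unfold FS
  simp only [Finset.mem_filter, Finset.mem_product, Finset.mem_Icc, Finset.mem_range]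
  constructor
  · rintro ⟨⟨h1, -⟩, h2⟩
    exact ⟨h1, h2⟩
  · rintro ⟨h1, h2⟩
    exact ⟨⟨h1, by omega⟩, h2⟩

theorem fb_facts {D : ℕ} (j : FJ D) : 1 ≤ j.1.1 ∧ j.1.1 ≤ D ∧ (fb j).den = j.1.1 ∧ 0 ≤ fb j ∧
    fb j < 1 := by
  obtain ⟨⟨h1, h2⟩, h3, h4⟩ := h3_mem.1 j.2
  have hpos : (0 : ℚ) < (j.1.1 : ℚ) := by exact_mod_cast h1
  refine ⟨h1, h2, ?_, ?_, ?_⟩
  · have h5 := Rat.den_div_eq_of_coprime (a := (j.1.2 : ℤ)) (b := (j.1.1 : ℤ))
      (by exact_mod_cast h1) (by simpa using h4)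
    have h6 : ((fb j).den : ℤ) = (j.1.1 : ℤ) := by
      rw [← h5]
      unfold fb
      push_cast
      rfl
    exact_mod_cast h6
  · unfold fb
    positivity
  · unfold fb
    rw [div_lt_one hpos]
    exact_mod_cast h3

theorem h3_num {D : ℕ} (j : FJ D) : (fb j).num = j.1.2 := by
  obtain ⟨⟨h1, h2⟩, h3, h4⟩ := h3_mem.1 j.2
  have h5 := Rat.num_div_eq_of_coprime (a := (j.1.2 : ℤ)) (b := (j.1.1 : ℤ))
      (by exact_mod_cast h1) (by simpa using h4)
  rw [← h5]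
  unfold fb
  push_cast
  rfl

theorem fb_dist {D : ℕ} (i j : FJ D) (h : i ≠ j) (n : ℤ) : fb i - fb j ≠ n := by
  intro hn
  obtain ⟨-, -, i3, i4, i5⟩ := fb_facts i
  obtain ⟨-, -, j3, j4, j5⟩ := fb_facts j
  have h1 : (n : ℚ) < 1 := by rw [← hn]; linarith
  have h2 : (-1 : ℚ) < n := by rw [← hn]; linarith
  have h3 : n < 1 := by exact_mod_cast h1
  have h4 : -1 < n := by exact_mod_cast h2
  have h5 : n = 0 := by omega
  rw [h5, Int.cast_zero, sub_eq_zero] at hn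
  apply h
  have h6 : i.1.1 = j.1.1 := by rw [← i3, ← j3, hn]
  have h7 : i.1.2 = j.1.2 := by
    have := h3_num i
    rw [hn, h3_num j] at this
    exact_mod_cast this.symm
  exact Subtype.ext (Prod.ext h6 h7)

theorem FJ_card (D : ℕ) : Fintype.card (FJ D) ≤ D ^ 2 := by
  rw [Fintype.card_coe]
  refine (Finset.card_filter_le _ _).trans ?_
  rw [Finset.card_product]
  simp
  exact (sq D).ge

theorem h3_sum {M : Type*} [AddCommMonoid M] (D : ℕ) (G : ℕ × ℕ → M) :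
    ∑ j : FJ D, G j.1 = ∑ p ∈ FS D, G p :=
  Finset.sum_coe_sort (FS D) G

theorem FJ_sum (D : ℕ) (G : ℕ → ℝ) :
    ∑ j : FJ D, G j.1.1 = ∑ d ∈ Finset.Icc 1 D, (d.totient : ℝ) * G d := by
  rw [h3_sum D (fun p => G p.1)]
  unfold FS
  rw [Finset.sum_filter, Finset.sum_product]
  refine Finset.sum_congr rfl fun d hd => ?_
  rw [Finset.mem_Icc] at hd
  rw [← Finset.sum_filter]
  dsimp only
  rw [Finset.sum_const, nsmul_eq_mul]
  congr 2
  rw [Nat.totient_eq_card_coprime]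
  congr 1
  ext b
  simp only [Finset.mem_filter, Finset.mem_range]
  constructor
  · rintro ⟨-, h1, h2⟩
    exact ⟨h1, h2.symm⟩
  · rintro ⟨h1, h2⟩
    exact ⟨by omega, h1, h2.symm⟩

theorem h3_div {r D : ℕ} (hr : 0 < r) (hrD : r ≤ D) {p : ℕ × ℕ} (hp : p ∈ r.divisorsAntidiagonal) :
    0 < p.1 ∧ 0 < p.2 ∧ p.2 ≤ D ∧ |Real.log ((p.1 : ℝ) / p.2)| ≤ Real.log D := by
  obtain ⟨hp1, hp2⟩ := Nat.mem_divisorsAntidiagonal.1 hp
  have h3 : 0 < p.1 := Nat.pos_of_ne_zero (by intro h; rw [h, zero_mul] at hp1; omega)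
  have h4 : 0 < p.2 := Nat.pos_of_ne_zero (by intro h; rw [h, mul_zero] at hp1; omega)
  have h5 : p.2 ≤ D := (Nat.le_of_dvd hr (Dvd.intro_left _ hp1)).trans hrD
  have h6 : p.1 ≤ D := (Nat.le_of_dvd hr (Dvd.intro _ hp1)).trans hrD
  refine ⟨h3, h4, h5, ?_⟩
  have h3' : (1 : ℝ) ≤ p.1 := by exact_mod_cast h3
  have h4' : (1 : ℝ) ≤ p.2 := by exact_mod_cast h4
  have h5' : (p.2 : ℝ) ≤ D := by exact_mod_cast h5
  have h6' : (p.1 : ℝ) ≤ D := by exact_mod_cast h6
  have a1 := Real.log_nonneg h3'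
  have a2 := Real.log_nonneg h4'
  have a3 := Real.log_le_log (by linarith) h5'
  have a4 := Real.log_le_log (by linarith) h6'
  rw [Real.log_div (by linarith) (by linarith), abs_le]
  constructor <;> linarith

theorem h3_sqrt {r : ℕ} (hr : 0 < r) : (1 : ℝ) / √r ≤ 1 := by
  have h : (1 : ℝ) ≤ √r := Real.one_le_sqrt.2 (by exact_mod_cast hr)
  rw [div_le_one (by linarith)]
  exact h

theorem psf_bound {D : ℕ} {R : Finset ℕ} (hR : ∀ r ∈ R, 0 < r ∧ r ≤ D) {Wr : ℕ → ℝ → ℂ}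
    {M V : ℝ} (hm : ∀ r, Measurable (Wr r)) (hb : ∀ r u, ‖Wr r u‖ ≤ M)
    (hWs : ∀ r u, V < |u| → Wr r u = 0) :
    PsiB (fun j : FJ D => PsF R Wr j.1.1) ((D : ℝ) ^ 2 * M) (V + Real.log D) := by
  have hM : 0 ≤ M := (norm_nonneg _).trans (hb 0 0)
  refine ⟨fun j => ?_, fun j u => ?_, fun j u hu => ?_⟩
  · unfold PsF
    refine Finset.measurable_sum _ fun r _ => Finset.measurable_sum _ fun p _ => ?_
    exact ((hm r).comp (measurable_id.sub_const _)).const_mul _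
  · unfold PsF
    have h1 : ∀ r ∈ R, ‖∑ p ∈ r.divisorsAntidiagonal.filter (fun p => j.1.1 ∣ p.2),
        ((1 / √r : ℝ) : ℂ) * Wr r (u - Real.log ((p.1 : ℝ) / p.2))‖ ≤ D * M := by
      intro r hr
      refine (norm_sum_le _ _).trans ?_
      have h2 : ∀ p ∈ r.divisorsAntidiagonal.filter (fun p => j.1.1 ∣ p.2),
          ‖((1 / √r : ℝ) : ℂ) * Wr r (u - Real.log ((p.1 : ℝ) / p.2))‖ ≤ M := by
        intro p _
        rw [norm_mul, Complex.norm_real, Real.norm_of_nonneg (by positivity)]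
        calc 1 / √r * ‖Wr r (u - Real.log ((p.1 : ℝ) / p.2))‖ ≤ 1 * M :=
              mul_le_mul (h3_sqrt (hR r hr).1) (hb _ _) (norm_nonneg _) zero_le_one
          _ = M := one_mul M
      refine (Finset.sum_le_card_nsmul _ _ _ h2).trans ?_
      rw [nsmul_eq_mul]
      refine mul_le_mul_of_nonneg_right ?_ hM
      have h3 : (r.divisorsAntidiagonal.filter (fun p => j.1.1 ∣ p.2)).card ≤ D := by
        refine (Finset.card_filter_le _ _).trans ?_
        rw [← Nat.map_div_right_divisors, Finset.card_map]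
        exact (Nat.card_divisors_le_self r).trans (hR r hr).2
      exact_mod_cast h3
    refine (norm_sum_le _ _).trans ((Finset.sum_le_card_nsmul _ _ _ h1).trans ?_)
    rw [nsmul_eq_mul]
    have h4 : (R.card : ℝ) ≤ D := by
      have h5 : R ⊆ Finset.Icc 1 D := fun r hr => Finset.mem_Icc.2 (hR r hr)
      have h6 := Finset.card_le_card h5
      rw [Nat.card_Icc, Nat.add_sub_cancel] at h6
      exact_mod_cast h6
    calc (R.card : ℝ) * (D * M) ≤ D * (D * M) := mul_le_mul_of_nonneg_right h4 (by positivity)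
      _ = (D : ℝ) ^ 2 * M := by ring
  · unfold PsF
    refine Finset.sum_eq_zero fun r hr => Finset.sum_eq_zero fun p hp => ?_
    obtain ⟨-, -, -, h1⟩ := h3_div (hR r hr).1 (hR r hr).2 (Finset.mem_filter.1 hp).1
    rw [hWs, mul_zero]
    have h2 : V + Real.log D < |u| := by
      by_contra h
      push Not at h
      exact hu (Set.mem_Icc.2 (abs_le.1 h))
    have h3 := abs_sub_abs_le_abs_sub u (Real.log ((p.1 : ℝ) / p.2))
    linarith

/-- fractions with denominator `d` by their reduced denominators -/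
theorem h3_farey {D d : ℕ} (hd : 0 < d) (hdD : d ≤ D) (F : ℝ → ℂ) :
    ∑ b ∈ Finset.range d, F ((b : ℝ) / d) =
      ∑ j : FJ D, if j.1.1 ∣ d then F ((fb j : ℚ) : ℝ) else 0 := by
  have h0 : ∀ j : FJ D, ((fb j : ℚ) : ℝ) = (j.1.2 : ℝ) / j.1.1 := by
    intro j
    unfold fb
    push_cast
    rfl
  simp only [h0]
  rw [h3_sum D (fun p => if p.1 ∣ d then F ((p.2 : ℝ) / p.1) else 0), ← Finset.sum_filter]
  have hd' : (d : ℝ) ≠ 0 := by exact_mod_cast hd.ne'
  refine Finset.sum_bij' (fun b _ => (d / Nat.gcd b d, b / Nat.gcd b d))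
    (fun p _ => p.2 * (d / p.1)) ?_ ?_ ?_ ?_ ?_
  · intro b hb
    rw [Finset.mem_range] at hb
    have hg : 0 < Nat.gcd b d := Nat.gcd_pos_of_pos_right b hd
    rw [Finset.mem_filter, h3_mem]
    have h1 : Nat.gcd b d ∣ d := Nat.gcd_dvd_right b d
    refine ⟨⟨⟨?_, ?_⟩, ?_, ?_⟩, ?_⟩
    · exact Nat.div_pos (Nat.le_of_dvd hd h1) hg
    · exact (Nat.div_le_self _ _).trans hdD
    · exact Nat.div_lt_div_of_lt_of_dvd h1 hb
    · exact Nat.coprime_div_gcd_div_gcd hg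
    · exact Nat.div_dvd_of_dvd h1
  · intro p hp
    rw [Finset.mem_filter, h3_mem] at hp
    obtain ⟨⟨⟨h1, h2⟩, h3, h4⟩, h5⟩ := hp
    rw [Finset.mem_range]
    have h6 : 0 < d / p.1 := Nat.div_pos (Nat.le_of_dvd hd h5) h1
    calc p.2 * (d / p.1) < p.1 * (d / p.1) := Nat.mul_lt_mul_of_pos_right h3 h6
      _ = d := Nat.mul_div_cancel' h5
  · intro b hb
    have h1 : Nat.gcd b d ∣ d := Nat.gcd_dvd_right b d
    have h2 : Nat.gcd b d ∣ b := Nat.gcd_dvd_left b d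
    rw [Nat.div_div_self h1 hd.ne', Nat.div_mul_cancel h2]
  · intro p hp
    rw [Finset.mem_filter, h3_mem] at hp
    obtain ⟨⟨⟨h1, h2⟩, h3, h4⟩, h5⟩ := hp
    have h6 : 0 < d / p.1 := Nat.div_pos (Nat.le_of_dvd hd h5) h1
    have h7 : Nat.gcd (p.2 * (d / p.1)) d = d / p.1 := by
      conv_lhs => rw [show d = p.1 * (d / p.1) from (Nat.mul_div_cancel' h5).symm]
      rw [Nat.mul_div_cancel_left _ h1, Nat.gcd_mul_right, h4.gcd_eq_one, one_mul]
    rw [h7]
    refine Prod.ext ?_ ?_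
    · exact Nat.div_div_self h5 hd.ne'
    · exact Nat.mul_div_cancel _ h6
  · intro b hb
    have h1 : Nat.gcd b d ∣ d := Nat.gcd_dvd_right b d
    have h2 : Nat.gcd b d ∣ b := Nat.gcd_dvd_left b d
    have hg : 0 < Nat.gcd b d := Nat.gcd_pos_of_pos_right b hd
    have hg' : ((Nat.gcd b d : ℕ) : ℝ) ≠ 0 := by exact_mod_cast hg.ne'
    simp only
    rw [Nat.cast_div h1 hg', Nat.cast_div h2 hg', div_div_div_cancel_right₀ hg']

theorem h3_int {k : ℕ} {b : ℕ → ℂ} (H : CForm k b) {W : ℝ → ℂ} {M V : ℝ}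
    (hm : Measurable W) (hb : ∀ u, ‖W u‖ ≤ M) (hWs : ∀ u, V < |u| → W u = 0) (β c : ℝ) :
    Integrable (fun u : ℝ => W u * geo k b β (u + c)) := by
  obtain ⟨C, hC⟩ := WA.geo_bdd H
  have hcont : Continuous (fun u : ℝ => geo k b β (u + c)) :=
    (WA.geo_cont H β).comp (continuous_id.add continuous_const)
  have h1 : Integrable (Set.indicator (Set.Icc (-V) V) (fun _ : ℝ => M * C)) := by
    rw [integrable_indicator_iff measurableSet_Icc]
    exact integrableOn_const (by simp)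
  refine h1.mono (hm.mul hcont.measurable).aestronglyMeasurable (ae_of_all _ fun u => ?_)
  have hM : 0 ≤ M := (norm_nonneg _).trans (hb 0)
  have hC0 : 0 ≤ C := (norm_nonneg _).trans (hC 0 0)
  by_cases hu : u ∈ Set.Icc (-V) V
  · rw [Set.indicator_of_mem hu, norm_mul, Real.norm_of_nonneg (by positivity)]
    exact mul_le_mul (hb u) (hC _ _) (norm_nonneg _) hM
  · have h2 : V < |u| := by
      by_contra h
      push Not at h
      exact hu (Set.mem_Icc.2 (abs_le.1 h))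
    rw [hWs u h2, zero_mul, norm_zero]
    exact norm_nonneg _

theorem farey_lin {k : ℕ} {a : ℕ → ℝ} (H : HData k a) {D : ℕ} {R : Finset ℕ}
    (hR : ∀ r ∈ R, 0 < r ∧ r ≤ D) {Wr : ℕ → ℝ → ℂ} {M V : ℝ} (hm : ∀ r, Measurable (Wr r))
    (hb : ∀ r u, ‖Wr r u‖ ≤ M) (hWs : ∀ r u, V < |u| → Wr r u = 0) :
    ∑ r ∈ R, (SEL.lam k a r : ℂ) * ∫ u, Wr r u * geo k (fun n => (a n : ℂ)) 0 u =
      Lf k (fun j : FJ D => ((fb j : ℚ) : ℝ)) (fun j => PsF R Wr j.1.1) (fun n => (a n : ℂ)) := by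
  have HC : CForm k (fun n => (a n : ℂ)) := WA.cf_of_hdata H
  set g : ℝ → ℝ → ℂ := geo k (fun n => (a n : ℂ)) with hg
  -- the left side
  have hL : ∀ r ∈ R, (SEL.lam k a r : ℂ) * ∫ u, Wr r u * g 0 u =
      ∑ p ∈ r.divisorsAntidiagonal, ∑ j : FJ D, if j.1.1 ∣ p.2 then
        ((1 / √r : ℝ) : ℂ) * ∫ u, Wr r u * g ((fb j : ℚ) : ℝ) (u + Real.log ((p.1 : ℝ) / p.2))
        else 0 := by
    intro r hr
    rw [← integral_const_mul]
    have h1 : (fun u => (SEL.lam k a r : ℂ) * (Wr r u * g 0 u)) = fun u =>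
        ∑ p ∈ r.divisorsAntidiagonal, ∑ j : FJ D, if j.1.1 ∣ p.2 then
          ((1 / √r : ℝ) : ℂ) * (Wr r u * g ((fb j : ℚ) : ℝ) (u + Real.log ((p.1 : ℝ) / p.2)))
          else 0 := by
      funext u
      rw [mul_left_comm, hg, hecke_geo H (hR r hr).1 u, ← hg, ← mul_assoc, mul_comm (Wr r u),
        mul_assoc, Finset.mul_sum, Finset.mul_sum]
      refine Finset.sum_congr rfl fun p hp => ?_
      obtain ⟨h2, h3, h4, -⟩ := h3_div (hR r hr).1 (hR r hr).2 hp
      rw [h3_farey h3 h4 (fun x => g x (u + Real.log ((p.1 : ℝ) / p.2))), Finset.mul_sum,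
        Finset.mul_sum]
      refine Finset.sum_congr rfl fun j _ => ?_
      split_ifs <;> simp
    rw [h1, integral_finsetSum]
    · refine Finset.sum_congr rfl fun p hp => ?_
      rw [integral_finsetSum]
      · refine Finset.sum_congr rfl fun j _ => ?_
        split_ifs
        · rw [integral_const_mul]
        · simp
      · intro j _
        split_ifs
        · exact (h3_int HC (hm r) (hb r) (hWs r) _ _).const_mul _
        · exact integrable_zero _ _ _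
    · intro p _
      refine integrable_finsetSum _ fun j _ => ?_
      split_ifs
      · exact (h3_int HC (hm r) (hb r) (hWs r) _ _).const_mul _
      · exact integrable_zero _ _ _
  rw [Finset.sum_congr rfl hL]
  -- the right side
  unfold Lf PsF
  rw [← hg]
  have hRt : ∀ j : FJ D, ∫ u, (∑ r ∈ R, ∑ p ∈ r.divisorsAntidiagonal.filter (fun p => j.1.1 ∣ p.2),
      ((1 / √r : ℝ) : ℂ) * Wr r (u - Real.log ((p.1 : ℝ) / p.2))) * g ((fb j : ℚ) : ℝ) u =
      ∑ r ∈ R, ∑ p ∈ r.divisorsAntidiagonal, if j.1.1 ∣ p.2 then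
        ((1 / √r : ℝ) : ℂ) * ∫ u, Wr r u * g ((fb j : ℚ) : ℝ) (u + Real.log ((p.1 : ℝ) / p.2))
        else 0 := by
    intro j
    have h1 : ∀ (r : ℕ) (c : ℝ), Integrable (fun u => Wr r (u - c) * g ((fb j : ℚ) : ℝ) u) ∧
        ∫ u, Wr r (u - c) * g ((fb j : ℚ) : ℝ) u = ∫ u, Wr r u * g ((fb j : ℚ) : ℝ) (u + c) := by
      intro r c
      have h2 := h3_int HC (hm r) (hb r) (hWs r) ((fb j : ℚ) : ℝ) c
      have h3 : (fun u => Wr r (u - c) * g ((fb j : ℚ) : ℝ) u) =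
          fun u => (fun v => Wr r v * g ((fb j : ℚ) : ℝ) (v + c)) (u - c) := by
        funext u
        simp
      rw [h3]
      exact ⟨h2.comp_sub_right c, integral_sub_right_eq_self
        (fun v => Wr r v * g ((fb j : ℚ) : ℝ) (v + c)) c⟩
    simp only [Finset.sum_mul, mul_assoc]
    rw [integral_finsetSum]
    · refine Finset.sum_congr rfl fun r hr => ?_
      rw [integral_finsetSum, Finset.sum_filter]
      · refine Finset.sum_congr rfl fun p hp => ?_
        split_ifs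
        · rw [integral_const_mul, (h1 r _).2]
        · rfl
      · intro p _
        exact (h1 r _).1.const_mul _
    · intro r _
      refine integrable_finsetSum _ fun p _ => ?_
      exact (h1 r _).1.const_mul _
  rw [Finset.sum_congr rfl fun j _ => hRt j, Finset.sum_comm]
  refine Finset.sum_congr rfl fun r _ => ?_
  rw [Finset.sum_comm]

end Pool.Agent.WS
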