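import Pool.Agent.Lib_helper98.WS.Defs
import Mathlib

/-!
# WS, block M3 (KPR): the arithmetic side of the quadratic form (helper29)
-/

set_option autoImplicit false

namespace Pool.Agent.WS

open Complex MeasureTheory Filter Topology
open Pool.Agent.SEL (NL Adm)

/-! ### form_arith -/

theorem m3_form (T : Finset (ℕ × ℕ × ℕ)) (D : ℕ) (hT : ∀ x ∈ T, 0 < x.2.2 ∧ x.2.2 ≤ D)
    (G : ℕ × ℕ × ℕ → ℂ) :
    ∑ d ∈ Finset.Icc 1 D, (d.totient : ℂ) * ((∑ x ∈ T, if d ∣ x.2.2 then G x else 0) *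
      starRingEnd ℂ (∑ x ∈ T, if d ∣ x.2.2 then G x else 0)) =
    ∑ x ∈ T, ∑ y ∈ T, (Nat.gcd x.2.2 y.2.2 : ℂ) * (G x * starRingEnd ℂ (G y)) := by
  have h1 : ∀ d ∈ Finset.Icc 1 D, (d.totient : ℂ) * ((∑ x ∈ T, if d ∣ x.2.2 then G x else 0) *
      starRingEnd ℂ (∑ x ∈ T, if d ∣ x.2.2 then G x else 0)) =
      ∑ x ∈ T, ∑ y ∈ T, (if d ∣ Nat.gcd x.2.2 y.2.2 then (d.totient : ℂ) else 0) *
        (G x * starRingEnd ℂ (G y)) := by
    intro d _
    rw [map_sum, Finset.sum_mul_sum, Finset.mul_sum]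
    apply Finset.sum_congr rfl
    intro x _
    rw [Finset.mul_sum]
    apply Finset.sum_congr rfl
    intro y _
    by_cases hx : d ∣ x.2.2
    · by_cases hy : d ∣ y.2.2
      · rw [if_pos hx, if_pos hy, if_pos (Nat.dvd_gcd hx hy)]
      · rw [if_pos hx, if_neg hy, if_neg (show ¬ d ∣ Nat.gcd x.2.2 y.2.2 from
          fun h => hy (h.trans (Nat.gcd_dvd_right _ _)))]
        simp
    · rw [if_neg hx, if_neg (show ¬ d ∣ Nat.gcd x.2.2 y.2.2 from
        fun h => hx (h.trans (Nat.gcd_dvd_left _ _)))]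
      simp
  rw [Finset.sum_congr rfl h1, Finset.sum_comm]
  apply Finset.sum_congr rfl
  intro x hx
  rw [Finset.sum_comm]
  apply Finset.sum_congr rfl
  intro y _
  rw [← Finset.sum_mul]
  congr 1
  rw [← Finset.sum_filter]
  have hg : 0 < Nat.gcd x.2.2 y.2.2 := Nat.gcd_pos_of_pos_left _ (hT x hx).1
  have h2 : (Finset.Icc 1 D).filter (fun d => d ∣ Nat.gcd x.2.2 y.2.2) =
      (Nat.gcd x.2.2 y.2.2).divisors := by
    ext d
    rw [Finset.mem_filter, Finset.mem_Icc, Nat.mem_divisors]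
    constructor
    · rintro ⟨_, h⟩; exact ⟨h, hg.ne'⟩
    · rintro ⟨h, _⟩
      refine ⟨⟨Nat.pos_of_dvd_of_pos h hg, ?_⟩, h⟩
      exact (Nat.le_of_dvd hg h).trans
        ((Nat.le_of_dvd (hT x hx).1 (Nat.gcd_dvd_left _ _)).trans (hT x hx).2)
  rw [h2]
  have h3 := Nat.sum_totient (Nat.gcd x.2.2 y.2.2)
  exact_mod_cast h3

theorem form_arith {D : ℕ} {R : Finset ℕ} (hR : ∀ r ∈ R, 0 < r ∧ r ≤ D) (A : ℕ → ℂ) (t : ℝ) :
    ((∑ d ∈ Finset.Icc 1 D, (d.totient : ℝ) * ‖PsH R A d t‖ ^ 2 : ℝ) : ℂ) =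
      ∑ r ∈ R, ∑ r' ∈ R, A r * starRingEnd ℂ (A r') * KD t r r' := by
  classical
  set T : Finset (ℕ × ℕ × ℕ) := R.biUnion (fun r => (r.divisorsAntidiagonal).image (fun p => (r, p))) with hTdef
  set G : ℕ × ℕ × ℕ → ℂ := fun x => ((1 / √(x.1 : ℝ) : ℝ) : ℂ) *
    cexp (t * Real.log ((x.2.1 : ℝ) / x.2.2) * I) * A x.1 with hG
  have hsumT : ∀ F : ℕ × ℕ × ℕ → ℂ, ∑ x ∈ T, F x = ∑ r ∈ R, ∑ p ∈ r.divisorsAntidiagonal, F (r, p) := by
    intro F
    rw [hTdef, Finset.sum_biUnion]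
    · apply Finset.sum_congr rfl
      intro r _
      rw [Finset.sum_image]
      intro p _ q _ h
      exact (Prod.mk.inj h).2
    · intro r _ r' _ hne
      rw [Function.onFun, Finset.disjoint_left]
      rintro x hx hx'
      rw [Finset.mem_image] at hx hx'
      obtain ⟨p, _, rfl⟩ := hx
      obtain ⟨q, _, h⟩ := hx'
      exact hne (Prod.mk.inj h).1.symm
  have hT : ∀ x ∈ T, 0 < x.2.2 ∧ x.2.2 ≤ D := by
    intro x hx
    rw [hTdef, Finset.mem_biUnion] at hx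
    obtain ⟨r, hr, hx⟩ := hx
    rw [Finset.mem_image] at hx
    obtain ⟨p, hp, rfl⟩ := hx
    have h1 := Nat.mem_divisorsAntidiagonal.1 hp
    have hr1 := hR r hr
    have hdvd : p.2 ∣ r := ⟨p.1, by rw [mul_comm]; exact h1.1.symm⟩
    exact ⟨Nat.pos_of_dvd_of_pos hdvd hr1.1, (Nat.le_of_dvd hr1.1 hdvd).trans hr1.2⟩
  have hPs : ∀ d, PsH R A d t = ∑ x ∈ T, if d ∣ x.2.2 then G x else 0 := by
    intro d
    rw [hsumT]
    unfold PsH
    apply Finset.sum_congr rfl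
    intro r _
    rw [Finset.sum_filter]
  have hmain := m3_form T D hT G
  have hL : ((∑ d ∈ Finset.Icc 1 D, (d.totient : ℝ) * ‖PsH R A d t‖ ^ 2 : ℝ) : ℂ) =
      ∑ d ∈ Finset.Icc 1 D, (d.totient : ℂ) * ((∑ x ∈ T, if d ∣ x.2.2 then G x else 0) *
      starRingEnd ℂ (∑ x ∈ T, if d ∣ x.2.2 then G x else 0)) := by
    push_cast
    apply Finset.sum_congr rfl
    intro d _
    rw [← hPs, Complex.mul_conj, Complex.normSq_eq_norm_sq]
    push_cast
    rfl
  rw [hL, hmain, hsumT]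
  apply Finset.sum_congr rfl
  intro r _
  have h5 : ∀ p ∈ r.divisorsAntidiagonal, ∑ y ∈ T, (Nat.gcd ((r, p) : ℕ × ℕ × ℕ).2.2 y.2.2 : ℂ) *
      (G (r, p) * starRingEnd ℂ (G y)) = ∑ r' ∈ R, ∑ q ∈ r'.divisorsAntidiagonal,
        (Nat.gcd p.2 q.2 : ℂ) * (G (r, p) * starRingEnd ℂ (G (r', q))) := by
    intro p _
    rw [hsumT]
  rw [Finset.sum_congr rfl h5, Finset.sum_comm]
  apply Finset.sum_congr rfl
  intro r' _
  unfold KD
  rw [Finset.mul_sum]
  apply Finset.sum_congr rfl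
  intro p _
  rw [Finset.mul_sum]
  apply Finset.sum_congr rfl
  intro q _
  simp only [hG]
  have hconj : starRingEnd ℂ (((1 / √(r' : ℝ) : ℝ) : ℂ) *
      cexp (t * Real.log ((q.1 : ℝ) / q.2) * I) * A r') =
      ((1 / √(r' : ℝ) : ℝ) : ℂ) * cexp (-(t * Real.log ((q.1 : ℝ) / q.2) * I)) *
        starRingEnd ℂ (A r') := by
    rw [map_mul, map_mul, Complex.conj_ofReal, ← Complex.exp_conj]
    congr 3
    rw [map_mul, map_mul, Complex.conj_ofReal, Complex.conj_ofReal, Complex.conj_I]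
    ring
  rw [hconj]
  have hexp : cexp (t * (Real.log ((p.1 : ℝ) / p.2) - Real.log ((q.1 : ℝ) / q.2) : ℝ) * I) =
      cexp (t * Real.log ((p.1 : ℝ) / p.2) * I) * cexp (-(t * Real.log ((q.1 : ℝ) / q.2) * I)) := by
    rw [← Complex.exp_add]
    congr 1
    push_cast
    ring
  rw [hexp]
  push_cast
  ring

/-! ### KD as a double divisor sum -/

/-- the pair function -/
noncomputable def m3_G (t : ℝ) (d d' : ℕ) : ℂ :=
  (Nat.gcd d d' : ℂ) * cexp (t * ((-2 * Real.log d + 2 * Real.log d' : ℝ)) * I)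

noncomputable def m3_c (t : ℝ) (r r' : ℕ) : ℂ :=
  ((1 / (√(r : ℝ) * √(r' : ℝ)) : ℝ) : ℂ) * cexp (t * ((Real.log r - Real.log r' : ℝ)) * I)

noncomputable def m3_K (t : ℝ) (r r' : ℕ) : ℂ :=
  ∑ d ∈ r.divisors, ∑ d' ∈ r'.divisors, m3_G t d d'

theorem m3_KD (t : ℝ) {r r' : ℕ} (hr : 0 < r) (hr' : 0 < r') :
    KD t r r' = m3_c t r r' * m3_K t r r' := by
  unfold KD m3_K
  rw [Nat.sum_divisorsAntidiagonal' (fun a b => ∑ q ∈ r'.divisorsAntidiagonal,
    (((Nat.gcd b q.2 : ℕ) / (√(r : ℝ) * √(r' : ℝ)) : ℝ) : ℂ) *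
      cexp (t * (Real.log ((a : ℝ) / b) - Real.log ((q.1 : ℝ) / q.2) : ℝ) * I))]
  rw [Finset.mul_sum]
  apply Finset.sum_congr rfl
  intro d hd
  rw [Nat.sum_divisorsAntidiagonal' (fun a b => 
    (((Nat.gcd d b : ℕ) / (√(r : ℝ) * √(r' : ℝ)) : ℝ) : ℂ) *
      cexp (t * (Real.log (((r / d : ℕ) : ℝ) / d) - Real.log ((a : ℝ) / b) : ℝ) * I))]
  rw [Finset.mul_sum]
  apply Finset.sum_congr rfl
  intro d' hd'
  have key : ∀ {n e : ℕ}, 0 < n → e ∈ n.divisors →
      Real.log (((n / e : ℕ) : ℝ) / e) = Real.log n - 2 * Real.log e := by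
    intro n e hn he
    have h1 := Nat.dvd_of_mem_divisors he
    have he0 : 0 < e := Nat.pos_of_dvd_of_pos h1 hn
    have he1 : (0 : ℝ) < e := by exact_mod_cast he0
    have hn1 : (0 : ℝ) < n := by exact_mod_cast hn
    rw [Nat.cast_div h1 he1.ne', Real.log_div (by positivity) he1.ne',
      Real.log_div hn1.ne' he1.ne']
    ring
  rw [key hr hd, key hr' hd']
  unfold m3_c m3_G
  have : cexp (t * ((Real.log r - 2 * Real.log d - (Real.log r' - 2 * Real.log d') : ℝ)) * I) =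
      cexp (t * ((Real.log r - Real.log r' : ℝ)) * I) *
      cexp (t * ((-2 * Real.log d + 2 * Real.log d' : ℝ)) * I) := by
    rw [← Complex.exp_add]
    congr 1
    push_cast
    ring
  rw [this]
  push_cast
  ring

theorem m3_c_mul (t : ℝ) {m m' n n' : ℕ} (hm : 0 < m) (hm' : 0 < m') (hn : 0 < n) (hn' : 0 < n') :
    m3_c t (m * n) (m' * n') = m3_c t m m' * m3_c t n n' := by
  have h1 : (0 : ℝ) < m := by exact_mod_cast hm
  have h2 : (0 : ℝ) < m' := by exact_mod_cast hm'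
  have h3 : (0 : ℝ) < n := by exact_mod_cast hn
  have h4 : (0 : ℝ) < n' := by exact_mod_cast hn'
  unfold m3_c
  have hre : 1 / (√(((m * n : ℕ) : ℝ)) * √(((m' * n' : ℕ) : ℝ))) =
      (1 / (√(m : ℝ) * √(m' : ℝ))) * (1 / (√(n : ℝ) * √(n' : ℝ))) := by
    rw [Nat.cast_mul, Nat.cast_mul, Real.sqrt_mul h1.le, Real.sqrt_mul h2.le]
    field_simp
  have hl : Real.log ((m * n : ℕ) : ℝ) - Real.log ((m' * n' : ℕ) : ℝ) =
      (Real.log m - Real.log m') + (Real.log n - Real.log n') := by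
    rw [Nat.cast_mul, Nat.cast_mul, Real.log_mul h1.ne' h3.ne', Real.log_mul h2.ne' h4.ne']
    ring
  rw [hre, hl, Complex.ofReal_mul, Complex.ofReal_add, mul_add, add_mul, Complex.exp_add]
  ring

theorem m3_G_mul (t : ℝ) {a a' b b' : ℕ} (ha : 0 < a) (ha' : 0 < a') (hb : 0 < b) (hb' : 0 < b')
    (h1 : a.Coprime b') (h2 : b.Coprime a') (h3 : a'.Coprime b') :
    m3_G t (a * b) (a' * b') = m3_G t a a' * m3_G t b b' := by
  have h1' : (0 : ℝ) < a := by exact_mod_cast ha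
  have h2' : (0 : ℝ) < a' := by exact_mod_cast ha'
  have h3' : (0 : ℝ) < b := by exact_mod_cast hb
  have h4' : (0 : ℝ) < b' := by exact_mod_cast hb'
  unfold m3_G
  have hg : Nat.gcd (a * b) (a' * b') = Nat.gcd a a' * Nat.gcd b b' := by
    rw [Nat.Coprime.gcd_mul (a * b) h3, Nat.Coprime.gcd_mul_right_cancel a h2,
      Nat.Coprime.gcd_mul_left_cancel b h1]
  have hl : -2 * Real.log ((a * b : ℕ) : ℝ) + 2 * Real.log ((a' * b' : ℕ) : ℝ) =
      (-2 * Real.log a + 2 * Real.log a') + (-2 * Real.log b + 2 * Real.log b') := by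
    rw [Nat.cast_mul, Nat.cast_mul, Real.log_mul h1'.ne' h3'.ne', Real.log_mul h2'.ne' h4'.ne']
    ring
  rw [hg, hl, Complex.ofReal_add, mul_add, add_mul, Complex.exp_add, Nat.cast_mul]
  ring

theorem m3_sum_div {m n : ℕ} (h : m.Coprime n) (f : ℕ → ℂ) :
    ∑ d ∈ (m * n).divisors, f d = ∑ a ∈ m.divisors, ∑ b ∈ n.divisors, f (a * b) := by
  classical
  rw [← Finset.sum_product']
  symm
  rcases Nat.eq_zero_or_pos m with rfl | hm
  · simp
  rcases Nat.eq_zero_or_pos n with rfl | hn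
  · simp
  apply Finset.sum_bij (fun (x : ℕ × ℕ) _ => x.1 * x.2)
  · rintro ⟨a, b⟩ hx
    rw [Finset.mem_product] at hx
    exact Nat.mem_divisors.2 ⟨Nat.mul_dvd_mul (Nat.dvd_of_mem_divisors hx.1)
      (Nat.dvd_of_mem_divisors hx.2), (Nat.mul_pos hm hn).ne'⟩
  · rintro ⟨a, b⟩ hx ⟨a', b'⟩ hx' heq
    rw [Finset.mem_product] at hx hx'
    simp only at heq hx hx'
    have ha := Nat.dvd_of_mem_divisors hx.1
    have hb := Nat.dvd_of_mem_divisors hx.2
    have ha' := Nat.dvd_of_mem_divisors hx'.1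
    have hb' := Nat.dvd_of_mem_divisors hx'.2
    have e1 : a ∣ a' := by
      have : a ∣ a' * b' := heq ▸ Dvd.intro b rfl
      exact (Nat.Coprime.of_dvd ha hb' h).dvd_of_dvd_mul_right this
    have e2 : a' ∣ a := by
      have : a' ∣ a * b := heq.symm ▸ Dvd.intro b' rfl
      exact (Nat.Coprime.of_dvd ha' hb h).dvd_of_dvd_mul_right this
    have e3 : a = a' := Nat.dvd_antisymm e1 e2
    subst e3
    have ha0 : 0 < a := Nat.pos_of_dvd_of_pos ha hm
    have e4 : b = b' := Nat.eq_of_mul_eq_mul_left ha0 heq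
    rw [e4]
  · intro d hd
    have hdvd := Nat.dvd_of_mem_divisors hd
    refine ⟨(Nat.gcd d m, Nat.gcd d n), ?_, ?_⟩
    · rw [Finset.mem_product]
      exact ⟨Nat.mem_divisors.2 ⟨Nat.gcd_dvd_right _ _, hm.ne'⟩,
        Nat.mem_divisors.2 ⟨Nat.gcd_dvd_right _ _, hn.ne'⟩⟩
    · simp only
      rw [← Nat.Coprime.gcd_mul d h]
      exact Nat.gcd_eq_left hdvd
  · rintro ⟨a, b⟩ _
    rfl

theorem m3_K_mul (t : ℝ) {m m' n n' : ℕ} (hm : 0 < m) (hm' : 0 < m') (hn : 0 < n) (hn' : 0 < n')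
    (h : (m * m').Coprime (n * n')) :
    m3_K t (m * n) (m' * n') = m3_K t m m' * m3_K t n n' := by
  have c1 : m.Coprime n := Nat.Coprime.of_dvd (Dvd.intro _ rfl) (Dvd.intro _ rfl) h
  have c2 : m'.Coprime n' := Nat.Coprime.of_dvd (Dvd.intro_left _ rfl) (Dvd.intro_left _ rfl) h
  have c3 : m.Coprime n' := Nat.Coprime.of_dvd (Dvd.intro _ rfl) (Dvd.intro_left _ rfl) h
  have c4 : m'.Coprime n := Nat.Coprime.of_dvd (Dvd.intro_left _ rfl) (Dvd.intro _ rfl) h
  unfold m3_K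
  rw [m3_sum_div c1, Finset.sum_mul_sum]
  have h1 : ∀ a ∈ m.divisors, ∑ b ∈ n.divisors, ∑ d' ∈ (m' * n').divisors, m3_G t (a * b) d' =
      ∑ b ∈ n.divisors, (∑ a' ∈ m'.divisors, m3_G t a a') * (∑ b' ∈ n'.divisors, m3_G t b b') := by
    intro a ha
    apply Finset.sum_congr rfl
    intro b hb
    rw [m3_sum_div c2, Finset.sum_mul_sum]
    apply Finset.sum_congr rfl
    intro a' ha'
    apply Finset.sum_congr rfl
    intro b' hb'
    have da := Nat.dvd_of_mem_divisors ha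
    have db := Nat.dvd_of_mem_divisors hb
    have da' := Nat.dvd_of_mem_divisors ha'
    have db' := Nat.dvd_of_mem_divisors hb'
    exact m3_G_mul t (Nat.pos_of_dvd_of_pos da hm) (Nat.pos_of_dvd_of_pos da' hm')
      (Nat.pos_of_dvd_of_pos db hn) (Nat.pos_of_dvd_of_pos db' hn')
      (Nat.Coprime.of_dvd da db' c3) (Nat.Coprime.of_dvd db da' c4.symm)
      (Nat.Coprime.of_dvd da' db' c2)
  exact Finset.sum_congr rfl h1

theorem m3_KD_mul (t : ℝ) {m m' n n' : ℕ} (hm : 0 < m) (hm' : 0 < m') (hn : 0 < n) (hn' : 0 < n')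
    (h : (m * m').Coprime (n * n')) :
    KD t (m * n) (m' * n') = KD t m m' * KD t n n' := by
  rw [m3_KD t (Nat.mul_pos hm hn) (Nat.mul_pos hm' hn'), m3_KD t hm hm', m3_KD t hn hn',
    m3_c_mul t hm hm' hn hn', m3_K_mul t hm hm' hn hn' h]
  ring

theorem m3_KD_pow {p : ℕ} (hp : p.Prime) (t : ℝ) (i j : ℕ) : KD t (p ^ i) (p ^ j) = Kp p t i j := by
  have hp0 : (0 : ℝ) < p := by exact_mod_cast hp.pos
  rw [m3_KD t (pow_pos hp.pos i) (pow_pos hp.pos j)]
  unfold m3_K Kp m3_c m3_G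
  rw [Nat.sum_divisors_prime_pow hp, Finset.mul_sum]
  apply Finset.sum_congr rfl
  intro α _
  rw [Nat.sum_divisors_prime_pow hp, Finset.mul_sum]
  apply Finset.sum_congr rfl
  intro β _
  have hg : Nat.gcd (p ^ α) (p ^ β) = p ^ (min α β) := by
    rcases le_total α β with h | h
    · rw [min_eq_left h, Nat.gcd_eq_left (pow_dvd_pow p h)]
    · rw [min_eq_right h, Nat.gcd_eq_right (pow_dvd_pow p h)]
  have hsq : ∀ n : ℕ, √(((p ^ n : ℕ) : ℝ)) = (p : ℝ) ^ ((n : ℝ) / 2) := by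
    intro n
    rw [Nat.cast_pow, Real.sqrt_eq_rpow, ← Real.rpow_natCast, ← Real.rpow_mul hp0.le]
    congr 1
    ring
  have hlog : ∀ n : ℕ, Real.log (((p ^ n : ℕ) : ℝ)) = n * Real.log p := by
    intro n
    rw [Nat.cast_pow, Real.log_pow]
  rw [hg, hsq, hsq, hlog, hlog, hlog, hlog]
  have hreal : (p : ℝ) ^ (-((i : ℝ) + j) / 2 + (min α β : ℕ)) =
      1 / ((p : ℝ) ^ ((i : ℝ) / 2) * (p : ℝ) ^ ((j : ℝ) / 2)) * ((p ^ (min α β) : ℕ) : ℝ) := by
    rw [← Real.rpow_add hp0, one_div, ← Real.rpow_neg hp0.le, Nat.cast_pow, ← Real.rpow_natCast,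
      ← Real.rpow_add hp0]
    congr 1
    ring
  rw [hreal]
  have hexp : cexp (t * (Real.log p * (((i : ℝ) - 2 * α) - ((j : ℝ) - 2 * β)) : ℝ) * I) =
      cexp (t * ((i * Real.log p - j * Real.log p : ℝ)) * I) *
      cexp (t * ((-2 * (α * Real.log p) + 2 * (β * Real.log p) : ℝ)) * I) := by
    rw [← Complex.exp_add]
    congr 1
    push_cast
    ring
  rw [hexp]
  push_cast
  ring

theorem KD_prod {N : ℕ} (t : ℝ) {r r' : ℕ} (hr : r ∈ Nat.smoothNumbers N)
    (hr' : r' ∈ Nat.smoothNumbers N) :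
    KD t r r' = ∏ p ∈ Nat.primesBelow N, Kp p t (r.factorization p) (r'.factorization p) := by
  induction N generalizing r r' with
  | zero =>
    rw [Nat.smoothNumbers_zero, Set.mem_singleton_iff] at hr hr'
    subst hr hr'
    have : Nat.primesBelow 0 = ∅ := rfl
    rw [this, Finset.prod_empty, m3_KD t one_pos one_pos]
    unfold m3_c m3_K m3_G
    simp
  | succ N ih =>
    by_cases hN : N.Prime
    · rw [Nat.primesBelow_succ, if_pos hN, Finset.prod_insert (Nat.notMem_primesBelow N)]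
      have hr0 : r ≠ 0 := Nat.ne_zero_of_mem_smoothNumbers hr
      have hr0' : r' ≠ 0 := Nat.ne_zero_of_mem_smoothNumbers hr'
      have key : ∀ {n : ℕ}, n ≠ 0 → n ∈ Nat.smoothNumbers (N + 1) →
          ordCompl[N] n ∈ Nat.smoothNumbers N ∧
          (ordCompl[N] n).Coprime (ordProj[N] n) ∧ ordProj[N] n * ordCompl[N] n = n := by
        intro n hn0 hn
        refine ⟨?_, ?_, Nat.ordProj_mul_ordCompl_eq_self n N⟩
        · rw [Nat.mem_smoothNumbers']
          intro p hp hdvd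
          have h1 : p < N + 1 := Nat.mem_smoothNumbers'.1 hn p hp
            (hdvd.trans (Nat.ordCompl_dvd n N))
          have h2 : p ≠ N := by
            rintro rfl
            exact Nat.not_dvd_ordCompl hp hn0 hdvd
          omega
        · exact (Nat.Coprime.pow_left _ (Nat.coprime_ordCompl hN hn0)).symm
      obtain ⟨s1, s2, s3⟩ := key hr0 hr
      obtain ⟨s1', s2', s3'⟩ := key hr0' hr'
      have hpos : 0 < ordCompl[N] r := Nat.ordCompl_pos N hr0
      have hpos' : 0 < ordCompl[N] r' := Nat.ordCompl_pos N hr0'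
      have hfac : ∀ {n : ℕ}, n ≠ 0 → ∀ p ∈ Nat.primesBelow N,
          (ordCompl[N] n).factorization p = n.factorization p := by
        intro n _ p hp
        rw [Nat.factorization_ordCompl, Finsupp.erase_ne]
        rw [Nat.mem_primesBelow] at hp
        omega
      have hcop : (ordProj[N] r * ordProj[N] r').Coprime (ordCompl[N] r * ordCompl[N] r') := by
        have a1 : (N ^ (r.factorization N)).Coprime (ordCompl[N] r) := s2.symm
        have a2 : (N ^ (r'.factorization N)).Coprime (ordCompl[N] r') := s2'.symm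
        have a3 : (N ^ (r.factorization N)).Coprime (ordCompl[N] r') :=
          Nat.Coprime.pow_left _ (Nat.coprime_ordCompl hN hr0')
        have a4 : (N ^ (r'.factorization N)).Coprime (ordCompl[N] r) :=
          Nat.Coprime.pow_left _ (Nat.coprime_ordCompl hN hr0)
        exact Nat.Coprime.mul_left (Nat.Coprime.mul_right a1 a3) (Nat.Coprime.mul_right a4 a2)
      calc KD t r r' = KD t (ordProj[N] r * ordCompl[N] r) (ordProj[N] r' * ordCompl[N] r') := by
            rw [s3, s3']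
        _ = KD t (ordProj[N] r) (ordProj[N] r') * KD t (ordCompl[N] r) (ordCompl[N] r') :=
            m3_KD_mul t (Nat.ordProj_pos r N) (Nat.ordProj_pos r' N) hpos hpos' hcop
        _ = Kp N t (r.factorization N) (r'.factorization N) *
            ∏ p ∈ Nat.primesBelow N, Kp p t (r.factorization p) (r'.factorization p) := by
            rw [m3_KD_pow hN, ih s1 s1']
            congr 1
            apply Finset.prod_congr rfl
            intro p hp
            rw [hfac hr0 p hp, hfac hr0' p hp]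
    · rw [Nat.smoothNumbers_succ hN] at hr hr'
      rw [Nat.primesBelow_succ, if_neg hN]
      exact ih hr hr'

end Pool.Agent.WS
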