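import Pool.Agent.Lib_helper98.WSF.H1
import Pool.Agent.Lib_helper98.WSF.M2
import Pool.Agent.Lib_helper98.WSF.M3

/-! # Block M4 (FRM): the quadratic form in the model (cites M1, M2, M3, hs_le of H1) -/

namespace Pool.Agent.WS

open Complex MeasureTheory Filter Topology
open Pool.Agent.SEL (NL Adm)

theorem M4_th {N : ℕ} (X : Nat.primesBelow N → ℝ) (p : Nat.primesBelow N) :
    th X p = 2 * Real.cos (X p) := by
  unfold th
  rw [dif_pos p.2]

theorem M4_hs {N r : ℕ} (hr : r ∈ Nat.smoothNumbers N) (θ : ℕ → ℝ) :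
    hs θ r = ∏ p ∈ Nat.primesBelow N, SEL.Uc (θ p) (r.factorization p) := by
  unfold hs
  refine Finsupp.prod_of_support_subset _ ?_ _ fun p _ => by simp [SEL.Uc]
  intro p hp
  rw [Nat.support_factorization] at hp
  have h1 := Nat.mem_primeFactors.1 hp
  rw [Nat.mem_primesBelow]
  exact ⟨Nat.mem_smoothNumbers'.1 hr p h1.1 h1.2.1, h1.1⟩

/-- the local function -/
noncomputable def M4_f (t : ℝ) (r r' p : ℕ) (x : ℝ) : ℂ :=
  (((‖EE (2 * Real.cos x) ((p : ℂ) ^ (-(1 / 2 + t * I)))‖ ^ 2)⁻¹ *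
    (SEL.Uc (2 * Real.cos x) (r.factorization p) *
      SEL.Uc (2 * Real.cos x) (r'.factorization p)) : ℝ) : ℂ)

theorem M4_prod {N r r' : ℕ} (hr : r ∈ Nat.smoothNumbers N) (hr' : r' ∈ Nat.smoothNumbers N)
    (t : ℝ) (X : Nat.primesBelow N → ℝ) :
    ((‖LX N (th X) (1 / 2 + t * I)‖ ^ 2 * (hs (th X) r * hs (th X) r') : ℝ) : ℂ) =
      ∏ p : Nat.primesBelow N, M4_f t r r' p (X p) := by
  unfold M4_f
  rw [← Complex.ofReal_prod]
  congr 1
  have h1 : ∀ g : ℕ → ℝ, ∏ p ∈ Nat.primesBelow N, g p = ∏ p : Nat.primesBelow N, g p :=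
    fun g => (Finset.prod_coe_sort (Nat.primesBelow N) g).symm
  rw [M4_hs hr, M4_hs hr', LX, norm_prod, h1, h1, h1, ← Finset.prod_pow, ← Finset.prod_mul_distrib,
    ← Finset.prod_mul_distrib]
  refine Finset.prod_congr rfl fun p _ => ?_
  rw [M4_th, norm_inv, inv_pow]

theorem M4_int {N r r' : ℕ} (hr : r ∈ Nat.smoothNumbers N) (hr' : r' ∈ Nat.smoothNumbers N)
    (t : ℝ) :
    ∫ X, ((‖LX N (th X) (1 / 2 + t * I)‖ ^ 2 * (hs (th X) r * hs (th X) r') : ℝ) : ℂ) ∂(mu N) =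
      ∏ p ∈ Nat.primesBelow N, ∫ x, M4_f t r r' p x ∂st := by
  simp_rw [M4_prod hr hr']
  exact mu_prod N (M4_f t r r')

theorem M4_integrable {N r r' : ℕ} (hr : r ∈ Nat.smoothNumbers N) (hr' : r' ∈ Nat.smoothNumbers N)
    (t : ℝ) :
    Integrable (fun X => ((‖LX N (th X) (1 / 2 + t * I)‖ ^ 2 *
      (hs (th X) r * hs (th X) r') : ℝ) : ℂ)) (mu N) := by
  have := mu_prob N
  have hσ : 0 < ((1 / 2 : ℂ) + t * I).re := by simp
  obtain ⟨C, hC⟩ := LX_bdd N hσ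
  have hr0 : 0 < r := Nat.pos_of_ne_zero (Nat.ne_zero_of_mem_smoothNumbers hr)
  have hr0' : 0 < r' := Nat.pos_of_ne_zero (Nat.ne_zero_of_mem_smoothNumbers hr')
  refine Integrable.of_bound (C := C ^ 2 * (r * r')) ?_ (Eventually.of_forall fun X => ?_)
  · exact (Complex.continuous_ofReal.comp (((LX_cont N hσ).norm.pow 2).mul
      ((hs_cont N r).mul (hs_cont N r')))).aestronglyMeasurable
  · rw [Complex.norm_real, Real.norm_eq_abs, abs_mul, abs_mul, abs_of_nonneg (by positivity)]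
    have h1 := hC X
    have h2 := (hs_le (th_le X) hr0).1
    have h3 := (hs_le (th_le X) hr0').1
    gcongr

theorem st_form {N D : ℕ} {R : Finset ℕ} (hR : ∀ r ∈ R, r ≤ D ∧ r ∈ Nat.smoothNumbers N)
    (A : ℕ → ℂ) (t : ℝ) :
    ∑ d ∈ Finset.Icc 1 D, (d.totient : ℝ) * ‖PsH R A d t‖ ^ 2 =
      (∏ p ∈ Nat.primesBelow N, (1 - 1 / (p : ℝ))) *
        ∫ X, ‖LX N (th X) (1 / 2 + t * I)‖ ^ 2 * ‖∑ r ∈ R, A r * (hs (th X) r : ℂ)‖ ^ 2 ∂(mu N) := by
  have hR' : ∀ r ∈ R, 0 < r ∧ r ≤ D := fun r hr =>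
    ⟨Nat.pos_of_ne_zero (Nat.ne_zero_of_mem_smoothNumbers (hR r hr).2), (hR r hr).1⟩
  rw [← Complex.ofReal_inj, form_arith hR' A t, Complex.ofReal_mul, ← integral_complex_ofReal]
  have h1 : ∀ X : Nat.primesBelow N → ℝ, ((‖LX N (th X) (1 / 2 + t * I)‖ ^ 2 *
      ‖∑ r ∈ R, A r * (hs (th X) r : ℂ)‖ ^ 2 : ℝ) : ℂ) =
      ∑ r ∈ R, ∑ r' ∈ R, A r * starRingEnd ℂ (A r') *
        ((‖LX N (th X) (1 / 2 + t * I)‖ ^ 2 * (hs (th X) r * hs (th X) r') : ℝ) : ℂ) := by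
    intro X
    have h2 : ((‖∑ r ∈ R, A r * (hs (th X) r : ℂ)‖ ^ 2 : ℝ) : ℂ) =
        (∑ r ∈ R, A r * (hs (th X) r : ℂ)) * ∑ r' ∈ R, starRingEnd ℂ (A r') * (hs (th X) r' : ℂ) := by
      have h3 : ∑ r' ∈ R, starRingEnd ℂ (A r') * (hs (th X) r' : ℂ) =
          starRingEnd ℂ (∑ r ∈ R, A r * (hs (th X) r : ℂ)) := by
        rw [map_sum]
        exact Finset.sum_congr rfl fun r _ => by rw [map_mul, Complex.conj_ofReal]
      rw [h3, Complex.mul_conj, Complex.normSq_eq_norm_sq]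
    rw [Complex.ofReal_mul, h2, Finset.sum_mul_sum, Finset.mul_sum]
    refine Finset.sum_congr rfl fun r _ => ?_
    rw [Finset.mul_sum]
    refine Finset.sum_congr rfl fun r' _ => ?_
    push_cast
    ring
  simp_rw [h1]
  rw [integral_finsetSum]
  swap
  · intro r hr
    exact integrable_finsetSum _ fun r' hr' =>
      (M4_integrable (hR r hr).2 (hR r' hr').2 t).const_mul _
  rw [Finset.mul_sum]
  refine Finset.sum_congr rfl fun r hr => ?_
  rw [integral_finsetSum]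
  swap
  · intro r' hr'
    exact (M4_integrable (hR r hr).2 (hR r' hr').2 t).const_mul _
  rw [Finset.mul_sum]
  refine Finset.sum_congr rfl fun r' hr' => ?_
  rw [integral_const_mul, M4_int (hR r hr).2 (hR r' hr').2, KD_prod t (hR r hr).2 (hR r' hr').2]
  have h2 : ∏ p ∈ Nat.primesBelow N, Kp p t (r.factorization p) (r'.factorization p) =
      ((∏ p ∈ Nat.primesBelow N, (1 - 1 / (p : ℝ)) : ℝ) : ℂ) *
        ∏ p ∈ Nat.primesBelow N, ∫ x, M4_f t r r' p x ∂st := by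
    rw [Complex.ofReal_prod, ← Finset.prod_mul_distrib]
    refine Finset.prod_congr rfl fun p hp => ?_
    rw [← kern (Nat.prime_of_mem_primesBelow hp), Complex.ofReal_mul]
    unfold M4_f
    rw [integral_complex_ofReal]
  rw [h2]
  ring

end Pool.Agent.WS
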