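import Pool.Agent.Lib_helper98.WSF.M11
import Pool.Agent.Lib_helper98.WSF.M4
import Pool.Agent.Lib_helper98.WSF.M6

/-!
# Block S1C (SFO): the quadratic form of the mollifier
-/

set_option autoImplicit false

namespace Pool.Agent.WS

open Complex MeasureTheory Filter Topology
open scoped ENNReal
open Pool.Agent.SEL (NL Adm)

/-- the expansion of the product of two mollifier coefficients over `RS L` -/
theorem s1c_lin {L : ℝ} {m l : ℕ} (hm : m ∈ Finset.Ico 1 (NL L)) (hl : l ∈ Finset.Ico 1 (NL L))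
    (θ : ℕ → ℝ) :
    ∑ r ∈ RS L, CC m l 1 r * hs θ r = al θ m * al θ l := by
  obtain ⟨hm1, hm2⟩ := Finset.mem_Ico.1 hm
  obtain ⟨hl1, hl2⟩ := Finset.mem_Ico.1 hl
  have h := lin (m := m) (l := l) (n := 1) (by omega) (by omega) Nat.one_pos θ
  rw [hs_one, mul_one] at h
  rw [h]
  symm
  have hml : 0 < m * l * 1 := by
    rw [mul_one]; exact Nat.mul_pos (by omega) (by omega)
  refine Finset.sum_subset_zero_on_sdiff ?_ ?_ (fun _ _ => rfl)
  · intro M hM
    have hd := Nat.dvd_of_mem_divisors hM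
    have hM0 : M ≠ 0 := by
      rintro rfl; exact hml.ne' (Nat.eq_zero_of_zero_dvd hd)
    rw [RS, Nat.smoothNumbersUpTo, Finset.mem_filter, Finset.mem_range]
    constructor
    · have h1 : M ≤ m * l * 1 := Nat.le_of_dvd hml hd
      have h2 : m * l ≤ NL L * NL L := Nat.mul_le_mul hm2.le hl2.le
      omega
    · rw [Nat.mem_smoothNumbers']
      intro p hp hpM
      have hdv : p ∣ m * l := by
        have := hpM.trans hd
        rwa [mul_one] at this
      rcases (Nat.Prime.dvd_mul hp).1 hdv with h1 | h1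
      · exact lt_of_le_of_lt (Nat.le_of_dvd (by omega) h1) hm2
      · exact lt_of_le_of_lt (Nat.le_of_dvd (by omega) h1) hl2
  · intro M hM
    have hnd : ¬ M ∣ m * l * 1 := by
      intro hd
      exact (Finset.mem_sdiff.1 hM).2 (Nat.mem_divisors.2 ⟨hd, hml.ne'⟩)
    rw [CC, if_neg hnd, zero_mul]

/-- the terms of the mollifier on the critical line -/
theorem s1c_cpow {m : ℕ} (hm : 1 ≤ m) (t : ℝ) :
    (m : ℂ) ^ (-(1 / 2 + t * I)) = ((1 / √m : ℝ) : ℂ) * cexp (-(t * Real.log m * I)) := by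
  have hm0 : (m : ℂ) ≠ 0 := by exact_mod_cast (by omega : m ≠ 0)
  have hmpos : (0 : ℝ) < m := by exact_mod_cast hm
  rw [neg_add, Complex.cpow_add _ _ hm0]
  congr 1
  · have e : 1 / √(m : ℝ) = (m : ℝ) ^ (-(1 / 2) : ℝ) := by
      rw [Real.rpow_neg hmpos.le, ← Real.sqrt_eq_rpow, one_div]
    rw [e, Complex.ofReal_cpow hmpos.le]
    push_cast; rfl
  · rw [Complex.cpow_def_of_ne_zero hm0, Complex.natCast_log]
    congr 1; ring

/-- Block S1C -/
theorem AA_sum (L : ℝ) (Θ : ℝ → ℝ) (t : ℝ) (θ : ℕ → ℝ) :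
    ∑ r ∈ RS L, AA L Θ t r * (hs θ r : ℂ) = ((‖mol L Θ θ (1 / 2 + t * I)‖ ^ 2 : ℝ) : ℂ) := by
  have hmol : mol L Θ θ (1 / 2 + t * I) = ∑ m ∈ Finset.Ico 1 (NL L),
      ((al θ m * xm L Θ m : ℝ) : ℂ) * cexp (-(t * Real.log m * I)) := by
    rw [mol]
    refine Finset.sum_congr rfl fun m hm => ?_
    rw [s1c_cpow (Finset.mem_Ico.1 hm).1, xm]
    push_cast; ring
  have hconj : starRingEnd ℂ (mol L Θ θ (1 / 2 + t * I)) = ∑ m ∈ Finset.Ico 1 (NL L),
      ((al θ m * xm L Θ m : ℝ) : ℂ) * cexp (t * Real.log m * I) := by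
    rw [hmol, map_sum]
    refine Finset.sum_congr rfl fun m _ => ?_
    rw [map_mul, Complex.conj_ofReal, ← Complex.exp_conj]
    congr 2
    rw [map_neg, map_mul, map_mul, Complex.conj_ofReal, Complex.conj_ofReal, Complex.conj_I]
    ring
  have hR : ((‖mol L Θ θ (1 / 2 + t * I)‖ ^ 2 : ℝ) : ℂ) =
      starRingEnd ℂ (mol L Θ θ (1 / 2 + t * I)) * mol L Θ θ (1 / 2 + t * I) := by
    rw [mul_comm (starRingEnd ℂ _), Complex.mul_conj, Complex.normSq_eq_norm_sq]
  rw [hR, hconj, hmol, Finset.sum_mul_sum]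
  unfold AA
  simp only [Finset.sum_mul]
  rw [Finset.sum_comm]
  refine Finset.sum_congr rfl fun m hm => ?_
  rw [Finset.sum_comm]
  refine Finset.sum_congr rfl fun l hl => ?_
  have h := s1c_lin hm hl θ
  have h' : ∑ r ∈ RS L, ((CC m l 1 r : ℝ) : ℂ) * (hs θ r : ℂ) = (al θ m : ℂ) * (al θ l : ℂ) := by
    rw [← Complex.ofReal_mul, ← h]; push_cast; rfl
  calc ∑ r ∈ RS L, ((xm L Θ m * xm L Θ l * CC m l 1 r : ℝ) : ℂ) *
        cexp (t * (Real.log m - Real.log l : ℝ) * I) * (hs θ r : ℂ)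
      = ∑ r ∈ RS L, (xm L Θ m : ℂ) * (xm L Θ l : ℂ) *
          cexp (t * (Real.log m - Real.log l : ℝ) * I) * (((CC m l 1 r : ℝ) : ℂ) * (hs θ r : ℂ)) := by
        refine Finset.sum_congr rfl fun r _ => ?_
        push_cast; ring
    _ = (xm L Θ m : ℂ) * (xm L Θ l : ℂ) * cexp (t * (Real.log m - Real.log l : ℝ) * I) *
          ((al θ m : ℂ) * (al θ l : ℂ)) := by
        rw [← Finset.mul_sum, h']
    _ = _ := by
        have e : cexp (t * (Real.log m - Real.log l : ℝ) * I) =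
            cexp (t * Real.log m * I) * cexp (-(t * Real.log l * I)) := by
          rw [← Complex.exp_add]
          congr 1
          push_cast; ring
        rw [e]
        push_cast
        ring

/-- Block S1C -/
theorem s1_form {Θ : ℝ → ℝ} (hA : Adm Θ) (h1 : ∀ x, 1 ≤ x → Θ x = 0) :
    ∃ C : ℝ, 0 < C ∧ ∀ L t : ℝ, 1 ≤ L →
      ∑ d ∈ Finset.Icc 1 (NL L * NL L), (d.totient : ℝ) * ‖PsH (RS L) (AA L Θ t) d t‖ ^ 2 ≤
        C / L := by
  obtain ⟨C, hC, h⟩ := mb_final hA h1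
  refine ⟨C, hC, fun L t hL => ?_⟩
  have hL0 : 0 < L := by linarith
  have hNL : Real.exp L ≤ NL L := Nat.le_ceil _
  have hNL2 : 2 ≤ NL L := by
    have h2 : (2 : ℝ) ≤ NL L := by
      have := Real.add_one_le_exp L
      linarith
    exact_mod_cast h2
  have hform := st_form (N := NL L) (D := NL L * NL L) (R := RS L) (fun r hr => by
    rw [RS, Nat.smoothNumbersUpTo, Finset.mem_filter, Finset.mem_range] at hr
    exact ⟨by omega, hr.2⟩) (AA L Θ t) t
  rw [hform]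
  have hre : ((1 : ℂ) / 2 + t * I).re = 1 / 2 := by simp
  have hb := h L (NL L) (1 / 2 + t * I) 0 hL le_rfl le_rfl zero_le_one (Or.inl ⟨hre, rfl⟩)
  have e1 : ∀ X : Nat.primesBelow (NL L) → ℝ,
      ‖LX (NL L) (th X) (1 / 2 + t * I)‖ ^ 2 * ‖∑ r ∈ RS L, AA L Θ t r * (hs (th X) r : ℂ)‖ ^ 2 =
      ‖LX (NL L) (th X) (1 / 2 + t * I)‖ ^ 2 *
        ‖mol L Θ (th X) (1 / 2 + t * I - ((0 : ℝ) : ℂ) / L)‖ ^ 4 := by
    intro X
    rw [AA_sum, Complex.norm_real, Real.norm_of_nonneg (by positivity)]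
    simp only [ofReal_zero, zero_div, sub_zero]
    ring
  simp only [e1]
  have hmert := mertens_up hNL2
  have hlog : L ≤ Real.log (NL L) := by
    have := Real.log_le_log (Real.exp_pos L) hNL
    rwa [Real.log_exp] at this
  have hprod : 0 ≤ ∏ p ∈ Nat.primesBelow (NL L), (1 - 1 / (p : ℝ)) := by
    refine Finset.prod_nonneg fun p hp => ?_
    have hpp := (Nat.mem_primesBelow.1 hp).2
    have h2 : (1 : ℝ) ≤ p := by exact_mod_cast hpp.one_lt.le
    have : 1 / (p : ℝ) ≤ 1 := by rw [div_le_one (by linarith)]; exact h2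
    linarith
  calc (∏ p ∈ Nat.primesBelow (NL L), (1 - 1 / (p : ℝ))) *
        ∫ X, ‖LX (NL L) (th X) (1 / 2 + t * I)‖ ^ 2 *
          ‖mol L Θ (th X) (1 / 2 + t * I - ((0 : ℝ) : ℂ) / L)‖ ^ 4 ∂(mu (NL L))
      ≤ (∏ p ∈ Nat.primesBelow (NL L), (1 - 1 / (p : ℝ))) * C :=
        mul_le_mul_of_nonneg_left hb hprod
    _ ≤ (1 / Real.log (NL L)) * C := mul_le_mul_of_nonneg_right hmert hC.le
    _ ≤ (1 / L) * C := by
        refine mul_le_mul_of_nonneg_right ?_ hC.le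
        exact one_div_le_one_div_of_le hL0 hlog
    _ = C / L := by ring

end Pool.Agent.WS
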