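import Pool.Agent.Lib_helper98.WSF.A3
import Pool.Agent.Lib_helper98.WSF.H3
import Pool.Agent.Lib_helper98.WSF.S1A
import Pool.Agent.Lib_helper98.WSF.S1B
import Pool.Agent.Lib_helper98.WSF.S1C
import Pool.Agent.Lib_helper98.WAF.B1a
import Pool.Agent.Lib_helper98.WAF.B3
import Pool.Agent.Lib_helper98.WAF.B4
import Pool.Agent.Lib_helper24.SQ.PL

/-! Block S1D (SON): the first mean value (helper50). -/

namespace Pool.Agent.WS

open Complex MeasureTheory Filter Topology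
open scoped ENNReal
open Pool.Agent.GL2 (qs HData FD)
open Pool.Agent.WA (CForm pn geo Lf gd gk omk om Fam rho PsiB KS MainI MainR vz ch)
open Pool.Agent.SEL (NL Adm)
open Pool.Agent.SQS (hat)

theorem s1d_bessel {k : ℕ} (hk : 2 ≤ k) {ι : Type} [Fintype ι] (F : Fam k ι) (L : (ℕ → ℂ) → ℂ)
    (hL : ∀ c : ι → ℂ, L (fun n => ∑ i, c i * F.c i n) = ∑ i, c i * L (F.c i))
    {M : ℝ} (hM0 : 0 ≤ M) (hM : ∀ b, CForm k b → ‖L b‖ ^ 2 ≤ M * pn k b) :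
    ∑ i, om k (F.a i) * ‖L (F.c i)‖ ^ 2 ≤ omk k * M := by
  have h0 := Pool.Agent.WA.omk_pos hk
  have h1 := Pool.Agent.WA.bessel hk F L hL hM0 hM
  have h2 : ∀ i, om k (F.a i) * ‖L (F.c i)‖ ^ 2 = omk k * (‖L (F.c i)‖ ^ 2 / pn k (F.c i)) := by
    intro i
    show omk k / pn k (F.c i) * ‖L (F.c i)‖ ^ 2 = _
    ring
  calc ∑ i, om k (F.a i) * ‖L (F.c i)‖ ^ 2
      = omk k * ∑ i, ‖L (F.c i)‖ ^ 2 / pn k (F.c i) := by
        rw [Finset.mul_sum]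
        exact Finset.sum_congr rfl fun i _ => h2 i
    _ ≤ omk k * M := mul_le_mul_of_nonneg_left h1 h0.le

/-- bounded measurable functions with bounded support are integrable -/
theorem s1d_int {W : ℝ → ℂ} (hW : Measurable W) {M V : ℝ} (hWb : ∀ v, ‖W v‖ ≤ M)
    (hWs : ∀ v, V < |v| → W v = 0) : Integrable W := by
  have h1 : IntegrableOn W (Set.Icc (-V) V) := by
    refine Integrable.mono' (g := fun _ => M) (integrable_const M) hW.aestronglyMeasurable ?_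
    exact Filter.Eventually.of_forall hWb
  rw [← integrableOn_iff_integrable_of_support_subset (s := Set.Icc (-V) V)]
  · exact h1
  · intro v hv
    by_contra h
    apply hv
    apply hWs
    rw [Set.mem_Icc, ← abs_le] at h
    exact not_le.mp h

theorem s1d_int_sq {W : ℝ → ℂ} (hW : Measurable W) {M V : ℝ} (hWb : ∀ v, ‖W v‖ ≤ M)
    (hWs : ∀ v, V < |v| → W v = 0) : Integrable (fun v => ‖W v‖ ^ 2) := by
  have h1 : IntegrableOn (fun v => ‖W v‖ ^ 2) (Set.Icc (-V) V) := by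
    refine Integrable.mono' (g := fun _ => M ^ 2) (integrable_const _)
      (hW.norm.pow_const 2).aestronglyMeasurable ?_
    refine Filter.Eventually.of_forall fun v => ?_
    rw [Real.norm_eq_abs, abs_of_nonneg (by positivity)]
    exact pow_le_pow_left₀ (norm_nonneg _) (hWb v) 2
  rw [← integrableOn_iff_integrable_of_support_subset (s := Set.Icc (-V) V)]
  · exact h1
  · intro v hv
    by_contra h
    apply hv
    rw [Set.mem_Icc, ← abs_le] at h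
    simp [hWs v (not_le.mp h)]

/-- `Lf` is linear -/
theorem s1d_lin {k : ℕ} {ι : Type} [Fintype ι] (F : Fam k ι) {J : Type} [Fintype J] (β : J → ℝ)
    {Ψ : J → ℝ → ℂ} {M V : ℝ} (hΨ : PsiB Ψ M V) (c : ι → ℂ) :
    Lf k β Ψ (fun n => ∑ i, c i * F.c i n) = ∑ i, c i * Lf k β Ψ (F.c i) := by
  have hcf : ∀ i, CForm k (F.c i) := fun i => Pool.Agent.WA.cf_of_hdata (F.data i)
  have hgeo : ∀ b u, geo k (fun n => ∑ i, c i * F.c i n) b u = ∑ i, c i * geo k (F.c i) b u := by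
    intro b u
    unfold Pool.Agent.WA.geo
    rw [Pool.Agent.WA.qc_comb hcf c (z := (b : ℂ) + ((Real.exp u : ℝ) : ℂ) * Complex.I)
      (by rw [Pool.Agent.WA.B1a_im]; exact Real.exp_pos u), Finset.sum_mul]
    exact Finset.sum_congr rfl fun i _ => by ring
  have hint : ∀ j i, Integrable (fun u => Ψ j u * geo k (F.c i) (β j) u) := by
    intro j i
    obtain ⟨C, hC⟩ := Pool.Agent.WA.geo_bdd (hcf i)
    have h1 : Integrable (Ψ j) := by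
      refine s1d_int (hΨ.meas j) (hΨ.bdd j) (V := V) (fun v hv => hΨ.supp j v ?_)
      rw [Set.mem_Icc, ← abs_le]
      exact not_le.mpr hv
    exact h1.mul_bdd (Pool.Agent.WA.geo_cont (hcf i) (β j)).aestronglyMeasurable
      (Filter.Eventually.of_forall (fun u => hC (β j) u))
  unfold Pool.Agent.WA.Lf
  simp only [Finset.mul_sum]
  rw [Finset.sum_comm]
  refine Finset.sum_congr rfl fun j _ => ?_
  have h2 : (fun u => Ψ j u * geo k (fun n => ∑ i, c i * F.c i n) (β j) u) =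
      fun u => ∑ i, c i * (Ψ j u * geo k (F.c i) (β j) u) := by
    funext u
    rw [hgeo, Finset.mul_sum]
    exact Finset.sum_congr rfl fun i _ => by ring
  rw [h2, integral_finsetSum _ (fun i _ => (hint j i).const_mul (c i))]
  exact Finset.sum_congr rfl fun i _ => integral_const_mul _ _

/-- the main term -/
theorem s1d_main {Θ : ℝ → ℝ} (hA : Adm Θ) (h1 : ∀ x, 1 ≤ x → Θ x = 0) :
    ∃ C : ℝ, 0 < C ∧ ∀ L : ℝ, 1 ≤ L → ∀ (W : ℝ → ℂ) (M V : ℝ), Measurable W →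
      (∀ v, ‖W v‖ ≤ M) → (∀ v, V < |v| → W v = 0) →
      ∑ j : FJ (NL L * NL L), ∫ u, ‖PsF (RS L) (Wr L Θ W) j.1.1 u‖ ^ 2 ≤
        C / L * ∫ v, ‖W v‖ ^ 2 := by
  obtain ⟨C, hC, hform⟩ := s1_form hA h1
  refine ⟨C, hC, fun L hL W M V hW hWb hWs => ?_⟩
  rw [FJ_sum (NL L * NL L) (fun d => ∫ u, ‖PsF (RS L) (Wr L Θ W) d u‖ ^ 2)]
  have hpl : ∀ d, ∫ u, ‖PsF (RS L) (Wr L Θ W) d u‖ ^ 2 = 1 / (2 * Real.pi) *
      ∫ t, ‖hat W t‖ ^ 2 * ‖PsH (RS L) (AA L Θ t) d t‖ ^ 2 :=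
    fun d => (s1_planch L Θ hW hWb hWs d).2
  have hin : ∀ d, Integrable (fun t : ℝ => ‖hat W t‖ ^ 2 * ‖PsH (RS L) (AA L Θ t) d t‖ ^ 2) :=
    fun d => (s1_planch L Θ hW hWb hWs d).1
  simp only [hpl]
  have h2 : ∑ d ∈ Finset.Icc 1 (NL L * NL L), (d.totient : ℝ) * (1 / (2 * Real.pi) *
      ∫ t, ‖hat W t‖ ^ 2 * ‖PsH (RS L) (AA L Θ t) d t‖ ^ 2) =
      1 / (2 * Real.pi) * ∫ t, ∑ d ∈ Finset.Icc 1 (NL L * NL L), (d.totient : ℝ) *
        (‖hat W t‖ ^ 2 * ‖PsH (RS L) (AA L Θ t) d t‖ ^ 2) := by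
    rw [integral_finsetSum _ (fun d _ => (hin d).const_mul _), Finset.mul_sum]
    refine Finset.sum_congr rfl fun d _ => ?_
    rw [integral_const_mul]
    ring
  rw [h2]
  obtain ⟨hp1, hp2⟩ := Pool.Agent.SQS.PL1 W (s1d_int hW hWb hWs) (s1d_int_sq hW hWb hWs)
  have h3 : ∫ t, ∑ d ∈ Finset.Icc 1 (NL L * NL L), (d.totient : ℝ) *
        (‖hat W t‖ ^ 2 * ‖PsH (RS L) (AA L Θ t) d t‖ ^ 2) ≤
      ∫ t, C / L * ‖hat W t‖ ^ 2 := by
    refine integral_mono (integrable_finsetSum _ (fun d _ => (hin d).const_mul _))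
      (hp1.const_mul _) (fun t => ?_)
    have h4 : ∑ d ∈ Finset.Icc 1 (NL L * NL L), (d.totient : ℝ) *
        (‖hat W t‖ ^ 2 * ‖PsH (RS L) (AA L Θ t) d t‖ ^ 2) =
        ‖hat W t‖ ^ 2 * ∑ d ∈ Finset.Icc 1 (NL L * NL L), (d.totient : ℝ) *
          ‖PsH (RS L) (AA L Θ t) d t‖ ^ 2 := by
      rw [Finset.mul_sum]
      exact Finset.sum_congr rfl fun d _ => by ring
    show ∑ d ∈ Finset.Icc 1 (NL L * NL L), (d.totient : ℝ) *
        (‖hat W t‖ ^ 2 * ‖PsH (RS L) (AA L Θ t) d t‖ ^ 2) ≤ C / L * ‖hat W t‖ ^ 2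
    rw [h4, mul_comm (C / L)]
    exact mul_le_mul_of_nonneg_left (hform L t hL) (by positivity)
  rw [integral_const_mul, hp2] at h3
  have hpi := Real.pi_pos
  calc 1 / (2 * Real.pi) * ∫ t, ∑ d ∈ Finset.Icc 1 (NL L * NL L), (d.totient : ℝ) *
        (‖hat W t‖ ^ 2 * ‖PsH (RS L) (AA L Θ t) d t‖ ^ 2)
      ≤ 1 / (2 * Real.pi) * (C / L * (2 * Real.pi * ∫ u, ‖W u‖ ^ 2)) :=
        mul_le_mul_of_nonneg_left h3 (by positivity)
    _ = C / L * ∫ v, ‖W v‖ ^ 2 := by field_simp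

theorem s1d_NL {L : ℝ} (hL : 0 ≤ L) : 1 ≤ NL L ∧ (NL L : ℝ) ≤ 2 * Real.exp L := by
  have h1 : 1 ≤ Real.exp L := Real.one_le_exp hL
  constructor
  · unfold Pool.Agent.SEL.NL
    exact Nat.one_le_ceil_iff.mpr (by linarith)
  · unfold Pool.Agent.SEL.NL
    have := (Nat.ceil_lt_add_one (by linarith : 0 ≤ Real.exp L)).le
    linarith

/-- the error term -/
theorem s1d_err {E B L k M : ℝ} (hE : 0 < E) (hB : 4 * (28 + 13 * E) ≤ B) (hk : 1 ≤ k)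
    (hLB : L = Real.log k / B) (hL : 1 ≤ L) (cJ : ℝ) (hcJ0 : 0 ≤ cJ)
    (hcJ : cJ ≤ ((NL L * NL L : ℕ) : ℝ) ^ 2) :
    ((((NL L * NL L : ℕ) : ℝ) ^ 2 * ((NL L : ℝ) ^ 6 * M)) * cJ) ^ 2 *
      ((NL L * NL L : ℕ) : ℝ) ^ E *
      Real.exp (E * (8 * L + L + Real.log ((NL L * NL L : ℕ) : ℝ))) ≤
    (2 ^ 28 * (4 : ℝ) ^ (2 * E)) * M ^ 2 * k ^ (1 / 4 : ℝ) := by
  obtain ⟨hN1, hN2⟩ := s1d_NL (by linarith : 0 ≤ L)
  set x := Real.exp L with hx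
  have hx1 : 1 ≤ x := Real.one_le_exp (by linarith)
  have hx0 : 0 < x := by linarith
  set N : ℝ := (NL L : ℝ) with hN
  have hN1' : (1 : ℝ) ≤ N := by rw [hN]; exact_mod_cast hN1
  have hN0 : 0 < N := by linarith
  have hD : ((NL L * NL L : ℕ) : ℝ) = N ^ 2 := by push_cast; ring
  rw [hD] at hcJ ⊢
  have hBpos : 0 < B := by linarith [mul_pos (by norm_num : (0:ℝ) < 4) (by linarith : (0:ℝ) < 28 + 13 * E)]
  -- the power of x
  have hxpow : x ^ (28 + 13 * E) ≤ k ^ (1 / 4 : ℝ) := by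
    rw [hx, ← Real.exp_mul, Real.rpow_def_of_pos (by linarith : 0 < k)]
    apply Real.exp_le_exp.mpr
    rw [hLB]
    have hlk : 0 ≤ Real.log k := Real.log_nonneg hk
    rw [div_mul_eq_mul_div, div_le_iff₀ hBpos]
    nlinarith
  have e1 : Real.exp (E * (8 * L + L + Real.log (N ^ 2))) = x ^ (9 * E) * (N ^ 2) ^ E := by
    rw [mul_add, Real.exp_add]
    congr 1
    · rw [hx, ← Real.exp_mul]; congr 1; ring
    · rw [Real.rpow_def_of_pos (by positivity)]; congr 1; ring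
  rw [e1]
  have h2 : (N ^ 2 : ℝ) ^ E * (N ^ 2) ^ E ≤ (4 : ℝ) ^ (2 * E) * x ^ (4 * E) := by
    rw [← Real.rpow_add (by positivity)]
    have h3 : N ^ 2 ≤ 4 * x ^ 2 := by nlinarith
    calc (N ^ 2 : ℝ) ^ (E + E) ≤ (4 * x ^ 2) ^ (E + E) :=
          Real.rpow_le_rpow (by positivity) h3 (by linarith)
      _ = (4 : ℝ) ^ (2 * E) * x ^ (4 * E) := by
          rw [Real.mul_rpow (by norm_num) (by positivity), ← Real.rpow_natCast x 2,
            ← Real.rpow_mul hx0.le]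
          congr 1
          · congr 1; ring
          · congr 1; push_cast; ring
  have h3 : ((((N ^ 2) ^ 2 * (N ^ 6 * M)) * cJ) ^ 2 : ℝ) ≤ 2 ^ 28 * x ^ (28 : ℝ) * M ^ 2 := by
    have h4 : cJ ^ 2 ≤ ((N ^ 2) ^ 2) ^ 2 := pow_le_pow_left₀ hcJ0 hcJ 2
    calc ((((N ^ 2) ^ 2 * (N ^ 6 * M)) * cJ) ^ 2 : ℝ) = (N ^ 20 * M ^ 2) * cJ ^ 2 := by ring
      _ ≤ (N ^ 20 * M ^ 2) * ((N ^ 2) ^ 2) ^ 2 := mul_le_mul_of_nonneg_left h4 (by positivity)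
      _ = N ^ 28 * M ^ 2 := by ring
      _ ≤ (2 * x) ^ 28 * M ^ 2 := by
          apply mul_le_mul_of_nonneg_right _ (by positivity)
          exact pow_le_pow_left₀ hN0.le hN2 28
      _ = 2 ^ 28 * x ^ (28 : ℝ) * M ^ 2 := by
          rw [mul_pow, show x ^ (28 : ℝ) = x ^ 28 by rw [← Real.rpow_natCast]; norm_num]
  calc (((N ^ 2) ^ 2 * (N ^ 6 * M)) * cJ) ^ 2 * (N ^ 2) ^ E * (x ^ (9 * E) * (N ^ 2) ^ E)
      = (((N ^ 2) ^ 2 * (N ^ 6 * M)) * cJ) ^ 2 * (((N ^ 2) ^ E * (N ^ 2) ^ E) * x ^ (9 * E)) := by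
        ring
    _ ≤ (2 ^ 28 * x ^ (28 : ℝ) * M ^ 2) * (((4 : ℝ) ^ (2 * E) * x ^ (4 * E)) * x ^ (9 * E)) := by
        apply mul_le_mul h3 _ (by positivity) (by positivity)
        exact mul_le_mul_of_nonneg_right h2 (by positivity)
    _ = (2 ^ 28 * (4 : ℝ) ^ (2 * E)) * M ^ 2 * x ^ (28 + 13 * E) := by
        have : x ^ (28 + 13 * E) = x ^ (28 : ℝ) * x ^ (4 * E) * x ^ (9 * E) := by
          rw [← Real.rpow_add hx0, ← Real.rpow_add hx0]; congr 1; ring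
        rw [this]; ring
    _ ≤ _ := mul_le_mul_of_nonneg_left hxpow (by positivity)

theorem s_one {Θ : ℝ → ℝ} (hA : Adm Θ) (hΘ : ∀ x, 0 ≤ Θ x ∧ Θ x ≤ 1)
    (h1 : ∀ x, 1 ≤ x → Θ x = 0) : ∃ B₀ C : ℝ, 1 ≤ B₀ ∧ 0 < C ∧ ∀ B : ℝ, B₀ ≤ B → ∃ k₀ : ℕ,
    ∀ k : ℕ, k₀ ≤ k → Even k → ∀ {ι : Type} [Fintype ι] (F : Fam k ι) (L : ℝ),
      L = Real.log k / B → ∀ (W : ℝ → ℂ) (M : ℝ), Measurable W → (∀ v, ‖W v‖ ≤ M) →
      (∀ v, 8 * L < |v| → W v = 0) →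
      ∑ i, om k (F.a i) * ‖∫ v, ff k (F.a i) L Θ v * W v‖ ^ 2 ≤
        C * gk k ^ 2 * (1 / L * (∫ v, ‖W v‖ ^ 2) + M ^ 2 / L ^ 2) := by
  obtain ⟨C₁, hC₁, hmain⟩ := s1d_main hA h1
  obtain ⟨C₂, E, hC₂, hE, hrb⟩ := rb_u
  set K : ℝ := 2 ^ 28 * (4 : ℝ) ^ (2 * E) with hK
  have hK0 : 0 < K := by positivity
  refine ⟨4 * (28 + 13 * E), 20 * C₁ + 640 * C₂ * K, by linarith, by positivity,
    fun B hB => ⟨max 16 ⌈Real.exp B⌉₊, fun k hk he ι _ F L hL W M hW hWb hWs => ?_⟩⟩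
  have hk16 : 16 ≤ k := (le_max_left _ _).trans hk
  have hkB : Real.exp B ≤ k := by
    have : ⌈Real.exp B⌉₊ ≤ k := (le_max_right _ _).trans hk
    exact (Nat.le_ceil _).trans (by exact_mod_cast this)
  have hk1 : (1 : ℝ) ≤ k := by
    have : (16 : ℝ) ≤ k := by exact_mod_cast hk16
    linarith
  have hB0 : 0 < B := by linarith
  have hL1 : 1 ≤ L := by
    rw [hL, le_div_iff₀ hB0, one_mul]
    rw [Real.le_log_iff_exp_le (by linarith)]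
    exact hkB
  have hL0 : 0 < L := by linarith
  have hLk : L ≤ Real.log k := by
    rw [hL]
    exact div_le_self (Real.log_nonneg hk1) (by linarith)
  set D : ℕ := NL L * NL L with hD
  have hR : ∀ r ∈ RS L, 0 < r ∧ r ≤ D := fun r hr => ⟨(RS_spec L r hr).1, (RS_spec L r hr).2.1⟩
  have hm : ∀ r, Measurable (Wr L Θ W r) := fun r => (wr_bound hL0.le hΘ hW hWb hWs r).1
  have hb : ∀ r u, ‖Wr L Θ W r u‖ ≤ (NL L : ℝ) ^ 6 * M :=
    fun r => (wr_bound hL0.le hΘ hW hWb hWs r).2.1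
  have hWs' : ∀ r u, 8 * L + L < |u| → Wr L Θ W r u = 0 :=
    fun r => (wr_bound hL0.le hΘ hW hWb hWs r).2.2
  have hM0 : 0 ≤ M := (norm_nonneg _).trans (hWb 0)
  have hΨ : PsiB (fun j : FJ D => PsF (RS L) (Wr L Θ W) j.1.1)
      ((D : ℝ) ^ 2 * ((NL L : ℝ) ^ 6 * M)) (8 * L + L + Real.log D) :=
    psf_bound hR hm hb hWs'
  have hD1 : 1 ≤ D := by
    have := (s1d_NL hL0.le).1
    rw [hD]; exact Nat.mul_pos this this
  have hV0 : 0 ≤ 8 * L + L + Real.log D := by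
    have : 0 ≤ Real.log D := Real.log_nonneg (by exact_mod_cast hD1)
    linarith
  -- the functional
  have hlin : ∀ i, ∫ v, ff k (F.a i) L Θ v * W v =
      Lf k (fun j : FJ D => ((fb j : ℚ) : ℝ)) (fun j => PsF (RS L) (Wr L Θ W) j.1.1) (F.c i) := by
    intro i
    rw [s1_lin (F.data i) L Θ hW hWb hWs, farey_lin (F.data i) hR hm hb hWs']
    rfl
  set S : ℝ := ∑ j : FJ D, ∫ u, ‖PsF (RS L) (Wr L Θ W) j.1.1 u‖ ^ 2 with hS
  have hS0 : 0 ≤ S := Finset.sum_nonneg fun j _ => integral_nonneg fun u => by positivity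
  set R : ℝ := C₂ * (((D : ℝ) ^ 2 * ((NL L : ℝ) ^ 6 * M)) * Fintype.card (FJ D)) ^ 2 *
      (D : ℝ) ^ E * Real.exp (E * (8 * L + L + Real.log D)) with hRdef
  have hR0 : 0 ≤ R := by positivity
  have hbd : ∀ b, CForm k b → ‖Lf k (fun j : FJ D => ((fb j : ℚ) : ℝ))
      (fun j => PsF (RS L) (Wr L Θ W) j.1.1) b‖ ^ 2 ≤ (Real.sqrt k * (2 * S) + R) * pn k b := by
    intro b hb'
    exact hrb k hk16 (fun j : FJ D => fb j) (fun i j h n => fb_dist i j h n) D _ _ hV0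
      (fun j => by
        obtain ⟨h2, h3, h4, h5, h6⟩ := fb_facts j
        refine ⟨by rw [h4]; exact h3, ?_⟩
        have h7 : (0 : ℝ) ≤ ((fb j : ℚ) : ℝ) := by exact_mod_cast h5
        have h8 : ((fb j : ℚ) : ℝ) ≤ 1 := by exact_mod_cast h6.le
        rw [abs_of_nonneg h7]; exact h8) _ hΨ b hb'
  have hbes := s1d_bessel (by omega : 2 ≤ k) F
    (fun b => Lf k (fun j : FJ D => ((fb j : ℚ) : ℝ)) (fun j => PsF (RS L) (Wr L Θ W) j.1.1) b)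
    (fun c => s1d_lin F _ hΨ c) (M := Real.sqrt k * (2 * S) + R) (by positivity) hbd
  simp only [hlin]
  refine hbes.trans ?_
  -- constants
  obtain ⟨hg1, -⟩ := Pool.Agent.WA.gam_ratio (by omega : 4 ≤ k) he
  have homk := Pool.Agent.WA.omk_pos (by omega : 2 ≤ k)
  have hg2 : omk k * Real.sqrt k ≤ 10 * gk k ^ 2 := by
    rw [le_div_iff₀ homk] at hg1
    linarith
  have hSle : S ≤ C₁ / L * ∫ v, ‖W v‖ ^ 2 := hmain L hL1 W M (8 * L) hW hWb hWs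
  have hRle : R ≤ C₂ * (K * M ^ 2 * (k : ℝ) ^ (1 / 4 : ℝ)) := by
    have hcard : (Fintype.card (FJ D) : ℝ) ≤ ((NL L * NL L : ℕ) : ℝ) ^ 2 := by
      exact_mod_cast FJ_card D
    have h := s1d_err (M := M) hE hB hk1 hL hL1 (Fintype.card (FJ D)) (Nat.cast_nonneg _) hcard
    calc R = C₂ * ((((D : ℝ) ^ 2 * ((NL L : ℝ) ^ 6 * M)) * Fintype.card (FJ D)) ^ 2 *
      (D : ℝ) ^ E * Real.exp (E * (8 * L + L + Real.log D))) := by rw [hRdef]; ring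
      _ ≤ _ := mul_le_mul_of_nonneg_left h hC₂.le
  have hk4 : (k : ℝ) ^ (1 / 4 : ℝ) * L ^ 2 ≤ 64 * Real.sqrt k := by
    have h2 : Real.log k ≤ (k : ℝ) ^ (1 / 8 : ℝ) / (1 / 8) :=
      Real.log_le_rpow_div (by linarith) (by norm_num)
    have h3 : L ≤ 8 * (k : ℝ) ^ (1 / 8 : ℝ) := by linarith
    have h4 : L ^ 2 ≤ (8 * (k : ℝ) ^ (1 / 8 : ℝ)) ^ 2 := pow_le_pow_left₀ hL0.le h3 2
    have h5 : (8 * (k : ℝ) ^ (1 / 8 : ℝ)) ^ 2 = 64 * (k : ℝ) ^ (1 / 4 : ℝ) := by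
      rw [mul_pow, ← Real.rpow_natCast ((k : ℝ) ^ (1 / 8 : ℝ)) 2, ← Real.rpow_mul (by linarith)]
      norm_num
    have h6 : (k : ℝ) ^ (1 / 4 : ℝ) * (k : ℝ) ^ (1 / 4 : ℝ) = Real.sqrt k := by
      rw [← Real.rpow_add (by linarith), Real.sqrt_eq_rpow]
      norm_num
    calc (k : ℝ) ^ (1 / 4 : ℝ) * L ^ 2 ≤ (k : ℝ) ^ (1 / 4 : ℝ) * (64 * (k : ℝ) ^ (1 / 4 : ℝ)) := by
          rw [← h5]; exact mul_le_mul_of_nonneg_left h4 (by positivity)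
      _ = 64 * Real.sqrt k := by rw [← h6]; ring
  have hIW : 0 ≤ ∫ v, ‖W v‖ ^ 2 := integral_nonneg fun v => by positivity
  have hA1 : omk k * (Real.sqrt k * (2 * S)) ≤ 20 * C₁ * gk k ^ 2 * (1 / L * ∫ v, ‖W v‖ ^ 2) := by
    calc omk k * (Real.sqrt k * (2 * S)) = (omk k * Real.sqrt k) * (2 * S) := by ring
      _ ≤ (10 * gk k ^ 2) * (2 * S) := mul_le_mul_of_nonneg_right hg2 (by positivity)
      _ ≤ (10 * gk k ^ 2) * (2 * (C₁ / L * ∫ v, ‖W v‖ ^ 2)) := by gcongr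
      _ = _ := by ring
  have hA2 : omk k * R ≤ 640 * C₂ * K * gk k ^ 2 * (M ^ 2 / L ^ 2) := by
    have h2 : omk k * (k : ℝ) ^ (1 / 4 : ℝ) ≤ 640 * gk k ^ 2 / L ^ 2 := by
      rw [le_div_iff₀ (by positivity)]
      calc omk k * (k : ℝ) ^ (1 / 4 : ℝ) * L ^ 2 = omk k * ((k : ℝ) ^ (1 / 4 : ℝ) * L ^ 2) := by
            ring
        _ ≤ omk k * (64 * Real.sqrt k) := mul_le_mul_of_nonneg_left hk4 homk.le
        _ = 64 * (omk k * Real.sqrt k) := by ring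
        _ ≤ 64 * (10 * gk k ^ 2) := by gcongr
        _ = 640 * gk k ^ 2 := by ring
    calc omk k * R ≤ omk k * (C₂ * (K * M ^ 2 * (k : ℝ) ^ (1 / 4 : ℝ))) :=
          mul_le_mul_of_nonneg_left hRle homk.le
      _ = (C₂ * K * M ^ 2) * (omk k * (k : ℝ) ^ (1 / 4 : ℝ)) := by ring
      _ ≤ (C₂ * K * M ^ 2) * (640 * gk k ^ 2 / L ^ 2) := mul_le_mul_of_nonneg_left h2 (by positivity)
      _ = _ := by ring
  have hX : 0 ≤ gk k ^ 2 * (1 / L * ∫ v, ‖W v‖ ^ 2) := by positivity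
  have hY : 0 ≤ gk k ^ 2 * (M ^ 2 / L ^ 2) := by positivity
  calc omk k * (Real.sqrt k * (2 * S) + R) = omk k * (Real.sqrt k * (2 * S)) + omk k * R := by ring
    _ ≤ 20 * C₁ * gk k ^ 2 * (1 / L * ∫ v, ‖W v‖ ^ 2) +
        640 * C₂ * K * gk k ^ 2 * (M ^ 2 / L ^ 2) := add_le_add hA1 hA2
    _ ≤ (20 * C₁ + 640 * C₂ * K) * gk k ^ 2 * (1 / L * (∫ v, ‖W v‖ ^ 2) + M ^ 2 / L ^ 2) := by
        have h8 : 0 ≤ 640 * C₂ * K * (gk k ^ 2 * (1 / L * ∫ v, ‖W v‖ ^ 2)) := by positivity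
        have h9 : 0 ≤ 20 * C₁ * (gk k ^ 2 * (M ^ 2 / L ^ 2)) := by positivity
        nlinarith

end Pool.Agent.WS
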