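import Pool.Agent.Lib_helper98.WSF.S3A
import Pool.Agent.Lib_helper98.WSF.T1

/-! WS block S3B (TLI): truncation. Cites S3A, T1, H1. -/

namespace Pool.Agent.WS

open Complex MeasureTheory Filter Topology
open UpperHalfPlane hiding I
open scoped MatrixGroups Modular ENNReal
open Pool.Agent.GL2 (qs HData FD)
open Pool.Agent.WA (CForm pn geo Lf gd gk omk om Fam rho PsiB KS MainI MainR vz ch)
open Pool.Agent.SEL (NL Adm)
open Pool.Agent.SQS (hat)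

/-- the terms of the expansion -/
noncomputable def s3b_u (k : ℕ) (a : ℕ → ℝ) (L : ℝ) (Θ η : ℝ → ℝ) (t : ℝ) (n : ℕ) : ℂ :=
  (a n : ℂ) * ∑ m ∈ Finset.Ico 1 (NL L), ∑ l ∈ Finset.Ico 1 (NL L),
      ((be k a L Θ m * be k a L Θ l / (√m * √l) : ℝ) : ℂ) * tau k L η t n m l

theorem s3b_a {k : ℕ} {a : ℕ → ℝ} {n : ℕ} (hn : 0 < n) :
    a n = SEL.lam k a n * (n : ℝ) ^ (((k : ℝ) - 1) / 2) := by
  have hn' : (0 : ℝ) < n := by exact_mod_cast hn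
  rw [SEL.lam, mul_assoc, ← Real.rpow_add hn', neg_add_cancel, Real.rpow_zero, mul_one]

theorem s3b_term {k : ℕ} {a : ℕ → ℝ} (H : HData k a) (L : ℝ) (Θ η : ℝ → ℝ) (t : ℝ) {n : ℕ}
    (hn : 0 < n) : s3b_u k a L Θ η t n =
      ∑ m ∈ Finset.Ico 1 (NL L), ∑ l ∈ Finset.Ico 1 (NL L),
        ((xm L Θ m * xm L Θ l * (al (SEL.lam k a) m * al (SEL.lam k a) l * hs (SEL.lam k a) n) *
          (n : ℝ) ^ (((k : ℝ) - 1) / 2) : ℝ) : ℂ) * tau k L η t n m l := by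
  rw [s3b_u, Finset.mul_sum]
  refine Finset.sum_congr rfl fun m _ => ?_
  rw [Finset.mul_sum]
  refine Finset.sum_congr rfl fun l _ => ?_
  rw [← mul_assoc]
  congr 1
  rw [← Complex.ofReal_mul]
  congr 1
  rw [← lam_hs H hn]
  have e := s3b_a (k := k) (a := a) hn
  unfold be xm
  calc a n * (al (SEL.lam k a) m * Θ (Real.log m / L) * (al (SEL.lam k a) l *
      Θ (Real.log l / L)) / (√m * √l)) = (SEL.lam k a n * (n : ℝ) ^ (((k : ℝ) - 1) / 2)) *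
      (al (SEL.lam k a) m * Θ (Real.log m / L) * (al (SEL.lam k a) l *
      Θ (Real.log l / L)) / (√m * √l)) := by rw [← e]
    _ = _ := by ring

theorem s3b_x {k : ℕ} {a : ℕ → ℝ} (H : HData k a) {L : ℝ} {Θ : ℝ → ℝ}
    (hΘ : ∀ x, 0 ≤ Θ x ∧ Θ x ≤ 1) {m : ℕ} (hm : m ∈ Finset.Ico 1 (NL L)) :
    |be k a L Θ m / √m| ≤ (NL L : ℝ) := by
  rw [Finset.mem_Ico] at hm
  have hm0 : 0 < m := by omega
  have hm' : (1 : ℝ) ≤ m := by exact_mod_cast hm.1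
  have hmp : (0 : ℝ) < m := by linarith
  obtain ⟨-, -, h1⟩ := triv H hm0
  obtain ⟨h2, h3⟩ := hΘ (Real.log m / L)
  rw [be, abs_div, abs_mul, abs_of_nonneg h2, abs_of_nonneg (Real.sqrt_nonneg _),
    div_le_iff₀ (Real.sqrt_pos.mpr hmp)]
  have h4 : (m : ℝ) ^ (3 / 2 : ℝ) = m * √m := by
    rw [Real.sqrt_eq_rpow, show (3 / 2 : ℝ) = 1 + 1 / 2 by norm_num, Real.rpow_add hmp,
      Real.rpow_one]
  have h5 : (m : ℝ) ≤ (NL L : ℝ) := by exact_mod_cast hm.2.le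
  calc |al (SEL.lam k a) m| * Θ (Real.log m / L) ≤ (m : ℝ) ^ (3 / 2 : ℝ) * 1 :=
        mul_le_mul h1 h3 h2 (by positivity)
    _ = m * √m := by rw [h4, mul_one]
    _ ≤ (NL L : ℝ) * √m := mul_le_mul_of_nonneg_right h5 (Real.sqrt_nonneg _)

theorem s3b_bound {k : ℕ} {a : ℕ → ℝ} (H : HData k a) (hk : 2 ≤ k) (he : Even k) {L : ℝ}
    (hL : 0 < L) {Θ : ℝ → ℝ} (hΘ : ∀ x, 0 ≤ Θ x ∧ Θ x ≤ 1) (S : Step) (t : ℝ) {n : ℕ}
    (hn : 0 < n) : ‖s3b_u k a L Θ S.η t n‖ ≤ gk k * ((NL L : ℝ) ^ 8 * ((n : ℝ) ^ 2 *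
      ((k : ℝ) / (2 * Real.pi * n * Real.exp (3 * L))) ^ ((k : ℝ) / 2))) := by
  have hn' : (1 : ℝ) ≤ n := by exact_mod_cast hn
  have hnp : (0 : ℝ) < n := by linarith
  have hgk : 0 ≤ gk k := by
    unfold gk
    have : 0 ≤ Real.Gamma ((k : ℝ) / 2) := Real.Gamma_nonneg_of_nonneg (by positivity)
    positivity
  have hNL : (1 : ℝ) ≤ (NL L : ℝ) := by
    have : 0 < NL L := Nat.ceil_pos.mpr (Real.exp_pos L)
    exact_mod_cast this
  set Q : ℝ := ((k : ℝ) / (2 * Real.pi * n * Real.exp (3 * L))) ^ ((k : ℝ) / 2) with hQ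
  have hQ0 : 0 ≤ Q := by positivity
  set T : ℝ := gk k * (n : ℝ) ^ (-(k : ℝ) / 2) * Q with hT
  have hT0 : 0 ≤ T := by positivity
  have ha : |a n| ≤ (n : ℝ) ^ ((k : ℝ) / 2 + 1) := by
    rw [s3b_a (k := k) (a := a) hn, abs_mul, abs_of_nonneg (Real.rpow_nonneg hnp.le _)]
    obtain ⟨h1, -, -⟩ := triv H hn
    calc |SEL.lam k a n| * (n : ℝ) ^ (((k : ℝ) - 1) / 2)
        ≤ (n : ℝ) ^ (3 / 2 : ℝ) * (n : ℝ) ^ (((k : ℝ) - 1) / 2) :=
          mul_le_mul_of_nonneg_right h1 (Real.rpow_nonneg hnp.le _)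
      _ = (n : ℝ) ^ ((k : ℝ) / 2 + 1) := by
          rw [← Real.rpow_add hnp]
          congr 1
          ring
  have hs : ‖∑ m ∈ Finset.Ico 1 (NL L), ∑ l ∈ Finset.Ico 1 (NL L),
      ((be k a L Θ m * be k a L Θ l / (√m * √l) : ℝ) : ℂ) * tau k L S.η t n m l‖ ≤
      (NL L : ℝ) ^ 4 * T := by
    have h1 : ∀ m ∈ Finset.Ico 1 (NL L), ∀ l ∈ Finset.Ico 1 (NL L),
        ‖((be k a L Θ m * be k a L Θ l / (√m * √l) : ℝ) : ℂ) * tau k L S.η t n m l‖ ≤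
          (NL L : ℝ) ^ 2 * T := by
      intro m hm l hl
      have hm2 := Finset.mem_Ico.mp hm
      have hl2 := Finset.mem_Ico.mp hl
      rw [norm_mul, Complex.norm_real, Real.norm_eq_abs]
      have h2 := (tau_le hk he hL S t hn hm2.1 hm2.2 hl2.1 hl2.2).2
      have h3 : |be k a L Θ m * be k a L Θ l / (√m * √l)| ≤ (NL L : ℝ) ^ 2 := by
        have e : be k a L Θ m * be k a L Θ l / (√m * √l) =
            (be k a L Θ m / √m) * (be k a L Θ l / √l) := by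
          rw [mul_div_mul_comm]
        rw [e, abs_mul, pow_two]
        exact mul_le_mul (s3b_x H hΘ hm) (s3b_x H hΘ hl) (abs_nonneg _) (by positivity)
      exact mul_le_mul h3 h2 (norm_nonneg _) (by positivity)
    have h4 : ((Finset.Ico 1 (NL L)).card : ℝ) ≤ (NL L : ℝ) := by
      rw [Nat.card_Ico]
      exact_mod_cast Nat.sub_le _ _
    calc _ ≤ ∑ m ∈ Finset.Ico 1 (NL L), ‖∑ l ∈ Finset.Ico 1 (NL L),
          ((be k a L Θ m * be k a L Θ l / (√m * √l) : ℝ) : ℂ) * tau k L S.η t n m l‖ :=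
          norm_sum_le _ _
      _ ≤ ∑ m ∈ Finset.Ico 1 (NL L), ∑ l ∈ Finset.Ico 1 (NL L),
          ‖((be k a L Θ m * be k a L Θ l / (√m * √l) : ℝ) : ℂ) * tau k L S.η t n m l‖ :=
          Finset.sum_le_sum fun m _ => norm_sum_le _ _
      _ ≤ ∑ _m ∈ Finset.Ico 1 (NL L), ∑ _l ∈ Finset.Ico 1 (NL L), (NL L : ℝ) ^ 2 * T :=
          Finset.sum_le_sum fun m hm => Finset.sum_le_sum fun l hl => h1 m hm l hl
      _ = ((Finset.Ico 1 (NL L)).card : ℝ) * (((Finset.Ico 1 (NL L)).card : ℝ) *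
          ((NL L : ℝ) ^ 2 * T)) := by
          rw [Finset.sum_const, Finset.sum_const, nsmul_eq_mul, nsmul_eq_mul]
      _ ≤ (NL L : ℝ) * ((NL L : ℝ) * ((NL L : ℝ) ^ 2 * T)) := by
          refine mul_le_mul h4 (mul_le_mul_of_nonneg_right h4 (by positivity)) (by positivity)
            (by positivity)
      _ = (NL L : ℝ) ^ 4 * T := by ring
  rw [s3b_u, norm_mul, Complex.norm_real, Real.norm_eq_abs]
  have h5 : (n : ℝ) ^ ((k : ℝ) / 2 + 1) * (n : ℝ) ^ (-(k : ℝ) / 2) = n := by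
    rw [← Real.rpow_add hnp]
    have : (k : ℝ) / 2 + 1 + -(k : ℝ) / 2 = 1 := by ring
    rw [this, Real.rpow_one]
  calc |a n| * _ ≤ (n : ℝ) ^ ((k : ℝ) / 2 + 1) * ((NL L : ℝ) ^ 4 * T) :=
        mul_le_mul ha hs (norm_nonneg _) (by positivity)
    _ = gk k * ((NL L : ℝ) ^ 4 * ((n : ℝ) * Q)) := by
        rw [hT]
        calc (n : ℝ) ^ ((k : ℝ) / 2 + 1) *
              ((NL L : ℝ) ^ 4 * (gk k * (n : ℝ) ^ (-(k : ℝ) / 2) * Q)) =
              gk k * ((NL L : ℝ) ^ 4 *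
                (((n : ℝ) ^ ((k : ℝ) / 2 + 1) * (n : ℝ) ^ (-(k : ℝ) / 2)) * Q)) := by ring
          _ = _ := by rw [h5]
    _ ≤ gk k * ((NL L : ℝ) ^ 8 * ((n : ℝ) ^ 2 * Q)) := by
        refine mul_le_mul_of_nonneg_left ?_ hgk
        refine mul_le_mul (pow_le_pow_right₀ hNL (by norm_num)) ?_ (by positivity)
          (by positivity)
        refine mul_le_mul_of_nonneg_right ?_ hQ0
        nlinarith

theorem s3_tail_i {Θ : ℝ → ℝ} (hΘ : ∀ x, 0 ≤ Θ x ∧ Θ x ≤ 1) (S : Step) (B : ℝ) (hB : 0 < B) :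
    ∃ k₀ : ℕ, ∀ k : ℕ, k₀ ≤ k → Even k → ∀ {a : ℕ → ℝ}, HData k a → ∀ L : ℝ,
    L = Real.log k / B → ∀ N₀ : ℕ, N₀ = ⌊(k : ℝ) / (8 * Real.pi * (NL L : ℝ) ^ 2)⌋₊ → ∀ t : ℝ,
    ‖(∫ v, ff k a L Θ v * (S.η (v / (8 * L)) : ℂ) * cexp (t * v * I)) -
      Tp k L Θ S.η t N₀ (SEL.lam k a)‖ ≤ gk k := by
  obtain ⟨k₀, hk₀⟩ := tail_num B hB
  refine ⟨max k₀ 2, fun k hk he a H L hL N₀ hN₀ t => ?_⟩
  have hk1 : k₀ ≤ k := (le_max_left _ _).trans hk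
  have hk2 : 2 ≤ k := (le_max_right _ _).trans hk
  have hL0 : 0 < L := by
    rw [hL]
    apply div_pos _ hB
    apply Real.log_pos
    exact_mod_cast (by omega : 1 < k)
  have hgk : 0 ≤ gk k := by
    unfold gk
    have : 0 ≤ Real.Gamma ((k : ℝ) / 2) := Real.Gamma_nonneg_of_nonneg (by positivity)
    positivity
  obtain ⟨hs, hle⟩ := hk₀ k hk1 L hL N₀ hN₀
  have h1 : HasSum (s3b_u k a L Θ S.η t)
      (∫ v, ff k a L Θ v * (S.η (v / (8 * L)) : ℂ) * cexp (t * v * I)) :=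
    s3_exp H hL0 Θ S t
  have h2 := (hasSum_nat_add_iff' (N₀ + 1)).mpr h1
  have h3 : ∑ i ∈ Finset.range (N₀ + 1), s3b_u k a L Θ S.η t i =
      Tp k L Θ S.η t N₀ (SEL.lam k a) := by
    rw [Finset.sum_range_succ', Tp]
    have h0 : s3b_u k a L Θ S.η t 0 = 0 := by
      rw [s3b_u, H.zero, Complex.ofReal_zero, zero_mul]
    rw [h0, add_zero]
    have e : Finset.Icc 1 N₀ = Finset.Ico 1 (N₀ + 1) := by
      ext x
      simp only [Finset.mem_Icc, Finset.mem_Ico]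
      omega
    rw [e, Finset.sum_Ico_eq_sum_range]
    simp only [Nat.add_sub_cancel]
    refine Finset.sum_congr rfl fun i _ => ?_
    rw [add_comm 1 i]
    exact s3b_term H L Θ S.η t (Nat.succ_pos i)
  rw [h3] at h2
  have h4 := ((hs.mul_left ((NL L : ℝ) ^ 8)).mul_left (gk k)).hasSum
  refine (h2.norm_le_of_bounded h4 fun n => ?_).trans ?_
  · have h5 := s3b_bound H hk2 he hL0 hΘ S t (Nat.succ_pos (n + N₀))
    have e : ((Nat.succ (n + N₀) : ℕ) : ℝ) = (n : ℝ) + N₀ + 1 := by push_cast; ring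
    rw [e] at h5
    exact h5
  · rw [tsum_mul_left, tsum_mul_left]
    calc gk k * ((NL L : ℝ) ^ 8 * _) ≤ gk k * 1 := mul_le_mul_of_nonneg_left hle hgk
      _ = gk k := mul_one _

end Pool.Agent.WS
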