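import Pool.Agent.Lib_helper98.WSF.H1
import Pool.Agent.Lib_helper98.WSF.M1
import Mathlib

/-!
# WS, block M5 (ORT): orthonormality (helper29)
-/

set_option autoImplicit false

namespace Pool.Agent.WS

open Complex MeasureTheory Filter Topology
open Pool.Agent.SEL (NL Adm)

theorem m5_prod {N r : ℕ} (hr : r ∈ Nat.smoothNumbers N) (X : Nat.primesBelow N → ℝ) :
    hs (th X) r = ∏ p : Nat.primesBelow N, SEL.Uc (2 * Real.cos (X p)) (r.factorization p) := by
  unfold hs
  rw [Finsupp.prod_of_support_subset (s := Nat.primesBelow N)]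
  · rw [← Finset.prod_coe_sort (Nat.primesBelow N)]
    apply Finset.prod_congr rfl
    intro p _
    have : th X p = 2 * Real.cos (X p) := by
      unfold th
      rw [dif_pos p.2]
    rw [this]
  · intro p hp
    rw [Nat.support_factorization] at hp
    have h1 := Nat.prime_of_mem_primeFactors hp
    have h2 := Nat.mem_smoothNumbers'.1 hr p h1 (Nat.dvd_of_mem_primeFactors hp)
    exact Nat.mem_primesBelow.2 ⟨h2, h1⟩
  · intro p _
    simp [SEL.Uc]

theorem m5_orth {N r r' : ℕ} (hr : r ∈ Nat.smoothNumbers N) (hr' : r' ∈ Nat.smoothNumbers N) :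
    ∫ X, ((hs (th X) r : ℂ) * (hs (th X) r' : ℂ)) ∂(mu N) = if r = r' then 1 else 0 := by
  have h1 : ∀ X : Nat.primesBelow N → ℝ, ((hs (th X) r : ℂ) * (hs (th X) r' : ℂ)) =
      ∏ p : Nat.primesBelow N, (fun (p : ℕ) (x : ℝ) =>
        ((SEL.Uc (2 * Real.cos x) (r.factorization p) *
          SEL.Uc (2 * Real.cos x) (r'.factorization p) : ℝ) : ℂ)) p (X p) := by
    intro X
    rw [m5_prod hr, m5_prod hr', ← Complex.ofReal_mul, ← Finset.prod_mul_distrib]
    push_cast
    rfl
  have hm := mu_prod N (fun (p : ℕ) (x : ℝ) =>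
        ((SEL.Uc (2 * Real.cos x) (r.factorization p) *
          SEL.Uc (2 * Real.cos x) (r'.factorization p) : ℝ) : ℂ))
  rw [integral_congr_ae (Filter.Eventually.of_forall h1), hm]
  have h2 : ∀ p ∈ Nat.primesBelow N, ∫ x, ((SEL.Uc (2 * Real.cos x) (r.factorization p) *
      SEL.Uc (2 * Real.cos x) (r'.factorization p) : ℝ) : ℂ) ∂st =
      if r.factorization p = r'.factorization p then 1 else 0 := by
    intro p _
    rw [integral_complex_ofReal, st_orth]
    split_ifs <;> simp
  rw [Finset.prod_congr rfl h2]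
  by_cases h : r = r'
  · subst h
    simp
  · rw [if_neg h]
    have hr0 : r ≠ 0 := Nat.ne_zero_of_mem_smoothNumbers hr
    have hr0' : r' ≠ 0 := Nat.ne_zero_of_mem_smoothNumbers hr'
    have : ∃ p ∈ Nat.primesBelow N, r.factorization p ≠ r'.factorization p := by
      by_contra hcon
      push Not at hcon
      apply h
      apply Nat.eq_of_factorization_eq hr0 hr0'
      intro p
      by_cases hp : p ∈ Nat.primesBelow N
      · exact hcon p hp
      · have key : ∀ {n : ℕ}, n ∈ Nat.smoothNumbers N → n.factorization p = 0 := by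
          intro n hn
          by_contra h0
          have h3 : p ∈ n.primeFactors := by
            rw [← Nat.support_factorization]
            exact Finsupp.mem_support_iff.2 h0
          have h4 := Nat.prime_of_mem_primeFactors h3
          exact hp (Nat.mem_primesBelow.2
            ⟨Nat.mem_smoothNumbers'.1 hn p h4 (Nat.dvd_of_mem_primeFactors h3), h4⟩)
        rw [key hr, key hr']
    obtain ⟨p, hp, hne⟩ := this
    exact Finset.prod_eq_zero hp (if_neg hne)

theorem or_l2 {N : ℕ} {R : Finset ℕ} (hR : ∀ r ∈ R, r ∈ Nat.smoothNumbers N) (c : ℕ → ℂ) :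
    ∫ X, ‖∑ r ∈ R, c r * (hs (th X) r : ℂ)‖ ^ 2 ∂(mu N) = ∑ r ∈ R, ‖c r‖ ^ 2 := by
  have := mu_prob N
  have hint : ∀ r ∈ R, ∀ r' ∈ R, Integrable (fun X : Nat.primesBelow N → ℝ =>
      (hs (th X) r : ℂ) * (hs (th X) r' : ℂ)) (mu N) := by
    intro r hr r' hr'
    have hpos : 0 < r := Nat.pos_of_ne_zero (Nat.ne_zero_of_mem_smoothNumbers (hR r hr))
    have hpos' : 0 < r' := Nat.pos_of_ne_zero (Nat.ne_zero_of_mem_smoothNumbers (hR r' hr'))
    refine Integrable.of_bound (C := (r : ℝ) * r') ?_ ?_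
    · apply Continuous.aestronglyMeasurable
      exact (Complex.continuous_ofReal.comp (hs_cont N r)).mul
        (Complex.continuous_ofReal.comp (hs_cont N r'))
    · refine Filter.Eventually.of_forall (fun X => ?_)
      rw [norm_mul, Complex.norm_real, Complex.norm_real, Real.norm_eq_abs, Real.norm_eq_abs]
      exact mul_le_mul (hs_le (th_le X) hpos).1 (hs_le (th_le X) hpos').1 (abs_nonneg _)
        (by positivity)
  have h1 : ∀ X : Nat.primesBelow N → ℝ, ((‖∑ r ∈ R, c r * (hs (th X) r : ℂ)‖ ^ 2 : ℝ) : ℂ) =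
      ∑ r ∈ R, ∑ r' ∈ R, (c r * starRingEnd ℂ (c r')) * ((hs (th X) r : ℂ) * (hs (th X) r' : ℂ)) := by
    intro X
    have : ((‖∑ r ∈ R, c r * (hs (th X) r : ℂ)‖ ^ 2 : ℝ) : ℂ) =
        (∑ r ∈ R, c r * (hs (th X) r : ℂ)) * starRingEnd ℂ (∑ r ∈ R, c r * (hs (th X) r : ℂ)) := by
      rw [Complex.mul_conj, Complex.normSq_eq_norm_sq]
    rw [this, map_sum, Finset.sum_mul_sum]
    apply Finset.sum_congr rfl
    intro r _
    apply Finset.sum_congr rfl
    intro r' _
    rw [map_mul, Complex.conj_ofReal]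
    ring
  have h2 : ((∫ X, ‖∑ r ∈ R, c r * (hs (th X) r : ℂ)‖ ^ 2 ∂(mu N) : ℝ) : ℂ) =
      ((∑ r ∈ R, ‖c r‖ ^ 2 : ℝ) : ℂ) := by
    rw [← integral_complex_ofReal, integral_congr_ae (Filter.Eventually.of_forall h1)]
    rw [integral_finset_sum]
    · have h3 : ∀ r ∈ R, ∫ X, ∑ r' ∈ R, (c r * starRingEnd ℂ (c r')) *
          ((hs (th X) r : ℂ) * (hs (th X) r' : ℂ)) ∂(mu N) = c r * starRingEnd ℂ (c r) := by
        intro r hr
        rw [integral_finset_sum]
        · rw [Finset.sum_eq_single_of_mem r hr]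
          · rw [integral_const_mul, m5_orth (hR r hr) (hR r hr), if_pos rfl, mul_one]
          · intro r' hr' hne
            rw [integral_const_mul, m5_orth (hR r hr) (hR r' hr'), if_neg (fun h => hne h.symm),
              mul_zero]
        · intro r' hr'
          exact (hint r hr r' hr').const_mul _
      rw [Finset.sum_congr rfl h3]
      push_cast
      apply Finset.sum_congr rfl
      intro r _
      rw [Complex.mul_conj, Complex.normSq_eq_norm_sq]
      push_cast
      rfl
    · intro r hr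
      apply integrable_finset_sum
      intro r' hr'
      exact (hint r hr r' hr').const_mul _
  exact_mod_cast h2

example : @or_l2 = @or_l2 := rfl

end Pool.Agent.WS
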