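import Pool.Agent.Lib_helper98.WSF.C1
import Pool.Agent.Lib_helper98.WSF.M5
import Pool.Agent.Lib_helper98.WSF.M6

/-! WS block S3C (CMO): from the family to the model. Cites C1, M5, M6, H1. -/

namespace Pool.Agent.WS

open Complex MeasureTheory Filter Topology
open UpperHalfPlane hiding I
open scoped MatrixGroups Modular ENNReal
open Pool.Agent.GL2 (qs HData FD)
open Pool.Agent.WA (CForm pn geo Lf gd gk omk om Fam rho PsiB KS MainI MainR vz ch)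
open Pool.Agent.SEL (NL Adm)
open Pool.Agent.SQS (hat)

/-- the coefficients -/
noncomputable def s3c_c (k : ℕ) (L : ℝ) (Θ η : ℝ → ℝ) (t : ℝ) (N₀ M : ℕ) : ℂ :=
  ∑ n ∈ Finset.Icc 1 N₀, ∑ m ∈ Finset.Ico 1 (NL L), ∑ l ∈ Finset.Ico 1 (NL L),
    ((xm L Θ m * xm L Θ l * CC m l n M * (n : ℝ) ^ (((k : ℝ) - 1) / 2) : ℝ) : ℂ) *
      tau k L η t n m l

theorem s3c_exp (k : ℕ) (L : ℝ) (Θ η : ℝ → ℝ) (t : ℝ) (N₀ : ℕ) (θ : ℕ → ℝ) :
    Tp k L Θ η t N₀ θ =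
      ∑ M ∈ Finset.Icc 1 (N₀ * NL L ^ 2), s3c_c k L Θ η t N₀ M * (hs θ M : ℂ) := by
  have h1 : ∀ n ∈ Finset.Icc 1 N₀, ∀ m ∈ Finset.Ico 1 (NL L), ∀ l ∈ Finset.Ico 1 (NL L),
      al θ m * al θ l * hs θ n =
        ∑ M ∈ Finset.Icc 1 (N₀ * NL L ^ 2), CC m l n M * hs θ M := by
    intro n hn m hm l hl
    rw [Finset.mem_Icc] at hn
    rw [Finset.mem_Ico] at hm hl
    have hm0 : 0 < m := by omega
    have hl0 : 0 < l := by omega
    have hn0 : 0 < n := by omega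
    rw [lin hm0 hl0 hn0 θ]
    apply Finset.sum_subset_zero_on_sdiff
    · intro M hM
      rw [Nat.mem_divisors] at hM
      rw [Finset.mem_Icc]
      refine ⟨Nat.pos_of_dvd_of_pos hM.1 (Nat.pos_of_ne_zero hM.2), ?_⟩
      calc M ≤ m * l * n := Nat.le_of_dvd (Nat.pos_of_ne_zero hM.2) hM.1
        _ ≤ NL L * NL L * N₀ :=
          Nat.mul_le_mul (Nat.mul_le_mul hm.2.le hl.2.le) hn.2
        _ = N₀ * NL L ^ 2 := by ring
    · intro M hM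
      rw [Finset.mem_sdiff, Nat.mem_divisors] at hM
      have : ¬ M ∣ m * l * n := fun h => hM.2 ⟨h, by positivity⟩
      rw [CC, if_neg this, zero_mul]
    · intro M _
      rfl
  calc Tp k L Θ η t N₀ θ = ∑ n ∈ Finset.Icc 1 N₀, ∑ m ∈ Finset.Ico 1 (NL L),
        ∑ l ∈ Finset.Ico 1 (NL L), ∑ M ∈ Finset.Icc 1 (N₀ * NL L ^ 2),
          ((xm L Θ m * xm L Θ l * CC m l n M * (n : ℝ) ^ (((k : ℝ) - 1) / 2) : ℝ) : ℂ) *
            tau k L η t n m l * (hs θ M : ℂ) := by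
        rw [Tp]
        refine Finset.sum_congr rfl fun n hn => Finset.sum_congr rfl fun m hm =>
          Finset.sum_congr rfl fun l hl => ?_
        rw [h1 n hn m hm l hl, Finset.mul_sum, Finset.sum_mul]
        push_cast
        rw [Finset.sum_mul]
        refine Finset.sum_congr rfl fun M _ => ?_
        ring
    _ = ∑ n ∈ Finset.Icc 1 N₀, ∑ m ∈ Finset.Ico 1 (NL L),
        ∑ M ∈ Finset.Icc 1 (N₀ * NL L ^ 2), ∑ l ∈ Finset.Ico 1 (NL L),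
          ((xm L Θ m * xm L Θ l * CC m l n M * (n : ℝ) ^ (((k : ℝ) - 1) / 2) : ℝ) : ℂ) *
            tau k L η t n m l * (hs θ M : ℂ) :=
        Finset.sum_congr rfl fun n _ => Finset.sum_congr rfl fun m _ => Finset.sum_comm
    _ = ∑ n ∈ Finset.Icc 1 N₀, ∑ M ∈ Finset.Icc 1 (N₀ * NL L ^ 2),
        ∑ m ∈ Finset.Ico 1 (NL L), ∑ l ∈ Finset.Ico 1 (NL L),
          ((xm L Θ m * xm L Θ l * CC m l n M * (n : ℝ) ^ (((k : ℝ) - 1) / 2) : ℝ) : ℂ) *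
            tau k L η t n m l * (hs θ M : ℂ) :=
        Finset.sum_congr rfl fun n _ => Finset.sum_comm
    _ = ∑ M ∈ Finset.Icc 1 (N₀ * NL L ^ 2), ∑ n ∈ Finset.Icc 1 N₀,
        ∑ m ∈ Finset.Ico 1 (NL L), ∑ l ∈ Finset.Ico 1 (NL L),
          ((xm L Θ m * xm L Θ l * CC m l n M * (n : ℝ) ^ (((k : ℝ) - 1) / 2) : ℝ) : ℂ) *
            tau k L η t n m l * (hs θ M : ℂ) := Finset.sum_comm
    _ = _ := by
        refine Finset.sum_congr rfl fun M _ => ?_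
        rw [s3c_c]
        simp only [Finset.sum_mul]

theorem s3_coef : ∃ k₀ : ℕ, ∀ k : ℕ, k₀ ≤ k → ∀ {ι : Type} [Fintype ι] (F : Fam k ι)
    (L : ℝ) (Θ η : ℝ → ℝ) (t : ℝ) (N₀ : ℕ), 8 * Real.pi * (N₀ * (NL L : ℝ) ^ 2) ≤ k →
    ∑ i, om k (F.a i) * ‖Tp k L Θ η t N₀ (SEL.lam k (F.a i))‖ ^ 2 ≤
      2 * ∫ X, ‖Tp k L Θ η t N₀ (th X)‖ ^ 2 ∂(mu (k + 1)) := by
  obtain ⟨k₀, hk₀⟩ := coefsum
  refine ⟨k₀, fun k hk ι _ F L Θ η t N₀ hN => ?_⟩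
  have hN' : 8 * Real.pi * ((N₀ * NL L ^ 2 : ℕ) : ℝ) ≤ k := by
    push_cast
    exact hN
  have hle : N₀ * NL L ^ 2 ≤ k := by
    have h1 : (1 : ℝ) ≤ 8 * Real.pi := by
      have := Real.two_le_pi
      linarith
    have h2 : ((N₀ * NL L ^ 2 : ℕ) : ℝ) ≤ k := by
      have h3 : (0 : ℝ) ≤ ((N₀ * NL L ^ 2 : ℕ) : ℝ) := Nat.cast_nonneg _
      nlinarith
    exact_mod_cast h2
  have h1 := hk₀ k hk F (N₀ * NL L ^ 2) hN' (s3c_c k L Θ η t N₀)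
  have h2 := or_l2 (N := k + 1) (R := Finset.Icc 1 (N₀ * NL L ^ 2)) (fun r hr => by
    rw [Finset.mem_Icc] at hr
    rw [Nat.mem_smoothNumbers]
    refine ⟨by omega, fun p hp => ?_⟩
    have := Nat.le_of_mem_primeFactorsList hp
    omega) (s3c_c k L Θ η t N₀)
  have h3 : ∀ X : Nat.primesBelow (k + 1) → ℝ, ‖Tp k L Θ η t N₀ (th X)‖ ^ 2 =
      ‖∑ r ∈ Finset.Icc 1 (N₀ * NL L ^ 2), s3c_c k L Θ η t N₀ r * (hs (th X) r : ℂ)‖ ^ 2 :=
    fun X => by rw [s3c_exp]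
  simp only [h3]
  rw [h2]
  refine le_trans (le_of_eq ?_) h1
  refine Finset.sum_congr rfl fun i _ => ?_
  rw [s3c_exp]
  congr 3
  refine Finset.sum_congr rfl fun M hM => ?_
  rw [Finset.mem_Icc] at hM
  rw [lam_hs (F.data i) (show 0 < M by omega)]

end Pool.Agent.WS
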