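import Pool.Agent.Lib_helper98.WSF.M11
import Pool.Agent.Lib_helper98.WSF.S3D

/-!
# WS, block S3E: the mean value in the model
-/

namespace Pool.Agent.WS

open Complex MeasureTheory Filter Topology
open scoped ENNReal
open Pool.Agent.GL2 (qs HData FD)
open Pool.Agent.WA (CForm pn geo Lf gd gk omk om Fam rho PsiB)
open Pool.Agent.SEL (NL Adm)

/-- Cauchy-Schwarz with a weight -/
theorem s3e_cs {w f : ℝ → ℝ} (hw : ∀ x, 0 ≤ w x) (h1 : Integrable w)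
    (h2 : Integrable fun x => w x * f x) (h3 : Integrable fun x => w x * f x ^ 2) :
    (∫ x, w x * f x) ^ 2 ≤ ((∫ x, w x) + 1) * ∫ x, w x * f x ^ 2 := by
  have ha : 0 ≤ ∫ x, w x := integral_nonneg hw
  have hc : 0 ≤ ∫ x, w x * f x ^ 2 := integral_nonneg fun x => mul_nonneg (hw x) (sq_nonneg _)
  set a := ∫ x, w x with hadef
  set b := ∫ x, w x * f x with hb
  set c := ∫ x, w x * f x ^ 2 with hcdef
  have key : ∀ y : ℝ, 0 ≤ c - 2 * y * b + y ^ 2 * a := by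
    intro y
    have e : c - 2 * y * b + y ^ 2 * a = ∫ x, w x * (f x - y) ^ 2 := by
      have e1 : (fun x => w x * (f x - y) ^ 2) =
          fun x => (w x * f x ^ 2 - 2 * y * (w x * f x)) + y ^ 2 * w x := by
        funext x; ring
      have i1 : Integrable fun x => w x * f x ^ 2 - 2 * y * (w x * f x) :=
        h3.sub (h2.const_mul _)
      rw [e1, integral_add i1 (h1.const_mul _), integral_sub h3 (h2.const_mul _),
        integral_const_mul, integral_const_mul]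
    rw [e]
    exact integral_nonneg fun x => mul_nonneg (hw x) (sq_nonneg _)
  have h := key (b / (a + 1))
  have ha1 : 0 < a + 1 := by linarith
  have e2 : c - 2 * (b / (a + 1)) * b + (b / (a + 1)) ^ 2 * a ≤ c - b ^ 2 / (a + 1) := by
    have e3 : (b / (a + 1)) ^ 2 * a ≤ (b / (a + 1)) ^ 2 * (a + 1) := by
      have := sq_nonneg (b / (a + 1))
      nlinarith
    have e4 : (b / (a + 1)) ^ 2 * (a + 1) = b ^ 2 / (a + 1) := by
      field_simp
    have e5 : 2 * (b / (a + 1)) * b = 2 * (b ^ 2 / (a + 1)) := by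
      field_simp
    linarith
  have h4 : b ^ 2 / (a + 1) ≤ c := by linarith
  rw [div_le_iff₀ ha1] at h4
  linarith

theorem s3e_x_norm {L : ℝ} (t : ℝ) {p : ℕ} (hp : 1 ≤ p) (τ : ℝ) :
    ‖(p : ℂ) ^ (-(1 / 2 + s3d_z L t τ))‖ = (p : ℝ) ^ (-(1 / 2 + 1 / (8 * L))) :=
  s3d_p1_norm L t hp τ

theorem s3e_x_lt {L : ℝ} (hL : 0 < L) {p : ℕ} (hp : p.Prime) :
    (p : ℝ) ^ (-(1 / 2 + 1 / (8 * L))) < 1 := by
  have h2 : (1 : ℝ) < p := by exact_mod_cast hp.one_lt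
  refine Real.rpow_lt_one_of_one_lt_of_neg h2 ?_
  have : (0 : ℝ) < 1 / (8 * L) := by positivity
  linarith

/-- uniform bound for the Euler product -/
noncomputable def s3e_ML (N : ℕ) (L : ℝ) : ℝ :=
  ∏ p ∈ Nat.primesBelow N, ((1 - (p : ℝ) ^ (-(1 / 2 + 1 / (8 * L)))) ^ 2)⁻¹

theorem s3e_LX {N : ℕ} {L : ℝ} (hL : 0 < L) (t τ : ℝ) {θ : ℕ → ℝ} (hθ : ∀ p, |θ p| ≤ 2) :
    ‖LX N θ (1 / 2 + s3d_z L t τ)‖ ≤ s3e_ML N L := by
  unfold LX s3e_ML
  rw [norm_prod]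
  refine Finset.prod_le_prod (fun p _ => norm_nonneg _) fun p hp => ?_
  have hp' : p.Prime := (Nat.mem_primesBelow.mp hp).2
  have hx : ‖(p : ℂ) ^ (-(1 / 2 + s3d_z L t τ))‖ < 1 := by
    rw [s3e_x_norm t hp'.one_lt.le]
    exact s3e_x_lt hL hp'
  have h := EE_low (hθ p) hx
  rw [norm_inv]
  rw [s3e_x_norm t hp'.one_lt.le] at h
  have h0 : 0 < (1 - (p : ℝ) ^ (-(1 / 2 + 1 / (8 * L)))) ^ 2 := by
    have := s3e_x_lt hL hp'
    have : 0 < 1 - (p : ℝ) ^ (-(1 / 2 + 1 / (8 * L))) := by linarith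
    positivity
  exact inv_anti₀ h0 h

/-- uniform bound for the mollifier -/
noncomputable def s3e_MM (L σ : ℝ) : ℝ := ∑ m ∈ Finset.Ico 1 (NL L), (m : ℝ) * (m : ℝ) ^ (-σ)

theorem s3e_mol {L : ℝ} {Θ : ℝ → ℝ} (hΘ : ∀ x, 0 ≤ Θ x ∧ Θ x ≤ 1) {θ : ℕ → ℝ}
    (hθ : ∀ p, |θ p| ≤ 2) (s : ℂ) : ‖mol L Θ θ s‖ ≤ s3e_MM L s.re := by
  unfold mol s3e_MM
  refine (norm_sum_le _ _).trans (Finset.sum_le_sum fun m hm => ?_)
  have hm1 : 0 < m := (Finset.mem_Ico.mp hm).1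
  rw [norm_mul, Complex.norm_real, Real.norm_eq_abs, abs_mul,
    Complex.norm_natCast_cpow_of_pos hm1, Complex.neg_re]
  refine mul_le_mul_of_nonneg_right ?_ (by positivity)
  have h1 := (hs_le hθ hm1).2
  have h2 := hΘ (Real.log m / L)
  rw [abs_of_nonneg h2.1]
  calc |al θ m| * Θ (Real.log m / L) ≤ m * 1 :=
        mul_le_mul h1 h2.2 h2.1 (Nat.cast_nonneg m)
    _ = m := mul_one _

theorem s3e_conj (L : ℝ) (Θ : ℝ → ℝ) (θ : ℕ → ℝ) (s : ℂ) :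
    ‖mol L Θ θ (starRingEnd ℂ s)‖ = ‖mol L Θ θ s‖ := by
  have e : mol L Θ θ (starRingEnd ℂ s) = starRingEnd ℂ (mol L Θ θ s) := by
    unfold mol
    rw [map_sum]
    refine Finset.sum_congr rfl fun m hm => ?_
    rw [map_mul, Complex.conj_ofReal]
    congr 1
    have hm0 : (m : ℂ).arg ≠ Real.pi := by
      rw [Complex.natCast_arg]
      exact Real.pi_pos.ne
    have h := Complex.cpow_conj (m : ℂ) (-s) hm0
    rw [Complex.conj_natCast, map_neg] at h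
    exact h
  rw [e, Complex.norm_conj]

/-- the integrand of the model -/
noncomputable def s3e_P (N : ℕ) (L t : ℝ) (Θ : ℝ → ℝ) (θ : ℕ → ℝ) (τ : ℝ) : ℂ :=
  LX N θ (1 / 2 + s3d_z L t τ) * mol L Θ θ (1 / 2 + s3d_z L t τ) *
    mol L Θ θ (1 / 2 - s3d_z L t τ)

theorem s3e_P_bd {N : ℕ} {L : ℝ} (hL : 0 < L) (t : ℝ) {Θ : ℝ → ℝ}
    (hΘ : ∀ x, 0 ≤ Θ x ∧ Θ x ≤ 1) {θ : ℕ → ℝ} (hθ : ∀ p, |θ p| ≤ 2) (τ : ℝ) :
    ‖s3e_P N L t Θ θ τ‖ ≤ s3e_ML N L * s3e_MM L (1 / 2 + 1 / (8 * L)) *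
      s3e_MM L (1 / 2 - 1 / (8 * L)) := by
  unfold s3e_P
  have h1 := s3e_LX (N := N) hL t τ hθ
  have h2 := s3e_mol (L := L) hΘ hθ (1 / 2 + s3d_z L t τ)
  have h3 := s3e_mol (L := L) hΘ hθ (1 / 2 - s3d_z L t τ)
  rw [Complex.add_re, s3d_z_re, s3d_half_re] at h2
  rw [Complex.sub_re, s3d_z_re, s3d_half_re] at h3
  rw [norm_mul, norm_mul]
  exact mul_le_mul (mul_le_mul h1 h2 (norm_nonneg _) ((norm_nonneg _).trans h1)) h3
    (norm_nonneg _) (mul_nonneg ((norm_nonneg _).trans h1) ((norm_nonneg _).trans h2))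

theorem s3e_P_meas (N : ℕ) (L t : ℝ) (Θ : ℝ → ℝ) :
    Measurable fun q : (Nat.primesBelow N → ℝ) × ℝ => s3e_P N L t Θ (th q.1) q.2 := by
  have hz := s3d_z_cont L t
  have hz2 : Measurable fun q : (Nat.primesBelow N → ℝ) × ℝ => s3d_z L t q.2 :=
    (hz.comp continuous_snd).measurable
  have hpow1 : ∀ m : ℕ, 1 ≤ m → Measurable fun q : (Nat.primesBelow N → ℝ) × ℝ =>
      (m : ℂ) ^ (-(1 / 2 + s3d_z L t q.2)) := fun m hm =>
    ((s3d_p1_cont L t hm).comp continuous_snd).measurable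
  have hpow2 : ∀ m : ℕ, 1 ≤ m → Measurable fun q : (Nat.primesBelow N → ℝ) × ℝ =>
      (m : ℂ) ^ (-(1 / 2 - s3d_z L t q.2)) := fun m hm =>
    ((s3d_p2_cont L t hm).comp continuous_snd).measurable
  have hal : ∀ m : ℕ, Measurable fun q : (Nat.primesBelow N → ℝ) × ℝ =>
      ((al (th q.1) m * Θ (Real.log m / L) : ℝ) : ℂ) := fun m =>
    (Complex.continuous_ofReal.comp (((al_cont N m).comp continuous_fst).mul
      continuous_const)).measurable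
  have h1 : Measurable fun q : (Nat.primesBelow N → ℝ) × ℝ =>
      LX N (th q.1) (1 / 2 + s3d_z L t q.2) := by
    unfold LX
    refine Finset.measurable_prod _ fun p hp => ?_
    have hp' : p.Prime := (Nat.mem_primesBelow.mp hp).2
    refine Measurable.inv ?_
    unfold EE
    have hth : Measurable fun q : (Nat.primesBelow N → ℝ) × ℝ => ((th q.1 p : ℝ) : ℂ) :=
      (Complex.continuous_ofReal.comp ((th_cont N p).comp continuous_fst)).measurable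
    exact (measurable_const.sub (hth.mul (hpow1 p hp'.one_lt.le))).add
      ((hpow1 p hp'.one_lt.le).pow_const 2)
  have h2 : Measurable fun q : (Nat.primesBelow N → ℝ) × ℝ =>
      mol L Θ (th q.1) (1 / 2 + s3d_z L t q.2) := by
    unfold mol
    exact Finset.measurable_sum _ fun m hm => (hal m).mul (hpow1 m (Finset.mem_Ico.mp hm).1)
  have h3 : Measurable fun q : (Nat.primesBelow N → ℝ) × ℝ =>
      mol L Θ (th q.1) (1 / 2 - s3d_z L t q.2) := by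
    unfold mol
    exact Finset.measurable_sum _ fun m hm => (hal m).mul (hpow2 m (Finset.mem_Ico.mp hm).1)
  exact (h1.mul h2).mul h3

theorem s3e_P_meas1 (N : ℕ) (L t : ℝ) (Θ : ℝ → ℝ) (X : Nat.primesBelow N → ℝ) :
    Measurable fun τ : ℝ => s3e_P N L t Θ (th X) τ := by
  have h : Measurable (Function.uncurry fun (X : Nat.primesBelow N → ℝ) (τ : ℝ) =>
    s3e_P N L t Θ (th X) τ) := s3e_P_meas N L t Θ
  exact h.of_uncurry_left

/-- the mean square at one point -/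
theorem s3e_point {Θ : ℝ → ℝ} (hA : Adm Θ) (hΘ : ∀ x, 0 ≤ Θ x ∧ Θ x ≤ 1)
    (h1 : ∀ x, 1 ≤ x → Θ x = 0) : ∃ C : ℝ, 0 < C ∧ ∀ (L t τ : ℝ) (N : ℕ), 1 ≤ L → NL L ≤ N →
    ∫ X, ‖s3e_P N L t Θ (th X) τ‖ ^ 2 ∂(mu N) ≤ C := by
  obtain ⟨C, hC, hmb⟩ := mb_final hA h1
  refine ⟨C, hC, fun L t τ N hL hN => ?_⟩
  have hL0 : 0 < L := by linarith
  have := mu_prob N
  have hre : 1 / 2 + 1 / (8 * L) ≤ (1 / 2 + s3d_z L t τ).re := by
    rw [Complex.add_re, s3d_z_re, s3d_half_re]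
  have b1 := hmb L N (1 / 2 + s3d_z L t τ) 0 hL hN le_rfl zero_le_one (Or.inr hre)
  have b2 := hmb L N (1 / 2 + s3d_z L t τ) (1 / 4) hL hN (by norm_num) (by norm_num) (Or.inr hre)
  have ez : ((0 : ℝ) : ℂ) / (L : ℂ) = 0 := by simp
  rw [ez, sub_zero] at b1
  have econj : (1 / 2 + s3d_z L t τ - ((1 / 4 : ℝ) : ℂ) / (L : ℂ) : ℂ) =
      starRingEnd ℂ (1 / 2 - s3d_z L t τ) := by
    have e0 : s3d_z L t τ = ((1 / (8 * L) : ℝ) : ℂ) + ((τ / (8 * L) + t : ℝ) : ℂ) * I := by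
      unfold s3d_z; push_cast; ring
    have e1 : (1 / 2 : ℂ) = ((1 / 2 : ℝ) : ℂ) := by push_cast; ring
    rw [e0, e1, map_sub, map_add, map_mul, Complex.conj_ofReal, Complex.conj_ofReal,
      Complex.conj_ofReal, Complex.conj_I]
    have hLc : (L : ℂ) ≠ 0 := Complex.ofReal_ne_zero.mpr hL0.ne'
    push_cast
    field_simp
    ring
  rw [econj] at b2
  simp only [s3e_conj] at b2
  -- integrability
  have hθ : ∀ X : Nat.primesBelow N → ℝ, ∀ p, |th X p| ≤ 2 := fun X => th_le X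
  have hc1 : Continuous fun X : Nat.primesBelow N → ℝ => LX N (th X) (1 / 2 + s3d_z L t τ) :=
    LX_cont N (by linarith [show (0 : ℝ) < 1 / (8 * L) by positivity])
  have hc2 : Continuous fun X : Nat.primesBelow N → ℝ => mol L Θ (th X) (1 / 2 + s3d_z L t τ) :=
    mol_cont L Θ N _
  have hc3 : Continuous fun X : Nat.primesBelow N → ℝ => mol L Θ (th X) (1 / 2 - s3d_z L t τ) :=
    mol_cont L Θ N _
  have i1 : Integrable (fun X : Nat.primesBelow N → ℝ => ‖LX N (th X) (1 / 2 + s3d_z L t τ)‖ ^ 2 *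
      ‖mol L Θ (th X) (1 / 2 + s3d_z L t τ)‖ ^ 4) (mu N) := by
    refine (integrable_const (s3e_ML N L ^ 2 * s3e_MM L (1 / 2 + s3d_z L t τ).re ^ 4)).mono'
      ((hc1.norm.pow 2).mul (hc2.norm.pow 4)).aestronglyMeasurable (ae_of_all _ fun X => ?_)
    rw [Real.norm_eq_abs, abs_of_nonneg (by positivity)]
    have a1 := s3e_LX (N := N) hL0 t τ (hθ X)
    have a2 := s3e_mol (L := L) hΘ (hθ X) (1 / 2 + s3d_z L t τ)
    gcongr
  have i2 : Integrable (fun X : Nat.primesBelow N → ℝ => ‖LX N (th X) (1 / 2 + s3d_z L t τ)‖ ^ 2 *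
      ‖mol L Θ (th X) (1 / 2 - s3d_z L t τ)‖ ^ 4) (mu N) := by
    refine (integrable_const (s3e_ML N L ^ 2 * s3e_MM L (1 / 2 - s3d_z L t τ).re ^ 4)).mono'
      ((hc1.norm.pow 2).mul (hc3.norm.pow 4)).aestronglyMeasurable (ae_of_all _ fun X => ?_)
    rw [Real.norm_eq_abs, abs_of_nonneg (by positivity)]
    have a1 := s3e_LX (N := N) hL0 t τ (hθ X)
    have a2 := s3e_mol (L := L) hΘ (hθ X) (1 / 2 - s3d_z L t τ)
    gcongr
  calc ∫ X, ‖s3e_P N L t Θ (th X) τ‖ ^ 2 ∂(mu N)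
      ≤ ∫ X, (1 / 2) * (‖LX N (th X) (1 / 2 + s3d_z L t τ)‖ ^ 2 *
          ‖mol L Θ (th X) (1 / 2 + s3d_z L t τ)‖ ^ 4 +
          ‖LX N (th X) (1 / 2 + s3d_z L t τ)‖ ^ 2 *
          ‖mol L Θ (th X) (1 / 2 - s3d_z L t τ)‖ ^ 4) ∂(mu N) := by
        refine integral_mono_of_nonneg (ae_of_all _ fun X => by positivity)
          ((i1.add i2).const_mul _) (ae_of_all _ fun X => ?_)
        show ‖s3e_P N L t Θ (th X) τ‖ ^ 2 ≤ (1 / 2) * (‖LX N (th X) (1 / 2 + s3d_z L t τ)‖ ^ 2 *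
          ‖mol L Θ (th X) (1 / 2 + s3d_z L t τ)‖ ^ 4 +
          ‖LX N (th X) (1 / 2 + s3d_z L t τ)‖ ^ 2 *
          ‖mol L Θ (th X) (1 / 2 - s3d_z L t τ)‖ ^ 4)
        unfold s3e_P
        rw [norm_mul, norm_mul]
        set A := ‖LX N (th X) (1 / 2 + s3d_z L t τ)‖
        set P := ‖mol L Θ (th X) (1 / 2 + s3d_z L t τ)‖
        set Q := ‖mol L Θ (th X) (1 / 2 - s3d_z L t τ)‖
        have hh : 0 ≤ A ^ 2 * (P ^ 2 - Q ^ 2) ^ 2 := by positivity
        nlinarith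
    _ = (1 / 2) * ((∫ X, ‖LX N (th X) (1 / 2 + s3d_z L t τ)‖ ^ 2 *
          ‖mol L Θ (th X) (1 / 2 + s3d_z L t τ)‖ ^ 4 ∂(mu N)) +
          ∫ X, ‖LX N (th X) (1 / 2 + s3d_z L t τ)‖ ^ 2 *
          ‖mol L Θ (th X) (1 / 2 - s3d_z L t τ)‖ ^ 4 ∂(mu N)) := by
        rw [integral_const_mul, integral_add i1 i2]
    _ ≤ C := by linarith

theorem s3e_eI (k : ℕ) (L t : ℝ) (Θ : ℝ → ℝ) (S : Step) (θ : ℕ → ℝ) (N : ℕ) :
    (∫ τ : ℝ, S.K τ * (Gamma ((k : ℂ) / 2 + ((1 + τ * I) / (8 * L) + t * I)) *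
        ((2 * Real.pi : ℝ) : ℂ) ^ (-((k : ℂ) / 2 + ((1 + τ * I) / (8 * L) + t * I)))) *
        (LX N θ (1 / 2 + (1 + τ * I) / (8 * L) + t * I) *
          mol L Θ θ (1 / 2 + (1 + τ * I) / (8 * L) + t * I) *
          mol L Θ θ (1 / 2 - (1 + τ * I) / (8 * L) - t * I))) =
      ∫ τ : ℝ, S.K τ * s3d_G k L t τ * s3e_P N L t Θ θ τ := by
  refine integral_congr_ae (ae_of_all _ fun τ => ?_)
  have e1 : (1 / 2 + (1 + τ * I) / (8 * L) + t * I : ℂ) = 1 / 2 + s3d_z L t τ := by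
    unfold s3d_z; ring
  have e2 : (1 / 2 - (1 + τ * I) / (8 * L) - t * I : ℂ) = 1 / 2 - s3d_z L t τ := by
    unfold s3d_z; ring
  beta_reduce
  rw [e1, e2]
  rfl

theorem s3_model {Θ : ℝ → ℝ} (hA : Adm Θ) (hΘ : ∀ x, 0 ≤ Θ x ∧ Θ x ≤ 1)
    (h1 : ∀ x, 1 ≤ x → Θ x = 0) (S : Step) (B : ℝ) (hB : 0 < B) :
    ∃ (C : ℝ) (k₀ : ℕ), 0 < C ∧ ∀ k : ℕ, k₀ ≤ k → Even k → ∀ L : ℝ, L = Real.log k / B →
    ∀ N₀ : ℕ, N₀ = ⌊(k : ℝ) / (8 * Real.pi * (NL L : ℝ) ^ 2)⌋₊ → ∀ t : ℝ,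
    ∫ X, ‖Tp k L Θ S.η t N₀ (th X)‖ ^ 2 ∂(mu (k + 1)) ≤ C * gk k ^ 2 := by
  obtain ⟨k1, hfull⟩ := s3_full hΘ S B hB
  obtain ⟨C1, k2, hC1, hgam⟩ := gam_bd B hB
  obtain ⟨C2, hC2, hpt⟩ := s3e_point hA hΘ h1
  set κ : ℝ := ∫ τ, ‖S.K τ‖ with hκ
  have hκ0 : 0 ≤ κ := integral_nonneg fun τ => norm_nonneg _
  refine ⟨2 * (C1 ^ 2 * (κ + 1) * (κ * C2)) + 2, max (max k1 k2) (max ⌈Real.exp B⌉₊ 2),
    by positivity, fun k hk he L hLB N₀ hN₀ t => ?_⟩
  have hk1 : k1 ≤ k := (le_max_left _ _).trans ((le_max_left _ _).trans hk)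
  have hk2 : k2 ≤ k := (le_max_right _ _).trans ((le_max_left _ _).trans hk)
  have hkB : ⌈Real.exp B⌉₊ ≤ k := (le_max_left _ _).trans ((le_max_right _ _).trans hk)
  have hk22 : 2 ≤ k := (le_max_right _ _).trans ((le_max_right _ _).trans hk)
  have hkr : (2 : ℝ) ≤ k := by exact_mod_cast hk22
  have hk0 : (0 : ℝ) < k := by linarith
  have hlogk : 0 < Real.log k := Real.log_pos (by linarith)
  have hL : 0 < L := by rw [hLB]; exact div_pos hlogk hB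
  have := mu_prob (k + 1)
  rcases lt_or_ge B 1 with hB1 | hB1
  · -- the truncated sum is empty
    have h2 : Real.log k ≤ L := by
      rw [hLB, le_div_iff₀ hB]
      nlinarith
    have h3 : (k : ℝ) ≤ NL L := by
      unfold Pool.Agent.SEL.NL
      refine le_trans ?_ (Nat.le_ceil _)
      rw [← Real.exp_log hk0]
      exact Real.exp_le_exp.mpr h2
    have hNL0 : (0 : ℝ) < NL L := lt_of_lt_of_le hk0 h3
    have h4 : N₀ = 0 := by
      rw [hN₀, Nat.floor_eq_zero, div_lt_one (by positivity)]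
      have h5 := Real.pi_gt_three
      have h6 : (k : ℝ) ^ 2 ≤ (NL L : ℝ) ^ 2 := by gcongr
      nlinarith
    have h5 : ∀ X : Nat.primesBelow (k + 1) → ℝ, ‖Tp k L Θ S.η t N₀ (th X)‖ ^ 2 = 0 := by
      intro X
      unfold Tp
      rw [h4, Finset.Icc_eq_empty (by norm_num), Finset.sum_empty, norm_zero]
      norm_num
    simp only [h5, integral_zero]
    positivity
  · have hL1 : 1 ≤ L := by
      rw [hLB, le_div_iff₀ hB, one_mul, Real.le_log_iff_exp_le hk0]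
      exact (Nat.le_ceil _).trans (by exact_mod_cast hkB)
    have hNLk : NL L ≤ k + 1 := by
      unfold Pool.Agent.SEL.NL
      refine le_trans (Nat.ceil_le.mpr ?_) (Nat.le_succ k)
      rw [← Real.exp_log hk0]
      refine Real.exp_le_exp.mpr ?_
      rw [hLB]
      exact div_le_self hlogk.le hB1
    have hgk : 0 < gk k := by
      unfold gk
      have := Real.Gamma_pos_of_pos (show (0 : ℝ) < (k : ℝ) / 2 by linarith)
      positivity
    have hG : ∀ τ : ℝ, ‖s3d_G k L t τ‖ ≤ C1 * gk k := by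
      intro τ
      refine hgam k hk2 (s3d_z L t τ) ?_ ?_
      · rw [s3d_z_re]; positivity
      · rw [s3d_z_re, hLB]
        apply le_of_eq
        field_simp
    set MP : ℝ := s3e_ML (k + 1) L * s3e_MM L (1 / 2 + 1 / (8 * L)) *
      s3e_MM L (1 / 2 - 1 / (8 * L)) with hMP
    have hP : ∀ (X : Nat.primesBelow (k + 1) → ℝ) (τ : ℝ),
        ‖s3e_P (k + 1) L t Θ (th X) τ‖ ≤ MP := fun X τ =>
      s3e_P_bd (N := k + 1) hL t hΘ (th_le X) τ
    have hmeas := s3e_P_meas (k + 1) L t Θ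
    have hKm : Measurable fun q : (Nat.primesBelow (k + 1) → ℝ) × ℝ => ‖S.K q.2‖ :=
      (S.Kc.norm.comp continuous_snd).measurable
    have hPm : ∀ X : Nat.primesBelow (k + 1) → ℝ,
        Measurable fun τ : ℝ => s3e_P (k + 1) L t Θ (th X) τ := fun X =>
      s3e_P_meas1 (k + 1) L t Θ X
    -- integrability in `τ`
    have hw2 : ∀ X : Nat.primesBelow (k + 1) → ℝ,
        Integrable fun τ : ℝ => ‖S.K τ‖ * ‖s3e_P (k + 1) L t Θ (th X) τ‖ := by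
      intro X
      refine (S.Ki.norm.mul_const MP).mono' (S.Kc.norm.measurable.mul
        (hPm X).norm).aestronglyMeasurable (ae_of_all _ fun τ => ?_)
      rw [Real.norm_eq_abs, abs_of_nonneg (by positivity)]
      exact mul_le_mul_of_nonneg_left (hP X τ) (norm_nonneg _)
    have hw3 : ∀ X : Nat.primesBelow (k + 1) → ℝ,
        Integrable fun τ : ℝ => ‖S.K τ‖ * ‖s3e_P (k + 1) L t Θ (th X) τ‖ ^ 2 := by
      intro X
      refine (S.Ki.norm.mul_const (MP ^ 2)).mono' (S.Kc.norm.measurable.mul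
        ((hPm X).norm.pow_const 2)).aestronglyMeasurable (ae_of_all _ fun τ => ?_)
      rw [Real.norm_eq_abs, abs_of_nonneg (by positivity)]
      refine mul_le_mul_of_nonneg_left ?_ (norm_nonneg _)
      exact pow_le_pow_left₀ (norm_nonneg _) (hP X τ) 2
    -- the pointwise bound
    have hfl : ∀ X : Nat.primesBelow (k + 1) → ℝ, ‖Tp k L Θ S.η t N₀ (th X)‖ ^ 2 ≤
        2 * ((C1 * gk k) ^ 2 * ((κ + 1) *
          ∫ τ, ‖S.K τ‖ * ‖s3e_P (k + 1) L t Θ (th X) τ‖ ^ 2)) + 2 * gk k ^ 2 := by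
      intro X
      have hf := hfull k hk1 he L hLB N₀ hN₀ t X
      rw [s3e_eI] at hf
      set Full : ℂ := ∫ τ : ℝ, S.K τ * s3d_G k L t τ * s3e_P (k + 1) L t Θ (th X) τ with hFull
      have hFn : ‖Full‖ ≤ (C1 * gk k) * ∫ τ, ‖S.K τ‖ * ‖s3e_P (k + 1) L t Θ (th X) τ‖ := by
        rw [hFull, ← integral_const_mul]
        refine (norm_integral_le_integral_norm _).trans ?_
        refine integral_mono_of_nonneg (ae_of_all _ fun τ => norm_nonneg _)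
          ((hw2 X).const_mul _) (ae_of_all _ fun τ => ?_)
        show ‖S.K τ * s3d_G k L t τ * s3e_P (k + 1) L t Θ (th X) τ‖ ≤
          C1 * gk k * (‖S.K τ‖ * ‖s3e_P (k + 1) L t Θ (th X) τ‖)
        rw [norm_mul, norm_mul]
        calc ‖S.K τ‖ * ‖s3d_G k L t τ‖ * ‖s3e_P (k + 1) L t Θ (th X) τ‖
            ≤ ‖S.K τ‖ * (C1 * gk k) * ‖s3e_P (k + 1) L t Θ (th X) τ‖ := by
              gcongr
              exact hG τ
          _ = C1 * gk k * (‖S.K τ‖ * ‖s3e_P (k + 1) L t Θ (th X) τ‖) := by ring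
      have hcs := s3e_cs (fun τ => norm_nonneg (S.K τ)) S.Ki.norm (hw2 X) (hw3 X)
      rw [← hκ] at hcs
      have hT : ‖Tp k L Θ S.η t N₀ (th X)‖ ≤ ‖Full‖ + gk k := by
        have h2 := norm_sub_norm_le (Tp k L Θ S.η t N₀ (th X)) Full
        rw [norm_sub_rev] at h2
        linarith
      have hF0 := norm_nonneg Full
      have hT0 := norm_nonneg (Tp k L Θ S.η t N₀ (th X))
      have hF2 : ‖Full‖ ^ 2 ≤ (C1 * gk k) ^ 2 * ((κ + 1) *
          ∫ τ, ‖S.K τ‖ * ‖s3e_P (k + 1) L t Θ (th X) τ‖ ^ 2) := by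
        calc ‖Full‖ ^ 2 ≤ ((C1 * gk k) *
              ∫ τ, ‖S.K τ‖ * ‖s3e_P (k + 1) L t Θ (th X) τ‖) ^ 2 :=
              pow_le_pow_left₀ hF0 hFn 2
          _ = (C1 * gk k) ^ 2 *
              (∫ τ, ‖S.K τ‖ * ‖s3e_P (k + 1) L t Θ (th X) τ‖) ^ 2 := by ring
          _ ≤ _ := mul_le_mul_of_nonneg_left hcs (by positivity)
      have hT2 : ‖Tp k L Θ S.η t N₀ (th X)‖ ^ 2 ≤ (‖Full‖ + gk k) ^ 2 :=
        pow_le_pow_left₀ hT0 hT 2
      nlinarith [sq_nonneg (‖Full‖ - gk k)]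
    -- integration over the model
    have hprod : Integrable (Function.uncurry fun (X : Nat.primesBelow (k + 1) → ℝ) (τ : ℝ) =>
        ‖S.K τ‖ * ‖s3e_P (k + 1) L t Θ (th X) τ‖ ^ 2) ((mu (k + 1)).prod volume) := by
      have hb : Integrable (fun q : (Nat.primesBelow (k + 1) → ℝ) × ℝ => MP ^ 2 * ‖S.K q.2‖)
          ((mu (k + 1)).prod volume) :=
        (integrable_const (μ := mu (k + 1)) (MP ^ 2)).mul_prod S.Ki.norm
      refine hb.mono' (hKm.mul (hmeas.norm.pow_const 2)).aestronglyMeasurable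
        (ae_of_all _ fun q => ?_)
      show ‖‖S.K q.2‖ * ‖s3e_P (k + 1) L t Θ (th q.1) q.2‖ ^ 2‖ ≤ MP ^ 2 * ‖S.K q.2‖
      rw [Real.norm_eq_abs, abs_of_nonneg (by positivity), mul_comm]
      refine mul_le_mul_of_nonneg_right ?_ (norm_nonneg _)
      exact pow_le_pow_left₀ (norm_nonneg _) (hP q.1 q.2) 2
    have hJ : Integrable (fun X : Nat.primesBelow (k + 1) → ℝ =>
        ∫ τ, ‖S.K τ‖ * ‖s3e_P (k + 1) L t Θ (th X) τ‖ ^ 2) (mu (k + 1)) :=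
      hprod.integral_prod_left
    have hswap : ∫ X, (∫ τ, ‖S.K τ‖ * ‖s3e_P (k + 1) L t Θ (th X) τ‖ ^ 2) ∂(mu (k + 1)) ≤
        κ * C2 := by
      rw [integral_integral_swap hprod, hκ, ← integral_mul_const]
      refine integral_mono_of_nonneg (ae_of_all _ fun τ => integral_nonneg fun X => by positivity)
        (S.Ki.norm.mul_const C2) (ae_of_all _ fun τ => ?_)
      show ∫ X, ‖S.K τ‖ * ‖s3e_P (k + 1) L t Θ (th X) τ‖ ^ 2 ∂(mu (k + 1)) ≤ ‖S.K τ‖ * C2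
      rw [integral_const_mul]
      exact mul_le_mul_of_nonneg_left (hpt L t τ (k + 1) hL1 hNLk) (norm_nonneg _)
    calc ∫ X, ‖Tp k L Θ S.η t N₀ (th X)‖ ^ 2 ∂(mu (k + 1))
        ≤ ∫ X, (2 * ((C1 * gk k) ^ 2 * ((κ + 1) *
          ∫ τ, ‖S.K τ‖ * ‖s3e_P (k + 1) L t Θ (th X) τ‖ ^ 2)) + 2 * gk k ^ 2) ∂(mu (k + 1)) := by
          refine integral_mono_of_nonneg (ae_of_all _ fun X => by positivity)
            ((((hJ.const_mul _).const_mul _).const_mul _).add (integrable_const _))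
            (ae_of_all _ hfl)
      _ = 2 * ((C1 * gk k) ^ 2 * ((κ + 1) *
          ∫ X, (∫ τ, ‖S.K τ‖ * ‖s3e_P (k + 1) L t Θ (th X) τ‖ ^ 2) ∂(mu (k + 1)))) +
          2 * gk k ^ 2 := by
          rw [integral_add (((hJ.const_mul _).const_mul _).const_mul _) (integrable_const _),
            integral_const_mul, integral_const_mul, integral_const_mul, integral_const,
            probReal_univ, one_smul]
      _ ≤ 2 * ((C1 * gk k) ^ 2 * ((κ + 1) * (κ * C2))) + 2 * gk k ^ 2 := by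
          gcongr
      _ = (2 * (C1 ^ 2 * (κ + 1) * (κ * C2)) + 2) * gk k ^ 2 := by ring

end Pool.Agent.WS
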