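import Pool.Agent.Lib_helper98.WS.Defs
import Pool.Agent.Lib_helper98.WAF.B1a
import Pool.Agent.Lib_helper68.SEL.F1

/-! WS block T2 (SYM): symmetry and integrability of the densities -/

namespace Pool.Agent.WS

open Complex MeasureTheory Filter Topology
open UpperHalfPlane hiding I
open scoped MatrixGroups Modular ENNReal
open Pool.Agent.GL2 (qs HData FD)
open Pool.Agent.WA (CForm pn geo Lf gd gk omk om Fam rho PsiB KS MainI MainR vz ch)
open Pool.Agent.SEL (NL Adm)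
open Pool.Agent.SQS (hat)

theorem t2_dens (k : ℕ) (a : ℕ → ℝ) (u : ℝ) : geo k (fun n => (a n : ℂ)) 0 u =
    GL2.dens k a (1 : DirichletCharacter ℂ 1) u := by
  rw [geo, WA.qc, GL2.dens, mul_comm]
  congr 1
  refine tsum_congr fun n => ?_
  have h1 : ((1 : DirichletCharacter ℂ 1) (n : ZMod 1)) = 1 := by
    rw [MulChar.one_apply]
    exact isUnit_of_subsingleton _
  rw [h1, one_mul]
  push_cast
  congr 2
  have hI : Complex.I * Complex.I = -1 := Complex.I_mul_I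
  linear_combination (2 * Real.pi * n * cexp u : ℂ) * hI

theorem geo_real {k : ℕ} {a : ℕ → ℝ} (u : ℝ) :
    starRingEnd ℂ (geo k (fun n => (a n : ℂ)) 0 u) = geo k (fun n => (a n : ℂ)) 0 u := by
  have h : ∃ r : ℝ, geo k (fun n => (a n : ℂ)) 0 u = (r : ℂ) := by
    refine ⟨Real.exp (k * u / 2) * ∑' n : ℕ, a n * Real.exp (-2 * Real.pi * n * Real.exp u), ?_⟩
    rw [geo, WA.qc, mul_comm, Complex.ofReal_mul, Complex.ofReal_tsum]
    congr 1
    refine tsum_congr fun n => ?_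
    push_cast
    congr 2
    have hI : Complex.I * Complex.I = -1 := Complex.I_mul_I
    linear_combination (2 * Real.pi * n * cexp u : ℂ) * hI
  obtain ⟨r, hr⟩ := h
  rw [hr, Complex.conj_ofReal]

theorem geo_sym {k : ℕ} {a : ℕ → ℝ} (H : HData k a) (he : Even k) : ∃ ε : ℝ, (ε = 1 ∨ ε = -1) ∧ ∀ u : ℝ,
    geo k (fun n => (a n : ℂ)) 0 (-u) = ε * geo k (fun n => (a n : ℂ)) 0 u := by
  obtain ⟨j, hj⟩ := he
  have hk : k = 2 * j := by omega
  refine ⟨(-1) ^ j, neg_one_pow_eq_or ℝ j, fun u => ?_⟩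
  have H' := WA.cf_of_hdata H
  have h1 := H'.slash 0 (-1) 1 0 (by norm_num) ((0 : ℝ) + ((Real.exp u : ℝ) : ℂ) * Complex.I)
    (by rw [WA.B1a_im]; exact Real.exp_pos u)
  have hne : (Real.exp u : ℂ) ≠ 0 := by exact_mod_cast (Real.exp_pos u).ne'
  have h2 : (((0 : ℤ) : ℂ) * (((0 : ℝ) : ℂ) + ((Real.exp u : ℝ) : ℂ) * Complex.I) + ((-1 : ℤ) : ℂ)) /
      (((1 : ℤ) : ℂ) * (((0 : ℝ) : ℂ) + ((Real.exp u : ℝ) : ℂ) * Complex.I) + ((0 : ℤ) : ℂ)) =
      ((0 : ℝ) : ℂ) + ((Real.exp (-u) : ℝ) : ℂ) * Complex.I := by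
    rw [Real.exp_neg]
    push_cast
    push_cast at hne
    have hI : Complex.I * Complex.I = -1 := Complex.I_mul_I
    have hI0 : Complex.I ≠ 0 := Complex.I_ne_zero
    field_simp
    ring_nf
    rw [Complex.I_sq]
    ring
  rw [h2] at h1
  rw [geo, geo, h1]
  have h3 : (((1 : ℤ) : ℂ) * (((0 : ℝ) : ℂ) + ((Real.exp u : ℝ) : ℂ) * Complex.I) + ((0 : ℤ) : ℂ)) ^ k =
      ((-1 : ℝ) ^ j : ℝ) * (Real.exp (k * u) : ℝ) := by
    have e1 : Real.exp (k * u) = Real.exp u ^ k := by rw [← Real.exp_nat_mul]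
    rw [e1, hk, pow_mul, pow_mul]
    push_cast
    rw [← mul_pow]
    congr 1
    have hI : Complex.I ^ 2 = -1 := Complex.I_sq
    linear_combination (cexp u ^ 2 : ℂ) * hI
  rw [h3]
  have h4 : Real.exp (k * u) * Real.exp (k * (-u) / 2) = Real.exp (k * u / 2) := by
    rw [← Real.exp_add]
    congr 1
    ring
  have h5 : ((Real.exp (k * u) : ℝ) : ℂ) * ((Real.exp (k * (-u) / 2) : ℝ) : ℂ) =
      ((Real.exp (k * u / 2) : ℝ) : ℂ) := by
    rw [← Complex.ofReal_mul, h4]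
  rw [← h5]
  ring

theorem geo_nice {k : ℕ} {a : ℕ → ℝ} (H : HData k a) :
    ABS.Nice (fun u => geo k (fun n => (a n : ℂ)) 0 u) ∧
      Continuous (fun u => geo k (fun n => (a n : ℂ)) 0 u) := by
  have e : (fun u => geo k (fun n => (a n : ℂ)) 0 u) =
      GL2.dens k a (1 : DirichletCharacter ℂ 1) := funext fun u => t2_dens k a u
  refine ⟨?_, WA.geo_cont (WA.cf_of_hdata H) 0⟩
  rw [e]
  exact SEL.sel_f1_nice H 1 DirichletCharacter.isPrimitive_one_level_one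

theorem ff_nice {k : ℕ} {a : ℕ → ℝ} (H : HData k a) (L : ℝ) (Θ : ℝ → ℝ) :
    ABS.Nice (ff k a L Θ) ∧ Continuous (ff k a L Θ) := by
  obtain ⟨h1, h2⟩ := geo_nice H
  constructor
  · exact ABS.Nice.sum _ fun m _ => ABS.Nice.sum _ fun l _ => (h1.shift _).const_mul _
  · exact continuous_finsetSum _ fun m _ => continuous_finsetSum _ fun l _ =>
      continuous_const.mul (h2.comp (continuous_id.add continuous_const))

theorem DD_nice {k : ℕ} {a : ℕ → ℝ} (H : HData k a) (L : ℝ) (Θ : ℝ → ℝ) :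
    ABS.Nice (DD k a L Θ) :=
  ABS.Nice.sum _ fun m _ => ABS.Nice.sum _ fun l _ =>
    ((geo_nice H).1.shift (Real.log m + Real.log l)).const_mul _

theorem ff_sym {k : ℕ} {a : ℕ → ℝ} (H : HData k a) (he : Even k) (L : ℝ) (Θ : ℝ → ℝ) :
    ∃ ε : ℝ, (ε = 1 ∨ ε = -1) ∧ ∀ v : ℝ, ff k a L Θ (-v) = ε * ff k a L Θ v := by
  obtain ⟨ε, hε, h⟩ := geo_sym H he
  refine ⟨ε, hε, fun v => ?_⟩
  unfold ff
  rw [Finset.sum_comm, Finset.mul_sum]
  refine Finset.sum_congr rfl fun l _ => ?_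
  rw [Finset.mul_sum]
  refine Finset.sum_congr rfl fun m _ => ?_
  have e1 : -v + (Real.log m - Real.log l) = -(v + (Real.log l - Real.log m)) := by ring
  rw [e1, h]
  have e2 : be k a L Θ m * be k a L Θ l / (√m * √l) = be k a L Θ l * be k a L Θ m / (√l * √m) := by
    rw [mul_comm (be k a L Θ m), mul_comm (√(m : ℝ))]
  rw [e2]
  ring

end Pool.Agent.WS
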