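import Pool.Agent.Lib_helper98.WSF.B1
import Pool.Agent.Lib_helper98.WSF.S1D
import Pool.Agent.Lib_helper98.WSF.S3B
import Pool.Agent.Lib_helper98.WSF.S3C
import Pool.Agent.Lib_helper98.WSF.S3E
import Pool.Agent.Lib_helper98.WSF.T2

/-! WS block S3F (STH): the pointwise second moment. Cites S1D, S3B, S3C, S3E, T2, B1, C1. -/

namespace Pool.Agent.WS

open Complex MeasureTheory Filter Topology
open UpperHalfPlane hiding I
open scoped MatrixGroups Modular ENNReal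
open Pool.Agent.GL2 (qs HData FD)
open Pool.Agent.WA (CForm pn geo Lf gd gk omk om Fam rho PsiB KS MainI MainR vz ch)
open Pool.Agent.SEL (NL Adm)
open Pool.Agent.SQS (hat)

/-- the middle part of the partition of unity -/
noncomputable def s3f_chi (η : ℝ → ℝ) (x : ℝ) : ℝ := 1 - η x - η (-x)

theorem s3f_chi_bd (S : Step) (x : ℝ) : |s3f_chi S.η x| ≤ 1 := by
  unfold s3f_chi
  have h1 := S.nonneg x
  have h2 := S.le_one x
  have h3 := S.nonneg (-x)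
  have h4 := S.le_one (-x)
  rcases le_total x 0 with hx | hx
  · rw [S.zero x (by linarith), abs_le]
    constructor <;> linarith
  · rw [S.zero (-x) (by linarith), abs_le]
    constructor <;> linarith

theorem s3f_chi_zero (S : Step) {x : ℝ} (hx : 1 ≤ |x|) : s3f_chi S.η x = 0 := by
  unfold s3f_chi
  rcases le_total x 0 with h | h
  · rw [abs_of_nonpos h] at hx
    rw [S.zero x (by linarith), S.one (-x) hx]
    ring
  · rw [abs_of_nonneg h] at hx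
    rw [S.zero (-x) (by linarith), S.one x hx]
    ring

/-- the cusp part -/
theorem s3f_cusp {Θ : ℝ → ℝ} (hA : Adm Θ) (hΘ : ∀ x, 0 ≤ Θ x ∧ Θ x ≤ 1)
    (h1 : ∀ x, 1 ≤ x → Θ x = 0) (S : Step) (B : ℝ) (hB : 0 < B) :
    ∃ (C : ℝ) (k₀ : ℕ), 0 < C ∧ ∀ k : ℕ, k₀ ≤ k → Even k → ∀ {ι : Type} [Fintype ι] (F : Fam k ι)
      (L : ℝ), L = Real.log k / B → ∀ t : ℝ,
      ∑ i, om k (F.a i) * ‖∫ v, ff k (F.a i) L Θ v * (S.η (v / (8 * L)) : ℂ) *
        cexp (t * v * I)‖ ^ 2 ≤ C * gk k ^ 2 := by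
  obtain ⟨k₁, hk₁⟩ := s3_tail_i hΘ S B hB
  obtain ⟨k₂, hk₂⟩ := s3_coef
  obtain ⟨C, k₃, hC, hk₃⟩ := s3_model hA hΘ h1 S B hB
  obtain ⟨k₄, hk₄⟩ := om_total
  refine ⟨4 * C + 4, max (max k₁ k₂) (max k₃ k₄), by positivity, fun k hk he ι _ F L hL t => ?_⟩
  have hk1 : k₁ ≤ k := le_trans (le_trans (le_max_left _ _) (le_max_left _ _)) hk
  have hk2 : k₂ ≤ k := le_trans (le_trans (le_max_right _ _) (le_max_left _ _)) hk
  have hk3 : k₃ ≤ k := le_trans (le_trans (le_max_left _ _) (le_max_right _ _)) hk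
  have hk4 : k₄ ≤ k := le_trans (le_trans (le_max_right _ _) (le_max_right _ _)) hk
  obtain ⟨hom, homs⟩ := hk₄ k hk4 F
  set N₀ : ℕ := ⌊(k : ℝ) / (8 * Real.pi * (NL L : ℝ) ^ 2)⌋₊ with hN₀
  have hNL : (0 : ℝ) < (NL L : ℝ) := by
    have : 0 < NL L := Nat.ceil_pos.mpr (Real.exp_pos L)
    exact_mod_cast this
  have hN : 8 * Real.pi * (N₀ * (NL L : ℝ) ^ 2) ≤ k := by
    have h2 : (N₀ : ℝ) ≤ (k : ℝ) / (8 * Real.pi * (NL L : ℝ) ^ 2) := Nat.floor_le (by positivity)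
    rw [le_div_iff₀ (by positivity)] at h2
    linarith
  have e1 := hk₂ k hk2 F L Θ S.η t N₀ hN
  have e2 := hk₃ k hk3 he L hL N₀ rfl t
  have e3 : ∀ i, ‖∫ v, ff k (F.a i) L Θ v * (S.η (v / (8 * L)) : ℂ) * cexp (t * v * I)‖ ^ 2 ≤
      2 * ‖Tp k L Θ S.η t N₀ (SEL.lam k (F.a i))‖ ^ 2 + 2 * gk k ^ 2 := by
    intro i
    have e4 := hk₁ k hk1 he (F.data i) L hL N₀ rfl t
    set x := ∫ v, ff k (F.a i) L Θ v * (S.η (v / (8 * L)) : ℂ) * cexp (t * v * I)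
    set y := Tp k L Θ S.η t N₀ (SEL.lam k (F.a i))
    have e5 : ‖x‖ ≤ ‖y‖ + ‖x - y‖ := by
      have := norm_add_le y (x - y)
      simpa using this
    have e6 := norm_nonneg x
    have e7 := norm_nonneg y
    have e8 := norm_nonneg (x - y)
    nlinarith [sq_nonneg (‖y‖ - gk k)]
  calc ∑ i, om k (F.a i) * ‖∫ v, ff k (F.a i) L Θ v * (S.η (v / (8 * L)) : ℂ) *
        cexp (t * v * I)‖ ^ 2
      ≤ ∑ i, om k (F.a i) * (2 * ‖Tp k L Θ S.η t N₀ (SEL.lam k (F.a i))‖ ^ 2 + 2 * gk k ^ 2) :=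
        Finset.sum_le_sum fun i _ => mul_le_mul_of_nonneg_left (e3 i) (hom i)
    _ = 2 * (∑ i, om k (F.a i) * ‖Tp k L Θ S.η t N₀ (SEL.lam k (F.a i))‖ ^ 2) +
        2 * gk k ^ 2 * ∑ i, om k (F.a i) := by
        rw [Finset.mul_sum, Finset.mul_sum, ← Finset.sum_add_distrib]
        refine Finset.sum_congr rfl fun i _ => ?_
        ring
    _ ≤ 2 * (2 * (C * gk k ^ 2)) + 2 * gk k ^ 2 * 2 := by
        have e9 : (0 : ℝ) ≤ 2 * gk k ^ 2 := by positivity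
        have e10 := mul_le_mul_of_nonneg_left homs e9
        linarith
    _ = (4 * C + 4) * gk k ^ 2 := by ring

theorem s_three {Θ : ℝ → ℝ} (hA : Adm Θ) (hΘ : ∀ x, 0 ≤ Θ x ∧ Θ x ≤ 1)
    (h1 : ∀ x, 1 ≤ x → Θ x = 0) : ∃ B₀ : ℝ, 1 ≤ B₀ ∧ ∀ B : ℝ, B₀ ≤ B →
    ∃ (C : ℝ) (k₀ : ℕ), 0 < C ∧ ∀ k : ℕ, k₀ ≤ k → Even k → ∀ {ι : Type} [Fintype ι] (F : Fam k ι)
      (L : ℝ), L = Real.log k / B → ∀ t : ℝ,
      ∑ i, om k (F.a i) * ‖hat (ff k (F.a i) L Θ) t‖ ^ 2 ≤ C * gk k ^ 2 := by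
  obtain ⟨S⟩ := exists_step
  obtain ⟨B₀, C₁, hB₀, hC₁, hone⟩ := s_one hA hΘ h1
  refine ⟨B₀, hB₀, fun B hB => ?_⟩
  have hBpos : 0 < B := by linarith
  obtain ⟨k₁, hk₁⟩ := hone B hB
  obtain ⟨C₂, k₂, hC₂, hk₂⟩ := s3f_cusp hA hΘ h1 S B hBpos
  obtain ⟨k₄, hk₄⟩ := om_total
  -- `L ≥ 1`
  obtain ⟨k₃, hk₃⟩ : ∃ k₃ : ℕ, ∀ k : ℕ, k₃ ≤ k → 1 ≤ Real.log k / B := by
    refine ⟨⌈Real.exp B⌉₊, fun k hk => ?_⟩
    rw [le_div_iff₀ hBpos, one_mul]
    have : Real.exp B ≤ k := (Nat.le_ceil _).trans (by exact_mod_cast hk)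
    rw [Real.le_log_iff_exp_le ((Real.exp_pos B).trans_le this)]
    exact this
  refine ⟨3 * (C₁ * 17 + C₂ + C₂), max (max k₁ k₂) (max k₃ k₄), by positivity,
    fun k hk he ι _ F L hL t => ?_⟩
  have hk1 : k₁ ≤ k := le_trans (le_trans (le_max_left _ _) (le_max_left _ _)) hk
  have hk2 : k₂ ≤ k := le_trans (le_trans (le_max_right _ _) (le_max_left _ _)) hk
  have hk3 : k₃ ≤ k := le_trans (le_trans (le_max_left _ _) (le_max_right _ _)) hk
  have hk4 : k₄ ≤ k := le_trans (le_trans (le_max_right _ _) (le_max_right _ _)) hk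
  obtain ⟨hom, -⟩ := hk₄ k hk4 F
  have hL1 : 1 ≤ L := hL ▸ hk₃ k hk3
  have hL0 : 0 < L := by linarith
  -- the three parts
  let W : ℝ → ℂ := fun v => (s3f_chi S.η (v / (8 * L)) : ℂ) * cexp (t * v * I)
  have hexp : ∀ v : ℝ, ‖cexp (t * v * I)‖ = 1 := fun v => ABS.expI_norm t v
  have hWc : Continuous W := by
    have := S.cont
    have h2 : Continuous (fun v : ℝ => s3f_chi S.η (v / (8 * L))) := by
      unfold s3f_chi
      fun_prop
    exact (Complex.continuous_ofReal.comp h2).mul (by fun_prop)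
  have hWb : ∀ v, ‖W v‖ ≤ 1 := by
    intro v
    simp only [W]
    rw [norm_mul, hexp, mul_one, Complex.norm_real]
    exact s3f_chi_bd S _
  have hWs : ∀ v, 8 * L < |v| → W v = 0 := by
    intro v hv
    simp only [W]
    rw [s3f_chi_zero S, Complex.ofReal_zero, zero_mul]
    rw [abs_div, abs_of_pos (show 0 < 8 * L by positivity), le_div_iff₀ (by positivity)]
    linarith
  have hWi : ∫ v, ‖W v‖ ^ 2 ≤ 16 * L := by
    have h2 : ∀ v, ‖W v‖ ^ 2 ≤ Set.indicator (Set.Icc (-(8 * L)) (8 * L)) (fun _ => (1 : ℝ)) v := by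
      intro v
      by_cases hv : v ∈ Set.Icc (-(8 * L)) (8 * L)
      · rw [Set.indicator_of_mem hv]
        have := hWb v
        have := norm_nonneg (W v)
        nlinarith
      · rw [Set.indicator_of_notMem hv, hWs v, norm_zero]
        · norm_num
        · rw [Set.mem_Icc, not_and_or, not_le, not_le] at hv
          rcases hv with h | h
          · rw [abs_of_neg (by linarith)]
            linarith
          · exact h.trans_le (le_abs_self v)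
    calc ∫ v, ‖W v‖ ^ 2 ≤ ∫ v, Set.indicator (Set.Icc (-(8 * L)) (8 * L)) (fun _ => (1 : ℝ)) v := by
          refine integral_mono_of_nonneg (ae_of_all _ fun v => by positivity) ?_ (ae_of_all _ h2)
          exact (integrable_indicator_iff measurableSet_Icc).mpr
            (integrableOn_const (by simp))
      _ = 16 * L := by
          rw [integral_indicator measurableSet_Icc, setIntegral_const, smul_eq_mul, mul_one,
            Real.volume_real_Icc_of_le (by linarith)]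
          ring
  have p1 := hk₁ k hk1 he F L hL W 1 hWc.measurable hWb hWs
  have p2 := hk₂ k hk2 he F L hL t
  have p3 := hk₂ k hk2 he F L hL (-t)
  have q1 : C₁ * gk k ^ 2 * (1 / L * (∫ v, ‖W v‖ ^ 2) + 1 ^ 2 / L ^ 2) ≤ C₁ * gk k ^ 2 * 17 := by
    refine mul_le_mul_of_nonneg_left ?_ (by positivity)
    have h3 : 1 / L * (∫ v, ‖W v‖ ^ 2) ≤ 16 := by
      calc 1 / L * (∫ v, ‖W v‖ ^ 2) ≤ 1 / L * (16 * L) :=
            mul_le_mul_of_nonneg_left hWi (by positivity)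
        _ = 16 := by field_simp
    have h4 : (1 : ℝ) ^ 2 / L ^ 2 ≤ 1 := by
      rw [div_le_one (by positivity)]
      nlinarith
    linarith
  have key : ∀ i, ‖hat (ff k (F.a i) L Θ) t‖ ^ 2 ≤
      3 * (‖∫ v, ff k (F.a i) L Θ v * W v‖ ^ 2 +
        ‖∫ v, ff k (F.a i) L Θ v * (S.η (v / (8 * L)) : ℂ) * cexp (t * v * I)‖ ^ 2 +
        ‖∫ v, ff k (F.a i) L Θ v * (S.η (v / (8 * L)) : ℂ) *
          cexp ((-t : ℝ) * v * I)‖ ^ 2) := by
    intro i
    obtain ⟨hni, hco⟩ := ff_nice (F.data i) L Θ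
    obtain ⟨ε, hε, hsym⟩ := ff_sym (F.data i) he L Θ
    have hbd : ∀ (G : ℝ → ℂ), Continuous G → (∀ v, ‖G v‖ ≤ 1) →
        Integrable (fun v => ff k (F.a i) L Θ v * G v) := fun G hG hb =>
      hni.int.mul_bdd (c := 1) hG.aestronglyMeasurable (ae_of_all _ hb)
    have hS := S.cont
    have hG1 : Continuous (fun v : ℝ => (S.η (v / (8 * L)) : ℂ) * cexp (t * v * I)) :=
      (Complex.continuous_ofReal.comp (hS.comp (continuous_id.div_const _))).mul (by fun_prop)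
    have hG2 : Continuous (fun v : ℝ => (S.η (-(v / (8 * L))) : ℂ) * cexp (t * v * I)) :=
      (Complex.continuous_ofReal.comp (hS.comp (continuous_id.div_const _).neg)).mul (by fun_prop)
    have hb : ∀ (x : ℝ) (v : ℝ), ‖(S.η x : ℂ) * cexp (t * v * I)‖ ≤ 1 := by
      intro x v
      rw [norm_mul, hexp, mul_one, Complex.norm_real, Real.norm_eq_abs, abs_of_nonneg (S.nonneg x)]
      exact S.le_one x
    have i0 := hbd W hWc hWb
    have i1 := hbd _ hG1 (fun v => hb _ v)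
    have i2 := hbd _ hG2 (fun v => hb _ v)
    have s1 : hat (ff k (F.a i) L Θ) t = (∫ v, ff k (F.a i) L Θ v * W v) +
        (∫ v, ff k (F.a i) L Θ v * ((S.η (v / (8 * L)) : ℂ) * cexp (t * v * I))) +
        ∫ v, ff k (F.a i) L Θ v * ((S.η (-(v / (8 * L))) : ℂ) * cexp (t * v * I)) := by
      have i01 : Integrable (fun v => ff k (F.a i) L Θ v * W v +
          ff k (F.a i) L Θ v * ((S.η (v / (8 * L)) : ℂ) * cexp (t * v * I))) := i0.add i1
      rw [hat, ← integral_add i0 i1, ← integral_add i01 i2]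
      refine integral_congr_ae (ae_of_all _ fun v => ?_)
      simp only [W, s3f_chi]
      push_cast
      ring
    have s2 : (∫ v, ff k (F.a i) L Θ v * ((S.η (-(v / (8 * L))) : ℂ) * cexp (t * v * I))) =
        ε * ∫ v, ff k (F.a i) L Θ v * (S.η (v / (8 * L)) : ℂ) * cexp ((-t : ℝ) * v * I) := by
      rw [← integral_neg_eq_self, ← integral_const_mul]
      refine integral_congr_ae (ae_of_all _ fun v => ?_)
      simp only
      rw [hsym v]
      have e1 : -(-v / (8 * L)) = v / (8 * L) := by ring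
      rw [e1]
      have e2 : (t : ℂ) * ((-v : ℝ) : ℂ) * I = ((-t : ℝ) : ℂ) * v * I := by
        push_cast
        ring
      rw [e2]
      ring
    have s3 : ‖(ε : ℂ)‖ = 1 := by
      rcases hε with h | h <;> simp [h]
    have s4 : (∫ v, ff k (F.a i) L Θ v * ((S.η (v / (8 * L)) : ℂ) * cexp (t * v * I))) =
        ∫ v, ff k (F.a i) L Θ v * (S.η (v / (8 * L)) : ℂ) * cexp (t * v * I) := by
      refine integral_congr_ae (ae_of_all _ fun v => ?_)
      simp only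
      ring
    rw [s4, s2] at s1
    set x := ∫ v, ff k (F.a i) L Θ v * W v
    set y := ∫ v, ff k (F.a i) L Θ v * (S.η (v / (8 * L)) : ℂ) * cexp (t * v * I)
    set z := ∫ v, ff k (F.a i) L Θ v * (S.η (v / (8 * L)) : ℂ) * cexp ((-t : ℝ) * v * I)
    have s5 : ‖hat (ff k (F.a i) L Θ) t‖ ≤ ‖x‖ + ‖y‖ + ‖z‖ := by
      rw [s1]
      refine (norm_add_le _ _).trans (add_le_add (norm_add_le _ _) ?_)
      rw [norm_mul, s3, one_mul]
    have s6 := norm_nonneg (hat (ff k (F.a i) L Θ) t)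
    calc ‖hat (ff k (F.a i) L Θ) t‖ ^ 2 ≤ (‖x‖ + ‖y‖ + ‖z‖) ^ 2 := pow_le_pow_left₀ s6 s5 2
      _ ≤ 3 * (‖x‖ ^ 2 + ‖y‖ ^ 2 + ‖z‖ ^ 2) := by
        nlinarith [sq_nonneg (‖x‖ - ‖y‖), sq_nonneg (‖y‖ - ‖z‖), sq_nonneg (‖x‖ - ‖z‖)]
  calc ∑ i, om k (F.a i) * ‖hat (ff k (F.a i) L Θ) t‖ ^ 2
      ≤ ∑ i, om k (F.a i) * (3 * (‖∫ v, ff k (F.a i) L Θ v * W v‖ ^ 2 +
        ‖∫ v, ff k (F.a i) L Θ v * (S.η (v / (8 * L)) : ℂ) * cexp (t * v * I)‖ ^ 2 +
        ‖∫ v, ff k (F.a i) L Θ v * (S.η (v / (8 * L)) : ℂ) *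
          cexp ((-t : ℝ) * v * I)‖ ^ 2)) :=
        Finset.sum_le_sum fun i _ => mul_le_mul_of_nonneg_left (key i) (hom i)
    _ = 3 * ((∑ i, om k (F.a i) * ‖∫ v, ff k (F.a i) L Θ v * W v‖ ^ 2) +
        (∑ i, om k (F.a i) * ‖∫ v, ff k (F.a i) L Θ v * (S.η (v / (8 * L)) : ℂ) *
          cexp (t * v * I)‖ ^ 2) +
        ∑ i, om k (F.a i) * ‖∫ v, ff k (F.a i) L Θ v * (S.η (v / (8 * L)) : ℂ) *
          cexp ((-t : ℝ) * v * I)‖ ^ 2) := by
        rw [← Finset.sum_add_distrib, ← Finset.sum_add_distrib, Finset.mul_sum]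
        refine Finset.sum_congr rfl fun i _ => ?_
        ring
    _ ≤ 3 * (C₁ * gk k ^ 2 * 17 + C₂ * gk k ^ 2 + C₂ * gk k ^ 2) := by
        linarith [p1, p2, p3, q1]
    _ = 3 * (C₁ * 17 + C₂ + C₂) * gk k ^ 2 := by ring

end Pool.Agent.WS
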