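import Pool.Agent.Lib_helper98.WSF.F1
import Pool.Agent.Lib_helper98.WSF.F2
import Pool.Agent.Lib_helper98.WSF.S2
import Pool.Agent.Lib_helper98.WSF.S3F
import Pool.Agent.Lib_helper98.WSF.W2
import Pool.Agent.Lib_helper98.WAF.N6

/-!
# The theorem with harmonic weights and with the natural count
-/

noncomputable section

namespace Pool.Agent.WS

open Complex MeasureTheory Filter Topology
open scoped MatrixGroups ENNReal
open Pool.Agent.GL2 (qs HData FD)
open Pool.Agent.WA (CForm pn geo Lf gd gk omk om Fam)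
open Pool.Agent.SEL (NL Adm)
open Pool.Agent.SQS (hat)
open Pool.Agent.ABS (LData Piece Nice)

/-- the coefficients of the mollifier -/
def bco (k : ℕ) (a : ℕ → ℝ) (L : ℝ) (Θ : ℝ → ℝ) (j : ℕ) : ℂ := ((be k a L Θ j / √j : ℝ) : ℂ)

theorem piece_f {k : ℕ} {a : ℕ → ℝ} {X : LData} (hA : X.A = 2 * c0 k)
    (hd : X.dens = fun u => geo k (fun n => (a n : ℂ)) 0 (u + c0 k) / (gk k : ℂ)) (L : ℝ)
    (Θ : ℝ → ℝ) (v : ℝ) :
    X.fd (Finset.Ico 1 (NL L)) (bco k a L Θ) (fun j => Real.log j) v =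
      ff k a L Θ v * (gk k : ℂ)⁻¹ := by
  unfold LData.fd ff bco
  rw [Finset.sum_mul]
  refine Finset.sum_congr rfl fun m _ => ?_
  rw [Finset.sum_mul]
  refine Finset.sum_congr rfl fun l _ => ?_
  rw [hA, hd, Complex.conj_ofReal]
  have e : v + (Real.log m - Real.log l - 2 * c0 k / 2) + c0 k =
      v + (Real.log m - Real.log l) := by ring
  simp only [e]
  push_cast
  ring

theorem piece_D {k : ℕ} {a : ℕ → ℝ} {X : LData}
    (hd : X.dens = fun u => geo k (fun n => (a n : ℂ)) 0 (u + c0 k) / (gk k : ℂ)) (L : ℝ)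
    (Θ : ℝ → ℝ) (v : ℝ) :
    X.Dd (Finset.Ico 1 (NL L)) (bco k a L Θ) (fun j => Real.log j) v =
      DD k a L Θ (v + c0 k) * (gk k : ℂ)⁻¹ := by
  unfold LData.Dd DD bco
  rw [Finset.sum_mul]
  refine Finset.sum_congr rfl fun m _ => ?_
  rw [Finset.sum_mul]
  refine Finset.sum_congr rfl fun l _ => ?_
  rw [hd]
  have e : v + (Real.log m + Real.log l) + c0 k = v + c0 k + (Real.log m + Real.log l) := by ring
  simp only [e]
  push_cast
  ring

/-- a bad form gives `L`-data with few zeros in some window -/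
theorem bad_ldata {k : ℕ} {a : ℕ → ℝ} (H : HData k a) (he : Even k) {α β h : ℝ} {n : ℕ}
    (hb : BadU k a α β h n) : ∃ X : LData, X.A = 2 * c0 k ∧
      (X.dens = fun u => geo k (fun n => (a n : ℂ)) 0 (u + c0 k) / (gk k : ℂ)) ∧
      ∃ x : ℝ, α ≤ x ∧ x + h ≤ β ∧ (ABS.oddZ X.Λ ∩ Set.Ioo x (x + h)).encard ≤ n := by
  obtain ⟨Λ, hΛ, -⟩ := lam_mellin H
  obtain ⟨X, h1, h2, h3⟩ := exists_ldata H he hΛ
  refine ⟨X, h1, h2, ?_⟩
  by_contra hcon
  push Not at hcon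
  refine hb ⟨Λ, hΛ, fun x hx hx' => ?_⟩
  have := hcon x hx hx'
  have hset : {t : ℝ | x < t ∧ t < x + h ∧ Odd (analyticOrderNatAt Λ (1 / 2 + t * I))} =
      ABS.oddZ X.Λ ∩ Set.Ioo x (x + h) := by
    ext t
    simp only [ABS.oddZ, Set.mem_ofPred_eq, Set.mem_inter_iff, Set.mem_Ioo, h3]
    tauto
  rw [hset]
  exact this

theorem harmonic : ∃ (c₁ C : ℝ) (k₀ : ℕ), 0 < c₁ ∧ 0 < C ∧ ∀ k : ℕ, k₀ ≤ k → Even k →
    ∀ {ι : Type} [Fintype ι] (F : Fam k ι) (S : Finset ι) (α β h H : ℝ),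
      -(c₁ * √k) ≤ α → β ≤ c₁ * √k → 0 < H → H ≤ 1 → H ≤ h → h ≤ β - α →
      (∀ i ∈ S, BadU k (F.a i) α β h ⌊h / H⌋₊) →
      ∑ i ∈ S, om k (F.a i) ≤ C * (β - α) / (h * H * Real.log k) := by
  obtain ⟨Θ, hA, hΘ, hΘ1, hΘ0⟩ := exists_bump2
  obtain ⟨B1, C1, hB1, hC1, h1⟩ := s_one hA hΘ hΘ0
  obtain ⟨B3, hB3, h3⟩ := s_three hA hΘ hΘ0
  set B : ℝ := max B1 B3 with hB
  have hB0 : 1 ≤ B := hB1.trans (le_max_left _ _)
  have hBpos : 0 < B := by linarith
  obtain ⟨k1, h1⟩ := h1 B (le_max_left _ _)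
  obtain ⟨C3, k3, hC3, h3⟩ := h3 B (le_max_right _ _)
  obtain ⟨k2, h2⟩ := s_two hΘ hΘ1 B hBpos
  obtain ⟨c, kr, hc, href⟩ := ref_low
  obtain ⟨kt, htot⟩ := om_total
  set CE : ℝ := C1 + C3 + 1 with hCE
  obtain ⟨C', hC', hend⟩ := wfam_uniform (C := CE) (c := 1 / 4) (m := 1 / 2) (δ := 1) (M := 1)
    (by positivity) (by norm_num) (by norm_num) (by norm_num) (by norm_num)
  -- a threshold making `log k ≥ B` and `c √k ≥ 2`
  obtain ⟨k4, hk4⟩ : ∃ k4 : ℕ, ∀ k : ℕ, k4 ≤ k → B ≤ Real.log k ∧ 2 ≤ c * √k ∧ 2 ≤ k := by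
    have t1 : Tendsto (fun k : ℕ => Real.log k) atTop atTop :=
      Real.tendsto_log_atTop.comp tendsto_natCast_atTop_atTop
    have t2 : Tendsto (fun k : ℕ => c * √k) atTop atTop :=
      (Real.tendsto_sqrt_atTop.comp tendsto_natCast_atTop_atTop).const_mul_atTop hc
    have := ((t1.eventually_ge_atTop B).and (t2.eventually_ge_atTop 2)).and (eventually_ge_atTop 2)
    obtain ⟨k4, h⟩ := eventually_atTop.1 this
    exact ⟨k4, fun k hk => ⟨(h k hk).1.1, (h k hk).1.2, (h k hk).2⟩⟩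
  refine ⟨c / 2, 2 * B * C', k1 + k2 + k3 + kr + kt + k4, by positivity, by positivity,
    fun k hk he ι _ F S α β h H ha hb hH hH1 hHh hba hS => ?_⟩
  obtain ⟨hlogB, hsq, hk2⟩ := hk4 k (by omega)
  have hlog : 0 < Real.log k := by linarith
  set L : ℝ := Real.log k / B with hL
  have hL1 : 1 ≤ L := by rw [hL, le_div_iff₀ hBpos]; linarith
  have hL0 : 0 < L := by linarith
  have hBL : B * L = Real.log k := by rw [hL]; field_simp
  have hgk : 0 < gk k := WA.gk_pos (by omega)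
  have hkpos : (2 : ℝ) ≤ k := by exact_mod_cast hk2
  have hh0 : 0 < h := hH.trans_le hHh
  rcases S.eq_empty_or_nonempty with rfl | hne
  · simp only [Finset.sum_empty]
    have : 0 < β - α := by linarith
    positivity
  have hS' : ∀ i ∈ S, ∃ X : LData, X.A = 2 * c0 k ∧
      (X.dens = fun u => geo k (fun n => (F.a i n : ℂ)) 0 (u + c0 k) / (gk k : ℂ)) ∧
      ∃ x : ℝ, α ≤ x ∧ x + h ≤ β ∧ (ABS.oddZ X.Λ ∩ Set.Ioo x (x + h)).encard ≤ ⌊h / H⌋₊ :=
    fun i hi => bad_ldata (F.data i) he (hS i hi)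
  have : Nonempty LData := by
    obtain ⟨i, hi⟩ := hne
    obtain ⟨X, _⟩ := hS' i hi
    exact ⟨X⟩
  choose! X hXA hXd hXx using hS'
  obtain ⟨hgn, hgm⟩ := ref_nice (k := k) (by omega)
  set P : ι → Piece := fun i =>
    (X i).piece (Finset.Ico 1 (NL L)) (bco k (F.a i) L Θ) (fun j => Real.log j)
      (fun u => (gd k 1 (u + c0 k) : ℂ) / (gk k : ℂ)) hgn with hP
  have hPf : ∀ i ∈ S, (P i).f = fun v => ff k (F.a i) L Θ v * (gk k : ℂ)⁻¹ := by
    intro i hi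
    funext v
    exact piece_f (hXA i hi) (hXd i hi) L Θ v
  have hPD : ∀ i ∈ S, ∀ u, (P i).D u - (P i).g u =
      (DD k (F.a i) L Θ (u + c0 k) - (gd k 1 (u + c0 k) : ℂ)) * (gk k : ℂ)⁻¹ := by
    intro i hi u
    have e : (P i).D u = DD k (F.a i) L Θ (u + c0 k) * (gk k : ℂ)⁻¹ := piece_D (hXd i hi) L Θ u
    rw [e]
    show _ - (gd k 1 (u + c0 k) : ℂ) / (gk k : ℂ) = _
    rw [div_eq_mul_inv]; ring
  have hom := htot k (by omega) F
  have hnorm : ‖(gk k : ℂ)⁻¹‖ = (gk k)⁻¹ := by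
    rw [norm_inv, Complex.norm_real, Real.norm_of_nonneg hgk.le]
  have hfam : WFam CE (1 / 4) (c * √k) (1 / 2) 1 1 S (fun i => om k (F.a i)) P L 2 := by
    refine ⟨fun i _ => hom.1 i, ?_, ?_, ?_, ?_, ?_, ?_, ?_⟩
    · exact (Finset.sum_le_sum_of_subset_of_nonneg (Finset.subset_univ _)
        fun i _ _ => hom.1 i).trans hom.2
    · intro W Bw hWm hWb hWs
      have e : ∀ i ∈ S, om k (F.a i) * ‖∫ v, (P i).f v * W v‖ ^ 2 =
          (gk k)⁻¹ ^ 2 * (om k (F.a i) * ‖∫ v, ff k (F.a i) L Θ v * W v‖ ^ 2) := by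
        intro i hi
        rw [hPf i hi]
        have : ∫ v, ff k (F.a i) L Θ v * (gk k : ℂ)⁻¹ * W v =
            (gk k : ℂ)⁻¹ * ∫ v, ff k (F.a i) L Θ v * W v := by
          rw [← integral_const_mul]; congr 1; funext v; ring
        rw [this, norm_mul, hnorm, mul_pow]; ring
      rw [Finset.sum_congr rfl e, ← Finset.mul_sum]
      have h5 := h1 k (by omega) he F L rfl W Bw hWm hWb (fun v hv => hWs v (by linarith))
      have h6 : ∑ i ∈ S, om k (F.a i) * ‖∫ v, ff k (F.a i) L Θ v * W v‖ ^ 2 ≤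
          ∑ i, om k (F.a i) * ‖∫ v, ff k (F.a i) L Θ v * W v‖ ^ 2 :=
        Finset.sum_le_sum_of_subset_of_nonneg (Finset.subset_univ _)
          fun i _ _ => mul_nonneg (hom.1 i) (by positivity)
      have hI : 0 ≤ 1 / L * (∫ v, ‖W v‖ ^ 2) + Bw ^ 2 / L ^ 2 := by
        have : 0 ≤ ∫ v, ‖W v‖ ^ 2 := integral_nonneg fun v => by positivity
        positivity
      calc (gk k)⁻¹ ^ 2 * ∑ i ∈ S, om k (F.a i) * ‖∫ v, ff k (F.a i) L Θ v * W v‖ ^ 2
          ≤ (gk k)⁻¹ ^ 2 * (C1 * gk k ^ 2 * (1 / L * (∫ v, ‖W v‖ ^ 2) + Bw ^ 2 / L ^ 2)) := by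
            gcongr
            exact h6.trans h5
        _ = C1 * (1 / L * (∫ v, ‖W v‖ ^ 2) + Bw ^ 2 / L ^ 2) := by field_simp
        _ ≤ CE * 2 * (1 / L * (∫ v, ‖W v‖ ^ 2) + Bw ^ 2 / L ^ 2) := by
            gcongr
            rw [hCE]; linarith
    · intro W Bw hWm hWb hWs
      have hBw : 0 ≤ Bw := (norm_nonneg _).trans (hWb 0)
      have e : ∀ i ∈ S, om k (F.a i) * ‖∫ v, ((P i).D v - (P i).g v) * W v‖ ^ 2 ≤
          om k (F.a i) * (Bw / k) ^ 2 := by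
        intro i hi
        refine mul_le_mul_of_nonneg_left ?_ (hom.1 i)
        have : ∫ v, ((P i).D v - (P i).g v) * W v = (gk k : ℂ)⁻¹ *
            ∫ v, (DD k (F.a i) L Θ (v + c0 k) - (gd k 1 (v + c0 k) : ℂ)) * W v := by
          rw [← integral_const_mul]
          congr 1; funext v
          rw [hPD i hi]; ring
        rw [this, norm_mul, hnorm]
        have h5 := h2 k (by omega) he (F.data i) L rfl W Bw hWm hWb hWs
        have h6 : (gk k)⁻¹ * ‖∫ v, (DD k (F.a i) L Θ (v + c0 k) - (gd k 1 (v + c0 k) : ℂ)) * W v‖ ≤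
            Bw / k := by
          calc _ ≤ (gk k)⁻¹ * (gk k * Bw / k) := by gcongr
            _ = Bw / k := by field_simp
        gcongr
      have hk1 : (Bw / k) ^ 2 ≤ Bw ^ 2 / L ^ 2 := by
        rw [div_pow]
        have hLk : L ≤ k := by
          have h8 : Real.log k ≤ k := by
            have := Real.log_le_sub_one_of_pos (show (0 : ℝ) < k by linarith)
            linarith
          have h9 : L ≤ Real.log k := by
            rw [hL]; exact div_le_self hlog.le hB0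
          linarith
        gcongr
      have hI : 0 ≤ ∫ v, ‖W v‖ ^ 2 := integral_nonneg fun v => by positivity
      calc ∑ i ∈ S, om k (F.a i) * ‖∫ v, ((P i).D v - (P i).g v) * W v‖ ^ 2
          ≤ ∑ i ∈ S, om k (F.a i) * (Bw / k) ^ 2 := Finset.sum_le_sum e
        _ = (∑ i ∈ S, om k (F.a i)) * (Bw / k) ^ 2 := by rw [Finset.sum_mul]
        _ ≤ 2 * (Bw ^ 2 / L ^ 2) := by
            gcongr
            exact (Finset.sum_le_sum_of_subset_of_nonneg (Finset.subset_univ _)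
              fun i _ _ => hom.1 i).trans hom.2
        _ ≤ CE * 2 * (1 / L * (∫ v, ‖W v‖ ^ 2) + Bw ^ 2 / L ^ 2) := by
            have h7 : 0 ≤ Bw ^ 2 / L ^ 2 := by positivity
            have h8 : 0 ≤ 1 / L * (∫ v, ‖W v‖ ^ 2) := by positivity
            have h9 : 1 ≤ CE := by rw [hCE]; linarith
            nlinarith [mul_nonneg (by linarith : 0 ≤ CE) h8, mul_nonneg (by linarith : 0 ≤ CE - 1) h7]
    · intro t
      have e : ∀ i ∈ S, om k (F.a i) * ‖hat (P i).f t‖ ^ 2 =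
          (gk k)⁻¹ ^ 2 * (om k (F.a i) * ‖hat (ff k (F.a i) L Θ) t‖ ^ 2) := by
        intro i hi
        rw [hPf i hi]
        have : hat (fun v => ff k (F.a i) L Θ v * (gk k : ℂ)⁻¹) t =
            (gk k : ℂ)⁻¹ * hat (ff k (F.a i) L Θ) t := by
          rw [← ABS.hat_const_mul]; congr 1; funext v; ring
        rw [this, norm_mul, hnorm, mul_pow]; ring
      rw [Finset.sum_congr rfl e, ← Finset.mul_sum]
      have h5 := h3 k (by omega) he F L rfl t
      have h6 : ∑ i ∈ S, om k (F.a i) * ‖hat (ff k (F.a i) L Θ) t‖ ^ 2 ≤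
          ∑ i, om k (F.a i) * ‖hat (ff k (F.a i) L Θ) t‖ ^ 2 :=
        Finset.sum_le_sum_of_subset_of_nonneg (Finset.subset_univ _)
          fun i _ _ => mul_nonneg (hom.1 i) (by positivity)
      calc (gk k)⁻¹ ^ 2 * ∑ i ∈ S, om k (F.a i) * ‖hat (ff k (F.a i) L Θ) t‖ ^ 2
          ≤ (gk k)⁻¹ ^ 2 * (C3 * gk k ^ 2) := by
            gcongr
            exact h6.trans h5
        _ = C3 := by field_simp
        _ ≤ CE * 2 := by rw [hCE]; linarith
    · intro i _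
      exact hgm
    · intro i _ t ht
      exact (href k (by omega)).1 t ht
    · intro i _ t s ht hs hts
      exact (href k (by omega)).2 t s ht hs hts
  have hfinal := hend (c * √k) ι S (fun i => om k (F.a i)) P L 2 hL1 hfam α β h H
    (by linarith) (by linarith) hH hH1 hHh hba hXx
  refine hfinal.trans (le_of_eq ?_)
  rw [← hBL]
  field_simp

theorem natural_u : ∃ (c₁ C : ℝ) (k₀ : ℕ), 0 < c₁ ∧ 0 < C ∧ ∀ k : ℕ, k₀ ≤ k → Even k →
    ∀ {ι : Type} [Fintype ι] (F : Fam k ι) (S : Finset ι) (α β h H : ℝ),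
      -(c₁ * √k) ≤ α → β ≤ c₁ * √k → 0 < H → H ≤ 1 → H ≤ h → h ≤ β - α →
      (∀ i ∈ S, BadU k (F.a i) α β h ⌊h / H⌋₊) →
      (S.card : ℝ) ≤ C * √((β - α) / (h * H * Real.log k)) * k := by
  obtain ⟨c₁, C, k₀, hc₁, hC, hh⟩ := harmonic
  obtain ⟨C2, k₁, hC2, h2⟩ := WA.inv_om_sum
  refine ⟨c₁, √C * √C2 + 1, k₀ + k₁ + 2, hc₁, by positivity, fun k hk he ι _ F S α β h H ha hb hH
    hH1 hHh hba hS => ?_⟩
  have hk2 : 2 ≤ k := by omega
  have h1 := hh k (by omega) he F S α β h H ha hb hH hH1 hHh hba hS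
  have h3 := h2 k (by omega) F
  have hpos : ∀ i, 0 < om k (F.a i) := fun i => WA.om_pos hk2 (F.data i)
  have hh0 : 0 < h := hH.trans_le hHh
  have hba0 : 0 < β - α := by linarith
  have hlog : 0 < Real.log k := Real.log_pos (by exact_mod_cast hk2)
  set Q : ℝ := (β - α) / (h * H * Real.log k) with hQ
  have hQ0 : 0 ≤ Q := by positivity
  have hcs : (S.card : ℝ) ^ 2 ≤ (∑ i ∈ S, om k (F.a i)) * ∑ i ∈ S, 1 / om k (F.a i) := by
    have := Finset.sum_mul_sq_le_sq_mul_sq S (fun i => √(om k (F.a i)))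
      (fun i => √(1 / om k (F.a i)))
    have e1 : ∀ i ∈ S, √(om k (F.a i)) * √(1 / om k (F.a i)) = 1 := by
      intro i _
      rw [← Real.sqrt_mul (hpos i).le, mul_one_div_cancel (hpos i).ne', Real.sqrt_one]
    rw [Finset.sum_congr rfl e1] at this
    have e2 : ∀ i ∈ S, √(om k (F.a i)) ^ 2 = om k (F.a i) := fun i _ => Real.sq_sqrt (hpos i).le
    have e3 : ∀ i ∈ S, √(1 / om k (F.a i)) ^ 2 = 1 / om k (F.a i) := fun i _ =>
      Real.sq_sqrt (by have := hpos i; positivity)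
    rw [Finset.sum_congr rfl e2, Finset.sum_congr rfl e3] at this
    simpa using this
  have h4 : ∑ i ∈ S, 1 / om k (F.a i) ≤ C2 * (k : ℝ) ^ 2 :=
    (Finset.sum_le_sum_of_subset_of_nonneg (Finset.subset_univ _)
      fun i _ _ => by have := hpos i; positivity).trans h3
  have h5 : (S.card : ℝ) ^ 2 ≤ (C * Q) * (C2 * (k : ℝ) ^ 2) := by
    refine hcs.trans ?_
    refine mul_le_mul ?_ h4 (Finset.sum_nonneg fun i _ => by have := hpos i; positivity)
      (by positivity)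
    refine h1.trans (le_of_eq ?_)
    rw [hQ]; ring
  have h6 : (S.card : ℝ) ≤ √((C * Q) * (C2 * (k : ℝ) ^ 2)) := Real.le_sqrt_of_sq_le h5
  have h7 : √((C * Q) * (C2 * (k : ℝ) ^ 2)) = √C * √C2 * √Q * k := by
    rw [Real.sqrt_mul (by positivity), Real.sqrt_mul hC.le, Real.sqrt_mul hC2.le,
      Real.sqrt_sq (by positivity)]
    ring
  rw [h7] at h6
  refine h6.trans ?_
  have : 0 ≤ √Q * k := by positivity
  nlinarith

end Pool.Agent.WS
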