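import Pool.Agent.Lib_helper98.WSF.T2
import Pool.Agent.Lib_helper68.SEL.F1

/-! # WS block F1: the `L`-function -/

namespace Pool.Agent.WS

open Complex MeasureTheory Filter Topology
open Pool.Agent.GL2 (qs HData FD)
open Pool.Agent.WA (CForm pn geo Lf gd gk omk om Fam rho PsiB)
open Pool.Agent.SQS (hat)

theorem f1_dn (k : ℕ) (a : ℕ → ℝ) (v : ℝ) :
    SEL.dn k a (1 : DirichletCharacter ℂ 1) v = 2 * geo k (fun n => (a n : ℂ)) 0 v := by
  unfold SEL.dn geo WA.qc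
  have h1 : ∀ n : ℕ, (1 : DirichletCharacter ℂ 1) (n : ZMod 1) *
      ((a n * Real.exp (-2 * Real.pi * n * Real.exp v) : ℝ) : ℂ) =
      (a n : ℂ) * cexp (2 * Real.pi * I * n * ((0 : ℝ) + (Real.exp v : ℝ) * I)) := by
    intro n
    have h2 : (1 : DirichletCharacter ℂ 1) (n : ZMod 1) = 1 := by
      have h3 : (n : ZMod 1) = 1 := Subsingleton.elim _ _
      rw [h3, map_one]
    rw [h2, one_mul, ofReal_mul, ofReal_exp]
    congr 2
    push_cast
    have : (I : ℂ) * I = -1 := I_mul_I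
    linear_combination (-(2 : ℂ) * Real.pi * n * cexp v) * this
  simp only [h1]
  push_cast
  ring

theorem f1_prim : (1 : DirichletCharacter ℂ 1).IsPrimitive :=
  DirichletCharacter.isPrimitive_one_level_one

theorem f1_isLam1 {k : ℕ} {a : ℕ → ℝ} {Λ : ℂ → ℂ} (h : SEL.IsLam k a (1 : DirichletCharacter ℂ 1) Λ) :
    IsLam1 k a Λ := by
  refine ⟨h.1, fun s hs => ?_⟩
  have h1 := h.2 s hs
  have h2 : ∀ n : ℕ, (1 : DirichletCharacter ℂ 1) (n : ZMod 1) = 1 := by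
    intro n
    have h3 : (n : ZMod 1) = 1 := Subsingleton.elim _ _
    rw [h3, map_one]
  simp only [h2, mul_one] at h1
  exact h1

theorem lam_mellin {k : ℕ} {a : ℕ → ℝ} (H : HData k a) : ∃ Λ : ℂ → ℂ, IsLam1 k a Λ ∧
    ∀ s : ℂ, Integrable (fun u : ℝ => geo k (fun n => (a n : ℂ)) 0 u * cexp ((s - 1 / 2) * u)) ∧
      Λ s = 2 * ∫ u : ℝ, geo k (fun n => (a n : ℂ)) 0 u * cexp ((s - 1 / 2) * u) := by
  refine ⟨SEL.sel_f1_L k a (1 : DirichletCharacter ℂ 1), f1_isLam1 (SEL.sel_f1_isLam H _ f1_prim),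
    fun s => ?_⟩
  obtain ⟨h1, h2⟩ := SEL.sel_f1_mellin H (1 : DirichletCharacter ℂ 1) f1_prim s
  have h3 : (fun v : ℝ => SEL.dn k a (1 : DirichletCharacter ℂ 1) v * cexp ((s - 1 / 2) * v)) =
      fun v : ℝ => 2 * (geo k (fun n => (a n : ℂ)) 0 v * cexp ((s - 1 / 2) * v)) := by
    funext v
    rw [f1_dn, mul_assoc]
  rw [h3] at h1 h2
  refine ⟨?_, ?_⟩
  · have h4 := h1.const_mul (1 / 2)
    have h5 : (fun u : ℝ => (1 / 2 : ℂ) * (2 * (geo k (fun n => (a n : ℂ)) 0 u *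
        cexp ((s - 1 / 2) * u)))) =
        fun u : ℝ => geo k (fun n => (a n : ℂ)) 0 u * cexp ((s - 1 / 2) * u) := by
      funext u
      ring
    rw [h5] at h4
    exact h4
  · rw [h2, integral_const_mul]

theorem lam1_unique {k : ℕ} {a : ℕ → ℝ} {Λ Λ' : ℂ → ℂ} (h : IsLam1 k a Λ)
    (h' : IsLam1 k a Λ') : Λ = Λ' := by
  refine AnalyticOnNhd.eq_of_eventuallyEq (𝕜 := ℂ) (z₀ := ((2 : ℝ) : ℂ))
    (fun z _ => h.1.analyticAt z) (fun z _ => h'.1.analyticAt z) ?_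
  have hopen : IsOpen {s : ℂ | (3 / 2 : ℝ) < s.re} :=
    isOpen_lt continuous_const Complex.continuous_re
  have hmem : ((2 : ℝ) : ℂ) ∈ {s : ℂ | (3 / 2 : ℝ) < s.re} := by
    rw [Set.mem_ofPred_eq, Complex.ofReal_re]
    norm_num
  filter_upwards [hopen.mem_nhds hmem] with s hs
  exact (h.2 s hs).unique (h'.2 s hs)

theorem f1_gk_pos {k : ℕ} (hk : 0 < k) : 0 < gk k := by
  unfold WA.gk
  apply mul_pos
  · apply Real.Gamma_pos_of_pos
    have : (0 : ℝ) < k := by exact_mod_cast hk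
    linarith
  · positivity

theorem exists_ldata {k : ℕ} {a : ℕ → ℝ} (H : HData k a) (he : Even k) {Λ : ℂ → ℂ}
    (h : IsLam1 k a Λ) :
    ∃ X : ABS.LData, X.A = 2 * c0 k ∧
      (X.dens = fun u => geo k (fun n => (a n : ℂ)) 0 (u + c0 k) / (gk k : ℂ)) ∧
      ∀ t : ℝ, analyticOrderNatAt X.Λ (1 / 2 + t * I) =
        analyticOrderNatAt Λ (1 / 2 + t * I) := by
  have hg : 0 < gk k := f1_gk_pos H.kpos
  have hg0 : (gk k : ℂ) ≠ 0 := by exact_mod_cast hg.ne'
  obtain ⟨Λ₀, h0, hm⟩ := lam_mellin H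
  have hΛ : Λ = Λ₀ := lam1_unique h h0
  rw [← hΛ] at hm
  set dens : ℝ → ℂ := fun u => geo k (fun n => (a n : ℂ)) 0 (u + c0 k) / (gk k : ℂ) with hdens
  set E : ℂ → ℂ := fun s => cexp (-((s - 1 / 2) * (c0 k : ℂ))) / (2 * (gk k : ℂ)) with hE
  set Λ' : ℂ → ℂ := fun s => E s * Λ s with hΛ'
  have hEd : Differentiable ℂ E := by
    rw [hE]
    fun_prop
  have hdiff : Differentiable ℂ Λ' := hEd.mul h.1
  have hnice : ABS.Nice dens := by
    have h1 := (geo_nice H).1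
    have h2 := (h1.shift (c0 k)).const_mul ((gk k : ℂ)⁻¹)
    have h3 : dens = fun u => (gk k : ℂ)⁻¹ * geo k (fun n => (a n : ℂ)) 0 (u + c0 k) := by
      funext u
      rw [hdens]
      simp only []
      rw [div_eq_mul_inv, mul_comm]
    rw [h3]
    exact h2
  have hrep : ∀ t : ℝ, hat dens t = Λ' (1 / 2 + t * I) := by
    intro t
    have h1 := (hm (1 / 2 + t * I)).2
    have h2 : hat dens t = ∫ u : ℝ, (fun v : ℝ => cexp (-(t * (c0 k : ℂ) * I)) / (gk k : ℂ) *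
        (geo k (fun n => (a n : ℂ)) 0 v * cexp ((1 / 2 + t * I - 1 / 2) * v))) (u + c0 k) := by
      unfold SQS.hat
      congr 1
      funext u
      rw [hdens]
      simp only []
      have e1 : cexp (t * u * I) = cexp (-(t * (c0 k : ℂ) * I)) *
          cexp ((1 / 2 + t * I - 1 / 2) * ((u + c0 k : ℝ) : ℂ)) := by
        rw [← Complex.exp_add]
        congr 1
        push_cast
        ring
      rw [e1]
      ring
    rw [h2, integral_add_right_eq_self (fun v : ℝ => cexp (-(t * (c0 k : ℂ) * I)) / (gk k : ℂ) *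
        (geo k (fun n => (a n : ℂ)) 0 v * cexp ((1 / 2 + t * I - 1 / 2) * v))) (c0 k),
      integral_const_mul, hΛ', hE]
    simp only []
    rw [h1]
    have e2 : (1 / 2 + (t : ℂ) * I - 1 / 2) * (c0 k : ℂ) = t * (c0 k : ℂ) * I := by ring
    rw [e2]
    field_simp
  obtain ⟨ε, hε, hsym⟩ := geo_sym H he
  have hεε : (ε : ℂ) * ε = 1 := by
    rcases hε with rfl | rfl <;> simp
  have hfe : ∀ u : ℝ, dens u = (ε : ℂ) * starRingEnd ℂ (dens (-(2 * c0 k) - u)) := by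
    intro u
    rw [hdens]
    simp only []
    rw [map_div₀, conj_ofReal, geo_real]
    have e1 : -(2 * c0 k) - u + c0 k = -(u + c0 k) := by ring
    rw [e1, hsym]
    linear_combination (-(geo k (fun n => (a n : ℂ)) 0 (u + c0 k) / (gk k : ℂ))) * hεε
  have hε1 : ‖(ε : ℂ)‖ = 1 := by
    rcases hε with rfl | rfl <;> simp
  refine ⟨{ Λ := Λ', A := 2 * c0 k, dens := dens, diff := hdiff, nice := hnice, rep := hrep,
            fe := ⟨ε, hε1, fun t => ABS.fe_of_dens hrep hε1 hfe t⟩ }, rfl, rfl, fun t => ?_⟩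
  show analyticOrderNatAt Λ' (1 / 2 + t * I) = _
  unfold analyticOrderNatAt
  have hmul : analyticOrderAt Λ' (1 / 2 + t * I) =
      analyticOrderAt E (1 / 2 + t * I) + analyticOrderAt Λ (1 / 2 + t * I) :=
    analyticOrderAt_mul (hEd.analyticAt _) (h.1.analyticAt _)
  have hE0 : analyticOrderAt E (1 / 2 + t * I) = 0 := by
    rw [(hEd.analyticAt _).analyticOrderAt_eq_zero, hE]
    simp only []
    apply div_ne_zero (Complex.exp_ne_zero _)
    exact mul_ne_zero two_ne_zero hg0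
  rw [hmul, hE0, zero_add]

end Pool.Agent.WS
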