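import Pool.Agent.Lib_helper98.WSF.F1

/-! Block F3 (ZUP), part c: `zer_strip`. -/

namespace Pool.Agent.WS

open Complex MeasureTheory Filter Topology
open UpperHalfPlane hiding I
open scoped MatrixGroups Modular ENNReal
open Pool.Agent.GL2 (qs HData FD)
open Pool.Agent.WA (CForm pn geo Lf gd gk omk om Fam rho PsiB KS MainI MainR vz ch)
open Pool.Agent.SEL (NL Adm)
open Pool.Agent.SQS (hat)

set_option linter.unusedVariables false

/-- the terms of the Dirichlet series -/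
noncomputable def f3_t (a : ℕ → ℝ) (w : ℂ) (n : ℕ) : ℂ := (a n : ℂ) / (n : ℂ) ^ w

lemma f3_t_one {k : ℕ} {a : ℕ → ℝ} (H : HData k a) (w : ℂ) : f3_t a w 1 = 1 := by
  simp [f3_t, H.one]

lemma f3_t_mul {k : ℕ} {a : ℕ → ℝ} (H : HData k a) (w : ℂ) {m n : ℕ} (h : m.Coprime n) :
    f3_t a w (m * n) = f3_t a w m * f3_t a w n := by
  unfold f3_t
  rw [H.mul m n h, Nat.cast_mul, natCast_mul_natCast_cpow]
  push_cast
  rw [div_mul_div_comm]

/-- the Euler factor -/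
lemma f3_euler {k : ℕ} {a : ℕ → ℝ} (H : HData k a) {w : ℂ} (hs : Summable (f3_t a w))
    {p : ℕ} (hp : p.Prime) :
    (1 - f3_t a w p + (p : ℂ) ^ ((k : ℂ) - 1 - 2 * w)) * ∑' e : ℕ, f3_t a w (p ^ e) = 1 := by
  have hp0 : (p : ℂ) ≠ 0 := Nat.cast_ne_zero.2 hp.ne_zero
  have hinj : Function.Injective (fun e : ℕ => p ^ e) := Nat.pow_right_injective hp.two_le
  have hs' : Summable (fun e : ℕ => f3_t a w (p ^ e)) := hs.comp_injective hinj
  have hrec : ∀ e : ℕ, f3_t a w (p ^ (e + 2)) = f3_t a w p * f3_t a w (p ^ (e + 1)) -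
      (p : ℂ) ^ ((k : ℂ) - 1 - 2 * w) * f3_t a w (p ^ e) := by
    intro e
    unfold f3_t
    rw [H.hecke p e hp]
    have e1 : ((p ^ (e + 2) : ℕ) : ℂ) ^ w = (p : ℂ) ^ w * ((p ^ (e + 1) : ℕ) : ℂ) ^ w := by
      rw [← natCast_mul_natCast_cpow, ← Nat.cast_mul]
      congr 2
      ring
    have e2 : ((p ^ (e + 2) : ℕ) : ℂ) ^ w = (p : ℂ) ^ (2 * w) * ((p ^ e : ℕ) : ℂ) ^ w := by
      rw [show (2 : ℂ) * w = w + w by ring, cpow_add _ _ hp0, ← natCast_mul_natCast_cpow,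
        ← Nat.cast_mul, ← natCast_mul_natCast_cpow, ← Nat.cast_mul]
      congr 2
      ring
    have e3 : (p : ℂ) ^ ((k : ℂ) - 1 - 2 * w) = ((p : ℂ) ^ (k - 1)) / (p : ℂ) ^ (2 * w) := by
      rw [cpow_sub _ _ hp0]
      congr 1
      have : (k : ℂ) - 1 = ((k - 1 : ℕ) : ℂ) := by
        rw [Nat.cast_sub H.kpos]; simp
      rw [this, cpow_natCast]
    have n1 : (p : ℂ) ^ w ≠ 0 := by rw [Ne, cpow_eq_zero_iff]; tauto
    have n2 : ((p ^ (e + 1) : ℕ) : ℂ) ^ w ≠ 0 := by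
      rw [Ne, cpow_eq_zero_iff]
      have : ((p ^ (e + 1) : ℕ) : ℂ) ≠ 0 := Nat.cast_ne_zero.2 (pow_ne_zero _ hp.ne_zero)
      tauto
    have n3 : ((p ^ e : ℕ) : ℂ) ^ w ≠ 0 := by
      rw [Ne, cpow_eq_zero_iff]
      have : ((p ^ e : ℕ) : ℂ) ≠ 0 := Nat.cast_ne_zero.2 (pow_ne_zero _ hp.ne_zero)
      tauto
    have n4 : (p : ℂ) ^ (2 * w) ≠ 0 := by rw [Ne, cpow_eq_zero_iff]; tauto
    push_cast
    rw [sub_div]
    congr 1
    · have e1' := e1
      push_cast at e1' n2 ⊢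
      rw [e1', div_mul_div_comm]
    · have e2' := e2
      push_cast at e2' n3 ⊢
      rw [e2', e3, div_mul_div_comm]
  set x := f3_t a w p with hx
  set y := (p : ℂ) ^ ((k : ℂ) - 1 - 2 * w) with hy
  have h0 : f3_t a w (p ^ 0) = 1 := by rw [pow_zero, f3_t_one H]
  have h1 : f3_t a w (p ^ 1) = x := by rw [pow_one]
  have hs1 : Summable (fun e : ℕ => f3_t a w (p ^ (e + 1))) := (summable_nat_add_iff 1).2 hs'
  have s0 := hs'.tsum_eq_zero_add
  have s1 := hs1.tsum_eq_zero_add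
  have s2 : ∑' e : ℕ, f3_t a w (p ^ (e + 1 + 1)) = x * (∑' e : ℕ, f3_t a w (p ^ (e + 1))) -
      y * ∑' e : ℕ, f3_t a w (p ^ e) := by
    rw [← tsum_mul_left, ← tsum_mul_left, ← (hs1.mul_left x).tsum_sub (hs'.mul_left y)]
    exact tsum_congr fun e => hrec e
  simp only [zero_add] at s1
  rw [h0] at s0
  rw [h1, s2] at s1
  linear_combination s0 + s1 - x * s0

/-- the Euler product does not vanish -/
lemma f3_ne {k : ℕ} {a : ℕ → ℝ} (H : HData k a) {w : ℂ} (hs : Summable (f3_t a w))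
    (hw : (k : ℝ) - 1 - 2 * w.re < -1) : ∑' n : ℕ, f3_t a w n ≠ 0 := by
  have hsn : Summable (fun n => ‖f3_t a w n‖) := hs.norm
  have h0 : f3_t a w 0 = 0 := by simp [f3_t, H.zero]
  have hP := EulerProduct.eulerProduct_hasProd (f := f3_t a w) (f3_t_one H w)
    (fun {m n} h => f3_t_mul H w h) hsn h0
  set g : Nat.Primes → ℂ := fun p => -f3_t a w p + (p : ℂ) ^ ((k : ℂ) - 1 - 2 * w) with hg
  have hgs : Summable (fun p => ‖g p‖) := by
    have h1 : Summable (fun p : Nat.Primes => ‖f3_t a w p‖) :=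
      hsn.comp_injective Nat.Primes.coe_nat_injective
    have h2 : Summable (fun p : Nat.Primes => ((p : ℕ) : ℝ) ^ ((k : ℝ) - 1 - 2 * w.re)) :=
      Nat.Primes.summable_rpow.2 hw
    refine Summable.of_nonneg_of_le (fun p => norm_nonneg _) (fun p => ?_) (h1.add h2)
    refine (norm_add_le _ _).trans ?_
    rw [norm_neg, norm_natCast_cpow_of_pos p.2.pos]
    simp
  have hM : Multipliable (fun p => 1 + g p) := multipliable_one_add_of_summable hgs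
  have hprod := hM.hasProd.mul hP
  have hone : (fun p : Nat.Primes => (1 + g p) * ∑' e, f3_t a w ((p : ℕ) ^ e)) = fun _ => 1 := by
    funext p
    have := f3_euler H hs p.2
    simp only [hg]
    linear_combination this
  rw [hone] at hprod
  have h1 := hprod.unique hasProd_one
  intro hzero
  rw [hzero, mul_zero] at h1
  exact zero_ne_one h1

/-- the completed `L`-function as a product, for `Re s > 3/2` -/
lemma f3_series {k : ℕ} {a : ℕ → ℝ} (hk : 1 ≤ k) {Λ : ℂ → ℂ} (h : IsLam1 k a Λ) {s : ℂ}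
    (hs : 3 / 2 < s.re) : Summable (f3_t a (s + ((k : ℂ) - 1) / 2)) ∧
      Λ s = Gammaℂ (s + ((k : ℂ) - 1) / 2) * ∑' n : ℕ, f3_t a (s + ((k : ℂ) - 1) / 2) n ∧
      Gammaℂ (s + ((k : ℂ) - 1) / 2) ≠ 0 := by
  have h1 := h.2 s hs
  have e1 : s + ((k : ℂ) + 1) / 2 = (s + ((k : ℂ) - 1) / 2) + 1 := by ring
  have hG : Gammaℝ (s + ((k : ℂ) - 1) / 2) * Gammaℝ (s + ((k : ℂ) + 1) / 2) =
      Gammaℂ (s + ((k : ℂ) - 1) / 2) := by
    rw [e1, Gammaℝ_mul_Gammaℝ_add_one]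
  rw [hG] at h1
  have hk' : (1 : ℝ) ≤ k := by exact_mod_cast hk
  have hre : 0 < (s + ((k : ℂ) - 1) / 2).re := by
    have : (s + ((k : ℂ) - 1) / 2).re = s.re + ((k : ℝ) - 1) / 2 := by
      simp
    rw [this]
    linarith
  have hG0 : Gammaℂ (s + ((k : ℂ) - 1) / 2) ≠ 0 := by
    rw [← Gammaℝ_mul_Gammaℝ_add_one]
    refine mul_ne_zero (Gammaℝ_ne_zero_of_re_pos hre) (Gammaℝ_ne_zero_of_re_pos ?_)
    rw [add_re, one_re]
    linarith
  have h2 : Summable (f3_t a (s + ((k : ℂ) - 1) / 2)) := by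
    have := h1.summable
    exact (summable_mul_left_iff hG0).1 this
  refine ⟨h2, ?_, hG0⟩
  rw [← tsum_mul_left]
  exact h1.tsum_eq.symm

/-- functional equation -/
lemma f3_fe {k : ℕ} {a : ℕ → ℝ} (H : HData k a) (he : Even k) {Λ : ℂ → ℂ} (h : IsLam1 k a Λ) :
    ∃ ε : ℝ, (ε = 1 ∨ ε = -1) ∧ ∀ s : ℂ, Λ (1 - s) = ε * Λ s := by
  obtain ⟨Λ', h', hm⟩ := lam_mellin H
  obtain rfl := lam1_unique h h'
  obtain ⟨ε, hε, hsym⟩ := geo_sym H he
  refine ⟨ε, hε, fun s => ?_⟩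
  rw [(hm (1 - s)).2, (hm s).2, ← integral_neg_eq_self]
  have : ∀ u : ℝ, geo k (fun n => (a n : ℂ)) 0 (-u) * cexp ((1 - s - 1 / 2) * ((-u : ℝ) : ℂ)) =
      ε * (geo k (fun n => (a n : ℂ)) 0 u * cexp ((s - 1 / 2) * u)) := by
    intro u
    rw [hsym u]
    have : (1 - s - 1 / 2) * ((-u : ℝ) : ℂ) = (s - 1 / 2) * u := by push_cast; ring
    rw [this]
    ring
  simp only [this]
  rw [integral_const_mul]
  ring

theorem zer_strip {k : ℕ} {a : ℕ → ℝ} (H : HData k a) (he : Even k) {Λ : ℂ → ℂ} (h : IsLam1 k a Λ) (ρ : ℂ)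
    (hρ : Λ ρ = 0) : -1 / 2 ≤ ρ.re ∧ ρ.re ≤ 3 / 2 := by
  have key : ∀ s : ℂ, 3 / 2 < s.re → Λ s ≠ 0 := by
    intro s hs
    obtain ⟨h1, h2, h3⟩ := f3_series H.kpos h hs
    rw [h2]
    refine mul_ne_zero h3 (f3_ne H h1 ?_)
    have : (s + ((k : ℂ) - 1) / 2).re = s.re + ((k : ℝ) - 1) / 2 := by
      simp
    rw [this]
    linarith
  obtain ⟨ε, hε, hfe⟩ := f3_fe H he h
  constructor
  · by_contra hlt
    push Not at hlt
    refine key (1 - ρ) ?_ ?_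
    · rw [sub_re, one_re]
      linarith
    · rw [hfe, hρ, mul_zero]
  · by_contra hlt
    push Not at hlt
    exact key ρ hlt hρ

end Pool.Agent.WS
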