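import Pool.Agent.Lib_helper98.WSF.F2
import Pool.Agent.Lib_helper98.WSF.F3C
import Pool.Agent.Lib_helper98.WSF.G1
import Pool.Agent.Lib_helper98.WSF.T1

/-! Block F3 (ZUP), part b: `zer_low`. -/

namespace Pool.Agent.WS

open Complex MeasureTheory Filter Topology
open UpperHalfPlane hiding I
open scoped MatrixGroups Modular ENNReal
open Pool.Agent.GL2 (qs HData FD)
open Pool.Agent.WA (CForm pn geo Lf gd gk omk om Fam rho PsiB KS MainI MainR vz ch)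
open Pool.Agent.SEL (NL Adm)
open Pool.Agent.SQS (hat)

set_option linter.unusedVariables false

lemma f3_a_le {k : ℕ} {a : ℕ → ℝ} (H : HData k a) {n : ℕ} (hn : 0 < n) :
    |a n| ≤ (n : ℝ) ^ ((k : ℝ) / 2 + 1) := by
  have hn' : (0 : ℝ) < n := by exact_mod_cast hn
  have h1 := (triv H hn).1
  have h2 : a n = SEL.lam k a n * (n : ℝ) ^ (((k : ℝ) - 1) / 2) := by
    rw [SEL.lam, mul_assoc, ← Real.rpow_add hn']
    simp
  rw [h2, abs_mul, abs_of_pos (Real.rpow_pos_of_pos hn' _)]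
  refine (mul_le_mul_of_nonneg_right h1 (Real.rpow_nonneg hn'.le _)).trans ?_
  rw [← Real.rpow_add hn']
  apply le_of_eq
  congr 1
  ring

lemma f3_gk_pos {k : ℕ} (hk : 1 ≤ k) : 0 < gk k := by
  have hk' : (0 : ℝ) < k := by exact_mod_cast hk
  unfold gk
  have := Real.Gamma_pos_of_pos (show (0 : ℝ) < k / 2 by positivity)
  positivity

lemma f3_hat (k : ℕ) (hk : 1 ≤ k) (t : ℝ) :
    ‖hat (fun u => (gd k 1 (u + c0 k) : ℂ) / (gk k : ℂ)) t‖ * gk k =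
      ‖Complex.Gamma ((k : ℂ) / 2 + t * I)‖ * (2 * Real.pi) ^ (-((k : ℝ) / 2)) := by
  have hg := f3_gk_pos hk
  have e1 : hat (fun u => (gd k 1 (u + c0 k) : ℂ) / (gk k : ℂ)) t =
      cexp (-(t * (c0 k : ℝ) * I)) * hat (fun v => (gk k : ℂ)⁻¹ * (gd k 1 v : ℂ)) t := by
    rw [← ABS.hat_shift]
    congr 1
    funext u
    rw [div_eq_inv_mul]
  rw [e1, ABS.hat_const_mul, norm_mul, norm_mul]
  have e2 : ‖cexp (-(t * (c0 k : ℝ) * I))‖ = 1 := by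
    rw [show -((t : ℂ) * (c0 k : ℝ) * I) = ((-(t * c0 k) : ℝ) : ℂ) * I by push_cast; ring]
    exact norm_exp_ofReal_mul_I _
  have e3 : hat (fun v => (gd k 1 v : ℂ)) t =
      Complex.Gamma ((k : ℂ) / 2 + t * I) * ((2 * Real.pi * (1 : ℕ) : ℝ) : ℂ) ^ (-((k : ℂ) / 2 + t * I)) := by
    have hk' : (0 : ℝ) < k := by exact_mod_cast hk
    rw [← (gd_mellin (k := k) (n := 1) hk le_rfl (z := t * I) (by simp; positivity)).2]
    unfold hat
    congr 1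
    funext u
    congr 2
    ring
  rw [e2, e3, norm_mul, norm_inv, Complex.norm_real, Real.norm_of_nonneg hg.le]
  have e4 : ‖((2 * Real.pi * (1 : ℕ) : ℝ) : ℂ) ^ (-((k : ℂ) / 2 + t * I))‖ =
      (2 * Real.pi) ^ (-((k : ℝ) / 2)) := by
    rw [norm_cpow_eq_rpow_re_of_pos (by positivity)]
    simp
  rw [e4]
  field_simp

lemma f3_tail {k : ℕ} {a : ℕ → ℝ} (H : HData k a) {w : ℂ} (hs : Summable (f3_t a w))
    (hw : w.re = (k : ℝ) / 2 + 3) : 1 / 3 ≤ ‖∑' n : ℕ, f3_t a w n‖ := by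
  have hb : ∀ n : ℕ, ‖f3_t a w (n + 2)‖ ≤ 1 / ((n : ℝ) + 2) ^ 2 := by
    intro n
    have hn : (0 : ℝ) < ((n + 2 : ℕ) : ℝ) := by positivity
    unfold f3_t
    rw [norm_div, norm_natCast_cpow_of_pos (by omega), hw, Complex.norm_real, Real.norm_eq_abs]
    have h1 := f3_a_le H (n := n + 2) (by omega)
    refine (div_le_div_of_nonneg_right h1 (Real.rpow_nonneg hn.le _)).trans ?_
    rw [← Real.rpow_sub hn]
    have : (k : ℝ) / 2 + 1 - ((k : ℝ) / 2 + 3) = -((2 : ℕ) : ℝ) := by push_cast; ring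
    rw [this, Real.rpow_neg hn.le, Real.rpow_natCast, one_div]
    push_cast
    exact le_rfl
  have hz : HasSum (fun n : ℕ => 1 / ((n : ℝ) + 2) ^ 2) (Real.pi ^ 2 / 6 - 1) := by
    have h1 := (hasSum_nat_add_iff' 2).2 hasSum_zeta_two
    simp only [Finset.sum_range_succ, Finset.sum_range_zero] at h1
    norm_num at h1
    have h2 : (fun n : ℕ => 1 / ((n : ℝ) + 2) ^ 2) = fun n : ℕ => (((n : ℝ) + 2) ^ 2)⁻¹ := by
      funext n; rw [one_div]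
    rw [h2]
    exact h1
  have hpi : Real.pi ^ 2 / 6 - 1 ≤ 2 / 3 := by
    have h1 := Real.pi_lt_d2
    have h2 := Real.pi_pos
    nlinarith
  have hs2 : Summable (fun n : ℕ => f3_t a w (n + 2)) := (summable_nat_add_iff 2).2 hs
  have h2 : ‖∑' n : ℕ, f3_t a w (n + 2)‖ ≤ 2 / 3 := by
    refine (tsum_of_norm_bounded hz hb).trans hpi
  have h3 := hs.sum_add_tsum_nat_add 2
  simp only [Finset.sum_range_succ, Finset.sum_range_zero] at h3
  have h0 : f3_t a w 0 = 0 := by simp [f3_t, H.zero]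
  rw [h0, f3_t_one H] at h3
  rw [← h3]
  have key : ∀ T : ℂ, ‖T‖ ≤ 2 / 3 → 1 / 3 ≤ ‖(0 + 0 + 1 + T : ℂ)‖ := by
    intro T hT
    have h5 : (0 + 0 + 1 + T : ℂ) - T = 1 := by ring
    have h6 : ‖(0 + 0 + 1 + T : ℂ) - T‖ ≤ ‖(0 + 0 + 1 + T : ℂ)‖ + ‖T‖ := norm_sub_le _ _
    have h7 : ‖(0 + 0 + 1 + T : ℂ) - T‖ = 1 := by rw [h5]; simp
    generalize ‖(0 + 0 + 1 + T : ℂ) - T‖ = x at h6 h7
    generalize ‖(0 + 0 + 1 + T : ℂ)‖ = y at h6 ⊢
    generalize ‖T‖ = z at h6 hT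
    linarith
  exact key _ h2

theorem zer_low : ∃ (c₂ : ℝ) (k₀ : ℕ), 0 < c₂ ∧ ∀ k : ℕ, k₀ ≤ k → Even k → ∀ {a : ℕ → ℝ}, HData k a →
    ∀ Λ : ℂ → ℂ, IsLam1 k a Λ → ∀ t : ℝ, |t| ≤ c₂ * √k →
      c₂ * gk k ≤ ‖Λ (7 / 2 + t * I)‖ := by
  obtain ⟨c₁, k₀, hc₁, hr⟩ := ref_low
  refine ⟨min c₁ (1 / 1000), max k₀ 2, lt_min hc₁ (by norm_num), ?_⟩
  intro k hk he a H Λ hΛ t ht
  have hk0 : k₀ ≤ k := (le_max_left _ _).trans hk
  have hk2 : 2 ≤ k := (le_max_right _ _).trans hk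
  have hk2' : (2 : ℝ) ≤ k := by exact_mod_cast hk2
  have hg := f3_gk_pos (k := k) (by omega)
  have ht1 : |t| ≤ c₁ * √k :=
    ht.trans (mul_le_mul_of_nonneg_right (min_le_left _ _) (Real.sqrt_nonneg _))
  have h1 := (hr k hk0).1 t ht1
  have h2 := f3_hat k (by omega) t
  -- the lower bound for the Gamma function
  have h3 : gk k / 2 ≤ ‖Complex.Gamma ((k : ℂ) / 2 + t * I)‖ * (2 * Real.pi) ^ (-((k : ℝ) / 2)) := by
    rw [← h2]
    nlinarith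
  have hs : (3 : ℝ) / 2 < ((7 : ℂ) / 2 + t * I).re := by
    simp; norm_num
  obtain ⟨s1, s2, _⟩ := f3_series H.kpos hΛ hs
  set w : ℂ := 7 / 2 + t * I + ((k : ℂ) - 1) / 2 with hwdef
  have hwre : w.re = (k : ℝ) / 2 + 3 := by
    rw [hwdef]; simp; ring
  have hweq : w = (((k : ℂ) / 2 + t * I) + 1 + 1) + 1 := by
    rw [hwdef]; ring
  have h4 := f3_tail H s1 hwre
  -- Gamma factor
  have hz0 : ∀ z : ℂ, 1 ≤ z.re → ‖Complex.Gamma z‖ ≤ ‖Complex.Gamma (z + 1)‖ := by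
    intro z hz
    have hz' : z ≠ 0 := by
      intro h; rw [h, zero_re] at hz; linarith
    rw [Complex.Gamma_add_one z hz', norm_mul]
    have : 1 ≤ ‖z‖ := hz.trans (Complex.re_le_norm z)
    nlinarith [norm_nonneg (Complex.Gamma z)]
  have hre0 : ((k : ℂ) / 2 + t * I).re = (k : ℝ) / 2 := by simp
  have h5 : ‖Complex.Gamma ((k : ℂ) / 2 + t * I)‖ ≤ ‖Complex.Gamma w‖ := by
    rw [hweq]
    refine (hz0 _ ?_).trans ((hz0 _ ?_).trans (hz0 _ ?_))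
    · rw [hre0]; linarith
    · rw [add_re, hre0, one_re]; linarith
    · rw [add_re, add_re, hre0, one_re]; linarith
  have h6 : ‖Gammaℂ w‖ = 2 * (2 * Real.pi) ^ (-((k : ℝ) / 2 + 3)) * ‖Complex.Gamma w‖ := by
    rw [Gammaℂ_def, norm_mul, norm_mul]
    have : (2 * (Real.pi : ℂ)) = ((2 * Real.pi : ℝ) : ℂ) := by push_cast; ring
    rw [this, norm_cpow_eq_rpow_re_of_pos (by positivity), neg_re, hwre]
    simp
  have h7 : (2 * Real.pi) ^ (-((k : ℝ) / 2 + 3)) =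
      (2 * Real.pi) ^ (-((k : ℝ) / 2)) * ((2 * Real.pi) ^ 3)⁻¹ := by
    rw [neg_add, Real.rpow_add (by positivity)]
    congr 1
    rw [Real.rpow_neg (by positivity)]
    congr 1
    exact_mod_cast Real.rpow_natCast (2 * Real.pi) 3
  have h8 : gk k / 2 * (2 * ((2 * Real.pi) ^ 3)⁻¹) ≤ ‖Gammaℂ w‖ := by
    rw [h6, h7]
    have hp : (0 : ℝ) < (2 * Real.pi) ^ (-((k : ℝ) / 2)) := by positivity
    calc gk k / 2 * (2 * ((2 * Real.pi) ^ 3)⁻¹)
        ≤ (‖Complex.Gamma ((k : ℂ) / 2 + t * I)‖ * (2 * Real.pi) ^ (-((k : ℝ) / 2))) *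
          (2 * ((2 * Real.pi) ^ 3)⁻¹) := mul_le_mul_of_nonneg_right h3 (by positivity)
      _ ≤ (‖Complex.Gamma w‖ * (2 * Real.pi) ^ (-((k : ℝ) / 2))) *
          (2 * ((2 * Real.pi) ^ 3)⁻¹) :=
        mul_le_mul_of_nonneg_right (mul_le_mul_of_nonneg_right h5 hp.le) (by positivity)
      _ = _ := by ring
  have h9 : (1 : ℝ) / 256 ≤ ((2 * Real.pi) ^ 3)⁻¹ := by
    rw [one_div]
    apply inv_anti₀ (by positivity)
    have h1 := Real.pi_lt_d2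
    have h2 := Real.pi_pos
    have h3 : (2 * Real.pi) ^ 3 ≤ (2 * 3.15) ^ 3 :=
      pow_le_pow_left₀ (by positivity) (by linarith) 3
    norm_num at h3 ⊢
    linarith
  rw [s2, norm_mul]
  have hmin : min c₁ (1 / 1000) ≤ 1 / 1000 := min_le_right _ _
  calc min c₁ (1 / 1000) * gk k ≤ 1 / 1000 * gk k := mul_le_mul_of_nonneg_right hmin hg.le
    _ ≤ gk k / 2 * (2 * (1 / 256)) * (1 / 3) := by nlinarith
    _ ≤ gk k / 2 * (2 * ((2 * Real.pi) ^ 3)⁻¹) * (1 / 3) := by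
        refine mul_le_mul_of_nonneg_right ?_ (by norm_num)
        refine mul_le_mul_of_nonneg_left ?_ (by positivity)
        linarith
    _ ≤ ‖Gammaℂ w‖ * ‖∑' n : ℕ, f3_t a w n‖ :=
        mul_le_mul h8 h4 (by norm_num) (norm_nonneg _)

end Pool.Agent.WS
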