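import Pool.Agent.Lib_helper98.WS.Defs
import Pool.Agent.Lib_helper68.SEL.Z1

/-!
# WS block H1 (HSB): the multiplicative functions
-/

namespace Pool.Agent.WS

open Complex MeasureTheory Filter Topology
open Pool.Agent.GL2 (qs HData FD)

/-! generic products over the factorization -/

theorem h1_one (g : ℕ → ℕ → ℝ) : (1 : ℕ).factorization.prod g = 1 := by
  simp

theorem h1_pow (g : ℕ → ℕ → ℝ) (h0 : ∀ p, g p 0 = 1) {p : ℕ} (hp : p.Prime) (i : ℕ) :
    (p ^ i).factorization.prod g = g p i := by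
  rw [hp.factorization_pow, Finsupp.prod_single_index (h0 p)]

theorem h1_cop (g : ℕ → ℕ → ℝ) {m n : ℕ} (h : m.Coprime n) :
    (m * n).factorization.prod g = m.factorization.prod g * n.factorization.prod g := by
  rw [Nat.factorization_mul_of_coprime h, Finsupp.prod_add_index_of_disjoint]
  rw [Nat.support_factorization, Nat.support_factorization]
  exact h.disjoint_primeFactors

theorem hs_one (θ : ℕ → ℝ) : hs θ 1 = 1 := h1_one _

theorem hs_pow (θ : ℕ → ℝ) {p : ℕ} (hp : p.Prime) (i : ℕ) :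
    hs θ (p ^ i) = SEL.Uc (θ p) i :=
  h1_pow (fun p i => SEL.Uc (θ p) i) (fun p => by simp [SEL.Uc]) hp i

theorem hs_cop (θ : ℕ → ℝ) {m n : ℕ} (h : m.Coprime n) :
    hs θ (m * n) = hs θ m * hs θ n := h1_cop _ h

theorem al_one (θ : ℕ → ℝ) : al θ 1 = 1 := h1_one _

theorem al_pow (θ : ℕ → ℝ) {p : ℕ} (hp : p.Prime) (i : ℕ) :
    al θ (p ^ i) = SEL.aloc (θ p) i :=
  h1_pow (fun p i => SEL.aloc (θ p) i) (fun p => SEL.aloc_zero_pr _) hp i

theorem al_cop (θ : ℕ → ℝ) {m n : ℕ} (h : m.Coprime n) :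
    al θ (m * n) = al θ m * al θ n := h1_cop _ h

/-! eigenvalues -/

theorem h1_lam_mul {k : ℕ} {a : ℕ → ℝ} (H : HData k a) {m n : ℕ} (h : m.Coprime n) :
    SEL.lam k a (m * n) = SEL.lam k a m * SEL.lam k a n := by
  simp only [SEL.lam]
  rw [H.mul m n h]
  push_cast
  rw [Real.mul_rpow (Nat.cast_nonneg _) (Nat.cast_nonneg _)]
  ring

theorem h1_lam_pow {k : ℕ} {a : ℕ → ℝ} (H : HData k a) {p : ℕ} (hp : p.Prime) (i : ℕ) :
    SEL.lam k a (p ^ i) = SEL.Uc (SEL.lam k a p) i := by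
  have hp0 : (0 : ℝ) < p := by exact_mod_cast hp.pos
  have key : ∀ i, SEL.lam k a (p ^ i) = SEL.Uc (SEL.lam k a p) i ∧
      SEL.lam k a (p ^ (i + 1)) = SEL.Uc (SEL.lam k a p) (i + 1) := by
    intro i
    induction i with
    | zero =>
      refine ⟨?_, ?_⟩
      · simp [SEL.lam, SEL.Uc, H.one]
      · simp [SEL.Uc]
    | succ r ih =>
      refine ⟨ih.2, ?_⟩
      have e1 : SEL.Uc (SEL.lam k a p) (r + 1 + 1) = SEL.lam k a p *
          SEL.Uc (SEL.lam k a p) (r + 1) - SEL.Uc (SEL.lam k a p) r := rfl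
      rw [e1, ← ih.1, ← ih.2]
      simp only [SEL.lam]
      have hh := H.hecke p r hp
      rw [show r + 1 + 1 = r + 2 by ring, hh]
      set c : ℝ := -(((k : ℝ) - 1) / 2) with hc
      have e2 : ∀ j : ℕ, ((p ^ j : ℕ) : ℝ) ^ c = (p : ℝ) ^ (c * j) := by
        intro j
        push_cast
        rw [← Real.rpow_natCast, ← Real.rpow_mul hp0.le]
        congr 1; ring
      rw [e2, e2, e2]
      have e3 : (p : ℝ) ^ (k - 1) = (p : ℝ) ^ ((k : ℝ) - 1) := by
        rw [← Real.rpow_natCast]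
        congr 1
        rw [Nat.cast_sub H.kpos, Nat.cast_one]
      rw [e3]
      have e4 : (p : ℝ) ^ (c * ((r + 2 : ℕ) : ℝ)) =
          (p : ℝ) ^ c * (p : ℝ) ^ (c * ((r + 1 : ℕ) : ℝ)) := by
        rw [← Real.rpow_add hp0]
        congr 1
        push_cast; ring
      have e5 : (p : ℝ) ^ ((k : ℝ) - 1) * (p : ℝ) ^ (c * ((r + 2 : ℕ) : ℝ)) =
          (p : ℝ) ^ (c * ((r : ℕ) : ℝ)) := by
        rw [← Real.rpow_add hp0]
        congr 1
        rw [hc]
        push_cast; ring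
      calc (a p * a (p ^ (r + 1)) - (p : ℝ) ^ ((k : ℝ) - 1) * a (p ^ r)) *
            (p : ℝ) ^ (c * ((r + 2 : ℕ) : ℝ))
          = a p * a (p ^ (r + 1)) * (p : ℝ) ^ (c * ((r + 2 : ℕ) : ℝ)) -
            a (p ^ r) * ((p : ℝ) ^ ((k : ℝ) - 1) * (p : ℝ) ^ (c * ((r + 2 : ℕ) : ℝ))) := by ring
        _ = _ := by rw [e5, e4]; ring
  exact (key i).1

theorem lam_hs {k : ℕ} {a : ℕ → ℝ} (H : HData k a) {n : ℕ} (hn : 0 < n) :
    SEL.lam k a n = hs (SEL.lam k a) n := by
  induction n using Nat.recOnPosPrimePosCoprime with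
  | prime_pow p n hp hn => rw [h1_lam_pow H hp, hs_pow _ hp]
  | zero => exact absurd hn (lt_irrefl 0)
  | one => rw [hs_one]; simp [SEL.lam, H.one]
  | coprime a b ha hb hab iha ihb =>
    rw [h1_lam_mul H hab, hs_cop _ hab, iha (by omega), ihb (by omega)]

/-! bounds -/

theorem h1_rt {x : ℝ} (hx : |x| ≤ 2) : ‖SEL.rt x‖ = 1 := by
  have h : x ^ 2 ≤ 4 := by
    have := sq_abs x
    have h2 := abs_nonneg x
    nlinarith
  have hr : SEL.rt x = ⟨x / 2, √(4 - x ^ 2) / 2⟩ := by unfold SEL.rt; rw [if_pos h]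
  have hs : √(4 - x ^ 2) ^ 2 = 4 - x ^ 2 := Real.sq_sqrt (by linarith)
  have hn : normSq (SEL.rt x) = 1 := by
    rw [hr, normSq_mk]; nlinarith
  rw [← sq_eq_sq₀ (norm_nonneg _) zero_le_one, ← Complex.normSq_eq_norm_sq, hn, one_pow]

theorem h1_prod_le (g : ℕ → ℕ → ℝ) (hg : ∀ p i, |g p i| ≤ i + 1) {n : ℕ} (hn : 0 < n) :
    |n.factorization.prod g| ≤ n := by
  have e1 : (n : ℝ) = ∏ p ∈ n.primeFactors, (p : ℝ) ^ (n.factorization p) := by
    conv_lhs => rw [← Nat.prod_factorization_pow_eq_self hn.ne']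
    rw [Finsupp.prod, Nat.support_factorization]
    push_cast
    rfl
  rw [Finsupp.prod, Nat.support_factorization, Finset.abs_prod, e1]
  refine Finset.prod_le_prod (fun _ _ => abs_nonneg _) fun p hp => ?_
  refine (hg p _).trans ?_
  have hp2 := (Nat.prime_of_mem_primeFactors hp).two_le
  have h1 : n.factorization p + 1 ≤ 2 ^ (n.factorization p) := Nat.lt_two_pow_self
  have h2 : 2 ^ (n.factorization p) ≤ p ^ (n.factorization p) := Nat.pow_le_pow_left hp2 _
  exact_mod_cast h1.trans h2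

theorem hs_le {θ : ℕ → ℝ} (hθ : ∀ p, |θ p| ≤ 2) {n : ℕ} (hn : 0 < n) :
    |hs θ n| ≤ n ∧ |al θ n| ≤ n := by
  refine ⟨h1_prod_le _ (fun p i => ?_) hn, h1_prod_le _ (fun p i => ?_) hn⟩
  · have := SEL.Uc_le_pr (θ p) i
    rwa [h1_rt (hθ p), one_pow, mul_one] at this
  · have := SEL.aloc_le_pr (θ p) i
    rwa [h1_rt (hθ p), one_pow, mul_one] at this

/-! the convolution identity -/

open ArithmeticFunction in
/-- the multiplicative arithmetic function of `g` -/
noncomputable def h1F (g : ℕ → ℕ → ℝ) : ArithmeticFunction ℝ :=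
  ⟨fun n => if n = 0 then 0 else n.factorization.prod g, by simp⟩

theorem h1F_apply (g : ℕ → ℕ → ℝ) {n : ℕ} (hn : n ≠ 0) :
    h1F g n = n.factorization.prod g := by
  change (if n = 0 then 0 else n.factorization.prod g) = _
  rw [if_neg hn]

theorem h1F_mult (g : ℕ → ℕ → ℝ) : (h1F g).IsMultiplicative := by
  rw [ArithmeticFunction.IsMultiplicative.iff_ne_zero]
  refine ⟨?_, fun {m n} hm hn h => ?_⟩
  · rw [h1F_apply g one_ne_zero, h1_one]
  · rw [h1F_apply g (mul_ne_zero hm hn), h1F_apply g hm, h1F_apply g hn, h1_cop g h]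

theorem h1_conv_pow (F G : ArithmeticFunction ℝ) {p : ℕ} (hp : p.Prime) (i : ℕ) :
    (F * G) (p ^ i) = ∑ v ∈ Finset.HasAntidiagonal.antidiagonal i, F (p ^ v.1) * G (p ^ v.2) := by
  rw [ArithmeticFunction.mul_apply,
    Nat.sum_divisorsAntidiagonal (fun x y => F x * G y), Nat.sum_divisors_prime_pow hp,
    Finset.Nat.sum_antidiagonal_eq_sum_range_succ (fun x y => F (p ^ x) * G (p ^ y))]
  refine Finset.sum_congr rfl fun x hx => ?_
  rw [Nat.pow_div (Nat.lt_succ_iff.1 (Finset.mem_range.1 hx)) hp.pos]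

theorem al_conv (θ : ℕ → ℝ) {n : ℕ} (hn : 0 < n) :
    ∑ v ∈ n.divisorsAntidiagonal, hs θ v.1 *
      ∑ w ∈ v.2.divisorsAntidiagonal, al θ w.1 * al θ w.2 = if n = 1 then 1 else 0 := by
  set U : ArithmeticFunction ℝ := h1F (fun p i => SEL.Uc (θ p) i) with hU
  set A : ArithmeticFunction ℝ := h1F (fun p i => SEL.aloc (θ p) i) with hA
  have hUm : U.IsMultiplicative := h1F_mult _
  have hAm : A.IsMultiplicative := h1F_mult _
  have key : U * (A * A) = 1 := by
    rw [ArithmeticFunction.IsMultiplicative.eq_iff_eq_on_prime_powers _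
      (hUm.mul (hAm.mul hAm)) _ ArithmeticFunction.isMultiplicative_one]
    intro p i hp
    rw [h1_conv_pow _ _ hp]
    have hU' : ∀ j, U (p ^ j) = SEL.Uc (θ p) j := fun j => by
      rw [hU, h1F_apply _ (pow_ne_zero _ hp.ne_zero)]
      exact hs_pow θ hp j
    have hA' : ∀ j, A (p ^ j) = SEL.aloc (θ p) j := fun j => by
      rw [hA, h1F_apply _ (pow_ne_zero _ hp.ne_zero)]
      exact al_pow θ hp j
    have h1 := SEL.aloc_conv_pr (θ p) i
    rw [ArithmeticFunction.one_apply]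
    have e1 : (p ^ i = 1) ↔ i = 0 := by
      rw [Nat.pow_eq_one]
      constructor
      · rintro (h | h)
        · exact absurd h hp.ne_one
        · exact h
      · exact fun h => Or.inr h
    simp only [e1]
    rw [← h1]
    refine Finset.sum_congr rfl fun v _ => ?_
    rw [hU', h1_conv_pow _ _ hp]
    congr 1
    exact Finset.sum_congr rfl fun w _ => by rw [hA', hA']
  have h2 := congrArg (fun F : ArithmeticFunction ℝ => F n) key
  simp only [ArithmeticFunction.one_apply] at h2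
  rw [← h2, ArithmeticFunction.mul_apply]
  refine Finset.sum_congr rfl fun v hv => ?_
  obtain ⟨hv1, hv0⟩ := Nat.mem_divisorsAntidiagonal.1 hv
  have hv1' : v.1 ≠ 0 := by rintro h; rw [h, zero_mul] at hv1; exact hv0 hv1.symm
  have hv2' : v.2 ≠ 0 := by rintro h; rw [h, mul_zero] at hv1; exact hv0 hv1.symm
  rw [hU, h1F_apply _ hv1', ArithmeticFunction.mul_apply]
  congr 1
  refine Finset.sum_congr rfl fun w hw => ?_
  obtain ⟨hw1, hw0⟩ := Nat.mem_divisorsAntidiagonal.1 hw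
  have hw1' : w.1 ≠ 0 := by rintro h; rw [h, zero_mul] at hw1; exact hw0 hw1.symm
  have hw2' : w.2 ≠ 0 := by rintro h; rw [h, mul_zero] at hw1; exact hw0 hw1.symm
  rw [hA, h1F_apply _ hw1', h1F_apply _ hw2']
  rfl

end Pool.Agent.WS
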