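import Pool.Agent.Lib_helper98.WSF.H1B
import Pool.Agent.Lib_helper98.WAF.B1a

/-! Block H2 (HGE): the Hecke operators on the imaginary axis. -/

namespace Pool.Agent.WS

open Complex MeasureTheory Filter Topology
open Pool.Agent.GL2 (qs HData FD)
open Pool.Agent.WA (CForm pn geo Lf gd gk omk om Fam rho PsiB)

theorem h2_geom {d : ℕ} (hd : 0 < d) (n : ℕ) :
    ∑ b ∈ Finset.range d, cexp (2 * Real.pi * I * n * (((b : ℝ) / d : ℝ) : ℂ)) =
      if d ∣ n then (d : ℂ) else 0 := by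
  have hd0 : (d : ℂ) ≠ 0 := by exact_mod_cast hd.ne'
  have h1 : ∀ b : ℕ, cexp (2 * Real.pi * I * n * (((b : ℝ) / d : ℝ) : ℂ)) =
      cexp (2 * Real.pi * I * n / d) ^ b := by
    intro b
    rw [← Complex.exp_nat_mul]
    congr 1
    push_cast
    field_simp
  simp only [h1]
  have hpow : cexp (2 * Real.pi * I * n / d) ^ d = 1 := by
    rw [← Complex.exp_nat_mul, Complex.exp_eq_one_iff]
    refine ⟨n, ?_⟩
    field_simp
    push_cast
    ring
  split_ifs with hdn
  · obtain ⟨m, rfl⟩ := hdn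
    have h2 : cexp (2 * Real.pi * I * ((d * m : ℕ) : ℂ) / d) = 1 := by
      rw [Complex.exp_eq_one_iff]
      refine ⟨m, ?_⟩
      push_cast
      field_simp
    rw [h2]
    simp
  · have h2 : cexp (2 * Real.pi * I * n / d) ≠ 1 := by
      intro h
      rw [Complex.exp_eq_one_iff] at h
      obtain ⟨m, hm⟩ := h
      apply hdn
      have h3 : (n : ℂ) = m * d := by
        have hpi : (2 * Real.pi * I : ℂ) ≠ 0 := Complex.two_pi_I_ne_zero
        have h4 : 2 * Real.pi * I * (n / d - m) = 0 := by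
          rw [mul_sub, ← mul_div_assoc, hm]
          ring
        rcases mul_eq_zero.1 h4 with h5 | h5
        · exact absurd h5 hpi
        · rw [sub_eq_zero, div_eq_iff hd0] at h5
          exact h5
      have h4 : (n : ℤ) = m * d := by exact_mod_cast h3
      exact Int.natCast_dvd_natCast.1 ⟨m, by rw [h4]; ring⟩
    rw [geom_sum_eq h2, hpow, sub_self, zero_div]

/-- the sum over the residues mod `d` at height `u + log (c/d)` -/
theorem h2_one {k : ℕ} {b : ℕ → ℂ} (H : CForm k b) {c d : ℕ} (hc : 0 < c) (hd : 0 < d) (u : ℝ) :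
    HasSum (fun N : ℕ => if c ∣ N then
        (((d : ℝ) * ((c : ℝ) / d) ^ ((k : ℝ) / 2) : ℝ) : ℂ) * b (d * (N / c)) * (gd k N u : ℂ)
        else 0)
      (∑ j ∈ Finset.range d, geo k b ((j : ℝ) / d) (u + Real.log ((c : ℝ) / d))) := by
  have hc' : (0 : ℝ) < c := by exact_mod_cast hc
  have hd' : (0 : ℝ) < d := by exact_mod_cast hd
  have hcd : (0 : ℝ) < (c : ℝ) / d := by positivity
  have h1 : HasSum (fun n : ℕ => ∑ j ∈ Finset.range d,
      b n * cexp (2 * Real.pi * Complex.I * n * (((j : ℝ) / d : ℝ) : ℂ)) *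
        (gd k n (u + Real.log ((c : ℝ) / d)) : ℂ))
      (∑ j ∈ Finset.range d, geo k b ((j : ℝ) / d) (u + Real.log ((c : ℝ) / d))) :=
    hasSum_sum fun j _ => WA.geo_series H _ _
  have h2 : (fun n : ℕ => ∑ j ∈ Finset.range d,
      b n * cexp (2 * Real.pi * Complex.I * n * (((j : ℝ) / d : ℝ) : ℂ)) *
        (gd k n (u + Real.log ((c : ℝ) / d)) : ℂ)) =
      fun n : ℕ => if d ∣ n then (d : ℂ) * b n * (gd k n (u + Real.log ((c : ℝ) / d)) : ℂ)
        else 0 := by
    funext n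
    rw [← Finset.sum_mul, ← Finset.mul_sum, h2_geom hd]
    split_ifs
    · ring
    · ring
  rw [h2] at h1
  have h3 : Function.Injective (fun m : ℕ => d * m) := fun x y h => Nat.eq_of_mul_eq_mul_left hd h
  have h4 : HasSum (fun m : ℕ => (d : ℂ) * b (d * m) *
      (gd k (d * m) (u + Real.log ((c : ℝ) / d)) : ℂ))
      (∑ j ∈ Finset.range d, geo k b ((j : ℝ) / d) (u + Real.log ((c : ℝ) / d))) := by
    rw [← h3.hasSum_iff] at h1
    · refine h1.congr_fun fun m => ?_
      simp only [Function.comp_apply, dvd_mul_right, if_true]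
    · intro n hn
      simp only [Set.mem_range, not_exists] at hn
      rw [if_neg]
      rintro ⟨m, hm⟩
      exact hn m hm.symm
  have h5 : Function.Injective (fun m : ℕ => c * m) := fun x y h => Nat.eq_of_mul_eq_mul_left hc h
  rw [← h5.hasSum_iff]
  · refine h4.congr_fun fun m => ?_
    simp only [Function.comp_apply, dvd_mul_right, if_true]
    rw [Nat.mul_div_cancel_left m hc]
    have h6 : gd k (d * m) (u + Real.log ((c : ℝ) / d)) =
        ((c : ℝ) / d) ^ ((k : ℝ) / 2) * gd k (c * m) u := by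
      unfold gd
      rw [Real.rpow_def_of_pos hcd, ← Real.exp_add]
      congr 1
      rw [Real.exp_add, Real.exp_log hcd]
      push_cast
      field_simp
      ring
    rw [h6]
    push_cast
    ring
  · intro n hn
    simp only [Set.mem_range, not_exists] at hn
    rw [if_neg]
    rintro ⟨m, hm⟩
    exact hn m hm.symm

theorem h2_lam {k : ℕ} {a : ℕ → ℝ} {n : ℕ} (hn : 0 < n) :
    a n = SEL.lam k a n * (n : ℝ) ^ (((k : ℝ) - 1) / 2) := by
  have h : (0 : ℝ) < n := by exact_mod_cast hn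
  unfold SEL.lam
  rw [mul_assoc, ← Real.rpow_add h]
  simp

/-- the Hecke relation for the coefficients -/
theorem h2_coef {k : ℕ} {a : ℕ → ℝ} (H : HData k a) {r : ℕ} (hr : 0 < r) (N : ℕ) :
    SEL.lam k a r * a N = (1 / √r) * ∑ p ∈ r.divisorsAntidiagonal, if p.1 ∣ N then
      (p.2 : ℝ) * ((p.1 : ℝ) / p.2) ^ ((k : ℝ) / 2) * a (p.2 * (N / p.1)) else 0 := by
  rcases Nat.eq_zero_or_pos N with hN | hN
  · subst hN
    simp [H.zero]
  have hr' : (0 : ℝ) < r := by exact_mod_cast hr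
  have hN' : (0 : ℝ) < N := by exact_mod_cast hN
  have h1 : SEL.lam k a r * a N = (N : ℝ) ^ (((k : ℝ) - 1) / 2) *
      ∑ c ∈ (Nat.gcd r N).divisors, SEL.lam k a (r * N / (c * c)) := by
    rw [h2_lam (k := k) (a := a) hN, ← mul_assoc, lam_hs H hr, lam_hs H hN, hs_mul _ hr hN, mul_comm]
    congr 1
    refine Finset.sum_congr rfl fun c hc => ?_
    rw [lam_hs H]
    have hc1 := (Nat.mem_divisors.1 hc).1
    have hc2 : c * c ∣ r * N :=
      mul_dvd_mul (hc1.trans (Nat.gcd_dvd_left r N)) (hc1.trans (Nat.gcd_dvd_right r N))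
    exact Nat.div_pos (Nat.le_of_dvd (Nat.mul_pos hr hN) hc2)
      (Nat.pos_of_dvd_of_pos hc2 (Nat.mul_pos hr hN))
  rw [h1, Finset.mul_sum, Finset.mul_sum]
  rw [Nat.sum_divisorsAntidiagonal (fun c d => (1 / √(r : ℝ)) * if c ∣ N then
      (d : ℝ) * ((c : ℝ) / d) ^ ((k : ℝ) / 2) * a (d * (N / c)) else 0)]
  have h2 : (Nat.gcd r N).divisors = r.divisors.filter (fun c => c ∣ N) := by
    ext c
    simp only [Nat.mem_divisors, Finset.mem_filter, Nat.dvd_gcd_iff]
    have : Nat.gcd r N ≠ 0 := (Nat.gcd_pos_of_pos_left N hr).ne'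
    have h0 : r ≠ 0 := hr.ne'
    exact ⟨fun h => ⟨⟨h.1.1, h0⟩, h.1.2⟩, fun h => ⟨⟨h.1.1, h.2⟩, this⟩⟩
  rw [h2, Finset.sum_filter]
  refine Finset.sum_congr rfl fun c hc => ?_
  obtain ⟨hc1, -⟩ := Nat.mem_divisors.1 hc
  split_ifs with hcN
  · obtain ⟨d, rfl⟩ := hc1
    obtain ⟨m, rfl⟩ := hcN
    have hc0 : 0 < c := Nat.pos_of_ne_zero (by rintro rfl; simp at hr)
    have hd0 : 0 < d := Nat.pos_of_ne_zero (by rintro rfl; simp at hr)
    have hm0 : 0 < m := Nat.pos_of_ne_zero (by rintro rfl; simp at hN)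
    have hc' : (0 : ℝ) < c := by exact_mod_cast hc0
    have hd' : (0 : ℝ) < d := by exact_mod_cast hd0
    have hm' : (0 : ℝ) < m := by exact_mod_cast hm0
    have h3 : c * d * (c * m) / (c * c) = d * m := by
      rw [show c * d * (c * m) = (c * c) * (d * m) by ring]
      exact Nat.mul_div_cancel_left _ (Nat.mul_pos hc0 hc0)
    rw [h3, Nat.mul_div_cancel_left d hc0, Nat.mul_div_cancel_left m hc0,
      h2_lam (k := k) (a := a) (n := d * m) (Nat.mul_pos hd0 hm0)]
    push_cast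
    have h4 : ((c : ℝ) * m) ^ (((k : ℝ) - 1) / 2) =
        1 / √((c : ℝ) * d) * ((d : ℝ) * ((c : ℝ) / d) ^ ((k : ℝ) / 2) *
          ((d : ℝ) * m) ^ (((k : ℝ) - 1) / 2)) := by
      rw [Real.sqrt_eq_rpow]
      have e1 : Real.log (((c : ℝ) * m) ^ (((k : ℝ) - 1) / 2)) =
          Real.log (1 / ((c : ℝ) * d) ^ (1 / 2 : ℝ) * ((d : ℝ) * ((c : ℝ) / d) ^ ((k : ℝ) / 2) *
          ((d : ℝ) * m) ^ (((k : ℝ) - 1) / 2))) := by
        rw [Real.log_rpow (by positivity), Real.log_mul (by positivity) (by positivity),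
          Real.log_mul (by positivity) (by positivity), Real.log_mul (by positivity) (by positivity),
          Real.log_mul (by positivity) (by positivity), Real.log_div (by positivity) (by positivity),
          Real.log_rpow (by positivity), Real.log_rpow (by positivity),
          Real.log_rpow (by positivity), Real.log_mul (by positivity) (by positivity),
          Real.log_mul (by positivity) (by positivity), Real.log_div (by positivity) (by positivity),
          Real.log_one]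
        ring
      exact Real.log_injOn_pos (Set.mem_Ioi.2 (by positivity)) (Set.mem_Ioi.2 (by positivity)) e1
    rw [h4]
    ring
  · simp

theorem hecke_geo {k : ℕ} {a : ℕ → ℝ} (H : HData k a) {r : ℕ} (hr : 0 < r) (u : ℝ) :
    (SEL.lam k a r : ℂ) * geo k (fun n => (a n : ℂ)) 0 u =
      ((1 / √r : ℝ) : ℂ) * ∑ p ∈ r.divisorsAntidiagonal, ∑ b ∈ Finset.range p.2,
        geo k (fun n => (a n : ℂ)) ((b : ℝ) / p.2) (u + Real.log ((p.1 : ℝ) / p.2)) := by
  have HC : CForm k (fun n => (a n : ℂ)) := WA.cf_of_hdata H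
  have h1 : HasSum (fun N : ℕ => (SEL.lam k a r : ℂ) * ((a N : ℂ) *
      cexp (2 * Real.pi * Complex.I * N * ((0 : ℝ) : ℂ)) * (gd k N u : ℂ)))
      ((SEL.lam k a r : ℂ) * geo k (fun n => (a n : ℂ)) 0 u) :=
    (WA.geo_series HC 0 u).mul_left _
  have h2 : HasSum (fun N : ℕ => ((1 / √r : ℝ) : ℂ) * ∑ p ∈ r.divisorsAntidiagonal,
      if p.1 ∣ N then (((p.2 : ℝ) * ((p.1 : ℝ) / p.2) ^ ((k : ℝ) / 2) : ℝ) : ℂ) *
        (a (p.2 * (N / p.1)) : ℂ) * (gd k N u : ℂ) else 0)
      (((1 / √r : ℝ) : ℂ) * ∑ p ∈ r.divisorsAntidiagonal, ∑ b ∈ Finset.range p.2,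
        geo k (fun n => (a n : ℂ)) ((b : ℝ) / p.2) (u + Real.log ((p.1 : ℝ) / p.2))) := by
    refine (hasSum_sum fun p hp => ?_).mul_left _
    obtain ⟨hp1, hp2⟩ := Nat.mem_divisorsAntidiagonal.1 hp
    have h3 : 0 < p.1 := Nat.pos_of_ne_zero (by intro h; rw [h, zero_mul] at hp1; omega)
    have h4 : 0 < p.2 := Nat.pos_of_ne_zero (by intro h; rw [h, mul_zero] at hp1; omega)
    exact h2_one HC h3 h4 u
  refine h1.unique (h2.congr_fun fun N => ?_)
  have h4 : cexp (2 * Real.pi * Complex.I * N * ((0 : ℝ) : ℂ)) = 1 := by simp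
  rw [h4, mul_one, ← mul_assoc, ← Complex.ofReal_mul, h2_coef H hr N]
  push_cast
  rw [mul_assoc, Finset.sum_mul]
  congr 1
  refine Finset.sum_congr rfl fun p _ => ?_
  split_ifs
  · push_cast
    ring
  · simp

end Pool.Agent.WS
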