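import Pool.Agent.Lib_helper98.WSF.M2

/-!
# Block M7 (MBL): the local integrals
-/

set_option autoImplicit false

namespace Pool.Agent.WS

open Complex MeasureTheory Filter Topology
open scoped ENNReal

theorem m7_abs (y : ℝ) : |2 * Real.cos y| ≤ 2 := by
  rw [abs_mul, abs_of_pos (by norm_num : (0 : ℝ) < 2)]
  linarith [Real.abs_cos_le_one y]

theorem m7_low {x : ℂ} (hx : ‖x‖ < 1) (y : ℝ) :
    (1 - ‖x‖) ^ 4 ≤ ‖EE (2 * Real.cos y) x‖ ^ 2 := by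
  have h := EE_low (m7_abs y) hx
  have h0 : 0 ≤ (1 - ‖x‖) ^ 2 := by positivity
  calc (1 - ‖x‖) ^ 4 = ((1 - ‖x‖) ^ 2) ^ 2 := by ring
    _ ≤ _ := pow_le_pow_left₀ h0 h 2

theorem m7_pos {x : ℂ} (hx : ‖x‖ < 1) (y : ℝ) : 0 < ‖EE (2 * Real.cos y) x‖ ^ 2 := by
  refine lt_of_lt_of_le ?_ (m7_low hx y)
  have : 0 < 1 - ‖x‖ := by linarith
  positivity

theorem m7_contE (x : ℂ) : Continuous fun y : ℝ => EE (2 * Real.cos y) x := by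
  unfold EE
  fun_prop

theorem m7_cont {x : ℂ} (hx : ‖x‖ < 1) :
    Continuous fun y : ℝ => (‖EE (2 * Real.cos y) x‖ ^ 2)⁻¹ :=
  Continuous.inv₀ ((m7_contE x).norm.pow 2) fun y => (m7_pos hx y).ne'

theorem m7_bd {x : ℂ} (hx : ‖x‖ < 1) (y : ℝ) :
    (‖EE (2 * Real.cos y) x‖ ^ 2)⁻¹ ≤ ((1 - ‖x‖) ^ 4)⁻¹ := by
  have : 0 < 1 - ‖x‖ := by linarith
  exact inv_anti₀ (by positivity) (m7_low hx y)

theorem m7_int {x : ℂ} (hx : ‖x‖ < 1) {g : ℝ → ℝ} (hg : Continuous g) {M : ℝ}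
    (hM : ∀ y, |g y| ≤ M) :
    Integrable (fun y : ℝ => (‖EE (2 * Real.cos y) x‖ ^ 2)⁻¹ * g y) st := by
  have := st_prob
  refine Integrable.of_bound ((m7_cont hx).mul hg).aestronglyMeasurable
    (((1 - ‖x‖) ^ 4)⁻¹ * M) (Eventually.of_forall fun y => ?_)
  rw [Real.norm_eq_abs, abs_mul]
  have h1 := m7_bd hx y
  have h2 : 0 ≤ (‖EE (2 * Real.cos y) x‖ ^ 2)⁻¹ := by positivity
  rw [abs_of_nonneg h2]
  have h3 : 0 ≤ ((1 - ‖x‖) ^ 4)⁻¹ := h2.trans h1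
  exact mul_le_mul h1 (hM y) (abs_nonneg _) h3

theorem m7_Uc0 (x : ℝ) : SEL.Uc x 0 = 1 := rfl
theorem m7_Uc1 (x : ℝ) : SEL.Uc x 1 = x := rfl

theorem m7_hl0 (x : ℂ) (ν : ℕ) : hl x 0 ν = 1 := by
  simp [hl]

theorem m7_hl10 (x : ℂ) : hl x 1 0 = x := by
  simp [hl]

theorem m7_hl1 {x : ℂ} (ν : ℕ) : hl x 1 (ν + 1) = x + x⁻¹ := by
  have : min 1 (ν + 1) + 1 = 2 := by omega
  rw [hl, this, Finset.sum_range_succ, Finset.sum_range_one]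
  have e1 : ((1 : ℕ) : ℤ) - 2 * ((0 : ℕ) : ℤ) = 1 := by norm_num
  have e2 : ((1 : ℕ) : ℤ) - 2 * ((1 : ℕ) : ℤ) = -1 := by norm_num
  rw [e1, e2, zpow_one, zpow_neg_one]

/-- Block M7 -/
theorem mb_inv {x : ℂ} (hx : ‖x‖ < 1) :
    ∫ y, (‖EE (2 * Real.cos y) x‖ ^ 2)⁻¹ ∂st = 1 / (1 - ‖x‖ ^ 2) := by
  have := st_prob
  by_cases hx0 : x = 0
  · subst hx0
    simp [EE]
  · have h := st_local hx0 hx 0 0
    have h1 : ‖((‖x‖ ^ 2 : ℝ) : ℂ)‖ < 1 := by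
      rw [Complex.norm_real, Real.norm_of_nonneg (by positivity)]
      nlinarith [norm_nonneg x]
    have h2 := hasSum_geometric_of_norm_lt_one h1
    have h3 : (fun ν : ℕ => ((‖x‖ ^ 2 : ℝ) : ℂ) ^ ν *
        (hl x 0 ν * starRingEnd ℂ (hl x 0 ν))) = fun ν : ℕ => ((‖x‖ ^ 2 : ℝ) : ℂ) ^ ν := by
      funext ν
      rw [m7_hl0]; simp
    rw [h3] at h
    have h4 := h.unique h2
    have h5 : ((∫ y, (‖EE (2 * Real.cos y) x‖ ^ 2)⁻¹ * (SEL.Uc (2 * Real.cos y) 0 *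
        SEL.Uc (2 * Real.cos y) 0) ∂st : ℝ) : ℂ) = ((1 / (1 - ‖x‖ ^ 2) : ℝ) : ℂ) := by
      rw [h4]; push_cast; rw [one_div]
    have h6 := Complex.ofReal_injective h5
    simpa [m7_Uc0] using h6

theorem m7_lin3 {f g h : ℝ → ℝ} (hf : Integrable f st) (hg : Integrable g st)
    (hh : Integrable h st) (α β γ : ℝ) :
    ∫ y, (α * f y + β * g y + γ * h y) ∂st =
      α * ∫ y, f y ∂st + β * ∫ y, g y ∂st + γ * ∫ y, h y ∂st := by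
  have h1 : Integrable (fun y => α * f y + β * g y) st := (hf.const_mul α).add (hg.const_mul β)
  rw [integral_add h1 (hh.const_mul γ), integral_add (hf.const_mul α) (hg.const_mul β),
    integral_const_mul, integral_const_mul, integral_const_mul]

/-- the mean value of `|E(z)/E(x)|²` -/
theorem m7_mean {x z : ℂ} (hx0 : x ≠ 0) (hx : ‖x‖ < 1) :
    ∫ y, (‖EE (2 * Real.cos y) x‖ ^ 2)⁻¹ * ‖EE (2 * Real.cos y) z‖ ^ 2 ∂st =
      ‖1 - z * (x - z)‖ ^ 2 + ‖(x - z) * (1 - z * x)‖ ^ 2 / (1 - ‖x‖ ^ 2) := by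
  have := st_prob
  set q : ℂ := ((‖x‖ ^ 2 : ℝ) : ℂ) with hq
  set a : ℂ := 1 + z ^ 2 with ha
  set b : ℂ := -z with hb
  have hx1 : ‖x‖ ^ 2 < 1 := by nlinarith [norm_nonneg x]
  have hq1 : ‖q‖ < 1 := by
    rw [hq, Complex.norm_real, Real.norm_of_nonneg (by positivity)]
    exact hx1
  -- the four integrals
  have h00 := st_local hx0 hx 0 0
  have h01 := st_local hx0 hx 0 1
  have h10 := st_local hx0 hx 1 0
  have h11 := st_local hx0 hx 1 1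
  rw [← hq] at h00 h01 h10 h11
  set I00 := ∫ y, (‖EE (2 * Real.cos y) x‖ ^ 2)⁻¹ * (SEL.Uc (2 * Real.cos y) 0 *
        SEL.Uc (2 * Real.cos y) 0) ∂st with hI00
  set I01 := ∫ y, (‖EE (2 * Real.cos y) x‖ ^ 2)⁻¹ * (SEL.Uc (2 * Real.cos y) 0 *
        SEL.Uc (2 * Real.cos y) 1) ∂st with hI01
  set I10 := ∫ y, (‖EE (2 * Real.cos y) x‖ ^ 2)⁻¹ * (SEL.Uc (2 * Real.cos y) 1 *
        SEL.Uc (2 * Real.cos y) 0) ∂st with hI10
  set I11 := ∫ y, (‖EE (2 * Real.cos y) x‖ ^ 2)⁻¹ * (SEL.Uc (2 * Real.cos y) 1 *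
        SEL.Uc (2 * Real.cos y) 1) ∂st with hI11
  have hI : I10 = I01 := by
    rw [hI10, hI01]
    refine integral_congr_ae (Eventually.of_forall fun y => ?_)
    simp only [mul_comm]
  -- the sum
  have hs := ((((h00.mul_left (a * starRingEnd ℂ a)).add (h01.mul_left (a * starRingEnd ℂ b))).add
    (h10.mul_left (b * starRingEnd ℂ a))).add (h11.mul_left (b * starRingEnd ℂ b)))
  have hfun : (fun ν : ℕ => a * starRingEnd ℂ a * (q ^ ν * (hl x 0 ν * starRingEnd ℂ (hl x 0 ν))) +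
      a * starRingEnd ℂ b * (q ^ ν * (hl x 0 ν * starRingEnd ℂ (hl x 1 ν))) +
      b * starRingEnd ℂ a * (q ^ ν * (hl x 1 ν * starRingEnd ℂ (hl x 0 ν))) +
      b * starRingEnd ℂ b * (q ^ ν * (hl x 1 ν * starRingEnd ℂ (hl x 1 ν)))) =
      fun ν : ℕ => q ^ ν * ((‖a + b * hl x 1 ν‖ ^ 2 : ℝ) : ℂ) := by
    funext ν
    rw [m7_hl0]
    have e : ((‖a + b * hl x 1 ν‖ ^ 2 : ℝ) : ℂ) =
        (a + b * hl x 1 ν) * starRingEnd ℂ (a + b * hl x 1 ν) := by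
      rw [Complex.mul_conj, Complex.normSq_eq_norm_sq]
    rw [e]
    simp only [map_add, map_mul, map_one]
    ring
  have hs' : HasSum (fun ν : ℕ => q ^ ν * ((‖a + b * hl x 1 ν‖ ^ 2 : ℝ) : ℂ))
      (a * starRingEnd ℂ a * (I00 : ℂ) + a * starRingEnd ℂ b * (I01 : ℂ) +
        b * starRingEnd ℂ a * (I10 : ℂ) + b * starRingEnd ℂ b * (I11 : ℂ)) := by
    rw [← hfun]; exact hs
  -- the other evaluation
  have h0 : a + b * hl x 1 0 = 1 - z * (x - z) := by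
    rw [m7_hl10, ha, hb]; ring
  have h1 : ∀ ν, a + b * hl x 1 (ν + 1) = (x - z) * (1 - z * x) / x := by
    intro ν
    rw [m7_hl1, ha, hb]; field_simp; ring
  have hs2 : HasSum (fun ν : ℕ => q ^ ν * ((‖a + b * hl x 1 ν‖ ^ 2 : ℝ) : ℂ))
      ((‖1 - z * (x - z)‖ ^ 2 + ‖(x - z) * (1 - z * x)‖ ^ 2 / (1 - ‖x‖ ^ 2) : ℝ) : ℂ) := by
    refine (hasSum_nat_add_iff' 1).1 ?_
    simp only [Finset.sum_range_one, pow_zero, one_mul, h0, h1]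
    have hg := (hasSum_geometric_of_norm_lt_one hq1).mul_left
      (q * ((‖(x - z) * (1 - z * x) / x‖ ^ 2 : ℝ) : ℂ))
    have e1 : (fun ν : ℕ => q ^ (ν + 1) * ((‖(x - z) * (1 - z * x) / x‖ ^ 2 : ℝ) : ℂ)) =
        fun ν : ℕ => q * ((‖(x - z) * (1 - z * x) / x‖ ^ 2 : ℝ) : ℂ) * q ^ ν := by
      funext ν; ring
    rw [e1]
    have hne : (‖x‖ : ℝ) ≠ 0 := norm_ne_zero_iff.2 hx0
    have hne2 : (1 - ‖x‖ ^ 2 : ℝ) ≠ 0 := by linarith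
    have e3 : ((‖1 - z * (x - z)‖ ^ 2 + ‖(x - z) * (1 - z * x)‖ ^ 2 / (1 - ‖x‖ ^ 2) : ℝ) : ℂ) -
        ((‖1 - z * (x - z)‖ ^ 2 : ℝ) : ℂ) =
        q * ((‖(x - z) * (1 - z * x) / x‖ ^ 2 : ℝ) : ℂ) * (1 - q)⁻¹ := by
      rw [hq, norm_div, norm_mul]
      have e2 : ((1 : ℂ) - ((‖x‖ ^ 2 : ℝ) : ℂ))⁻¹ = (((1 - ‖x‖ ^ 2)⁻¹ : ℝ) : ℂ) := by
        push_cast; rfl
      rw [e2, ← Complex.ofReal_mul, ← Complex.ofReal_mul, ← Complex.ofReal_sub]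
      congr 1
      field_simp
      ring
    rw [e3]
    exact hg
  have hval := hs'.unique hs2
  -- the integral
  have hcos : Continuous fun y : ℝ => 2 * Real.cos y := by fun_prop
  have i00 : Integrable (fun y : ℝ => (‖EE (2 * Real.cos y) x‖ ^ 2)⁻¹ *
      (SEL.Uc (2 * Real.cos y) 0 * SEL.Uc (2 * Real.cos y) 0)) st :=
    m7_int hx (g := fun y : ℝ => SEL.Uc (2 * Real.cos y) 0 * SEL.Uc (2 * Real.cos y) 0)
    (by simp only [m7_Uc0]; fun_prop) (M := 4) (fun y => by rw [m7_Uc0]; norm_num)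
  have i01 : Integrable (fun y : ℝ => (‖EE (2 * Real.cos y) x‖ ^ 2)⁻¹ *
      (SEL.Uc (2 * Real.cos y) 0 * SEL.Uc (2 * Real.cos y) 1)) st :=
    m7_int hx (g := fun y : ℝ => SEL.Uc (2 * Real.cos y) 0 * SEL.Uc (2 * Real.cos y) 1)
    (by simp only [m7_Uc0, m7_Uc1]; fun_prop) (M := 4) (fun y => by
      rw [m7_Uc0, m7_Uc1, one_mul]; linarith [m7_abs y])
  have i11 : Integrable (fun y : ℝ => (‖EE (2 * Real.cos y) x‖ ^ 2)⁻¹ *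
      (SEL.Uc (2 * Real.cos y) 1 * SEL.Uc (2 * Real.cos y) 1)) st :=
    m7_int hx (g := fun y : ℝ => SEL.Uc (2 * Real.cos y) 1 * SEL.Uc (2 * Real.cos y) 1)
    (by simp only [m7_Uc1]; fun_prop) (M := 4) (fun y => by
      rw [m7_Uc1, abs_mul]
      have := m7_abs y
      nlinarith [abs_nonneg (2 * Real.cos y)])
  have hpt : ∀ y : ℝ, (‖EE (2 * Real.cos y) x‖ ^ 2)⁻¹ * ‖EE (2 * Real.cos y) z‖ ^ 2 =
      ‖a‖ ^ 2 * ((‖EE (2 * Real.cos y) x‖ ^ 2)⁻¹ * (SEL.Uc (2 * Real.cos y) 0 *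
        SEL.Uc (2 * Real.cos y) 0)) +
      2 * (a * starRingEnd ℂ b).re * ((‖EE (2 * Real.cos y) x‖ ^ 2)⁻¹ *
        (SEL.Uc (2 * Real.cos y) 0 * SEL.Uc (2 * Real.cos y) 1)) +
      ‖b‖ ^ 2 * ((‖EE (2 * Real.cos y) x‖ ^ 2)⁻¹ * (SEL.Uc (2 * Real.cos y) 1 *
        SEL.Uc (2 * Real.cos y) 1)) := by
    intro y
    have e : ‖EE (2 * Real.cos y) z‖ ^ 2 = ‖a‖ ^ 2 + 2 * (a * starRingEnd ℂ b).re *
        (2 * Real.cos y) + ‖b‖ ^ 2 * (2 * Real.cos y) ^ 2 := by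
      have e1 : EE (2 * Real.cos y) z = a + b * ((2 * Real.cos y : ℝ) : ℂ) := by
        rw [EE, ha, hb]; ring
      rw [e1, ← Complex.normSq_eq_norm_sq, ← Complex.normSq_eq_norm_sq,
        ← Complex.normSq_eq_norm_sq, Complex.normSq_apply, Complex.normSq_apply,
        Complex.normSq_apply]
      simp only [Complex.add_re, Complex.add_im, Complex.mul_re, Complex.mul_im,
        Complex.ofReal_re, Complex.ofReal_im, Complex.conj_re, Complex.conj_im]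
      ring
    rw [e, m7_Uc0, m7_Uc1]
    ring
  have hint : ∫ y, (‖EE (2 * Real.cos y) x‖ ^ 2)⁻¹ * ‖EE (2 * Real.cos y) z‖ ^ 2 ∂st =
      ‖a‖ ^ 2 * I00 + 2 * (a * starRingEnd ℂ b).re * I01 + ‖b‖ ^ 2 * I11 := by
    rw [integral_congr_ae (Eventually.of_forall hpt)]
    exact m7_lin3 i00 i01 i11 _ _ _
  rw [hint]
  have hre := congrArg Complex.re hval
  rw [Complex.ofReal_re] at hre
  rw [← hre, hI]
  have e1 : a * starRingEnd ℂ a = ((‖a‖ ^ 2 : ℝ) : ℂ) := by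
    rw [Complex.mul_conj, Complex.normSq_eq_norm_sq]
  have e2 : b * starRingEnd ℂ b = ((‖b‖ ^ 2 : ℝ) : ℂ) := by
    rw [Complex.mul_conj, Complex.normSq_eq_norm_sq]
  have e3 : b * starRingEnd ℂ a = starRingEnd ℂ (a * starRingEnd ℂ b) := by
    simp [mul_comm]
  rw [e1, e2, e3]
  simp only [Complex.add_re, Complex.mul_re, Complex.ofReal_re, Complex.ofReal_im, mul_zero,
    sub_zero, Complex.conj_re]
  ring

/-- Block M7 -/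
theorem mb_local {p : ℕ} (hp : p.Prime) {x z : ℂ} (hx0 : x ≠ 0) (hx : ‖x‖ ^ 2 ≤ 1 / p)
    (hz : ‖z‖ ≤ ‖x‖) {δ : ℝ} (hδ : δ ≤ 2) (hxz : ‖x - z‖ ≤ δ * ‖x‖) :
    ∫ y, (‖EE (2 * Real.cos y) x‖ ^ 2)⁻¹ * ‖EE (2 * Real.cos y) z‖ ^ 2 ∂st ≤
      Real.exp (12 * δ / p) := by
  have hp2 : (2 : ℝ) ≤ p := by exact_mod_cast hp.two_le
  have hpos : 0 < ‖x‖ := norm_pos_iff.2 hx0
  have hδ0 : 0 ≤ δ := by
    by_contra h
    rw [not_le] at h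
    have := (norm_nonneg (x - z)).trans hxz
    nlinarith
  have hp1 : 1 / (p : ℝ) ≤ 1 / 2 := one_div_le_one_div_of_le (by norm_num) hp2
  have hx1 : ‖x‖ < 1 := by nlinarith [norm_nonneg x]
  rw [m7_mean hx0 hx1]
  set P : ℝ := 1 / (p : ℝ) with hP
  have hP0 : 0 < P := by rw [hP]; positivity
  have hxx : ‖x‖ * ‖x‖ ≤ P := by rw [← sq]; exact hx
  have a1 : ‖1 - z * (x - z)‖ ≤ 1 + δ * P := by
    calc ‖1 - z * (x - z)‖ ≤ ‖(1 : ℂ)‖ + ‖z * (x - z)‖ := norm_sub_le _ _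
      _ = 1 + ‖z‖ * ‖x - z‖ := by rw [norm_one, norm_mul]
      _ ≤ 1 + ‖x‖ * (δ * ‖x‖) := by
        have := mul_le_mul hz hxz (norm_nonneg _) (norm_nonneg _)
        linarith
      _ = 1 + δ * (‖x‖ * ‖x‖) := by ring
      _ ≤ 1 + δ * P := by nlinarith
  have a2 : ‖1 - z * x‖ ≤ 3 / 2 := by
    calc ‖1 - z * x‖ ≤ ‖(1 : ℂ)‖ + ‖z * x‖ := norm_sub_le _ _
      _ = 1 + ‖z‖ * ‖x‖ := by rw [norm_one, norm_mul]
      _ ≤ 1 + ‖x‖ * ‖x‖ := by nlinarith [norm_nonneg x]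
      _ ≤ 3 / 2 := by linarith
  have a3 : ‖(x - z) * (1 - z * x)‖ ^ 2 ≤ δ ^ 2 * P * (9 / 4) := by
    rw [norm_mul, mul_pow]
    have b1 : ‖x - z‖ ^ 2 ≤ δ ^ 2 * P := by
      calc ‖x - z‖ ^ 2 ≤ (δ * ‖x‖) ^ 2 := pow_le_pow_left₀ (norm_nonneg _) hxz 2
        _ = δ ^ 2 * (‖x‖ * ‖x‖) := by ring
        _ ≤ δ ^ 2 * P := by nlinarith [sq_nonneg δ]
    have b2 : ‖1 - z * x‖ ^ 2 ≤ 9 / 4 := by
      calc ‖1 - z * x‖ ^ 2 ≤ (3 / 2 : ℝ) ^ 2 := pow_le_pow_left₀ (norm_nonneg _) a2 2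
        _ = 9 / 4 := by norm_num
    exact mul_le_mul b1 b2 (by positivity) (by positivity)
  have a4 : 1 / 2 ≤ 1 - ‖x‖ ^ 2 := by
    have : ‖x‖ ^ 2 ≤ P := hx
    linarith
  have a5 : ‖(x - z) * (1 - z * x)‖ ^ 2 / (1 - ‖x‖ ^ 2) ≤ 9 * δ * P := by
    rw [div_le_iff₀ (by linarith)]
    have c1 : δ ^ 2 * P * (9 / 4) ≤ 9 / 2 * δ * P := by
      have : δ ^ 2 ≤ 2 * δ := by nlinarith
      nlinarith
    have c2 : 9 * δ * P * (1 / 2) ≤ 9 * δ * P * (1 - ‖x‖ ^ 2) :=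
      mul_le_mul_of_nonneg_left a4 (by positivity)
    linarith
  have a6 : ‖1 - z * (x - z)‖ ^ 2 ≤ 1 + 3 * δ * P := by
    calc ‖1 - z * (x - z)‖ ^ 2 ≤ (1 + δ * P) ^ 2 := pow_le_pow_left₀ (norm_nonneg _) a1 2
      _ = 1 + 2 * (δ * P) + (δ * P) * (δ * P) := by ring
      _ ≤ 1 + 2 * (δ * P) + (δ * P) * 1 := by
        have : δ * P ≤ 1 := by nlinarith
        have h0 : 0 ≤ δ * P := by positivity
        nlinarith
      _ = 1 + 3 * δ * P := by ring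
  have a7 : 12 * δ / p = 12 * δ * P := by rw [hP]; ring
  rw [a7]
  have := Real.add_one_le_exp (12 * δ * P)
  linarith

end Pool.Agent.WS
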