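import Pool.Agent.Lib_helper98.WSF.E1
import Pool.Agent.Lib_helper98.WSF.F4
import Pool.Agent.Lib_helper98.WAF.TOP

/-!
# Selberg's theorem in the weight aspect: the final theorem
-/

noncomputable section

namespace Pool.Agent.WS

open Complex MeasureTheory Filter Topology
open scoped MatrixGroups ENNReal
open Pool.Agent.GL2 (qs HData FD)
open Pool.Agent.WA (Fam Eig co pet eig_data eig_orth eig_count dim_low top_qs)

/-- the property of a form `a` in the theorem -/
def TGood (k : ℕ) (a : ℕ → ℝ) (C α β h H : ℝ) : Prop :=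
  ∃ Λ : ℂ → ℂ, IsLam1 k a Λ ∧ ∀ x : ℝ, α ≤ x → x + h ≤ β →
    ENNReal.ofReal (h / H) < oddCrit Λ x (x + h) ∧
    ENNReal.ofReal (min h 1 / (C * H * Real.log k)) * allZer Λ x (x + h) ≤
      oddCrit Λ x (x + h)

theorem ws_top : ∃ (c C : ℝ) (k₀ : ℕ), 0 < c ∧ 0 < C ∧ ∀ k : ℕ, k₀ ≤ k → Even k →
    {f : CuspForm 𝒮ℒ (k : ℤ) | Eig f}.Finite ∧
    (k : ℝ) / 24 ≤ {f : CuspForm 𝒮ℒ (k : ℤ) | Eig f}.ncard ∧
    ∀ α β h H : ℝ, -(c * √k) ≤ α → β ≤ c * √k → 0 < H → H ≤ 1 → H ≤ h → h ≤ β - α →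
      ({f : CuspForm 𝒮ℒ (k : ℤ) | Eig f ∧
          ¬ TGood k (fun n => (co f n).re) C α β h H}.ncard : ℝ) ≤
        C * √((β - α) / (h * H * Real.log k)) *
          {f : CuspForm 𝒮ℒ (k : ℤ) | Eig f}.ncard := by
  classical
  obtain ⟨c₁, C₁, k₁, hc₁, hC₁, h1⟩ := natural_u
  obtain ⟨C₂, c₂, k₂, hC₂, hc₂, h2⟩ := zeros_count
  refine ⟨min c₁ c₂, max (24 * C₁) (2 * C₂), k₁ + k₂ + 48, lt_min hc₁ hc₂,
    lt_max_of_lt_left (by positivity), fun k hk he => ?_⟩
  have hk48 : 48 ≤ k := by omega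
  have hkpos : 0 < k := by omega
  have hkr : (48 : ℝ) ≤ k := by exact_mod_cast hk48
  obtain ⟨hfin, hcard⟩ := eig_count hkpos
  have hdim := dim_low hk48 he
  have hdim' : (k : ℝ) / 24 ≤ {f : CuspForm 𝒮ℒ (k : ℤ) | Eig f}.ncard := by rw [hcard]; exact hdim
  refine ⟨hfin, hdim', fun α β h H ha hb hH hH1 hHh hba => ?_⟩
  have hsq : 0 ≤ √(k : ℝ) := Real.sqrt_nonneg _
  have hm1 : min c₁ c₂ * √(k : ℝ) ≤ c₁ * √k := mul_le_mul_of_nonneg_right (min_le_left _ _) hsq
  have hm2 : min c₁ c₂ * √(k : ℝ) ≤ c₂ * √k := mul_le_mul_of_nonneg_right (min_le_right _ _) hsq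
  have hlog : 0 < Real.log k := Real.log_pos (by linarith)
  have hh : 0 < h := hH.trans_le hHh
  have hba0 : 0 < β - α := lt_of_lt_of_le hh hba
  set C : ℝ := max (24 * C₁) (2 * C₂) with hCdef
  have hC : 0 < C := lt_max_of_lt_left (by positivity)
  let ι : Type := {f : CuspForm 𝒮ℒ (k : ℤ) // Eig f}
  have : Fintype ι := hfin.fintype
  let F : Fam k ι :=
    { a := fun i n => (co i.1 n).re
      data := fun i => (eig_data hkpos i.2).1
      orth := fun i j hij => by
        have h1 : pet j.1 i.1 = 0 := eig_orth hkpos j.2 i.2 fun e => hij (Subtype.ext e.symm)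
        rw [← h1, pet]
        refine integral_congr_ae (Eventually.of_forall fun z => ?_)
        simp only
        rw [top_qs hkpos i.2, top_qs hkpos j.2]
        ring }
  -- a bad form has few zeros somewhere
  have hbadU : ∀ i : ι, ¬ TGood k (F.a i) C α β h H → BadU k (F.a i) α β h ⌊h / H⌋₊ := by
    rintro i hno ⟨Λ, hΛ, hx⟩
    refine hno ⟨Λ, hΛ, fun x hxa hxb => ?_⟩
    have hm := hx x hxa hxb
    set S : Set ℝ := {t : ℝ | x < t ∧ t < x + h ∧
        Odd (analyticOrderNatAt Λ (1 / 2 + t * I))} with hS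
    have hodd : oddCrit Λ x (x + h) = (S.encard : ℝ≥0∞) := rfl
    have hcount : ((⌊h / H⌋₊ : ℕ) : ℝ≥0∞) + 1 ≤ (S.encard : ℝ≥0∞) := by
      have e1 : ((⌊h / H⌋₊ : ℕ) : ℕ∞) + 1 ≤ S.encard := Order.add_one_le_of_lt hm
      have e2 := ENat.toENNReal_le.mpr e1
      simpa using e2
    have hgt : ENNReal.ofReal (h / H) < (S.encard : ℝ≥0∞) := by
      refine lt_of_lt_of_le ?_ hcount
      have e3 : h / H < (⌊h / H⌋₊ : ℝ) + 1 := Nat.lt_floor_add_one _
      have e4 : ENNReal.ofReal (h / H) < ENNReal.ofReal ((⌊h / H⌋₊ : ℝ) + 1) :=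
        (ENNReal.ofReal_lt_ofReal_iff (by positivity)).mpr e3
      refine e4.trans_le (le_of_eq ?_)
      rw [ENNReal.ofReal_add (by positivity) (by norm_num), ENNReal.ofReal_natCast,
        ENNReal.ofReal_one]
    refine ⟨by rw [hodd]; exact hgt, ?_⟩
    have hall : allZer Λ x (x + h) ≤ ENNReal.ofReal (C₂ * (1 + h) * Real.log k) :=
      h2 k (by omega) he (F.data i) Λ hΛ x h hh (by linarith) (by linarith)
    calc ENNReal.ofReal (min h 1 / (C * H * Real.log k)) * allZer Λ x (x + h)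
        ≤ ENNReal.ofReal (min h 1 / (C * H * Real.log k)) *
            ENNReal.ofReal (C₂ * (1 + h) * Real.log k) := by gcongr
      _ = ENNReal.ofReal ((min h 1 * (1 + h) / H) * (C₂ / C)) := by
          rw [← ENNReal.ofReal_mul (by positivity)]
          congr 1
          field_simp
      _ ≤ ENNReal.ofReal (h / H) := by
          apply ENNReal.ofReal_le_ofReal
          have e5 : min h 1 * (1 + h) ≤ 2 * h := by
            rcases le_total h 1 with h' | h'
            · rw [min_eq_left h']; nlinarith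
            · rw [min_eq_right h']; linarith
          have e6 : C₂ / C ≤ 1 / 2 := by
            rw [div_le_div_iff₀ hC (by norm_num)]
            have : 2 * C₂ ≤ C := le_max_right _ _
            linarith
          calc min h 1 * (1 + h) / H * (C₂ / C) ≤ 2 * h / H * (1 / 2) := by
                gcongr
            _ = h / H := by field_simp
      _ ≤ oddCrit Λ x (x + h) := by rw [hodd]; exact hgt.le
  set S : Finset ι := Finset.univ.filter fun i => ¬ TGood k (F.a i) C α β h H with hS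
  have h3 := h1 k (by omega) he F S α β h H (by linarith) (by linarith) hH hH1 hHh hba
    fun i hi => hbadU i (Finset.mem_filter.1 hi).2
  have h4 : {f : CuspForm 𝒮ℒ (k : ℤ) | Eig f ∧
      ¬ TGood k (fun n => (co f n).re) C α β h H}.ncard ≤ S.card := by
    have h5 : {f : CuspForm 𝒮ℒ (k : ℤ) | Eig f ∧
        ¬ TGood k (fun n => (co f n).re) C α β h H} =
        (fun i : ι => (i.1 : CuspForm 𝒮ℒ (k : ℤ))) '' (S : Set ι) := by
      ext f
      constructor
      · rintro ⟨hf, hb⟩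
        exact ⟨⟨f, hf⟩, by simpa [hS] using hb, rfl⟩
      · rintro ⟨i, hi, rfl⟩
        exact ⟨i.2, by simpa [hS] using hi⟩
    rw [h5]
    refine (Set.ncard_image_le (Finset.finite_toSet S)).trans ?_
    rw [Set.ncard_coe_finset]
  set Q : ℝ := √((β - α) / (h * H * Real.log k)) with hQ
  have hQ0 : 0 ≤ Q := Real.sqrt_nonneg _
  calc ({f : CuspForm 𝒮ℒ (k : ℤ) | Eig f ∧
          ¬ TGood k (fun n => (co f n).re) C α β h H}.ncard : ℝ) ≤ S.card := by
        exact_mod_cast h4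
    _ ≤ C₁ * Q * k := h3
    _ = 24 * C₁ * Q * (k / 24) := by ring
    _ ≤ C * Q * {f : CuspForm 𝒮ℒ (k : ℤ) | Eig f}.ncard := by
        gcongr
        exact le_max_left _ _

end Pool.Agent.WS
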